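import Pool.Agent.Helper745.FS.Defs

set_option autoImplicit false

namespace Pool.Agent.Helper745.FSub

theorem sep_seg (x y z p : Pt) (h0 : ori x y p = 0) (h1 : 0 ≤ ori y z p) (h2 : 0 ≤ ori z x p)
    (h3 : 0 < ori x y z) : p ∈ segment ℝ x y := by
  have hsum : ori x y p + ori y z p + ori z x p = ori x y z := by unfold ori; ring
  refine ⟨ori y z p / ori x y z, ori z x p / ori x y z, div_nonneg h1 h3.le, div_nonneg h2 h3.le, ?_, ?_⟩
  · rw [← add_div, div_eq_one_iff_eq h3.ne']; linarith
  · apply Prod.ext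
    · simp only [Prod.fst_add, Prod.smul_fst, smul_eq_mul]
      rw [div_mul_eq_mul_div, div_mul_eq_mul_div, ← add_div, div_eq_iff h3.ne']
      unfold ori at h0 ⊢
      linear_combination (-z.1) * h0
    · simp only [Prod.snd_add, Prod.smul_snd, smul_eq_mul]
      rw [div_mul_eq_mul_div, div_mul_eq_mul_div, ← add_div, div_eq_iff h3.ne']
      unfold ori at h0 ⊢
      linear_combination (-z.2) * h0

theorem sep_core (a b c u w : Pt) (h1 : 0 < ori a b u) (h2 : 0 < ori b c u) (h3 : 0 < ori c a u)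
    (d1 : Disjoint (segment ℝ u w) (segment ℝ a b)) (d2 : Disjoint (segment ℝ u w) (segment ℝ b c))
    (d3 : Disjoint (segment ℝ u w) (segment ℝ c a)) :
    0 < ori a b w ∧ 0 < ori b c w ∧ 0 < ori c a w := by
  by_contra hcon
  have hsum : ∀ p, ori a b p + ori b c p + ori c a p = ori a b c := by intro p; unfold ori; ring
  have hΔ : 0 < ori a b c := by rw [← hsum u]; positivity
  have hΔ2 : ori b c a = ori a b c := by unfold ori; ring
  have hΔ3 : ori c a b = ori a b c := by unfold ori; ring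
  set L : ℝ → Pt := fun t => (1 - t) • u + t • w with hL
  set m : ℝ → ℝ := fun t => min (ori a b (L t)) (min (ori b c (L t)) (ori c a (L t))) with hm
  have hmc : Continuous m := by
    simp only [hm, hL, ori]
    fun_prop
  have hL0 : L 0 = u := by simp [hL]
  have hL1 : L 1 = w := by simp [hL]
  have hm0 : 0 < m 0 := by
    simp only [hm, hL0]
    exact lt_min h1 (lt_min h2 h3)
  have hm1 : m 1 ≤ 0 := by
    by_contra hpos
    push Not at hpos
    simp only [hm, hL1] at hpos
    apply hcon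
    exact ⟨lt_of_lt_of_le hpos (min_le_left _ _),
      lt_of_lt_of_le hpos ((min_le_right _ _).trans (min_le_left _ _)),
      lt_of_lt_of_le hpos ((min_le_right _ _).trans (min_le_right _ _))⟩
  obtain ⟨t, ⟨ht0, ht1⟩, hmt⟩ := intermediate_value_Icc' (show (0:ℝ) ≤ 1 by norm_num) hmc.continuousOn
    ⟨hm1, hm0.le⟩
  have hp : L t ∈ segment ℝ u w := ⟨1 - t, t, by linarith, ht0, by ring, rfl⟩
  have g1 : 0 ≤ ori a b (L t) := by rw [← hmt]; exact min_le_left _ _
  have g2 : 0 ≤ ori b c (L t) := by rw [← hmt]; exact (min_le_right _ _).trans (min_le_left _ _)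
  have g3 : 0 ≤ ori c a (L t) := by rw [← hmt]; exact (min_le_right _ _).trans (min_le_right _ _)
  have hz : ori a b (L t) = 0 ∨ ori b c (L t) = 0 ∨ ori c a (L t) = 0 := by
    simp only [hm] at hmt
    rcases min_choice (ori a b (L t)) (min (ori b c (L t)) (ori c a (L t))) with h | h
    · left; rw [← h]; exact hmt
    · right
      rw [h] at hmt
      rcases min_choice (ori b c (L t)) (ori c a (L t)) with h' | h'
      · left; rw [← h']; exact hmt
      · right; rw [← h']; exact hmt
  rcases hz with hz | hz | hz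
  · exact Set.disjoint_left.1 d1 hp (sep_seg a b c _ hz g2 g3 hΔ)
  · exact Set.disjoint_left.1 d2 hp (sep_seg b c a _ hz g3 g1 (by rw [hΔ2]; exact hΔ))
  · exact Set.disjoint_left.1 d3 hp (sep_seg c a b _ hz g1 g2 (by rw [hΔ3]; exact hΔ))

theorem sep {V : Type} {A : V → V → Prop} {f : V → Pt} (hD : Drw A f) {a b c u w : V}
    (hab : A a b) (hbc : A b c) (hca : A c a) (huw : A u w)
    (hu : inT (f a) (f b) (f c) (f u)) (hwa : w ≠ a) (hwb : w ≠ b) (hwc : w ≠ c) :
    inT (f a) (f b) (f c) (f w) := by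
  
  have hua : u ≠ a := by
    rintro rfl
    have : ori (f u) (f b) (f u) = 0 := by unfold ori; ring
    rcases hu with ⟨h, -, -⟩ | ⟨h, -, -⟩ <;> linarith
  have hub : u ≠ b := by
    rintro rfl
    have : ori (f a) (f u) (f u) = 0 := by unfold ori; ring
    rcases hu with ⟨h, -, -⟩ | ⟨h, -, -⟩ <;> linarith
  have huc : u ≠ c := by
    rintro rfl
    have : ori (f b) (f u) (f u) = 0 := by unfold ori; ring
    rcases hu with ⟨-, h, -⟩ | ⟨-, h, -⟩ <;> linarith
  have d1 := hD.d2 u w a b huw hab hua hub hwa hwb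
  have d2 := hD.d2 u w b c huw hbc hub huc hwb hwc
  have d3 := hD.d2 u w c a huw hca huc hua hwc hwa
  have hsw : ∀ x y p : Pt, ori x y p = -ori y x p := by intro x y p; unfold ori; ring
  rcases hu with ⟨h1, h2, h3⟩ | ⟨h1, h2, h3⟩
  · left
    exact sep_core _ _ _ _ _ h1 h2 h3 d1 d2 d3
  · right
    have h := sep_core (f a) (f c) (f b) (f u) (f w) (by rw [hsw]; linarith) (by rw [hsw]; linarith)
      (by rw [hsw]; linarith) (by rw [segment_symm ℝ (f a)]; exact d3) (by rw [segment_symm ℝ (f c)]; exact d2)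
      (by rw [segment_symm ℝ (f b)]; exact d1)
    obtain ⟨e1, e2, e3⟩ := h
    rw [hsw] at e1 e2 e3
    exact ⟨by linarith, by linarith, by linarith⟩

theorem k4_col (p q r : Pt) (h : ori p q r = 0) :
    r ∈ segment ℝ p q ∨ q ∈ segment ℝ p r ∨ p ∈ segment ℝ q r := by
  by_cases hpq : p = q
  · right; right
    rw [hpq]
    exact left_mem_segment ℝ q r
  -- r = p + t (q - p)
  have hex : ∃ t : ℝ, r = p + t • (q - p) := by
    by_cases h1 : q.1 - p.1 = 0
    · have h2 : q.2 - p.2 ≠ 0 := by
        intro h2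
        apply hpq
        ext
        · linarith
        · linarith
      refine ⟨(r.2 - p.2) / (q.2 - p.2), ?_⟩
      unfold ori at h
      rw [h1, zero_mul, zero_sub, neg_eq_zero] at h
      have h3 : r.1 - p.1 = 0 := by
        rcases mul_eq_zero.mp h with h | h
        · exact absurd h h2
        · exact h
      ext
      · simp only [Prod.fst_add, Prod.smul_fst, Prod.fst_sub, smul_eq_mul]
        rw [h1]; linarith
      · simp only [Prod.snd_add, Prod.smul_snd, Prod.snd_sub, smul_eq_mul]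
        field_simp
        ring
    · refine ⟨(r.1 - p.1) / (q.1 - p.1), ?_⟩
      unfold ori at h
      ext
      · simp only [Prod.fst_add, Prod.smul_fst, Prod.fst_sub, smul_eq_mul]
        field_simp
        ring
      · simp only [Prod.snd_add, Prod.smul_snd, Prod.snd_sub, smul_eq_mul]
        field_simp
        linarith
  obtain ⟨t, ht⟩ := hex
  rcases lt_or_ge t 0 with h0 | h0
  · right; right
    refine ⟨(-t) / (1 - t), 1 / (1 - t), by apply div_nonneg <;> linarith,
      by apply div_nonneg <;> linarith, by rw [← add_div, div_eq_one_iff_eq] <;> linarith, ?_⟩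
    have h1t : (1 - t) ≠ 0 := by linarith
    rw [ht]
    ext
    · simp only [Prod.fst_add, Prod.smul_fst, Prod.fst_sub, smul_eq_mul]
      field_simp
      ring
    · simp only [Prod.snd_add, Prod.smul_snd, Prod.snd_sub, smul_eq_mul]
      field_simp
      ring
  · rcases le_or_gt t 1 with h1 | h1
    · left
      refine ⟨1 - t, t, by linarith, h0, by ring, ?_⟩
      rw [ht]
      ext
      · simp only [Prod.fst_add, Prod.smul_fst, Prod.fst_sub, smul_eq_mul]
        ring
      · simp only [Prod.snd_add, Prod.smul_snd, Prod.snd_sub, smul_eq_mul]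
        ring
    · right; left
      have ht0 : t ≠ 0 := by linarith
      refine ⟨(t - 1) / t, 1 / t, by apply div_nonneg <;> linarith,
        by apply div_nonneg <;> linarith, by rw [← add_div, div_eq_one_iff_eq] <;> linarith, ?_⟩
      rw [ht]
      ext
      · simp only [Prod.fst_add, Prod.smul_fst, Prod.fst_sub, smul_eq_mul]
        field_simp
        ring
      · simp only [Prod.snd_add, Prod.smul_snd, Prod.snd_sub, smul_eq_mul]
        field_simp
        ring

theorem k4_frac {x y : ℝ} (h : x * y < 0) :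
    0 ≤ x / (x - y) ∧ 0 ≤ 1 - x / (x - y) ∧ x - y ≠ 0 := by
  rcases mul_neg_iff.mp h with ⟨h1, h2⟩ | ⟨h1, h2⟩
  · have h3 : 0 < x - y := by linarith
    refine ⟨div_nonneg h1.le h3.le, ?_, h3.ne'⟩
    rw [sub_nonneg, div_le_one h3]
    linarith
  · have h3 : x - y < 0 := by linarith
    refine ⟨div_nonneg_of_nonpos h1.le h3.le, ?_, h3.ne⟩
    rw [sub_nonneg, div_le_one_of_neg h3]
    linarith

theorem k4_cross (a b c d : Pt) (h1 : ori a b c * ori a b d < 0)
    (h2 : ori c d a * ori c d b < 0) : ¬ Disjoint (segment ℝ a b) (segment ℝ c d) := by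
  intro hdis
  obtain ⟨s0, s1, sne⟩ := k4_frac h1
  obtain ⟨t0, t1, tne⟩ := k4_frac h2
  set s := ori a b c / (ori a b c - ori a b d) with hs
  set t := ori c d a / (ori c d a - ori c d b) with ht
  rw [Set.disjoint_left] at hdis
  apply hdis (a := (1 - t) • a + t • b)
  · exact ⟨1 - t, t, t1, t0, by ring, rfl⟩
  · refine ⟨1 - s, s, s1, s0, by ring, ?_⟩
    have hD : ori c d a - ori c d b = -(ori a b c - ori a b d) := by
      unfold ori; ring
    rw [hs, ht, hD]
    ext
    · simp only [Prod.fst_add, Prod.smul_fst, smul_eq_mul]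
      field_simp
      unfold ori
      ring
    · simp only [Prod.snd_add, Prod.smul_snd, smul_eq_mul]
      field_simp
      unfold ori
      ring

theorem k4_ne {V : Type} {A : V → V → Prop} {f : V → Pt} (hD : Drw A f) {x y z : V}
    (hxy : A x y) (hxz : A x z) (hyz : A y z) (nxy : x ≠ y) (nxz : x ≠ z) (nyz : y ≠ z) :
    ori (f x) (f y) (f z) ≠ 0 := by
  intro h
  rcases k4_col _ _ _ h with h | h | h
  · exact hD.d1 x y z hxy nxz.symm nyz.symm h
  · exact hD.d1 x z y hxz nxy.symm nyz h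
  · exact hD.d1 y z x hyz nxy nxz h

theorem k4 {V : Type} {A : V → V → Prop} {f : V → Pt} (hD : Drw A f) (hs : Sy A)
    {a b c d : V} (h4 : K4 A a b c d) :
    inT (f a) (f b) (f c) (f d) ∨ inT (f b) (f c) (f d) (f a) ∨ inT (f a) (f c) (f d) (f b) ∨
      inT (f a) (f b) (f d) (f c) := by
  have n1 := k4_ne hD h4.ab h4.ac h4.bc h4.nab h4.nac h4.nbc
  have n2 := k4_ne hD h4.ab h4.ad h4.bd h4.nab h4.nad h4.nbd
  have n3 := k4_ne hD h4.ac h4.ad h4.cd h4.nac h4.nad h4.ncd
  have n4 := k4_ne hD h4.bc h4.bd h4.cd h4.nbc h4.nbd h4.ncd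
  have D1 := hD.d2 a b c d h4.ab h4.cd h4.nac h4.nad h4.nbc h4.nbd
  have D2 := hD.d2 a c b d h4.ac h4.bd h4.nab h4.nad h4.nbc.symm h4.ncd
  have D3 := hD.d2 a d b c h4.ad h4.bc h4.nab h4.nac h4.nbd.symm h4.ncd.symm
  set p := f a
  set q := f b
  set r := f c
  set w := f d
  have hid : ori p q r - ori p q w + ori p r w - ori q r w = 0 := by unfold ori; ring
  have X1 : ¬ (ori p q r * ori p q w < 0 ∧ ori p r w * ori q r w < 0) := by
    rintro ⟨h1, h2⟩
    refine k4_cross p q r w h1 ?_ D1
    have e1 : ori r w p = ori p r w := by unfold ori; ring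
    have e2 : ori r w q = ori q r w := by unfold ori; ring
    rw [e1, e2]; exact h2
  have X2 : ¬ (0 < ori p q r * ori p r w ∧ 0 < ori p q w * ori q r w) := by
    rintro ⟨h1, h2⟩
    refine k4_cross p r q w ?_ ?_ D2
    · have e1 : ori p r q = - ori p q r := by unfold ori; ring
      rw [e1]; linarith
    · have e1 : ori q w p = ori p q w := by unfold ori; ring
      have e2 : ori q w r = - ori q r w := by unfold ori; ring
      rw [e1, e2]; linarith
  have X3 : ¬ (ori p q w * ori p r w < 0 ∧ ori p q r * ori q r w < 0) := by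
    rintro ⟨h1, h2⟩
    refine k4_cross p w q r ?_ ?_ D3
    · have e1 : ori p w q = - ori p q w := by unfold ori; ring
      have e2 : ori p w r = - ori p r w := by unfold ori; ring
      rw [e1, e2]; linarith
    · have e1 : ori q r p = ori p q r := by unfold ori; ring
      rw [e1]; exact h2
  have E1 : ori r p w = - ori p r w := by unfold ori; ring
  have E2 : ori q r p = ori p q r := by unfold ori; ring
  have E3 : ori r w p = ori p r w := by unfold ori; ring
  have E4 : ori w q p = - ori p q w := by unfold ori; ring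
  have E5 : ori p r q = - ori p q r := by unfold ori; ring
  have E6 : ori r w q = ori q r w := by unfold ori; ring
  have E7 : ori w p q = ori p q w := by unfold ori; ring
  have E8 : ori q w r = - ori q r w := by unfold ori; ring
  have E9 : ori w p r = ori p r w := by unfold ori; ring
  unfold inT
  rw [E1, E2, E3, E4, E5, E6, E7, E8, E9]
  generalize ori p q r = s1 at *
  generalize ori p q w = s2 at *
  generalize ori p r w = s3 at *
  generalize ori q r w = s4 at *
  rcases lt_or_gt_of_ne n1 with m1 | m1 <;> rcases lt_or_gt_of_ne n2 with m2 | m2 <;>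
    rcases lt_or_gt_of_ne n3 with m3 | m3 <;> rcases lt_or_gt_of_ne n4 with m4 | m4
  all_goals first
    | (exfalso; exact X1 ⟨mul_neg_of_neg_of_pos m1 m2, mul_neg_of_neg_of_pos m3 m4⟩)
    | (exfalso; exact X1 ⟨mul_neg_of_neg_of_pos m1 m2, mul_neg_of_pos_of_neg m3 m4⟩)
    | (exfalso; exact X1 ⟨mul_neg_of_pos_of_neg m1 m2, mul_neg_of_neg_of_pos m3 m4⟩)
    | (exfalso; exact X1 ⟨mul_neg_of_pos_of_neg m1 m2, mul_neg_of_pos_of_neg m3 m4⟩)
    | (exfalso; exact X2 ⟨mul_pos m1 m3, mul_pos m2 m4⟩)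
    | (exfalso; exact X2 ⟨mul_pos_of_neg_of_neg m1 m3, mul_pos m2 m4⟩)
    | (exfalso; exact X2 ⟨mul_pos m1 m3, mul_pos_of_neg_of_neg m2 m4⟩)
    | (exfalso; exact X2 ⟨mul_pos_of_neg_of_neg m1 m3, mul_pos_of_neg_of_neg m2 m4⟩)
    | (exfalso; exact X3 ⟨mul_neg_of_neg_of_pos m2 m3, mul_neg_of_neg_of_pos m1 m4⟩)
    | (exfalso; exact X3 ⟨mul_neg_of_neg_of_pos m2 m3, mul_neg_of_pos_of_neg m1 m4⟩)
    | (exfalso; exact X3 ⟨mul_neg_of_pos_of_neg m2 m3, mul_neg_of_neg_of_pos m1 m4⟩)
    | (exfalso; exact X3 ⟨mul_neg_of_pos_of_neg m2 m3, mul_neg_of_pos_of_neg m1 m4⟩)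
    | (exfalso; linarith)
    | (left; left; exact ⟨by linarith, by linarith, by linarith⟩)
    | (left; right; exact ⟨by linarith, by linarith, by linarith⟩)
    | (right; left; left; exact ⟨by linarith, by linarith, by linarith⟩)
    | (right; left; right; exact ⟨by linarith, by linarith, by linarith⟩)
    | (right; right; left; left; exact ⟨by linarith, by linarith, by linarith⟩)
    | (right; right; left; right; exact ⟨by linarith, by linarith, by linarith⟩)
    | (right; right; right; left; exact ⟨by linarith, by linarith, by linarith⟩)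
    | (right; right; right; right; exact ⟨by linarith, by linarith, by linarith⟩)

theorem tri_split_anti (a b x : Pt) : ori b a x = -ori a b x := by
  unfold ori; ring

theorem tri_split_sum (a b c x : Pt) : ori a b x + ori b c x + ori c a x = ori a b c := by
  unfold ori; ring

theorem tri_split_rel (a b c d x : Pt) :
    ori b c d * ori d a x + ori c a d * ori d b x + ori a b d * ori d c x = 0 := by
  unfold ori; ring

theorem tri_split_seg {a b d x : Pt} (h1 : 0 < ori a b d) (k1 : 0 < ori a b x)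
    (hp : ori d a x = 0) (hxa : x ∉ segment ℝ d a) : 0 < ori d b x := by
  by_contra hq
  push Not at hq
  apply hxa
  obtain ⟨t, ht⟩ : ∃ t, t = -ori d b x / ori a b d := ⟨_, rfl⟩
  have ht0 : 0 ≤ t := by
    rw [ht]; exact div_nonneg (by linarith) h1.le
  have htC : t * ori a b d = -ori d b x := by
    rw [ht]; field_simp
  have e1 : (x.1 - d.1) * ori a b d = (-ori d b x) * (a.1 - d.1) := by
    have : (x.1 - d.1) * ori a b d - (-ori d b x) * (a.1 - d.1) =
        (b.1 - d.1) * ori d a x := by unfold ori; ring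
    rw [hp] at this
    linarith
  have e2 : (x.2 - d.2) * ori a b d = (-ori d b x) * (a.2 - d.2) := by
    have : (x.2 - d.2) * ori a b d - (-ori d b x) * (a.2 - d.2) =
        (b.2 - d.2) * ori d a x := by unfold ori; ring
    rw [hp] at this
    linarith
  have f1 : x.1 - d.1 = t * (a.1 - d.1) := by
    apply mul_right_cancel₀ h1.ne'
    rw [e1, ← htC]; ring
  have f2 : x.2 - d.2 = t * (a.2 - d.2) := by
    apply mul_right_cancel₀ h1.ne'
    rw [e2, ← htC]; ring
  have ht1 : t ≤ 1 := by
    have h5 : ori a b x = (1 - t) * ori a b d := by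
      have g1 : x.1 = d.1 + t * (a.1 - d.1) := by linarith
      have g2 : x.2 = d.2 + t * (a.2 - d.2) := by linarith
      unfold ori
      rw [g1, g2]; ring
    rw [h5] at k1
    by_contra hcon
    push Not at hcon
    have : (1 - t) * ori a b d ≤ 0 := mul_nonpos_of_nonpos_of_nonneg (by linarith) h1.le
    linarith
  refine ⟨1 - t, t, by linarith, ht0, by ring, ?_⟩
  apply Prod.ext
  · simp only [Prod.fst_add, Prod.smul_fst, smul_eq_mul]
    linarith
  · simp only [Prod.snd_add, Prod.smul_snd, smul_eq_mul]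
    linarith

theorem tri_split_pos {a b c d x : Pt} (h1 : 0 < ori a b d) (h2 : 0 < ori b c d)
    (h3 : 0 < ori c a d) (k1 : 0 < ori a b x) (k2 : 0 < ori b c x) (k3 : 0 < ori c a x)
    (hxa : x ∉ segment ℝ d a) (hxb : x ∉ segment ℝ d b) (hxc : x ∉ segment ℝ d c) :
    (0 < ori a b x ∧ 0 < ori b d x ∧ 0 < ori d a x) ∨
    (0 < ori b c x ∧ 0 < ori c d x ∧ 0 < ori d b x) ∨
    (0 < ori c a x ∧ 0 < ori a d x ∧ 0 < ori d c x) := by
  have hrel := tri_split_rel a b c d x
  rw [tri_split_anti d b x, tri_split_anti d c x, tri_split_anti d a x]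
  have hp := fun h => tri_split_seg (a := a) (b := b) (d := d) (x := x) h1 k1 h hxa
  have hq := fun h => tri_split_seg (a := b) (b := c) (d := d) (x := x) h2 k2 h hxb
  have hr := fun h => tri_split_seg (a := c) (b := a) (d := d) (x := x) h3 k3 h hxc
  generalize ori d a x = p at *
  generalize ori d b x = q at *
  generalize ori d c x = r at *
  generalize ori b c d = A at *
  generalize ori c a d = B at *
  generalize ori a b d = C at *
  rcases lt_trichotomy p 0 with hp0 | hp0 | hp0
  · by_cases hr0 : 0 < r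
    · exact Or.inr (Or.inr ⟨k3, by linarith, hr0⟩)
    · rcases lt_or_eq_of_le (not_lt.1 hr0) with hr1 | hr1
      · have hqq : 0 < q := by
          by_contra hcon
          have a1 : A * p < 0 := mul_neg_of_pos_of_neg h2 hp0
          have a2 : B * q ≤ 0 := mul_nonpos_of_nonneg_of_nonpos h3.le (not_lt.1 hcon)
          have a3 : C * r < 0 := mul_neg_of_pos_of_neg h1 hr1
          linarith
        exact Or.inr (Or.inl ⟨k2, by linarith, hqq⟩)
      · have := hr hr1
        linarith
  · have hq1 := hp hp0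
    have hr1 : r < 0 := by
      by_contra hcon
      have a2 : 0 < B * q := mul_pos h3 hq1
      have a3 : 0 ≤ C * r := mul_nonneg h1.le (not_lt.1 hcon)
      rw [hp0] at hrel
      linarith
    exact Or.inr (Or.inl ⟨k2, by linarith, hq1⟩)
  · by_cases hq0 : q < 0
    · exact Or.inl ⟨k1, by linarith, hp0⟩
    · rcases lt_or_eq_of_le (not_lt.1 hq0) with hq1 | hq1
      · have hr1 : r < 0 := by
          by_contra hcon
          have a1 : 0 < A * p := mul_pos h2 hp0
          have a2 : 0 < B * q := mul_pos h3 hq1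
          have a3 : 0 ≤ C * r := mul_nonneg h1.le (not_lt.1 hcon)
          linarith
        exact Or.inr (Or.inl ⟨k2, by linarith, hq1⟩)
      · have hr1 := hq hq1.symm
        have a1 : 0 < A * p := mul_pos h2 hp0
        have a3 : 0 < C * r := mul_pos h1 hr1
        rw [← hq1] at hrel
        linarith

theorem tri_split {a b c d x : Pt} (hd : inT a b c d) (hx : inT a b c x)
    (hxa : x ∉ segment ℝ d a) (hxb : x ∉ segment ℝ d b) (hxc : x ∉ segment ℝ d c) :
    inT a b d x ∨ inT b c d x ∨ inT c a d x := by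
  have s1 := tri_split_sum a b c d
  have s2 := tri_split_sum a b c x
  rcases hd with ⟨h1, h2, h3⟩ | ⟨h1, h2, h3⟩
  · rcases hx with ⟨k1, k2, k3⟩ | ⟨k1, k2, k3⟩
    · rcases tri_split_pos h1 h2 h3 k1 k2 k3 hxa hxb hxc with h | h | h
      · exact Or.inl (Or.inl h)
      · exact Or.inr (Or.inl (Or.inl h))
      · exact Or.inr (Or.inr (Or.inl h))
    · exfalso; linarith
  · rcases hx with ⟨k1, k2, k3⟩ | ⟨k1, k2, k3⟩
    · exfalso; linarith
    · have e1 := tri_split_anti a b d
      have e2 := tri_split_anti b c d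
      have e3 := tri_split_anti c a d
      have f1 := tri_split_anti a b x
      have f2 := tri_split_anti b c x
      have f3 := tri_split_anti c a x
      have g1 := tri_split_anti d a x
      have g2 := tri_split_anti d b x
      have g3 := tri_split_anti d c x
      rcases tri_split_pos (a := b) (b := a) (c := c) (d := d) (x := x) (by linarith) (by linarith)
        (by linarith) (by linarith) (by linarith) (by linarith) hxb hxa hxc with h | h | h
      · obtain ⟨m1, m2, m3⟩ := h
        exact Or.inl (Or.inr ⟨by linarith, by linarith, by linarith⟩)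
      · obtain ⟨m1, m2, m3⟩ := h
        exact Or.inr (Or.inr (Or.inr ⟨by linarith, by linarith, by linarith⟩))
      · obtain ⟨m1, m2, m3⟩ := h
        exact Or.inr (Or.inl (Or.inr ⟨by linarith, by linarith, by linarith⟩))

theorem k4in_aux1 {a b c d : Pt} (h1 : inT a b c d) (h2 : inT b c d a) : False := by
  unfold inT ori at h1 h2
  rcases h1 with ⟨p1, p2, p3⟩ | ⟨p1, p2, p3⟩ <;> rcases h2 with ⟨q1, q2, q3⟩ | ⟨q1, q2, q3⟩ <;>
    linarith

theorem k4in_aux2 {a b c d : Pt} (h1 : inT a b c d) (h2 : inT c a d b) : False := by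
  unfold inT ori at h1 h2
  rcases h1 with ⟨p1, p2, p3⟩ | ⟨p1, p2, p3⟩ <;> rcases h2 with ⟨q1, q2, q3⟩ | ⟨q1, q2, q3⟩ <;>
    linarith

theorem k4in_aux3 {V : Type} {A : V → V → Prop} {f : V → Pt} (hD : Drw A f) {a b c : V}
    (hab : A a b) (hbc : A b c) (hca : A c a) {C : Set V} (hC : Cn A C)
    (haC : a ∉ C) (hbC : b ∉ C) (hcC : c ∉ C) {x0 : V} (hx0 : x0 ∈ C)
    (h0 : inT (f a) (f b) (f c) (f x0)) : ∀ x ∈ C, inT (f a) (f b) (f c) (f x) := by
  have h := hC {x | x ∈ C ∧ inT (f a) (f b) (f c) (f x)} (fun x hx => hx.1) ⟨x0, hx0, h0⟩ ?_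
  · intro x hx
    rw [← h] at hx
    exact hx.2
  · rintro x ⟨hx, hx'⟩ y hy hxy
    refine ⟨hy, sep hD hab hbc hca hxy hx' ?_ ?_ ?_⟩
    · rintro rfl; exact haC hy
    · rintro rfl; exact hbC hy
    · rintro rfl; exact hcC hy

theorem k4in {V : Type} {A : V → V → Prop} {f : V → Pt} (hD : Drw A f) (hs : Sy A)
    {a b c d : V} (h4 : K4 A a b c d) (hd : inT (f a) (f b) (f c) (f d)) {C : Set V}
    (hC : Cn A C) (ha : At A C a) (hb : At A C b) (hd' : At A C d)
    (haC : a ∉ C) (hbC : b ∉ C) (hcC : c ∉ C) (hdC : d ∉ C) :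
    ∀ x ∈ C, inT (f a) (f b) (f d) (f x) := by
  have hne : ∀ x ∈ C, x ≠ a ∧ x ≠ b ∧ x ≠ c ∧ x ≠ d := by
    intro x hx
    refine ⟨?_, ?_, ?_, ?_⟩
    · rintro rfl; exact haC hx
    · rintro rfl; exact hbC hx
    · rintro rfl; exact hcC hx
    · rintro rfl; exact hdC hx
  have hca : A c a := hs _ _ h4.ac
  obtain ⟨x0, hx0, hx0d⟩ := hd'
  have h0 : inT (f a) (f b) (f c) (f x0) :=
    sep hD h4.ab h4.bc hca (hs _ _ hx0d) hd (hne x0 hx0).1 (hne x0 hx0).2.1 (hne x0 hx0).2.2.1
  have hall := k4in_aux3 hD h4.ab h4.bc hca hC haC hbC hcC hx0 h0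
  intro x hx
  obtain ⟨n1, n2, n3, n4⟩ := hne x hx
  rcases tri_split hd (hall x hx) (hD.d1 d a x (hs _ _ h4.ad) n4 n1)
    (hD.d1 d b x (hs _ _ h4.bd) n4 n2) (hD.d1 d c x (hs _ _ h4.cd) n4 n3) with h | h | h
  · exact h
  · exfalso
    have h5 := k4in_aux3 hD h4.bc h4.cd (hs _ _ h4.bd) hC hbC hcC hdC hx h
    obtain ⟨y, hy, hya⟩ := ha
    exact k4in_aux1 hd (sep hD h4.bc h4.cd (hs _ _ h4.bd) hya (h5 y hy) h4.nab h4.nac h4.nad)
  · exfalso
    have h5 := k4in_aux3 hD hca h4.ad (hs _ _ h4.cd) hC hcC haC hdC hx h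
    obtain ⟨y, hy, hyb⟩ := hb
    exact k4in_aux2 hd (sep hD hca h4.ad (hs _ _ h4.cd) hyb (h5 y hy) h4.nbc (Ne.symm h4.nab)
      h4.nbd)

theorem lemX_ori (a b p : Pt) : ori b a p = - ori a b p := by
  unfold ori
  ring

theorem lemX_cyc {a b c p : Pt} (h : inT b c a p) : inT a b c p := by
  rcases h with ⟨h1, h2, h3⟩ | ⟨h1, h2, h3⟩
  · exact Or.inl ⟨h3, h1, h2⟩
  · exact Or.inr ⟨h3, h1, h2⟩

theorem lemX_swap {a b c p : Pt} (h : inT a c b p) : inT a b c p := by
  have e1 := lemX_ori a c p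
  have e2 := lemX_ori c b p
  have e3 := lemX_ori b a p
  rcases h with ⟨h1, h2, h3⟩ | ⟨h1, h2, h3⟩
  · exact Or.inr ⟨by linarith, by linarith, by linarith⟩
  · exact Or.inl ⟨by linarith, by linarith, by linarith⟩

theorem lemX {V : Type} {A : V → V → Prop} {f : V → Pt} (hD : Drw A f) (hs : Sy A)
    {a b c d : V} (h4 : K4 A a b c d) {C : Set V}
    (hC : Cn A C) (ha : At A C a) (hb : At A C b) (hc : At A C c)
    (haC : a ∉ C) (hbC : b ∉ C) (hcC : c ∉ C) (hdC : d ∉ C)
    (hout : ∃ x ∈ C, ¬ inT (f a) (f b) (f c) (f x)) : inT (f a) (f b) (f c) (f d) := by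
  obtain ⟨x, hx, hxo⟩ := hout
  rcases k4 hD hs h4 with h | h | h | h
  · exact h
  · exfalso
    have h5 : K4 A b c d a := ⟨h4.bc, h4.bd, hs _ _ h4.ab, h4.cd, hs _ _ h4.ac, hs _ _ h4.ad,
      h4.nbc, h4.nbd, h4.nab.symm, h4.ncd, h4.nac.symm, h4.nad.symm⟩
    exact hxo (lemX_cyc (k4in hD hs h5 h hC hb hc ha hbC hcC hdC haC x hx))
  · exfalso
    have h5 : K4 A a c d b := ⟨h4.ac, h4.ad, h4.ab, h4.cd, hs _ _ h4.bc, hs _ _ h4.bd,
      h4.nac, h4.nad, h4.nab, h4.ncd, h4.nbc.symm, h4.nbd.symm⟩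
    exact hxo (lemX_swap (k4in hD hs h5 h hC ha hc hb haC hcC hdC hbC x hx))
  · exfalso
    have h5 : K4 A a b d c := ⟨h4.ab, h4.ad, h4.ac, h4.bd, h4.bc, hs _ _ h4.cd,
      h4.nab, h4.nad, h4.nac, h4.nbd, h4.nbc, h4.ncd.symm⟩
    exact hxo (k4in hD hs h5 h hC ha hb hc haC hbC hdC hcC x hx)

theorem opp_col {P Q R : Pt} (hPQ : P ≠ Q) (h : ori P Q R = 0) :
    R ∈ segment ℝ P Q ∨ Q ∈ segment ℝ P R ∨ P ∈ segment ℝ Q R := by
  obtain ⟨t, ht1, ht2⟩ : ∃ t : ℝ, R.1 = P.1 + t * (Q.1 - P.1) ∧ R.2 = P.2 + t * (Q.2 - P.2) := by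
    unfold ori at h
    by_cases h1 : Q.1 - P.1 = 0
    · have h2 : Q.2 - P.2 ≠ 0 := by
        intro h2
        apply hPQ
        ext
        · linarith
        · linarith
      refine ⟨(R.2 - P.2) / (Q.2 - P.2), ?_, ?_⟩
      · rw [h1, zero_mul, zero_sub, neg_eq_zero] at h
        rcases mul_eq_zero.1 h with h3 | h3
        · exact (h2 h3).elim
        · rw [h1]; linarith
      · field_simp
        ring
    · refine ⟨(R.1 - P.1) / (Q.1 - P.1), ?_, ?_⟩
      · field_simp
        ring
      · field_simp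
        linarith
  rcases lt_or_ge t 0 with h0 | h0
  · right; right
    have h1 : 0 < 1 - t := by linarith
    refine ⟨-t / (1 - t), 1 / (1 - t), div_nonneg (by linarith) h1.le, by positivity, ?_, ?_⟩
    · field_simp
      ring
    · ext
      · simp only [Prod.fst_add, Prod.smul_fst, smul_eq_mul]
        rw [ht1]; field_simp; ring
      · simp only [Prod.snd_add, Prod.smul_snd, smul_eq_mul]
        rw [ht2]; field_simp; ring
  · rcases le_or_gt t 1 with h1 | h1
    · left
      refine ⟨1 - t, t, by linarith, h0, by ring, ?_⟩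
      ext
      · simp only [Prod.fst_add, Prod.smul_fst, smul_eq_mul]
        rw [ht1]; ring
      · simp only [Prod.snd_add, Prod.smul_snd, smul_eq_mul]
        rw [ht2]; ring
    · right; left
      have h2 : 0 < t := by linarith
      refine ⟨(t - 1) / t, 1 / t, div_nonneg (by linarith) h2.le, by positivity, ?_, ?_⟩
      · field_simp
        ring
      · ext
        · simp only [Prod.fst_add, Prod.smul_fst, smul_eq_mul]
          rw [ht1]; field_simp; ring
        · simp only [Prod.snd_add, Prod.smul_snd, smul_eq_mul]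
          rw [ht2]; field_simp; ring

theorem opp_cross {U V W X : Pt} {α β γ : ℝ} (hs : α + β + γ = 1)
    (hX1 : X.1 = α * U.1 + β * V.1 + γ * W.1) (hX2 : X.2 = α * U.2 + β * V.2 + γ * W.2)
    (hα : α ≤ 0) (hβ : 0 ≤ β) (hγ : 0 ≤ γ) :
    ¬ Disjoint (segment ℝ U X) (segment ℝ V W) := by
  rw [Set.not_disjoint_iff]
  have h1 : 0 < 1 - α := by linarith
  have hγ' : γ = 1 - α - β := by linarith
  refine ⟨(-α / (1 - α)) • U + (1 / (1 - α)) • X, ⟨-α / (1 - α), 1 / (1 - α),
    div_nonneg (by linarith) h1.le, by positivity, ?_, rfl⟩,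
    ⟨β / (1 - α), γ / (1 - α), div_nonneg hβ h1.le, div_nonneg hγ h1.le, ?_, ?_⟩⟩
  · field_simp
    ring
  · field_simp
    linarith
  · ext
    · simp only [Prod.fst_add, Prod.smul_fst, smul_eq_mul]
      rw [hX1]; field_simp; ring
    · simp only [Prod.snd_add, Prod.smul_snd, smul_eq_mul]
      rw [hX2]; field_simp; ring

theorem opp_ne {V : Type} {A : V → V → Prop} {f : V → Pt} (hD : Drw A f)
    {u v w : V} (huv : A u v) (huw : A u w) (hvw : A v w)
    (h1 : u ≠ v) (h2 : u ≠ w) (h3 : v ≠ w) : ori (f u) (f v) (f w) ≠ 0 := by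
  intro h
  rcases opp_col (fun h' => h1 (hD.inj h')) h with h' | h' | h'
  · exact hD.d1 u v w huv h2.symm h3.symm h'
  · exact hD.d1 u w v huw h1.symm h3 h'
  · exact hD.d1 v w u hvw h1 h2 h'

theorem opp {V : Type} {A : V → V → Prop} {f : V → Pt} (hD : Drw A f) (hs : Sy A)
    {u v w w' : V} (huv : A u v) (huw : A u w) (hvw : A v w) (huw' : A u w') (hvw' : A v w')
    (h1 : u ≠ v) (h2 : u ≠ w) (h3 : v ≠ w) (h4 : u ≠ w') (h5 : v ≠ w') (h6 : w ≠ w')
    (hw : ¬ inT (f u) (f v) (f w') (f w)) (hw' : ¬ inT (f u) (f v) (f w) (f w')) :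
    ori (f u) (f v) (f w) * ori (f u) (f v) (f w') < 0 := by
  have hD0 := opp_ne hD huv huw hvw h1 h2 h3
  have hE0 := opp_ne hD huv huw' hvw' h1 h4 h5
  have hd1 := hD.d2 u w' v w huw' hvw h1 h2 h5.symm h6.symm
  have hd2 := hD.d2 v w' u w hvw' huw h1.symm h3 h4.symm h6.symm
  generalize f u = U at *
  generalize f v = Vv at *
  generalize f w = W at *
  generalize f w' = X at *
  obtain ⟨D, hDe⟩ : ∃ D, D = ori U Vv W := ⟨_, rfl⟩
  obtain ⟨a, ha⟩ : ∃ a, a = ori Vv W X := ⟨_, rfl⟩
  obtain ⟨b, hb⟩ : ∃ b, b = ori W U X := ⟨_, rfl⟩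
  obtain ⟨c, hc⟩ : ∃ c, c = ori U Vv X := ⟨_, rfl⟩
  have e1 : ori Vv X W = -a := by rw [ha]; unfold ori; ring
  have e2 : ori X U W = -b := by rw [hb]; unfold ori; ring
  have hsum : a + b + c = D := by rw [ha, hb, hc, hDe]; unfold ori; ring
  have hX1 : D * X.1 = a * U.1 + b * Vv.1 + c * W.1 := by
    rw [ha, hb, hc, hDe]; unfold ori; ring
  have hX2 : D * X.2 = a * U.2 + b * Vv.2 + c * W.2 := by
    rw [ha, hb, hc, hDe]; unfold ori; ring
  unfold inT at hw hw'
  rw [e1, e2, ← hDe] at hw
  rw [← ha, ← hb, ← hc] at hw'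
  rw [← hDe] at hD0 ⊢
  rw [← hc] at hE0 ⊢
  by_contra hcon
  have hpos : 0 < D * c := lt_of_le_of_ne (not_lt.1 hcon) (mul_ne_zero hD0 hE0).symm
  have hα : D * (a / D) = a := by field_simp
  have hβ : D * (b / D) = b := by field_simp
  have hγ : D * (c / D) = c := by field_simp
  have hs : a / D + b / D + c / D = 1 := by
    rw [← add_div, ← add_div, hsum, div_self hD0]
  have hX1' : X.1 = a / D * U.1 + b / D * Vv.1 + c / D * W.1 := by
    field_simp
    linarith
  have hX2' : X.2 = a / D * U.2 + b / D * Vv.2 + c / D * W.2 := by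
    field_simp
    linarith
  generalize a / D = α at *
  generalize b / D = β at *
  generalize c / D = γ at *
  have hγ0 : 0 < γ := by
    rw [← hγ] at hpos
    have : 0 < D ^ 2 := by positivity
    by_contra h
    have : D * (D * γ) ≤ 0 := by
      have := mul_nonpos_of_nonneg_of_nonpos this.le (not_lt.1 h)
      nlinarith
    linarith
  have c3 : α ≤ 0 → 0 ≤ β → False := fun h h' => opp_cross hs hX1' hX2' h h' hγ0.le hd1
  have c4 : 0 ≤ α → β ≤ 0 → False := fun h h' =>
    opp_cross (U := Vv) (V := U) (W := W) (X := X) (α := β) (β := α) (γ := γ) (by linarith)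
      (by linarith) (by linarith) h' h hγ0.le hd2
  have c1 : 0 < α → 0 < β → False := by
    intro h h'
    apply hw'
    rw [← hα, ← hβ, ← hγ]
    rcases lt_or_gt_of_ne hD0 with h0 | h0
    · right
      exact ⟨mul_neg_of_neg_of_pos h0 hγ0, mul_neg_of_neg_of_pos h0 h,
        mul_neg_of_neg_of_pos h0 h'⟩
    · left
      exact ⟨mul_pos h0 hγ0, mul_pos h0 h, mul_pos h0 h'⟩
  have c2 : α < 0 → β < 0 → False := by
    intro h h'
    apply hw
    rw [← hα, ← hβ]
    rcases lt_or_gt_of_ne hD0 with h0 | h0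
    · right
      exact ⟨h0, by linarith [mul_pos_of_neg_of_neg h0 h], by linarith [mul_pos_of_neg_of_neg h0 h']⟩
    · left
      exact ⟨h0, by linarith [mul_neg_of_pos_of_neg h0 h], by linarith [mul_neg_of_pos_of_neg h0 h']⟩
  rcases lt_trichotomy α 0 with h | h | h
  · rcases lt_or_ge β 0 with h' | h'
    · exact c2 h h'
    · exact c3 h.le h'
  · rcases lt_or_ge β 0 with h' | h'
    · exact c4 h.ge h'.le
    · exact c3 h.le h'
  · rcases lt_or_ge 0 β with h' | h'
    · exact c1 h h'
    · exact c4 h.le h'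

theorem extreme_sum (a b c x : Pt) : ori a b x + ori b c x + ori c a x = ori b c a := by
  unfold ori; ring

theorem extreme_bary (b c p q r a : Pt) :
    (ori p q a + ori q r a + ori r p a) * ori b c a =
      ori q r a * ori b c p + ori r p a * ori b c q + ori p q a * ori b c r := by
  unfold ori; ring

theorem extreme_self1 (b c : Pt) : ori b c b = 0 := by unfold ori; ring

theorem extreme_self2 (b c : Pt) : ori b c c = 0 := by unfold ori; ring

theorem extreme_self3 (b c : Pt) : ori b b c = 0 := by unfold ori; ring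

theorem extreme_pos {a b c x : Pt} (hx : inT a b c x ∨ x = b ∨ x = c) (hT : 0 < ori b c a) :
    ori b c x < ori b c a := by
  have h := extreme_sum a b c x
  rcases hx with (h1 | h1) | h1 | h1
  · linarith [h1.1, h1.2.1, h1.2.2]
  · linarith [h1.1, h1.2.1, h1.2.2]
  · rw [h1, extreme_self1]; exact hT
  · rw [h1, extreme_self2]; exact hT

theorem extreme_neg {a b c x : Pt} (hx : inT a b c x ∨ x = b ∨ x = c) (hT : ori b c a < 0) :
    ori b c a < ori b c x := by
  have h := extreme_sum a b c x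
  rcases hx with (h1 | h1) | h1 | h1
  · linarith [h1.1, h1.2.1, h1.2.2]
  · linarith [h1.1, h1.2.1, h1.2.2]
  · rw [h1, extreme_self1]; exact hT
  · rw [h1, extreme_self2]; exact hT

theorem extreme_zero {a b c x : Pt} (hx : inT a b c x ∨ x = b ∨ x = c) (hT : ori b c a = 0) :
    x = b ∨ x = c := by
  have h := extreme_sum a b c x
  rcases hx with (h1 | h1) | h1
  · exfalso; linarith [h1.1, h1.2.1, h1.2.2]
  · exfalso; linarith [h1.1, h1.2.1, h1.2.2]
  · exact h1

theorem extreme_dist {p q r a : Pt} (h : inT p q r a) : p ≠ q ∧ q ≠ r ∧ r ≠ p := by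
  refine ⟨?_, ?_, ?_⟩
  · rintro rfl
    rcases h with h | h
    · have := h.1; rw [extreme_self3] at this; exact lt_irrefl _ this
    · have := h.1; rw [extreme_self3] at this; exact lt_irrefl _ this
  · rintro rfl
    rcases h with h | h
    · have := h.2.1; rw [extreme_self3] at this; exact lt_irrefl _ this
    · have := h.2.1; rw [extreme_self3] at this; exact lt_irrefl _ this
  · rintro rfl
    rcases h with h | h
    · have := h.2.2; rw [extreme_self3] at this; exact lt_irrefl _ this
    · have := h.2.2; rw [extreme_self3] at this; exact lt_irrefl _ this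

theorem extreme {a b c p q r : Pt} (hp : inT a b c p ∨ p = b ∨ p = c)
    (hq : inT a b c q ∨ q = b ∨ q = c) (hr : inT a b c r ∨ r = b ∨ r = c) : ¬ inT p q r a := by
  intro h
  have hb := extreme_bary b c p q r a
  rcases lt_trichotomy (ori b c a) 0 with hT | hT | hT
  · have h1 := extreme_neg hp hT
    have h2 := extreme_neg hq hT
    have h3 := extreme_neg hr hT
    rcases h with h | h
    · nlinarith [mul_pos h.2.1 (sub_pos.2 h1), mul_pos h.2.2 (sub_pos.2 h2),
        mul_pos h.1 (sub_pos.2 h3)]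
    · nlinarith [mul_pos (neg_pos.2 h.2.1) (sub_pos.2 h1), mul_pos (neg_pos.2 h.2.2) (sub_pos.2 h2),
        mul_pos (neg_pos.2 h.1) (sub_pos.2 h3)]
  · have h1 := extreme_zero hp hT
    have h2 := extreme_zero hq hT
    have h3 := extreme_zero hr hT
    obtain ⟨d1, d2, d3⟩ := extreme_dist h
    rcases h1 with h1 | h1 <;> rcases h2 with h2 | h2 <;> rcases h3 with h3 | h3
    · exact d1 (h1.trans h2.symm)
    · exact d1 (h1.trans h2.symm)
    · exact d3 (h3.trans h1.symm)
    · exact d2 (h2.trans h3.symm)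
    · exact d2 (h2.trans h3.symm)
    · exact d3 (h3.trans h1.symm)
    · exact d1 (h1.trans h2.symm)
    · exact d1 (h1.trans h2.symm)
  · have h1 := extreme_pos hp hT
    have h2 := extreme_pos hq hT
    have h3 := extreme_pos hr hT
    rcases h with h | h
    · nlinarith [mul_pos h.2.1 (sub_pos.2 h1), mul_pos h.2.2 (sub_pos.2 h2),
        mul_pos h.1 (sub_pos.2 h3)]
    · nlinarith [mul_pos (neg_pos.2 h.2.1) (sub_pos.2 h1), mul_pos (neg_pos.2 h.2.2) (sub_pos.2 h2),
        mul_pos (neg_pos.2 h.1) (sub_pos.2 h3)]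

theorem fan_aux {n : ℕ} [NeZero n] (X Y : Fin n → ℝ)
    (h : ∀ i, 0 < X i * Y (i + 1) - Y i * X (i + 1)) : ∃ i, Y i < 0 := by
  by_contra hcon
  push Not at hcon
  have hpos : ∀ i, 0 < Y i := by
    intro i
    rcases (hcon i).lt_or_eq with h1 | h1
    · exact h1
    · exfalso
      have h2 := h i
      rw [← h1, zero_mul, sub_zero] at h2
      have hX : 0 < X i := by
        by_contra hX
        push Not at hX
        have := mul_nonpos_of_nonpos_of_nonneg hX (hcon (i + 1))
        linarith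
      have h3 := h (i - 1)
      rw [sub_add_cancel, ← h1, mul_zero, zero_sub] at h3
      have := mul_nonneg (hcon (i - 1)) hX.le
      linarith
  obtain ⟨i, hi⟩ := Finite.exists_min (fun i => X i / Y i)
  have h4 := hi (i + 1)
  have h5 := h i
  rw [div_le_div_iff₀ (hpos i) (hpos (i + 1))] at h4
  linarith

theorem fan {n : ℕ} [NeZero n] (v : Pt) (q : Fin n → Pt)
    (h : (∀ i, 0 < ori v (q i) (q (i + 1))) ∨ (∀ i, ori v (q i) (q (i + 1)) < 0)) :
    (∃ i, (q i).2 < v.2) ∧ ∃ i, v.2 < (q i).2 := by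
  rcases h with h | h
  · constructor
    · obtain ⟨i, hi⟩ := fan_aux (fun i => (q i).1 - v.1) (fun i => (q i).2 - v.2) (fun i => by
        have := h i
        unfold ori at this
        exact this)
      exact ⟨i, by linarith⟩
    · obtain ⟨i, hi⟩ := fan_aux (fun i => -((q i).1 - v.1)) (fun i => -((q i).2 - v.2)) (fun i => by
        have := h i
        unfold ori at this
        linarith)
      exact ⟨i, by linarith⟩
  · constructor
    · obtain ⟨i, hi⟩ := fan_aux (fun i => -((q i).1 - v.1)) (fun i => (q i).2 - v.2) (fun i => by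
        have := h i
        unfold ori at this
        linarith)
      exact ⟨i, by linarith⟩
    · obtain ⟨i, hi⟩ := fan_aux (fun i => (q i).1 - v.1) (fun i => -((q i).2 - v.2)) (fun i => by
        have := h i
        unfold ori at this
        linarith)
      exact ⟨i, by linarith⟩

end Pool.Agent.Helper745.FSub
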