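import Pool.Agent.Helper745.FS.A1

set_option autoImplicit false

namespace Pool.Agent.Helper745.FSub

/-- next hops -/
def frag_empty_nxt : Fin 15 → Fin 10 → Fin 10 :=
  ![![0, 0, 2, 0, 5, 6, 2, 2, 7, 6],
    ![0, 1, 2, 1, 1, 1, 1, 0, 0, 4],
    ![0, 1, 2, 0, 0, 1, 1, 0, 0, 7],
    ![0, 1, 2, 0, 1, 1, 1, 0, 0, 0],
    ![0, 1, 2, 0, 0, 0, 1, 0, 0, 0],
    ![0, 0, 2, 0, 0, 0, 2, 0, 0, 7],
    ![0, 1, 2, 0, 1, 0, 0, 0, 0, 0],
    ![0, 0, 2, 0, 3, 0, 0, 0, 0, 7],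
    ![0, 1, 0, 0, 1, 1, 0, 0, 0, 8],
    ![0, 0, 2, 0, 0, 6, 2, 0, 0, 7],
    ![0, 0, 0, 0, 3, 4, 0, 0, 0, 7],
    ![0, 1, 0, 1, 1, 1, 1, 0, 3, 4],
    ![0, 1, 2, 0, 1, 1, 1, 2, 0, 4],
    ![0, 1, 2, 0, 0, 1, 1, 0, 0, 0],
    ![0, 1, 2, 0, 1, 1, 0, 0, 0, 0]]

/-- ranks -/
def frag_empty_rk : Fin 15 → Fin 10 → ℕ :=
  ![![0, 0, 0, 0, 3, 2, 1, 1, 2, 2],
    ![0, 0, 0, 1, 1, 1, 1, 0, 0, 2],
    ![0, 0, 0, 0, 0, 1, 1, 1, 0, 2],
    ![0, 0, 0, 1, 1, 1, 1, 0, 0, 0],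
    ![0, 0, 0, 1, 0, 0, 1, 1, 1, 0],
    ![0, 0, 0, 1, 0, 0, 1, 1, 1, 2],
    ![0, 0, 0, 1, 1, 0, 0, 1, 1, 0],
    ![0, 0, 0, 1, 2, 0, 0, 1, 1, 2],
    ![0, 0, 0, 1, 1, 1, 0, 0, 1, 2],
    ![0, 0, 0, 0, 0, 2, 1, 1, 1, 2],
    ![0, 0, 0, 1, 2, 3, 0, 1, 1, 2],
    ![0, 0, 0, 1, 1, 1, 1, 0, 2, 2],
    ![0, 0, 0, 0, 1, 1, 1, 1, 0, 2],
    ![0, 0, 0, 1, 0, 1, 1, 1, 0, 0],
    ![0, 0, 0, 1, 1, 1, 0, 0, 1, 0]]

theorem frag_empty_tab : ∀ (m : Fin 15) (l : Fin 10), (∀ i, l ≠ allF m i) →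
    (l.val ≤ 2 ∨ (frgB.adj l (frag_empty_nxt m l) = true ∧
      (∀ i, frag_empty_nxt m l ≠ allF m i) ∧
      frag_empty_rk m (frag_empty_nxt m l) < frag_empty_rk m l)) := by
  decide +kernel

theorem frag_empty_face : ∀ m : Fin 15, frgB.adj (allF m 0) (allF m 1) = true ∧
    frgB.adj (allF m 1) (allF m 2) = true ∧ frgB.adj (allF m 2) (allF m 0) = true := by
  decide +kernel

theorem frag_empty_rot {a b c p : Pt} (h : inT a b c p) : inT b c a p := by
  unfold inT at h ⊢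
  rcases h with ⟨h1, h2, h3⟩ | ⟨h1, h2, h3⟩
  · exact Or.inl ⟨h2, h3, h1⟩
  · exact Or.inr ⟨h2, h3, h1⟩

theorem frag_empty_corner {V : Type} {A : V → V → Prop} {f : V → Pt} {ι : Fin 10 → V}
    (h : FC A f ι) (c : Fin 10) (hc : c.val ≤ 2) (p q r : Fin 10) (hp : p ≠ c) (hq : q ≠ c)
    (hr : r ≠ c) : ¬ inT (f (ι p)) (f (ι q)) (f (ι r)) (f (ι c)) := by
  have key : ∀ (a b d : Fin 10), (∀ v : Fin 10, v ≠ a → (3 ≤ v.val ∨ v = b ∨ v = d)) →
      (∀ v : Fin 10, 3 ≤ v.val → inT (f (ι a)) (f (ι b)) (f (ι d)) (f (ι v))) → c = a →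
      ¬ inT (f (ι p)) (f (ι q)) (f (ι r)) (f (ι c)) := by
    intro a b d hv hin hca
    subst hca
    have hh : ∀ v : Fin 10, v ≠ c → (inT (f (ι c)) (f (ι b)) (f (ι d)) (f (ι v)) ∨
        f (ι v) = f (ι b) ∨ f (ι v) = f (ι d)) := by
      intro v hvc
      rcases hv v hvc with h1 | h1 | h1
      · exact Or.inl (hin v h1)
      · exact Or.inr (Or.inl (by rw [h1]))
      · exact Or.inr (Or.inr (by rw [h1]))
    exact extreme (hh p hp) (hh q hq) (hh r hr)
  have hcc : ∀ e : Fin 10, e.val ≤ 2 → e = 0 ∨ e = 1 ∨ e = 2 := by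
    decide
  rcases hcc c hc with h0 | h0 | h0
  · exact key 0 1 2 (by decide) (fun v hv => h.ins v hv) h0
  · exact key 1 2 0 (by decide) (fun v hv => frag_empty_rot (h.ins v hv)) h0
  · exact key 2 0 1 (by decide) (fun v hv => frag_empty_rot (frag_empty_rot (h.ins v hv))) h0

theorem frag_empty {V : Type} {A : V → V → Prop} {f : V → Pt} {ι : Fin 10 → V} (h : FC A f ι)
    (m : Fin 15) (l : Fin 10) (hl : ∀ i, l ≠ allF m i) :
    ¬ inT (f (ι (allF m 0))) (f (ι (allF m 1))) (f (ι (allF m 2))) (f (ι l)) := by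
  have main : ∀ (n : ℕ) (l : Fin 10), frag_empty_rk m l ≤ n → (∀ i, l ≠ allF m i) →
      ¬ inT (f (ι (allF m 0))) (f (ι (allF m 1))) (f (ι (allF m 2))) (f (ι l)) := by
    intro n
    induction n with
    | zero =>
      intro l hn hl hin
      rcases frag_empty_tab m l hl with h1 | ⟨_, _, h3⟩
      · exact frag_empty_corner h l h1 _ _ _ (hl 0).symm (hl 1).symm (hl 2).symm hin
      · omega
    | succ n ih =>
      intro l hn hl hin
      rcases frag_empty_tab m l hl with h1 | ⟨h1, h2, h3⟩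
      · exact frag_empty_corner h l h1 _ _ _ (hl 0).symm (hl 1).symm (hl 2).symm hin
      · obtain ⟨f1, f2, f3⟩ := frag_empty_face m
        have hs := sep h.drw (h.adj _ _ f1) (h.adj _ _ f2) (h.adj _ _ f3) (h.adj _ _ h1) hin
          (fun e => h2 0 (h.inj e)) (fun e => h2 1 (h.inj e)) (fun e => h2 2 (h.inj e))
        exact ih (frag_empty_nxt m l) (by omega) h2 hs
  exact main _ l le_rfl hl

def frag_sign_par : Fin 15 → Fin 15 := ![0, 12, 9, 1, 5, 9, 4, 5, 11, 0, 7, 1, 0, 2, 3]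
def frag_sign_r : Fin 15 → Fin 3 := ![0, 0, 1, 2, 1, 0, 0, 0, 2, 2, 2, 1, 0, 0, 1]
def frag_sign_s : Fin 15 → Fin 3 := ![0, 2, 1, 1, 2, 0, 2, 1, 2, 1, 1, 2, 2, 2, 1]
def frag_sign_d : Fin 15 → ℕ := ![0, 2, 2, 3, 3, 2, 4, 3, 4, 1, 4, 3, 1, 3, 4]

theorem frag_sign_comb1 : ∀ m : Fin 15, m ≠ 0 →
    allF (frag_sign_par m) (frag_sign_s m + 1) = allF m (frag_sign_r m) ∧
    allF (frag_sign_par m) (frag_sign_s m) = allF m (frag_sign_r m + 1) ∧
    frag_sign_d (frag_sign_par m) < frag_sign_d m := by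
  decide +kernel

theorem frag_sign_comb2 : ∀ m : Fin 15, m ≠ 0 →
    frgB.adj (allF m (frag_sign_r m)) (allF m (frag_sign_r m + 1)) = true ∧
    frgB.adj (allF m (frag_sign_r m)) (allF m (frag_sign_r m + 2)) = true ∧
    frgB.adj (allF m (frag_sign_r m + 1)) (allF m (frag_sign_r m + 2)) = true ∧
    frgB.adj (allF m (frag_sign_r m)) (allF (frag_sign_par m) (frag_sign_s m + 2)) = true ∧
    frgB.adj (allF m (frag_sign_r m + 1)) (allF (frag_sign_par m) (frag_sign_s m + 2)) = true := by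
  decide +kernel

theorem frag_sign_comb3 : ∀ m : Fin 15, m ≠ 0 →
    allF m (frag_sign_r m) ≠ allF m (frag_sign_r m + 1) ∧
    allF m (frag_sign_r m) ≠ allF m (frag_sign_r m + 2) ∧
    allF m (frag_sign_r m + 1) ≠ allF m (frag_sign_r m + 2) ∧
    (∀ i, allF (frag_sign_par m) (frag_sign_s m + 2) ≠ allF m i) ∧
    (∀ i, allF m (frag_sign_r m + 2) ≠ allF (frag_sign_par m) i) := by
  decide +kernel

theorem frag_sign_rot (q : Fin 3 → Pt) (r : Fin 3) :
    ori (q r) (q (r + 1)) (q (r + 2)) = ori (q 0) (q 1) (q 2) := by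
  have h : r = 0 ∨ r = 1 ∨ r = 2 := by
    revert r; decide
  rcases h with rfl | rfl | rfl
  · rfl
  · show ori (q 1) (q 2) (q 0) = _
    unfold ori; ring
  · show ori (q 2) (q 0) (q 1) = _
    unfold ori; ring

theorem frag_sign_rotT (q : Fin 3 → Pt) (r : Fin 3) (p : Pt) :
    inT (q r) (q (r + 1)) (q (r + 2)) p ↔ inT (q 0) (q 1) (q 2) p := by
  have h : r = 0 ∨ r = 1 ∨ r = 2 := by
    revert r; decide
  rcases h with rfl | rfl | rfl
  · exact Iff.rfl
  · show inT (q 1) (q 2) (q 0) p ↔ _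
    unfold inT; tauto
  · show inT (q 2) (q 0) (q 1) p ↔ _
    unfold inT; tauto

theorem frag_sign_swap (a b c p : Pt) (h : inT a b c p) : inT b a c p := by
  have e : ∀ x y : Pt, ori x y p = - ori y x p := by
    intro x y
    unfold ori; ring
  unfold inT at *
  rw [e b a, e a c, e c b]
  rcases h with ⟨h1, h2, h3⟩ | ⟨h1, h2, h3⟩
  · right
    exact ⟨by linarith, by linarith, by linarith⟩
  · left
    exact ⟨by linarith, by linarith, by linarith⟩

theorem frag_sign_step {V : Type} {A : V → V → Prop} {f : V → Pt} {ι : Fin 10 → V}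
    (h : FC A f ι) (m : Fin 15) (hm : m ≠ 0) :
    0 < ori (f (ι (allF m 0))) (f (ι (allF m 1))) (f (ι (allF m 2))) *
      ori (f (ι (allF (frag_sign_par m) 0))) (f (ι (allF (frag_sign_par m) 1)))
        (f (ι (allF (frag_sign_par m) 2))) := by
  obtain ⟨e1, e2, -⟩ := frag_sign_comb1 m hm
  obtain ⟨a1, a2, a3, a4, a5⟩ := frag_sign_comb2 m hm
  obtain ⟨n1, n2, n3, n4, n5⟩ := frag_sign_comb3 m hm
  have r1 := frag_sign_rot (fun i => f (ι (allF m i))) (frag_sign_r m)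
  have r2 := frag_sign_rot (fun i => f (ι (allF (frag_sign_par m) i))) (frag_sign_s m)
  have hw' : ¬ inT (f (ι (allF m (frag_sign_r m)))) (f (ι (allF m (frag_sign_r m + 1))))
      (f (ι (allF m (frag_sign_r m + 2)))) (f (ι (allF (frag_sign_par m) (frag_sign_s m + 2)))) := by
    intro hc
    exact frag_empty h m _ n4 ((frag_sign_rotT (fun i => f (ι (allF m i))) (frag_sign_r m) _).1 hc)
  have hw : ¬ inT (f (ι (allF m (frag_sign_r m)))) (f (ι (allF m (frag_sign_r m + 1))))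
      (f (ι (allF (frag_sign_par m) (frag_sign_s m + 2)))) (f (ι (allF m (frag_sign_r m + 2)))) := by
    intro hc
    have hc' := frag_sign_swap _ _ _ _ hc
    rw [← e1, ← e2] at hc'
    exact frag_empty h _ _ n5
      ((frag_sign_rotT (fun i => f (ι (allF (frag_sign_par m) i))) (frag_sign_s m) _).1 hc')
  have key := opp h.drw h.sym (h.adj _ _ a1) (h.adj _ _ a2) (h.adj _ _ a3) (h.adj _ _ a4)
    (h.adj _ _ a5) (fun hh => n1 (h.inj hh)) (fun hh => n2 (h.inj hh)) (fun hh => n3 (h.inj hh))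
    (fun hh => n4 _ (h.inj hh).symm) (fun hh => n4 _ (h.inj hh).symm)
    (fun hh => n4 _ (h.inj hh).symm) hw hw'
  have r3 : ori (f (ι (allF m (frag_sign_r m)))) (f (ι (allF m (frag_sign_r m + 1))))
      (f (ι (allF (frag_sign_par m) (frag_sign_s m + 2)))) =
      - ori (f (ι (allF (frag_sign_par m) 0))) (f (ι (allF (frag_sign_par m) 1)))
        (f (ι (allF (frag_sign_par m) 2))) := by
    rw [← r2, e1, e2]
    unfold ori; ring
  rw [r1, r3] at key
  linarith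

theorem frag_sign {V : Type} {A : V → V → Prop} {f : V → Pt} {ι : Fin 10 → V} (h : FC A f ι) :
    (∀ m, 0 < ori (f (ι (allF m 0))) (f (ι (allF m 1))) (f (ι (allF m 2)))) ∨
      (∀ m, ori (f (ι (allF m 0))) (f (ι (allF m 1))) (f (ι (allF m 2))) < 0) := by
  set O : Fin 15 → ℝ := fun m =>
    ori (f (ι (allF m 0))) (f (ι (allF m 1))) (f (ι (allF m 2))) with hO
  have step : ∀ m, m ≠ 0 → 0 < O m * O (frag_sign_par m) := fun m hm => frag_sign_step h m hm
  have h0 : O 0 ≠ 0 := by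
    intro hc
    have h9 := step 9 (by decide)
    have h9' : frag_sign_par 9 = 0 := by decide
    rw [h9', hc, mul_zero] at h9
    exact lt_irrefl _ h9
  have all : ∀ n : ℕ, ∀ m : Fin 15, frag_sign_d m ≤ n → 0 < O m * O 0 := by
    intro n
    induction n with
    | zero =>
      intro m hm
      by_cases hm0 : m = 0
      · subst hm0
        exact mul_self_pos.2 h0
      · have := (frag_sign_comb1 m hm0).2.2
        omega
    | succ n ih =>
      intro m hm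
      by_cases hm0 : m = 0
      · subst hm0
        exact mul_self_pos.2 h0
      · have h1 := (frag_sign_comb1 m hm0).2.2
        have h2 := ih (frag_sign_par m) (by omega)
        have h3 := step m hm0
        have h4 : 0 < (O m * O 0) * (O (frag_sign_par m))^2 := by nlinarith [mul_pos h2 h3]
        exact (pos_iff_pos_of_mul_pos h4).2 (by
          have : O (frag_sign_par m) ≠ 0 := by
            intro hc
            rw [hc, mul_zero] at h3
            exact lt_irrefl _ h3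
          positivity)
  rcases lt_or_gt_of_ne h0 with hlt | hgt
  · right
    intro m
    have := all _ m le_rfl
    show O m < 0
    by_contra hc
    push Not at hc
    nlinarith
  · left
    intro m
    have := all _ m le_rfl
    show 0 < O m
    by_contra hc
    push Not at hc
    nlinarith

theorem frag_mono_rot (a b c : Pt) : ori b c a = ori a b c := by
  unfold ori
  ring

theorem frag_mono_sw (a b c : Pt) : ori a c b = - ori a b c := by
  unfold ori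
  ring

theorem frag_mono_gen {V : Type} {A : V → V → Prop} {f : V → Pt} {ι : Fin 10 → V} (h : FC A f ι)
    {n : ℕ} [NeZero n] (i : Fin 10) (L : Fin n → Fin 10)
    (hL : ∀ k : Fin n, ∃ m : Fin 15, (allF m 0 = i ∧ allF m 1 = L (k+1) ∧ allF m 2 = L k) ∨
      (allF m 1 = i ∧ allF m 2 = L (k+1) ∧ allF m 0 = L k) ∨
      (allF m 2 = i ∧ allF m 0 = L (k+1) ∧ allF m 1 = L k))
    (hadj : ∀ k, frgB.adj i (L k) = true) :
    (∃ j, frgB.adj i j = true ∧ (f (ι j)).2 < (f (ι i)).2) ∧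
      ∃ j, frgB.adj i j = true ∧ (f (ι i)).2 < (f (ι j)).2 := by
  have hval : ∀ k : Fin n, ∃ m : Fin 15,
      ori (f (ι i)) (f (ι (L k))) (f (ι (L (k+1)))) =
        - ori (f (ι (allF m 0))) (f (ι (allF m 1))) (f (ι (allF m 2))) := by
    intro k
    obtain ⟨m, hm⟩ := hL k
    refine ⟨m, ?_⟩
    rw [frag_mono_sw]
    congr 1
    rcases hm with ⟨h1, h2, h3⟩ | ⟨h1, h2, h3⟩ | ⟨h1, h2, h3⟩
    · rw [h1, h2, h3]
    · rw [h1, h2, h3]
      exact frag_mono_rot _ _ _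
    · rw [h1, h2, h3]
      exact (frag_mono_rot _ _ _).symm
  have hf : (∃ k, (f (ι (L k))).2 < (f (ι i)).2) ∧ ∃ k, (f (ι i)).2 < (f (ι (L k))).2 := by
    refine fan (f (ι i)) (fun k => f (ι (L k))) ?_
    rcases frag_sign h with hs | hs
    · right
      intro k
      obtain ⟨m, hm⟩ := hval k
      have := hs m
      rw [hm]
      linarith
    · left
      intro k
      obtain ⟨m, hm⟩ := hval k
      have := hs m
      rw [hm]
      linarith
  obtain ⟨⟨k, hk⟩, ⟨k', hk'⟩⟩ := hf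
  exact ⟨⟨L k, hadj k, hk⟩, ⟨L k', hadj k', hk'⟩⟩

theorem frag_mono {V : Type} {A : V → V → Prop} {f : V → Pt} {ι : Fin 10 → V} (h : FC A f ι)
    (i : Fin 10) (hi : 3 ≤ i.val) :
    (∃ j, frgB.adj i j = true ∧ (f (ι j)).2 < (f (ι i)).2) ∧
      ∃ j, frgB.adj i j = true ∧ (f (ι i)).2 < (f (ι j)).2 := by
  fin_cases i
  · exact absurd hi (by decide)
  · exact absurd hi (by decide)
  · exact absurd hi (by decide)
  · exact frag_mono_gen h 3 (![1, 0, 8, 4] : Fin 4 → Fin 10) (by decide) (by decide)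
  · exact frag_mono_gen h 4 (![1, 3, 8, 9, 5] : Fin 5 → Fin 10) (by decide) (by decide)
  · exact frag_mono_gen h 5 (![1, 4, 9, 6] : Fin 4 → Fin 10) (by decide) (by decide)
  · exact frag_mono_gen h 6 (![1, 5, 9, 7, 2] : Fin 5 → Fin 10) (by decide) (by decide)
  · exact frag_mono_gen h 7 (![2, 6, 9, 8, 0] : Fin 5 → Fin 10) (by decide) (by decide)
  · exact frag_mono_gen h 8 (![4, 3, 0, 7, 9] : Fin 5 → Fin 10) (by decide) (by decide)
  · exact frag_mono_gen h 9 (![5, 4, 8, 7, 6] : Fin 5 → Fin 10) (by decide) (by decide)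

def frag_comb_faces : List (ℕ × ℕ × ℕ) := [(0, 1, 3), (0, 8, 7), (8, 3, 4), (8, 9, 7), (9, 4, 5), (4, 1, 5), (9, 5, 6), (5, 1, 6), (7, 6, 2)]

def frag_comb_good (N : ℕ) : Bool :=
  !N.testBit 0 && !N.testBit 1 && frag_comb_faces.all (fun t =>
    (N.testBit t.1 || N.testBit t.2.1 || N.testBit t.2.2) &&
      !(N.testBit t.1 && N.testBit t.2.1 && N.testBit t.2.2))

def frag_comb_tab : List (ℕ × ℕ) := [(168, 168), (172, 40), (184, 184), (188, 56), (216, 216), (232, 232), (248, 248), (300, 296), (360, 360), (364, 264), (424, 424), (428, 32), (488, 488), (680, 680), (684, 8), (728, 728), (812, 808)]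

theorem frag_comb_t1 : ∀ N < 1024, frag_comb_good N = true → ∃ p ∈ frag_comb_tab, p.1 = N := by
  decide +kernel

theorem frag_comb_t2 : ∀ p ∈ frag_comb_tab, (∃ i : Fin 10, p.2.testBit i.val = true) ∧
    (∀ i : Fin 10, p.2.testBit i.val = true → p.1.testBit i.val = true ∧ 3 ≤ i.val) ∧
    (∀ i j : Fin 10, p.2.testBit i.val = true → p.1.testBit j.val = true →
      Nat.testBit (fmask i) j.val = true → p.2.testBit j.val = true) := by
  decide +kernel

theorem frag_comb_t3 : ∀ m : Fin 9, (((frgB.face m 0).val, (frgB.face m 1).val, (frgB.face m 2).val)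
      ∈ frag_comb_faces) := by
  decide +kernel

theorem frag_comb_t4 : ∀ t ∈ frag_comb_faces, ∃ m : Fin 9, (frgB.face m 0).val = t.1 ∧
    (frgB.face m 1).val = t.2.1 ∧ (frgB.face m 2).val = t.2.2 := by
  decide +kernel

theorem frag_comb_half (y : Fin 10 → ℝ)
    (hy : ∀ i : Fin 10, 3 ≤ i.val → (∃ j, frgB.adj i j = true ∧ y j < y i) ∧
      ∃ j, frgB.adj i j = true ∧ y i < y j)
    (hm : ∀ m : Fin 9, (∃ i, y (frgB.face m i) < 0) ∧ ∃ i, 0 < y (frgB.face m i))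
    (h0 : 0 ≤ y 0) (h1 : 0 ≤ y 1) : False := by
  classical
  set N : ℕ := Nat.ofBits (fun i : Fin 10 => decide (y i < 0)) with hN
  have hlt : N < 1024 := Nat.ofBits_lt_two_pow _
  have hbit : ∀ i : Fin 10, N.testBit i.val = decide (y i < 0) := by
    intro i
    rw [hN, Nat.testBit_ofBits_lt _ _ i.isLt]
  have hgood : frag_comb_good N = true := by
    unfold frag_comb_good
    have e0 : N.testBit 0 = false := by
      have := hbit 0
      rw [decide_eq_false (not_lt.2 h0)] at this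
      exact this
    have e1 : N.testBit 1 = false := by
      have := hbit 1
      rw [decide_eq_false (not_lt.2 h1)] at this
      exact this
    rw [e0, e1]
    simp only [Bool.not_false, Bool.true_and, List.all_eq_true]
    intro t ht
    obtain ⟨m, hm0, hm1, hm2⟩ := frag_comb_t4 t ht
    obtain ⟨⟨a, ha⟩, ⟨b, hb⟩⟩ := hm m
    have q0 : N.testBit t.1 = decide (y (frgB.face m (0 : Fin 3)) < 0) := by
      rw [← hm0]; exact hbit _
    have q1 : N.testBit t.2.1 = decide (y (frgB.face m (1 : Fin 3)) < 0) := by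
      rw [← hm1]; exact hbit _
    have q2 : N.testBit t.2.2 = decide (y (frgB.face m (2 : Fin 3)) < 0) := by
      rw [← hm2]; exact hbit _
    rw [q0, q1, q2]
    have hb' : ¬ y (frgB.face m b) < 0 := not_lt.2 hb.le
    have key : ∀ c : Fin 3, c = 0 ∨ c = 1 ∨ c = 2 := by decide
    simp only [Bool.and_eq_true, Bool.or_eq_true, decide_eq_true_eq, Bool.not_eq_true',
      Bool.and_eq_false_iff, decide_eq_false_iff_not]
    constructor
    · rcases key a with rfl | rfl | rfl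
      · exact Or.inl (Or.inl ha)
      · exact Or.inl (Or.inr ha)
      · exact Or.inr ha
    · rcases key b with rfl | rfl | rfl
      · exact Or.inl (Or.inl hb')
      · exact Or.inl (Or.inr hb')
      · exact Or.inr hb'
  obtain ⟨p, hp, hpN⟩ := frag_comb_t1 N hlt hgood
  obtain ⟨⟨i0, hi0⟩, hsub, hcl⟩ := frag_comb_t2 p hp
  rw [hpN] at hsub hcl
  obtain ⟨v, hv, hmin⟩ := Finset.exists_min_image
    (Finset.univ.filter fun i : Fin 10 => p.2.testBit i.val = true) y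
    ⟨i0, by simp only [Finset.mem_filter, Finset.mem_univ, true_and]; exact hi0⟩
  simp only [Finset.mem_filter, Finset.mem_univ, true_and] at hv hmin
  obtain ⟨hvN, hv3⟩ := hsub v hv
  have hvneg : y v < 0 := by
    have := hbit v
    rw [hvN] at this
    exact of_decide_eq_true this.symm
  obtain ⟨j, hj, hjv⟩ := (hy v hv3).1
  have hjN : N.testBit j.val = true :=
    (hbit j).trans (decide_eq_true (hjv.trans hvneg))
  have hjK := hcl v j hv hjN hj
  exact absurd (hmin j hjK) (not_le.2 hjv)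

theorem frag_comb (y : Fin 10 → ℝ)
    (hy : ∀ i : Fin 10, 3 ≤ i.val → (∃ j, frgB.adj i j = true ∧ y j < y i) ∧
      ∃ j, frgB.adj i j = true ∧ y i < y j)
    (hm : ∀ m : Fin 9, (∃ i, y (frgB.face m i) < 0) ∧ ∃ i, 0 < y (frgB.face m i)) :
    y 0 * y 1 < 0 := by
  by_contra h
  rw [not_lt, mul_nonneg_iff] at h
  rcases h with ⟨h0, h1⟩ | ⟨h0, h1⟩
  · exact frag_comb_half y hy hm h0 h1
  · refine frag_comb_half (fun i => - y i) ?_ ?_ (neg_nonneg.2 h0) (neg_nonneg.2 h1)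
    · intro i hi
      obtain ⟨⟨j, hj, hj'⟩, ⟨k, hk, hk'⟩⟩ := hy i hi
      exact ⟨⟨k, hk, neg_lt_neg hk'⟩, ⟨j, hj, neg_lt_neg hj'⟩⟩
    · intro m
      obtain ⟨⟨i, hi⟩, ⟨j, hj⟩⟩ := hm m
      exact ⟨⟨j, neg_neg_of_pos hj⟩, ⟨i, neg_pos_of_neg hi⟩⟩

def frag_blob_root : Fin 9 → Fin 10 := ![2, 1, 0, 0, 0, 0, 0, 0, 0]

def frag_blob_nh : Fin 9 → Fin 10 → Fin 10 :=
  ![![0, 0, 2, 0, 5, 6, 2, 2, 7, 6],
    ![0, 1, 1, 1, 1, 1, 1, 0, 0, 4],
    ![0, 0, 0, 0, 0, 1, 1, 0, 0, 7],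
    ![0, 0, 0, 0, 1, 1, 1, 0, 0, 0],
    ![0, 0, 0, 0, 0, 0, 1, 0, 0, 0],
    ![0, 0, 0, 0, 0, 0, 2, 0, 0, 7],
    ![0, 0, 0, 0, 1, 0, 0, 0, 0, 0],
    ![0, 0, 0, 0, 3, 0, 0, 0, 0, 7],
    ![0, 0, 0, 0, 1, 1, 0, 0, 0, 8]]

def frag_blob_D : Fin 9 → Fin 10 → ℕ :=
  ![![0, 0, 0, 0, 3, 2, 1, 1, 2, 2],
    ![0, 0, 1, 1, 1, 1, 1, 0, 0, 2],
    ![0, 1, 1, 0, 0, 2, 2, 1, 0, 2],
    ![0, 1, 1, 1, 2, 2, 2, 0, 0, 0],
    ![0, 1, 1, 1, 0, 0, 2, 1, 1, 0],
    ![0, 0, 1, 1, 0, 0, 2, 1, 1, 2],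
    ![0, 1, 1, 1, 2, 0, 0, 1, 1, 0],
    ![0, 0, 1, 1, 2, 0, 0, 1, 1, 2],
    ![0, 1, 0, 1, 2, 2, 0, 0, 1, 2]]

def frag_blob_fc (m : Fin 9) (i : Fin 3) : Fin 10 := frgB.face m i

def frag_blob_aj (i j : Fin 10) : Bool := frgB.adj i j

theorem frag_blob_tab : ∀ m : Fin 9, ∀ l : Fin 10, (∀ i : Fin 3, l ≠ frag_blob_fc m i) →
    l = frag_blob_root m ∨ ((∀ i : Fin 3, frag_blob_nh m l ≠ frag_blob_fc m i) ∧
      frag_blob_aj l (frag_blob_nh m l) = true ∧ frag_blob_aj (frag_blob_nh m l) l = true ∧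
      frag_blob_D m (frag_blob_nh m l) < frag_blob_D m l) := by
  decide +kernel

theorem frag_blob_at : ∀ m : Fin 9, ∀ i : Fin 3, ∃ l : Fin 10,
    (∀ j : Fin 3, l ≠ frag_blob_fc m j) ∧ frag_blob_aj l (frag_blob_fc m i) = true := by
  decide +kernel

theorem frag_blob_r : ∀ m : Fin 9, ∀ i : Fin 3, frag_blob_root m ≠ frag_blob_fc m i := by
  decide +kernel

theorem frag_blob_all : ∀ m : Fin 9, ∀ i : Fin 3,
    allF (Fin.castLE (by norm_num) m) i = frag_blob_fc m i := by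
  decide +kernel

theorem frag_blob_f : ∀ m : Fin 9, frag_blob_aj (frag_blob_fc m 0) (frag_blob_fc m 1) = true ∧
    frag_blob_aj (frag_blob_fc m 0) (frag_blob_fc m 2) = true ∧
    frag_blob_aj (frag_blob_fc m 1) (frag_blob_fc m 2) = true ∧
    frag_blob_fc m 0 ≠ frag_blob_fc m 1 ∧ frag_blob_fc m 0 ≠ frag_blob_fc m 2 ∧
    frag_blob_fc m 1 ≠ frag_blob_fc m 2 := by
  decide +kernel

/-- the seven vertices outside the face -/
def frag_blob_Z {V : Type} (ι : Fin 10 → V) (m : Fin 9) : Set V :=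
  {x | ∃ l : Fin 10, (∀ i : Fin 3, l ≠ frag_blob_fc m i) ∧ ι l = x}

theorem frag_blob_cn {V : Type} {A : V → V → Prop} {f : V → Pt} {ι : Fin 10 → V} (h : FC A f ι)
    (m : Fin 9) : Cn A (frag_blob_Z ι m) := by
  intro S hS hne hcl
  have hadj : ∀ i j : Fin 10, frag_blob_aj i j = true → A (ι i) (ι j) := fun i j hij =>
    h.adj i j hij
  -- the root lies in S
  have h1 : ∀ n : ℕ, ∀ l : Fin 10, frag_blob_D m l < n → (∀ i : Fin 3, l ≠ frag_blob_fc m i) →
      ι l ∈ S → ι (frag_blob_root m) ∈ S := by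
    intro n
    induction n with
    | zero => intro l hl; omega
    | succ n ih =>
      intro l hl hf hlS
      rcases frag_blob_tab m l hf with h2 | ⟨h2, h3, h4, h5⟩
      · rw [← h2]; exact hlS
      · exact ih _ (by omega) h2 (hcl _ hlS _ ⟨_, h2, rfl⟩ (hadj _ _ h3))
  have h6 : ι (frag_blob_root m) ∈ S := by
    obtain ⟨x, hx⟩ := hne
    obtain ⟨l, hl, rfl⟩ := hS hx
    exact h1 _ l (Nat.lt_succ_self _) hl hx
  have h7 : ∀ n : ℕ, ∀ l : Fin 10, frag_blob_D m l < n → (∀ i : Fin 3, l ≠ frag_blob_fc m i) →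
      ι l ∈ S := by
    intro n
    induction n with
    | zero => intro l hl; omega
    | succ n ih =>
      intro l hl hf
      rcases frag_blob_tab m l hf with h2 | ⟨h2, h3, h4, h5⟩
      · rw [h2]; exact h6
      · exact hcl _ (ih _ (by omega) h2) _ ⟨_, hf, rfl⟩ (hadj _ _ h4)
  apply Set.Subset.antisymm hS
  rintro x ⟨l, hl, rfl⟩
  exact h7 _ l (Nat.lt_succ_self _) hl

theorem frag_blob_att {V : Type} {A : V → V → Prop} {f : V → Pt} {ι : Fin 10 → V} (h : FC A f ι)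
    (m : Fin 9) (i : Fin 3) : At A (frag_blob_Z ι m) (ι (frag_blob_fc m i)) := by
  obtain ⟨l, hl, ha⟩ := frag_blob_at m i
  exact ⟨ι l, ⟨l, hl, rfl⟩, h.adj _ _ ha⟩

theorem frag_blob_nm {V : Type} {A : V → V → Prop} {f : V → Pt} {ι : Fin 10 → V} (h : FC A f ι)
    (m : Fin 9) (i : Fin 3) : ι (frag_blob_fc m i) ∉ frag_blob_Z ι m := by
  rintro ⟨l, hl, he⟩
  exact hl i (h.inj he)

theorem frag_blob_main {V : Type} {A : V → V → Prop} {f : V → Pt} {ι : Fin 10 → V} (h : FC A f ι)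
    (m : Fin 9) {C : Set V} (hC : Cn A C) (hCι : ∀ i, ι i ∉ C)
    (hc : ∃ d ∈ C, ∀ i : Fin 3, A d (ι (frag_blob_fc m i))) :
    ∀ x ∈ C, inT (f (ι (frag_blob_fc m 0))) (f (ι (frag_blob_fc m 1)))
      (f (ι (frag_blob_fc m 2))) (f x) := by
  obtain ⟨d, hd, hda⟩ := hc
  obtain ⟨f1, f2, f3, f4, f5, f6⟩ := frag_blob_f m
  have hadj : ∀ i j : Fin 10, frag_blob_aj i j = true → A (ι i) (ι j) := fun i j hij =>
    h.adj i j hij
  have hne : ∀ i : Fin 10, ι i ≠ d := fun i e => hCι i (e ▸ hd)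
  have h4 : K4 A (ι (frag_blob_fc m 0)) (ι (frag_blob_fc m 1)) (ι (frag_blob_fc m 2)) d :=
    ⟨hadj _ _ f1, hadj _ _ f2, h.sym _ _ (hda 0), hadj _ _ f3, h.sym _ _ (hda 1),
      h.sym _ _ (hda 2), fun e => f4 (h.inj e), fun e => f5 (h.inj e), hne _,
      fun e => f6 (h.inj e), hne _, hne _⟩
  have hout : ∃ x ∈ frag_blob_Z ι m, ¬ inT (f (ι (frag_blob_fc m 0))) (f (ι (frag_blob_fc m 1)))
      (f (ι (frag_blob_fc m 2))) (f x) := by
    refine ⟨ι (frag_blob_root m), ⟨_, frag_blob_r m, rfl⟩, ?_⟩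
    have h8 := frag_empty h (Fin.castLE (by norm_num) m) (frag_blob_root m) (by
      intro i
      rw [frag_blob_all]
      exact frag_blob_r m i)
    rw [frag_blob_all, frag_blob_all, frag_blob_all] at h8
    exact h8
  have hdin : inT (f (ι (frag_blob_fc m 0))) (f (ι (frag_blob_fc m 1)))
      (f (ι (frag_blob_fc m 2))) (f d) := by
    refine lemX h.drw h.sym h4 (frag_blob_cn h m) (frag_blob_att h m 0) (frag_blob_att h m 1)
      (frag_blob_att h m 2) (frag_blob_nm h m 0) (frag_blob_nm h m 1) (frag_blob_nm h m 2) ?_ hout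
    rintro ⟨l, _, he⟩
    exact hCι l (he ▸ hd)
  have hS := hC {x | x ∈ C ∧ inT (f (ι (frag_blob_fc m 0))) (f (ι (frag_blob_fc m 1)))
      (f (ι (frag_blob_fc m 2))) (f x)} (fun x hx => hx.1) ⟨d, hd, hdin⟩ (by
    rintro x ⟨hx, hxin⟩ y hy hxy
    refine ⟨hy, ?_⟩
    have hney : ∀ i : Fin 10, y ≠ ι i := fun i e => hCι i (e ▸ hy)
    exact sep h.drw (hadj _ _ f1) (hadj _ _ f3) (h.sym _ _ (hadj _ _ f2)) hxy hxin (hney _)
      (hney _) (hney _))
  intro x hx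
  rw [← hS] at hx
  exact hx.2

theorem frag_blob {V : Type} {A : V → V → Prop} {f : V → Pt} {ι : Fin 10 → V} (h : FC A f ι)
    (m : Fin 9) {C : Set V} (hC : Cn A C) (hCι : ∀ i, ι i ∉ C)
    (hc : ∃ d ∈ C, ∀ i, A d (ι (frgB.face m i))) :
    ∀ x ∈ C, inT (f (ι (frgB.face m 0))) (f (ι (frgB.face m 1))) (f (ι (frgB.face m 2))) (f x) := by
  exact frag_blob_main h m hC hCι hc

end Pool.Agent.Helper745.FSub
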