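import Pool.Agent.Helper745.FS.A2

set_option autoImplicit false

namespace Pool.Agent.Helper745.FSub

theorem line_avoid_aux (u v w p q r : ℝ) (hu : 0 < u) (hv : 0 < v) (hw : 0 < w) (hp : 0 ≤ p)
    (hq : 0 ≤ q) (hr : 0 ≤ r) (h : u * p + v * q + w * r = 0) : p = 0 ∧ q = 0 ∧ r = 0 := by
  have h1 : 0 ≤ u * p := mul_nonneg hu.le hp
  have h2 : 0 ≤ v * q := mul_nonneg hv.le hq
  have h3 : 0 ≤ w * r := mul_nonneg hw.le hr
  have h4 : u * p = 0 := by linarith
  have h5 : v * q = 0 := by linarith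
  have h6 : w * r = 0 := by linarith
  exact ⟨(mul_eq_zero.1 h4).resolve_left hu.ne', (mul_eq_zero.1 h5).resolve_left hv.ne',
    (mul_eq_zero.1 h6).resolve_left hw.ne'⟩

theorem line_avoid {a b c x : Pt} (hx : inT a b c x)
    (h : ¬ ((a.2 < 0 ∨ b.2 < 0 ∨ c.2 < 0) ∧ (0 < a.2 ∨ 0 < b.2 ∨ 0 < c.2))) : x.2 ≠ 0 := by
  intro hx0
  have id1 : ori b c x * a.2 + ori c a x * b.2 + ori a b x * c.2 = 0 := by
    have : ori a b c * x.2 = ori b c x * a.2 + ori c a x * b.2 + ori a b x * c.2 := by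
      unfold ori
      ring
    rw [← this, hx0, mul_zero]
  have id2 : ori a b c = ori b c x + ori c a x + ori a b x := by
    unfold ori
    ring
  have hz : ori a b c ≠ 0 := by
    rw [id2]
    rcases hx with ⟨h1, h2, h3⟩ | ⟨h1, h2, h3⟩
    · exact (by linarith : (0 : ℝ) < _).ne'
    · exact (by linarith : _ < (0 : ℝ)).ne
  have hall : a.2 = 0 ∧ b.2 = 0 ∧ c.2 = 0 := by
    rw [not_and_or] at h
    simp only [not_or, not_lt] at h
    rcases hx with ⟨h1, h2, h3⟩ | ⟨h1, h2, h3⟩ <;> rcases h with ⟨g1, g2, g3⟩ | ⟨g1, g2, g3⟩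
    · exact line_avoid_aux _ _ _ _ _ _ h2 h3 h1 g1 g2 g3 id1
    · have := line_avoid_aux _ _ _ (-a.2) (-b.2) (-c.2) h2 h3 h1 (by linarith) (by linarith)
        (by linarith) (by linarith)
      exact ⟨by linarith [this.1], by linarith [this.2.1], by linarith [this.2.2]⟩
    · exact line_avoid_aux (-ori b c x) (-ori c a x) (-ori a b x) _ _ _ (by linarith)
        (by linarith) (by linarith) g1 g2 g3 (by linarith)
    · have := line_avoid_aux (-ori b c x) (-ori c a x) (-ori a b x) (-a.2) (-b.2) (-c.2)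
        (by linarith) (by linarith) (by linarith) (by linarith) (by linarith) (by linarith)
        (by linarith)
      exact ⟨by linarith [this.1], by linarith [this.2.1], by linarith [this.2.2]⟩
  apply hz
  unfold ori
  rw [hall.1, hall.2.1, hall.2.2]
  ring

theorem emb_child_bv (H : Type) (B : Bse) (g : List Bse) : Function.Injective (bv H B g) := by
  intro i j
  refine Fin.addCases (fun a => ?_) (fun a => ?_) i
  · refine Fin.addCases (fun b => ?_) (fun b => ?_) j
    · intro h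
      simp only [bv, Fin.addCases_left] at h
      rw [Sum.inl.inj h]
    · intro h
      simp only [bv, Fin.addCases_left, Fin.addCases_right] at h
      cases h
  · refine Fin.addCases (fun b => ?_) (fun b => ?_) j
    · intro h
      simp only [bv, Fin.addCases_left, Fin.addCases_right] at h
      cases h
    · intro h
      simp only [bv, Fin.addCases_right] at h
      rw [Sum.inl.inj (Sum.inr.inj h)]

theorem emb_child_bv_ne (H : Type) (B : Bse) (g : List Bse) (i : Fin (3 + B.I))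
    (x : Fin B.M × Vt H g) : bv H B g i ≠ Sum.inr (Sum.inr x) := by
  refine Fin.addCases (fun a => ?_) (fun a => ?_) i
  · intro h
    simp only [bv, Fin.addCases_left] at h
    cases h
  · intro h
    simp only [bv, Fin.addCases_right] at h
    cases h

theorem emb_child_face {B : Bse} (hB : B = stkB ∨ B = frgB) (m : Fin B.M) :
    Function.Injective (B.face m) := by
  rcases hB with rfl | rfl
  · have h : ∀ (m : Fin 3) (i j : Fin 3), stkB.face m i = stkB.face m j → i = j := by
      decide +kernel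
    intro i j hij
    exact h m i j hij
  · have h : ∀ (m : Fin 9) (i j : Fin 3), frgB.face m i = frgB.face m j → i = j := by
      decide +kernel
    intro i j hij
    exact h m i j hij

theorem emb_child_cv (H : Type) {B : Bse} (hB : B = stkB ∨ B = frgB) (g : List Bse) (m : Fin B.M) :
    Function.Injective (cv H B g m) := by
  rintro (a | a) (b | b) h
  · have h1 : bv H B g (B.face m a) = bv H B g (B.face m b) := h
    rw [emb_child_face hB m (emb_child_bv H B g h1)]
  · exact absurd h (emb_child_bv_ne H B g _ _)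
  · exact absurd h.symm (emb_child_bv_ne H B g _ _)
  · have h1 : (m, a) = (m, b) := Sum.inr.inj (Sum.inr.inj h)
    rw [(Prod.mk.inj h1).2]

theorem emb_child {V : Type} {s : ℕ} {B : Bse} {g : List Bse} {A : V → V → Prop}
    {e : Wt (Option (Fin s)) (B :: g) → V} (hB : B = stkB ∨ B = frgB) (h : Emb s (B :: g) A e)
    (m : Fin B.M) : Emb s g A (fun w => e (cv _ B g m w)) := by
  refine ⟨fun a b hab => emb_child_cv _ hB g m (h.inj hab), ?_⟩
  intro u v huv
  exact h.adj _ _ (Or.inr ⟨m, u, v, huv, rfl, rfl⟩)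

theorem content_cn_bv1 (H : Type) (B : Bse) (g : List Bse) (k : Fin B.I) :
    bv H B g (Fin.natAdd 3 k) = Sum.inr (Sum.inl k) := by
  unfold bv
  rw [Fin.addCases_right]

theorem content_cn_bv2 (H : Type) (B : Bse) (g : List Bse) (c : Fin 3) :
    bv H B g (Fin.castAdd B.I c) = Sum.inl c := by
  unfold bv
  rw [Fin.addCases_left]

theorem content_cn_F1 {B : Bse} (hB : B = stkB ∨ B = frgB) (m : Fin B.M) :
    ∃ c : Fin 3, ∃ k : Fin B.I, B.face m c = Fin.natAdd 3 k := by
  rcases hB with rfl | rfl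
  · revert m
    change ∀ m : Fin 3, ∃ c : Fin 3, ∃ k : Fin 1, (![![0, 1, 3], ![0, 3, 2], ![3, 1, 2]] :
      Fin 3 → Fin 3 → Fin 4) m c = Fin.natAdd 3 k
    decide +kernel
  · revert m
    change ∀ m : Fin 9, ∃ c : Fin 3, ∃ k : Fin 7, (![![0, 1, 3], ![0, 8, 7], ![8, 3, 4],
      ![8, 9, 7], ![9, 4, 5], ![4, 1, 5], ![9, 5, 6], ![5, 1, 6], ![7, 6, 2]] :
      Fin 9 → Fin 3 → Fin 10) m c = Fin.natAdd 3 k
    decide +kernel

theorem content_cn_F2 {B : Bse} (hB : B = stkB ∨ B = frgB) :
    ∃ k0 : Fin B.I, ∀ k : Fin B.I, k = k0 ∨ B.adj (Fin.natAdd 3 k) (Fin.natAdd 3 k0) = true ∨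
      ∃ k1 : Fin B.I, B.adj (Fin.natAdd 3 k) (Fin.natAdd 3 k1) = true ∧
        B.adj (Fin.natAdd 3 k1) (Fin.natAdd 3 k0) = true := by
  rcases hB with rfl | rfl
  · refine ⟨(0 : Fin 1), ?_⟩
    change ∀ k : Fin 1, k = 0 ∨ _
    intro k
    left
    exact Subsingleton.elim _ _
  · change ∃ k0 : Fin 7, ∀ k : Fin 7, k = k0 ∨
      (fun i j : Fin 10 => Nat.testBit (fmask i) j.val) (Fin.natAdd 3 k) (Fin.natAdd 3 k0) = true ∨
      ∃ k1 : Fin 7,
        (fun i j : Fin 10 => Nat.testBit (fmask i) j.val) (Fin.natAdd 3 k) (Fin.natAdd 3 k1) = true ∧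
        (fun i j : Fin 10 => Nat.testBit (fmask i) j.val) (Fin.natAdd 3 k1) (Fin.natAdd 3 k0) = true
    decide +kernel

theorem content_cn_F3 {B : Bse} (hB : B = stkB ∨ B = frgB) (c : Fin 3) :
    ∃ k : Fin B.I, B.adj (Fin.natAdd 3 k) (Fin.castAdd B.I c) = true := by
  rcases hB with rfl | rfl
  · revert c
    change ∀ c : Fin 3, ∃ k : Fin 1,
      (fun i j : Fin 4 => decide (i ≠ j)) (Fin.natAdd 3 k) (Fin.castAdd 1 c) = true
    decide +kernel
  · revert c
    change ∀ c : Fin 3, ∃ k : Fin 7,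
      (fun i j : Fin 10 => Nat.testBit (fmask i) j.val) (Fin.natAdd 3 k) (Fin.castAdd 7 c) = true
    decide +kernel

theorem content_cn {V : Type} {s : ℕ} {g : List Bse} (hg : StkFrg g) {A : V → V → Prop}
    (hs : Sy A) {e : Wt (Option (Fin s)) g → V} (h : Emb s g A e) :
    Cn A (Set.range fun v => e (Sum.inr v)) ∧
      ∀ c : Fin 3, At A (Set.range fun v => e (Sum.inr v)) (e (Sum.inl c)) := by
  induction g with
  | nil =>
    have hub : ∀ w : Wt (Option (Fin s)) [], w ≠ Sum.inr none →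
        A (e (Sum.inr none)) (e w) := by
      intro w hw
      exact h.adj (Sum.inr none) w ⟨fun h => hw h.symm, Or.inl rfl⟩
    refine ⟨?_, ?_⟩
    · intro S hSC ⟨x, hx⟩ hcl
      have h1 : e (Sum.inr none) ∈ S := by
        obtain ⟨v, rfl⟩ := hSC hx
        by_cases hv : v = none
        · rw [← hv]; exact hx
        · exact hcl _ hx _ ⟨none, rfl⟩ (hs _ _ (hub (Sum.inr v) (fun h => hv (Sum.inr.inj h))))
      apply Set.Subset.antisymm hSC
      rintro _ ⟨v, rfl⟩
      by_cases hv : v = none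
      · rw [hv]; exact h1
      · exact hcl _ h1 _ ⟨v, rfl⟩ (hub (Sum.inr v) (fun h => hv (Sum.inr.inj h)))
    · intro c
      exact ⟨e (Sum.inr none), ⟨none, rfl⟩, hub (Sum.inl c) (by simp)⟩
  | cons B g ih =>
    have hB : B = stkB ∨ B = frgB := hg B List.mem_cons_self
    have hg' : StkFrg g := fun B' hB' => hg B' (List.mem_cons_of_mem _ hB')
    have hbase : ∀ i j, B.adj i j = true →
        A (e (bv (Option (Fin s)) B g i)) (e (bv (Option (Fin s)) B g j)) := by
      intro i j hij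
      exact h.adj _ _ (Or.inl ⟨i, j, hij, rfl, rfl⟩)
    have hch := fun m : Fin B.M => ih hg' (e := fun w => e (cv _ B g m w)) (emb_child hB h m)
    -- the face vertex which is inner, and its neighbour in the content of the child
    have hface : ∀ m : Fin B.M, ∃ k : Fin B.I, ∃ v : Vt (Option (Fin s)) g,
        A (e (Sum.inr (Sum.inr (m, v)))) (e (Sum.inr (Sum.inl k))) := by
      intro m
      obtain ⟨c, k, hck⟩ := content_cn_F1 hB m
      obtain ⟨_, ⟨v, rfl⟩, hv⟩ := (hch m).2 c
      refine ⟨k, v, ?_⟩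
      have h2 : cv (Option (Fin s)) B g m (Sum.inl c) = Sum.inr (Sum.inl k) := by
        change bv (Option (Fin s)) B g (B.face m c) = _
        rw [hck, content_cn_bv1]
      simp only [h2] at hv
      exact hv
    refine ⟨?_, ?_⟩
    · intro S hSC ⟨x, hx⟩ hcl
      -- contents of children
      have hchild : ∀ (m : Fin B.M) (v : Vt (Option (Fin s)) g),
          e (Sum.inr (Sum.inr (m, v))) ∈ S → ∀ v' : Vt (Option (Fin s)) g,
          e (Sum.inr (Sum.inr (m, v'))) ∈ S := by
        intro m v hv v'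
        have h1 := (hch m).1 (S ∩ Set.range fun v => e (cv _ B g m (Sum.inr v)))
          Set.inter_subset_right ⟨_, hv, ⟨v, rfl⟩⟩ (by
            rintro x ⟨hx1, hx2⟩ y hy hxy
            refine ⟨hcl x hx1 y ?_ hxy, hy⟩
            obtain ⟨w, rfl⟩ := hy
            exact ⟨Sum.inr (m, w), rfl⟩)
        have h2 : e (Sum.inr (Sum.inr (m, v'))) ∈
            Set.range fun v => e (cv _ B g m (Sum.inr v)) := ⟨v', rfl⟩
        rw [← h1] at h2
        exact h2.1
      have hS1 : ∃ k : Fin B.I, e (Sum.inr (Sum.inl k)) ∈ S := by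
        obtain ⟨w, rfl⟩ := hSC hx
        rcases w with k | ⟨m, v⟩
        · exact ⟨k, hx⟩
        · obtain ⟨k, v', hkv⟩ := hface m
          exact ⟨k, hcl _ (hchild m v hx v') _ ⟨Sum.inl k, rfl⟩ hkv⟩
      have hadj : ∀ k k' : Fin B.I, B.adj (Fin.natAdd 3 k) (Fin.natAdd 3 k') = true →
          A (e (Sum.inr (Sum.inl k))) (e (Sum.inr (Sum.inl k'))) := by
        intro k k' hkk
        have h1 := hbase _ _ hkk
        rw [content_cn_bv1, content_cn_bv1] at h1
        exact h1
      have hstep : ∀ k k' : Fin B.I, e (Sum.inr (Sum.inl k)) ∈ S →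
          A (e (Sum.inr (Sum.inl k))) (e (Sum.inr (Sum.inl k'))) →
          e (Sum.inr (Sum.inl k')) ∈ S := fun k k' hk hA => hcl _ hk _ ⟨Sum.inl k', rfl⟩ hA
      obtain ⟨k0, hk0⟩ := content_cn_F2 hB
      have hS0 : e (Sum.inr (Sum.inl k0)) ∈ S := by
        obtain ⟨k, hk⟩ := hS1
        rcases hk0 k with h1 | h1 | ⟨k1, h1, h2⟩
        · rw [← h1]; exact hk
        · exact hstep k k0 hk (hadj _ _ h1)
        · exact hstep k1 k0 (hstep k k1 hk (hadj _ _ h1)) (hadj _ _ h2)
      have hS2 : ∀ k : Fin B.I, e (Sum.inr (Sum.inl k)) ∈ S := by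
        intro k
        rcases hk0 k with h1 | h1 | ⟨k1, h1, h2⟩
        · rw [h1]; exact hS0
        · exact hstep k0 k hS0 (hs _ _ (hadj _ _ h1))
        · exact hstep k1 k (hstep k0 k1 hS0 (hs _ _ (hadj _ _ h2))) (hs _ _ (hadj _ _ h1))
      apply Set.Subset.antisymm hSC
      rintro _ ⟨w, rfl⟩
      rcases w with k | ⟨m, v⟩
      · exact hS2 k
      · obtain ⟨k, v', hkv⟩ := hface m
        exact hchild m v' (hcl _ (hS2 k) _ ⟨Sum.inr (m, v'), rfl⟩ (hs _ _ hkv)) v
    · intro c
      obtain ⟨k, hk⟩ := content_cn_F3 hB c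
      refine ⟨e (Sum.inr (Sum.inl k)), ⟨Sum.inl k, rfl⟩, ?_⟩
      have h1 := hbase _ _ hk
      rw [content_cn_bv1, content_cn_bv2] at h1
      exact h1

theorem face_mem (m : Fin 9) : ∃ i, 3 ≤ (frgB.face m i).val := by
  revert m
  decide +kernel

theorem stk_any_bvinj (H : Type) (B : Bse) (g : List Bse) : Function.Injective (bv H B g) := by
  intro i j
  refine Fin.addCases (fun c => ?_) (fun k => ?_) i <;>
    refine Fin.addCases (fun c' => ?_) (fun k' => ?_) j <;> intro hh <;> simp [bv] at hh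
  · rw [hh]
  · rw [hh]

theorem stk_any_bvne (H : Type) (B : Bse) (g : List Bse) (i : Fin (3 + B.I)) (m : Fin B.M)
    (v : Vt H g) : bv H B g i ≠ Sum.inr (Sum.inr (m, v)) := by
  refine Fin.addCases (fun c => ?_) (fun k => ?_) i <;> intro hh <;> simp [bv] at hh

theorem stk_any_ori (a b p : Pt) : ori b a p = - ori a b p := by
  unfold ori; ring

theorem stk_any_cyc {a b c p : Pt} (h : inT a b c p) : inT b c a p := by
  rcases h with ⟨h1, h2, h3⟩ | ⟨h1, h2, h3⟩
  · exact Or.inl ⟨h2, h3, h1⟩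
  · exact Or.inr ⟨h2, h3, h1⟩

theorem stk_any_swap {a b c p : Pt} (h : inT a b c p) : inT b a c p := by
  rcases h with ⟨h1, h2, h3⟩ | ⟨h1, h2, h3⟩
  · refine Or.inr ⟨?_, ?_, ?_⟩
    · rw [stk_any_ori a b]; linarith
    · rw [stk_any_ori c a]; linarith
    · rw [stk_any_ori b c]; linarith
  · refine Or.inl ⟨?_, ?_, ?_⟩
    · rw [stk_any_ori a b]; linarith
    · rw [stk_any_ori c a]; linarith
    · rw [stk_any_ori b c]; linarith

theorem stk_any_K4 {V : Type} {s : ℕ} {g : List Bse} {A : V → V → Prop}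
    {e : Wt (Option (Fin s)) (stkB :: g) → V} (h : Emb s (stkB :: g) A e)
    (i j k l : Fin 4) (hij : i ≠ j) (hik : i ≠ k) (hil : i ≠ l) (hjk : j ≠ k) (hjl : j ≠ l)
    (hkl : k ≠ l) :
    K4 A (e (bv _ stkB g i)) (e (bv _ stkB g j)) (e (bv _ stkB g k)) (e (bv _ stkB g l)) := by
  have hadj : ∀ i j : Fin 4, i ≠ j → A (e (bv _ stkB g i)) (e (bv _ stkB g j)) := by
    intro i j hij
    refine h.adj _ _ (Or.inl ⟨i, j, ?_, rfl, rfl⟩)
    exact decide_eq_true hij
  have hne : ∀ i j : Fin 4, i ≠ j → e (bv _ stkB g i) ≠ e (bv _ stkB g j) := by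
    intro i j hij hh
    exact hij (stk_any_bvinj _ _ _ (h.inj hh))
  exact ⟨hadj _ _ hij, hadj _ _ hik, hadj _ _ hil, hadj _ _ hjk, hadj _ _ hjl, hadj _ _ hkl,
    hne _ _ hij, hne _ _ hik, hne _ _ hil, hne _ _ hjk, hne _ _ hjl, hne _ _ hkl⟩

theorem stk_any_face {V : Type} {s : ℕ} {g : List Bse} (hg : StkFrg g) {A : V → V → Prop}
    {f : V → Pt} (hD : Drw A f) (hs : Sy A) {e : Wt (Option (Fin s)) (stkB :: g) → V}
    (h : Emb s (stkB :: g) A e)
    (i j k l : Fin 4) (hij : i ≠ j) (hik : i ≠ k) (hil : i ≠ l) (hjk : j ≠ k) (hjl : j ≠ l)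
    (hkl : k ≠ l)
    (hin : inT (f (e (bv _ stkB g i))) (f (e (bv _ stkB g j))) (f (e (bv _ stkB g k)))
      (f (e (bv _ stkB g l))))
    (m : Fin stkB.M) (ci cj cl : Fin 3) (hi : stkB.face m ci = i) (hj : stkB.face m cj = j)
    (hl : stkB.face m cl = l) (v : Vt (Option (Fin s)) g) :
    inT (f (e (bv _ stkB g i))) (f (e (bv _ stkB g j))) (f (e (bv _ stkB g l)))
      (f (e (cv _ stkB g m (Sum.inr v)))) := by
  have hch := emb_child (Or.inl rfl) h m
  obtain ⟨hC, hAt⟩ := content_cn hg hs hch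
  have hnot : ∀ i : Fin 4, e (bv _ stkB g i) ∉
      Set.range (fun v : Vt (Option (Fin s)) g => e (cv _ stkB g m (Sum.inr v))) := by
    rintro i ⟨v, hv⟩
    have := h.inj hv
    exact stk_any_bvne _ _ _ _ _ _ this.symm
  have h1 : At A (Set.range (fun v : Vt (Option (Fin s)) g => e (cv _ stkB g m (Sum.inr v))))
      (e (bv _ stkB g i)) := by
    have := hAt ci
    rw [← hi]
    exact this
  have h2 : At A (Set.range (fun v : Vt (Option (Fin s)) g => e (cv _ stkB g m (Sum.inr v))))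
      (e (bv _ stkB g j)) := by
    have := hAt cj
    rw [← hj]
    exact this
  have h3 : At A (Set.range (fun v : Vt (Option (Fin s)) g => e (cv _ stkB g m (Sum.inr v))))
      (e (bv _ stkB g l)) := by
    have := hAt cl
    rw [← hl]
    exact this
  exact k4in hD hs (stk_any_K4 h i j k l hij hik hil hjk hjl hkl) hin hC h1 h2 h3
    (hnot i) (hnot j) (hnot k) (hnot l) _ ⟨v, rfl⟩

theorem stk_in {V : Type} {s : ℕ} {g : List Bse} (hg : StkFrg g) {A : V → V → Prop} {f : V → Pt}
    (hD : Drw A f) (hs : Sy A) {e : Wt (Option (Fin s)) (stkB :: g) → V}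
    (h : Emb s (stkB :: g) A e)
    (hd : inT (f (e (Sum.inl 0))) (f (e (Sum.inl 1))) (f (e (Sum.inl 2)))
      (f (e (Sum.inr (Sum.inl (0 : Fin 1)))))) (m : Fin stkB.M) (v : Vt (Option (Fin s)) g) :
    inT (f (e (cv _ stkB g m (Sum.inl 0)))) (f (e (cv _ stkB g m (Sum.inl 1))))
      (f (e (cv _ stkB g m (Sum.inl 2)))) (f (e (cv _ stkB g m (Sum.inr v)))) := by
  have hm3 : ∀ m : Fin stkB.M, m = (0 : Fin 3) ∨ m = (1 : Fin 3) ∨ m = (2 : Fin 3) := by
    intro m
    have : ∀ m : Fin 3, m = 0 ∨ m = 1 ∨ m = 2 := by decide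
    exact this m
  have hin : inT (f (e (bv _ stkB g (0 : Fin 4)))) (f (e (bv _ stkB g (1 : Fin 4))))
      (f (e (bv _ stkB g (2 : Fin 4)))) (f (e (bv _ stkB g (3 : Fin 4)))) := hd
  rcases hm3 m with rfl | rfl | rfl
  · exact stk_any_face hg hD hs h 0 1 2 3 (by decide) (by decide) (by decide) (by decide)
      (by decide) (by decide) hin (0 : Fin 3) 0 1 2 rfl rfl rfl v
  · have h1 := stk_any_face hg hD hs h 0 2 1 3 (by decide) (by decide) (by decide) (by decide)
      (by decide) (by decide) (stk_any_cyc (stk_any_swap hin)) (1 : Fin 3) 0 2 1 rfl rfl rfl v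
    exact stk_any_cyc (stk_any_swap h1)
  · have h1 := stk_any_face hg hD hs h 1 2 0 3 (by decide) (by decide) (by decide) (by decide)
      (by decide) (by decide) (stk_any_cyc hin) (2 : Fin 3) 1 2 0 rfl rfl rfl v
    exact stk_any_cyc (stk_any_cyc h1)

theorem stk_any {V : Type} {s : ℕ} {g : List Bse} (hg : StkFrg g) {A : V → V → Prop} {f : V → Pt}
    (hD : Drw A f) (hs : Sy A) {e : Wt (Option (Fin s)) (stkB :: g) → V}
    (h : Emb s (stkB :: g) A e) : ∃ m0 : Fin stkB.M, ∀ m, m ≠ m0 → ∀ v : Vt (Option (Fin s)) g,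
    inT (f (e (cv _ stkB g m (Sum.inl 0)))) (f (e (cv _ stkB g m (Sum.inl 1))))
      (f (e (cv _ stkB g m (Sum.inl 2)))) (f (e (cv _ stkB g m (Sum.inr v)))) := by
  have hm3 : ∀ m : Fin stkB.M, m = (0 : Fin 3) ∨ m = (1 : Fin 3) ∨ m = (2 : Fin 3) := by
    intro m
    have : ∀ m : Fin 3, m = 0 ∨ m = 1 ∨ m = 2 := by decide
    exact this m
  have hK := stk_any_K4 h 0 1 2 3 (by decide) (by decide) (by decide) (by decide) (by decide)
    (by decide)
  rcases k4 hD hs hK with hin | hin | hin | hin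
  · exact ⟨(0 : Fin 3), fun m _ v => stk_in hg hD hs h hin m v⟩
  · -- `a0` is the centre
    refine ⟨(2 : Fin 3), fun m hm v => ?_⟩
    rcases hm3 m with rfl | rfl | rfl
    · have h1 := stk_any_face hg hD hs h 1 3 2 0 (by decide) (by decide) (by decide) (by decide)
        (by decide) (by decide) (stk_any_swap (stk_any_cyc (stk_any_cyc hin))) (0 : Fin 3) 1 2 0 rfl rfl rfl v
      exact stk_any_cyc (stk_any_cyc h1)
    · have h1 := stk_any_face hg hD hs h 3 2 1 0 (by decide) (by decide) (by decide) (by decide)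
        (by decide) (by decide) (stk_any_swap (stk_any_cyc hin)) (1 : Fin 3) 1 2 0 rfl rfl rfl v
      exact stk_any_cyc (stk_any_cyc h1)
    · exact absurd rfl hm
  · -- `a1` is the centre
    refine ⟨(1 : Fin 3), fun m hm v => ?_⟩
    rcases hm3 m with rfl | rfl | rfl
    · have h1 := stk_any_face hg hD hs h 3 0 2 1 (by decide) (by decide) (by decide) (by decide)
        (by decide) (by decide) (stk_any_cyc (stk_any_cyc hin)) (0 : Fin 3) 2 0 1 rfl rfl rfl v
      exact stk_any_swap (stk_any_swap (stk_any_cyc h1))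
    · exact absurd rfl hm
    · have h1 := stk_any_face hg hD hs h 2 3 0 1 (by decide) (by decide) (by decide) (by decide)
        (by decide) (by decide) (stk_any_cyc hin) (2 : Fin 3) 2 0 1 rfl rfl rfl v
      exact stk_any_cyc h1
  · -- `a2` is the centre
    refine ⟨(0 : Fin 3), fun m hm v => ?_⟩
    rcases hm3 m with rfl | rfl | rfl
    · exact absurd rfl hm
    · have h1 := stk_any_face hg hD hs h 0 3 1 2 (by decide) (by decide) (by decide) (by decide)
        (by decide) (by decide) (stk_any_swap (stk_any_cyc (stk_any_cyc hin))) (1 : Fin 3) 0 1 2 rfl rfl rfl v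
      exact h1
    · have h1 := stk_any_face hg hD hs h 3 1 0 2 (by decide) (by decide) (by decide) (by decide)
        (by decide) (by decide) (stk_any_swap (stk_any_cyc hin)) (2 : Fin 3) 0 1 2 rfl rfl rfl v
      exact h1

theorem mem_part {s : ℕ} {B : Bse} {g : List Bse} (T : Finset (Lf s (B :: g))) (m : Fin B.M)
    (l : Lf s g) : l ∈ part T m ↔ (m, l) ∈ T := by
  classical
  unfold part
  constructor
  · intro h
    obtain ⟨x, hx, hxl⟩ := Finset.mem_image.1 h
    obtain ⟨h1, h2⟩ := Finset.mem_filter.1 hx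
    have h3 : x = (m, l) := Prod.ext h2 hxl
    rw [← h3]
    exact h1
  · intro h
    exact Finset.mem_image.2 ⟨(m, l), Finset.mem_filter.2 ⟨h, rfl⟩, rfl⟩

theorem card_part {s : ℕ} {B : Bse} {g : List Bse} (T : Finset (Lf s (B :: g))) :
    T.card = ∑ m, (part T m).card := by
  classical
  have h1 : T.card = ∑ m : Fin B.M, (T.filter (fun l => l.1 = m)).card :=
    Finset.card_eq_sum_card_fiberwise (f := fun l : Lf s (B :: g) => l.1) (t := Finset.univ)
      (fun x _ => Finset.mem_coe.2 (Finset.mem_univ _))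
  rw [h1]
  refine Finset.sum_congr rfl (fun m _ => ?_)
  have h2 : ((T.filter (fun l => l.1 = m)).image (fun l => l.2)).card =
      (T.filter (fun l => l.1 = m)).card := by
    apply Finset.card_image_of_injOn
    intro x hx y hy hxy
    have hx' := (Finset.mem_filter.1 (Finset.mem_coe.1 hx)).2
    have hy' := (Finset.mem_filter.1 (Finset.mem_coe.1 hy)).2
    exact Prod.ext (hx'.trans hy'.symm) hxy
  rw [← h2]
  congr 1

theorem card_lf_aux (s : ℕ) (g : List Bse) :
    Finite (Lf s g) ∧ Nat.card (Lf s g) = Nf g * s := by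
  induction g with
  | nil =>
    refine ⟨(inferInstance : Finite (Fin s)), ?_⟩
    change Nat.card (Fin s) = 1 * s
    rw [Nat.card_eq_fintype_card, Fintype.card_fin, one_mul]
  | cons B g ih =>
    obtain ⟨h1, h2⟩ := ih
    refine ⟨(inferInstance : Finite (Fin B.M × Lf s g)), ?_⟩
    change Nat.card (Fin B.M × Lf s g) = B.M * Nf g * s
    rw [Nat.card_prod, h2, Nat.card_eq_fintype_card, Fintype.card_fin, mul_assoc]

theorem card_lf (s : ℕ) (g : List Bse) (T : Finset (Lf s g)) : T.card ≤ Nf g * s := by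
  obtain ⟨h1, h2⟩ := card_lf_aux s g
  have := Fintype.ofFinite (Lf s g)
  rw [← h2, Nat.card_eq_fintype_card]
  exact Finset.card_le_univ T

theorem center (k s : ℕ) {V : Type} {A : V → V → Prop} {e : Wt (Option (Fin s)) (GG k) → V}
    (h : Emb s (GG k) A e) : ∃ d ∈ Set.range (fun v => e (Sum.inr v)),
      ∀ i : Fin 3, A d (e (Sum.inl i)) := by
  cases k with
  | zero =>
    refine ⟨e (Sum.inr none), ⟨none, rfl⟩, fun i => ?_⟩
    apply h.adj
    exact ⟨(fun hh => by cases hh), Or.inl rfl⟩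
  | succ k =>
    refine ⟨e (Sum.inr (Sum.inl (0 : Fin 1))), ⟨Sum.inl (0 : Fin 1), rfl⟩, fun i => ?_⟩
    apply h.adj
    refine Or.inl ⟨Fin.natAdd 3 (0 : Fin 1), Fin.castAdd 1 i, ?_, ?_, ?_⟩
    · show decide (Fin.natAdd 3 (0 : Fin 1) ≠ Fin.castAdd 1 i) = true
      revert i
      decide
    · rfl
    · fin_cases i <;> rfl

theorem frg_in_bv {H : Type} {B : Bse} {g : List Bse} (i : Fin (3 + B.I)) :
    (∃ c : Fin 3, i = Fin.castAdd B.I c ∧ bv H B g i = Sum.inl c) ∨
      (∃ k : Fin B.I, i = Fin.natAdd 3 k ∧ bv H B g i = Sum.inr (Sum.inl k)) := by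
  refine Fin.addCases (fun c => ?_) (fun k => ?_) i
  · left
    refine ⟨c, rfl, ?_⟩
    unfold bv
    rw [Fin.addCases_left]
  · right
    refine ⟨k, rfl, ?_⟩
    unfold bv
    rw [Fin.addCases_right]

theorem frg_in_GG (k : ℕ) : StkFrg (GG k) := by
  induction k with
  | zero => intro B hB; simp [GG] at hB
  | succ k ih =>
    intro B hB
    simp only [GG, List.mem_cons] at hB
    rcases hB with h | h | h
    · exact Or.inl h
    · exact Or.inr h
    · exact ih B h

theorem frg_in_FC (k s : ℕ) {V : Type} {A : V → V → Prop} {f : V → Pt} (hD : Drw A f)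
    (hs : Sy A) {e : Wt (Option (Fin s)) (frgB :: GG k) → V} (h : Emb s (frgB :: GG k) A e)
    (hin : ∀ v, inT (f (e (Sum.inl 0))) (f (e (Sum.inl 1))) (f (e (Sum.inl 2))) (f (e (Sum.inr v)))) :
    FC A f (fun i : Fin 10 => e (bv (Option (Fin s)) frgB (GG k) i)) where
  drw := hD
  sym := hs
  inj := by
    intro i j hij
    have h1 : bv (Option (Fin s)) frgB (GG k) i = bv (Option (Fin s)) frgB (GG k) j := h.inj hij
    rcases frg_in_bv (H := Option (Fin s)) (B := frgB) (g := GG k) i with ⟨c, hc, hc'⟩ | ⟨c, hc, hc'⟩ <;>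
    rcases frg_in_bv (H := Option (Fin s)) (B := frgB) (g := GG k) j with ⟨d, hd, hd'⟩ | ⟨d, hd, hd'⟩
    · rw [hc', hd'] at h1
      have h2 : c = d := Sum.inl_injective h1
      exact hc.trans (by rw [h2]; exact hd.symm)
    · rw [hc', hd'] at h1
      cases h1
    · rw [hc', hd'] at h1
      cases h1
    · rw [hc', hd'] at h1
      have h2 : c = d := Sum.inl_injective (Sum.inr_injective h1)
      exact hc.trans (by rw [h2]; exact hd.symm)
  adj := fun i j hij => h.adj _ _ (Or.inl ⟨i, j, hij, rfl, rfl⟩)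
  ins := by
    intro i hi
    have h0 : bv (Option (Fin s)) frgB (GG k) (0 : Fin 10) = Sum.inl 0 := rfl
    have h1 : bv (Option (Fin s)) frgB (GG k) (1 : Fin 10) = Sum.inl 1 := rfl
    have h2 : bv (Option (Fin s)) frgB (GG k) (2 : Fin 10) = Sum.inl 2 := rfl
    rcases frg_in_bv (H := Option (Fin s)) (B := frgB) (g := GG k) i with ⟨c, hc, hc'⟩ | ⟨c, hc, hc'⟩
    · exfalso
      have h3 : i.val = c.val := congrArg Fin.val hc
      have h4 := c.isLt
      omega
    · show inT (f (e (bv (Option (Fin s)) frgB (GG k) (0 : Fin 10))))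
        (f (e (bv (Option (Fin s)) frgB (GG k) (1 : Fin 10))))
        (f (e (bv (Option (Fin s)) frgB (GG k) (2 : Fin 10))))
        (f (e (bv (Option (Fin s)) frgB (GG k) i)))
      rw [h0, h1, h2, hc']
      exact hin _

/-- inside-type fragment: children contents are inside their faces, and if no face is missed by
the line then the line separates the corners 0 and 1 -/
theorem frg_in (k s : ℕ) {V : Type} {A : V → V → Prop} {f : V → Pt} (hD : Drw A f)
    (hs : Sy A) {e : Wt (Option (Fin s)) (frgB :: GG k) → V} (h : Emb s (frgB :: GG k) A e)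
    (hin : ∀ v, inT (f (e (Sum.inl 0))) (f (e (Sum.inl 1))) (f (e (Sum.inl 2))) (f (e (Sum.inr v)))) :
    (∀ (m : Fin frgB.M) (v : Vt (Option (Fin s)) (GG k)),
      inT (f (e (cv _ frgB (GG k) m (Sum.inl 0)))) (f (e (cv _ frgB (GG k) m (Sum.inl 1))))
        (f (e (cv _ frgB (GG k) m (Sum.inl 2)))) (f (e (cv _ frgB (GG k) m (Sum.inr v))))) ∧
    ((∀ m : Fin frgB.M, ∃ v : Vt (Option (Fin s)) (GG k),
      (f (e (cv _ frgB (GG k) m (Sum.inr v)))).2 = 0) →
      (f (e (Sum.inl 0))).2 * (f (e (Sum.inl 1))).2 < 0) := by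
  have hFC := frg_in_FC k s hD hs h hin
  have hpart : ∀ (m : Fin frgB.M) (v : Vt (Option (Fin s)) (GG k)),
      inT (f (e (cv _ frgB (GG k) m (Sum.inl 0)))) (f (e (cv _ frgB (GG k) m (Sum.inl 1))))
        (f (e (cv _ frgB (GG k) m (Sum.inl 2)))) (f (e (cv _ frgB (GG k) m (Sum.inr v)))) := by
    intro m v
    have hE := emb_child (Or.inr rfl) h m
    have hC := (content_cn (frg_in_GG k) hs hE).1
    have hc := center k s hE
    have := frag_blob hFC m hC (by
      rintro i ⟨w, hw⟩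
      have h1 := h.inj hw
      rcases frg_in_bv (H := Option (Fin s)) (B := frgB) (g := GG k) i with ⟨c, -, hc'⟩ | ⟨c, -, hc'⟩
      · rw [hc'] at h1
        cases h1
      · rw [hc'] at h1
        cases h1) hc (e (cv _ frgB (GG k) m (Sum.inr v))) ⟨v, rfl⟩
    exact this
  refine ⟨hpart, fun hz => ?_⟩
  have hres := frag_comb (fun i => (f (e (bv (Option (Fin s)) frgB (GG k) i))).2)
    (fun i hi => frag_mono hFC i hi) ?_
  · exact hres
  · intro m
    obtain ⟨v, hv⟩ := hz m
    have h1 := hpart m v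
    by_contra hcon
    refine line_avoid h1 ?_ hv
    rintro ⟨ha, hb⟩
    apply hcon
    constructor
    · rcases ha with ha | ha | ha
      · exact ⟨0, ha⟩
      · exact ⟨1, ha⟩
      · exact ⟨2, ha⟩
    · rcases hb with ha | ha | ha
      · exact ⟨0, ha⟩
      · exact ⟨1, ha⟩
      · exact ⟨2, ha⟩

theorem ub_in_stk (k : ℕ) : StkFrg (GG k) := by
  induction k with
  | zero => intro B hB; simp [GG] at hB
  | succ k ih =>
    intro B hB
    simp only [GG, List.mem_cons] at hB
    rcases hB with h | h | h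
    · exact Or.inl h
    · exact Or.inr h
    · exact ih B h

theorem ub_in_bv (H : Type) (g : List Bse) :
    cv H stkB g (0 : Fin 3) (Sum.inl 0) = Sum.inl 0 ∧
    cv H stkB g (0 : Fin 3) (Sum.inl 1) = Sum.inl 1 ∧
    cv H stkB g (1 : Fin 3) (Sum.inl 0) = Sum.inl 0 ∧
    cv H stkB g (1 : Fin 3) (Sum.inl 1) = Sum.inr (Sum.inl (0 : Fin 1)) ∧
    cv H stkB g (2 : Fin 3) (Sum.inl 0) = Sum.inr (Sum.inl (0 : Fin 1)) ∧
    cv H stkB g (2 : Fin 3) (Sum.inl 1) = Sum.inl 1 :=
  ⟨rfl, rfl, rfl, rfl, rfl, rfl⟩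

theorem ub_in_sum (c : Fin 3 → Fin 9 → ℕ) (C : ℕ) (h : ∀ m m', c m m' ≤ C) (a : Fin 3) (b : Fin 9)
    (h0 : c a b = 0) : ∑ m, ∑ m', c m m' ≤ 26 * C := by
  rw [← Fintype.sum_prod_type' (f := fun m m' => c m m')]
  rw [← Finset.sum_erase (Finset.univ : Finset (Fin 3 × Fin 9)) (a := (a, b)) (by simpa using h0)]
  refine (Finset.sum_le_card_nsmul _ _ C (fun p _ => h p.1 p.2)).trans (le_of_eq ?_)
  rw [Finset.card_erase_of_mem (Finset.mem_univ _)]
  simp

theorem ub_in (k s : ℕ) {V : Type} {A : V → V → Prop} {f : V → Pt} (hD : Drw A f)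
    (hs : Sy A) {e : Wt (Option (Fin s)) (GG k) → V} (h : Emb s (GG k) A e)
    (hin : ∀ v, inT (f (e (Sum.inl 0))) (f (e (Sum.inl 1))) (f (e (Sum.inl 2))) (f (e (Sum.inr v))))
    (T : Finset (Lf s (GG k))) (hT : ∀ l ∈ T, (f (e (Sum.inr (lf s _ l)))).2 = 0) :
    T.card ≤ 26 ^ k * s := by
  induction k with
  | zero =>
    have := card_lf s (GG 0) T
    simpa [Nf, GG] using this
  | succ k ih =>
    have hstk : StkFrg (frgB :: GG k) := by
      intro B hB
      rcases List.mem_cons.1 hB with h | h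
      · exact Or.inr h
      · exact ub_in_stk k B h
    have h' : Emb s (stkB :: frgB :: GG k) A e := h
    have h1 : ∀ m : Fin stkB.M, Emb s (frgB :: GG k) A (fun w => e (cv _ stkB (frgB :: GG k) m w)) :=
      fun m => emb_child (Or.inl rfl) h' m
    have hin1 : ∀ (m : Fin stkB.M) (v : Vt (Option (Fin s)) (frgB :: GG k)),
        inT (f (e (cv _ stkB (frgB :: GG k) m (Sum.inl 0))))
          (f (e (cv _ stkB (frgB :: GG k) m (Sum.inl 1))))
          (f (e (cv _ stkB (frgB :: GG k) m (Sum.inl 2))))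
          (f (e (cv _ stkB (frgB :: GG k) m (Sum.inr v)))) :=
      fun m v => stk_in hstk hD hs h' (hin (Sum.inl (0 : Fin 1))) m v
    have hfrg := fun m : Fin stkB.M => frg_in k s hD hs (h1 m) (hin1 m)
    have hT2 : ∀ (m : Fin stkB.M) (m' : Fin frgB.M),
        ∀ l ∈ part (s := s) (B := frgB) (g := GG k) (part (s := s) (B := stkB) (g := frgB :: GG k) T m) m',
        (f (e (cv _ stkB (frgB :: GG k) m (cv _ frgB (GG k) m' (Sum.inr (lf s _ l)))))).2 = 0 := by
      intro m m' l hl
      rw [mem_part, mem_part] at hl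
      exact hT _ hl
    have hcard : ∀ (m : Fin stkB.M) (m' : Fin frgB.M),
        (part (s := s) (B := frgB) (g := GG k) (part (s := s) (B := stkB) (g := frgB :: GG k) T m) m').card
          ≤ 26 ^ k * s :=
      fun m m' => ih (emb_child (Or.inr rfl) (h1 m) m') (fun v => (hfrg m).1 m' v) _ (hT2 m m')
    have hempty : ∃ (m : Fin stkB.M) (m' : Fin frgB.M),
        (part (s := s) (B := frgB) (g := GG k) (part (s := s) (B := stkB) (g := frgB :: GG k) T m) m').card
          = 0 := by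
      by_contra hne
      push Not at hne
      have key : ∀ m : Fin stkB.M, (f (e (cv _ stkB (frgB :: GG k) m (Sum.inl 0)))).2 *
          (f (e (cv _ stkB (frgB :: GG k) m (Sum.inl 1)))).2 < 0 := by
        intro m
        refine (hfrg m).2 fun m' => ?_
        obtain ⟨l, hl⟩ := Finset.card_pos.1 (Nat.pos_of_ne_zero (hne m m'))
        exact ⟨lf s _ l, hT2 m m' l hl⟩
      obtain ⟨e1, e2, e3, e4, e5, e6⟩ := ub_in_bv (Option (Fin s)) (frgB :: GG k)
      have k0 := key (0 : Fin 3)
      have k1 := key (1 : Fin 3)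
      have k2 := key (2 : Fin 3)
      rw [e1, e2] at k0
      rw [e3, e4] at k1
      rw [e5, e6] at k2
      obtain ⟨a, ha⟩ : ∃ a : ℝ, a = (f (e (Sum.inl 0))).2 := ⟨_, rfl⟩
      obtain ⟨b, hb⟩ : ∃ b : ℝ, b = (f (e (Sum.inl 1))).2 := ⟨_, rfl⟩
      obtain ⟨c, hc⟩ : ∃ c : ℝ, c = (f (e (Sum.inr (Sum.inl (0 : Fin 1))))).2 := ⟨_, rfl⟩
      have k0' : a * b < 0 := by rw [ha, hb]; exact k0
      have k1' : a * c < 0 := by rw [ha, hc]; exact k1
      have k2' : c * b < 0 := by rw [hc, hb]; exact k2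
      have k3 : 0 < (a * b) * (a * c) := mul_pos_of_neg_of_neg k0' k1'
      have k4 : (a * b) * (a * c) * (c * b) < 0 := mul_neg_of_pos_of_neg k3 k2'
      have k5 : (a * b) * (a * c) * (c * b) = (a * b * c) ^ 2 := by ring
      rw [k5] at k4
      exact absurd k4 (not_lt.2 (sq_nonneg _))
    obtain ⟨m₀, m₁, hm⟩ := hempty
    have hsum : T.card = ∑ m : Fin stkB.M, ∑ m' : Fin frgB.M,
        (part (s := s) (B := frgB) (g := GG k) (part (s := s) (B := stkB) (g := frgB :: GG k) T m) m').card := by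
      have h2 := card_part (s := s) (B := stkB) (g := frgB :: GG k) T
      have h3 := fun m : Fin stkB.M => card_part (s := s) (B := frgB) (g := GG k)
        (part (s := s) (B := stkB) (g := frgB :: GG k) T m)
      exact h2.trans (Finset.sum_congr rfl fun m _ => h3 m)
    rw [hsum]
    refine (ub_in_sum _ _ hcard m₀ m₁ hm).trans (le_of_eq ?_)
    rw [pow_succ]
    ring

theorem ub_frame_in_aux1 (k : ℕ) : StkFrg (GG k) := by
  induction k with
  | zero =>
    intro B hB
    exact absurd hB (List.not_mem_nil)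
  | succ k ih =>
    intro B hB
    have hB' : B ∈ stkB :: frgB :: GG k := hB
    rcases List.mem_cons.1 hB' with h | h
    · exact Or.inl h
    rcases List.mem_cons.1 h with h | h
    · exact Or.inr h
    · exact ih B h

theorem ub_frame_in_aux2 (k h : ℕ) : StkFrg (FF k h) := by
  induction h with
  | zero => exact ub_frame_in_aux1 k
  | succ h ih =>
    intro B hB
    have hB' : B ∈ stkB :: FF k h := hB
    rcases List.mem_cons.1 hB' with h' | h'
    · exact Or.inl h'
    · exact ih B h'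

theorem ub_frame_in (h k s : ℕ) {V : Type} {A : V → V → Prop} {f : V → Pt} (hD : Drw A f)
    (hs : Sy A) {e : Wt (Option (Fin s)) (FF k h) → V} (he : Emb s (FF k h) A e)
    (hin : ∀ v, inT (f (e (Sum.inl 0))) (f (e (Sum.inl 1))) (f (e (Sum.inl 2))) (f (e (Sum.inr v))))
    (T : Finset (Lf s (FF k h))) (hT : ∀ l ∈ T, (f (e (Sum.inr (lf s _ l)))).2 = 0) :
    T.card ≤ 3 ^ h * 26 ^ k * s := by
  induction h with
  | zero =>
    have := ub_in k s hD hs he hin T hT
    rw [pow_zero, one_mul]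
    exact this
  | succ h ih =>
    have key : ∀ (e : Wt (Option (Fin s)) (stkB :: FF k h) → V), Emb s (stkB :: FF k h) A e →
        (∀ v, inT (f (e (Sum.inl 0))) (f (e (Sum.inl 1))) (f (e (Sum.inl 2)))
          (f (e (Sum.inr v)))) →
        ∀ T : Finset (Lf s (stkB :: FF k h)),
          (∀ l ∈ T, (f (e (Sum.inr (lf s (stkB :: FF k h) l)))).2 = 0) →
          T.card ≤ 3 ^ (h + 1) * 26 ^ k * s := by
      intro e he hin T hT
      rw [card_part T]
      have hm : ∀ m : Fin stkB.M, (part T m).card ≤ 3 ^ h * 26 ^ k * s := by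
        intro m
        refine ih (e := fun w => e (cv _ stkB (FF k h) m w)) (emb_child (Or.inl rfl) he m)
          (fun v => ?_) (part T m) (fun l hl => ?_)
        · exact stk_in (ub_frame_in_aux2 k h) hD hs he (hin (Sum.inl (0 : Fin 1))) m v
        · exact hT (m, l) ((mem_part T m l).1 hl)
      calc ∑ m : Fin stkB.M, (part T m).card ≤ ∑ _m : Fin stkB.M, 3 ^ h * 26 ^ k * s :=
            Finset.sum_le_sum fun m _ => hm m
        _ = 3 * (3 ^ h * 26 ^ k * s) := by
            rw [Finset.sum_const, Finset.card_univ, Fintype.card_fin, smul_eq_mul]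
            rfl
        _ = 3 ^ (h + 1) * 26 ^ k * s := by
            rw [pow_succ]
            ring
        _ ≤ _ := le_rfl
    exact key e he hin T hT

theorem ub_any_StkFrg_GG (k : ℕ) : StkFrg (GG k) := by
  induction k with
  | zero =>
    intro B hB
    simp [GG] at hB
  | succ k ih =>
    intro B hB
    simp only [GG, List.mem_cons] at hB
    rcases hB with h | h | h
    · exact Or.inl h
    · exact Or.inr h
    · exact ih B h

theorem ub_any_StkFrg (k h : ℕ) : StkFrg (FF k h) := by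
  induction h with
  | zero => exact ub_any_StkFrg_GG k
  | succ h ih =>
    intro B hB
    simp only [FF, List.mem_cons] at hB
    rcases hB with h1 | h1
    · exact Or.inl h1
    · exact ih B h1

theorem ub_any_Nf (k : ℕ) : Nf (GG k) = 27 ^ k := by
  induction k with
  | zero => rfl
  | succ k ih =>
    have h1 : Nf (GG (k + 1)) = 3 * (9 * Nf (GG k)) := rfl
    rw [h1, ih, pow_succ]
    ring

theorem ub_any (h k s : ℕ) {V : Type} {A : V → V → Prop} {f : V → Pt} (hD : Drw A f)
    (hs : Sy A) {e : Wt (Option (Fin s)) (FF k h) → V} (he : Emb s (FF k h) A e)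
    (T : Finset (Lf s (FF k h))) (hT : ∀ l ∈ T, (f (e (Sum.inr (lf s _ l)))).2 = 0) :
    T.card + 26 ^ k * s ≤ (3 ^ h * 26 ^ k + 27 ^ k) * s := by
  induction h with
  | zero =>
    have h1 : T.card ≤ Nf (GG k) * s := card_lf s (GG k) T
    rw [ub_any_Nf] at h1
    nlinarith [h1]
  | succ h ih =>
    obtain ⟨m0, hm0⟩ := stk_any (ub_any_StkFrg k h) hD hs he
    have hc : T.card = ∑ m, (part (g := FF k h) (B := stkB) T m).card :=
      card_part (g := FF k h) (B := stkB) T
    have hpT : ∀ m, ∀ l ∈ part (g := FF k h) (B := stkB) T m,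
        (f (e (cv _ stkB (FF k h) m (Sum.inr (lf s _ l))))).2 = 0 := by
      intro m l hl
      exact hT (m, l) ((mem_part (s := s) (g := FF k h) (B := stkB) T m l).1 hl)
    have h0 := ih (emb_child (Or.inl rfl) he m0) (part (g := FF k h) (B := stkB) T m0) (hpT m0)
    have hoth : ∀ m ∈ Finset.univ.erase m0, (part (g := FF k h) (B := stkB) T m).card ≤
        3 ^ h * 26 ^ k * s := by
      intro m hm
      exact ub_frame_in h k s hD hs (emb_child (Or.inl rfl) he m)
        (hm0 m (Finset.ne_of_mem_erase hm)) _ (hpT m)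
    have hsum := Finset.sum_le_card_nsmul _ _ _ hoth
    have hcard : (Finset.univ.erase m0).card = 2 := by
      rw [Finset.card_erase_of_mem (Finset.mem_univ _), Finset.card_univ, Fintype.card_fin]
      rfl
    rw [hcard, smul_eq_mul] at hsum
    have hadd := Finset.add_sum_erase Finset.univ
      (fun m => (part (g := FF k h) (B := stkB) T m).card) (Finset.mem_univ m0)
    rw [← hc] at hadd
    have hadd' : T.card = (part (g := FF k h) (B := stkB) T m0).card +
      ∑ m ∈ Finset.univ.erase m0, (part (g := FF k h) (B := stkB) T m).card := hadd.symm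
    rw [hadd']
    have e1 : (3 ^ (h + 1) * 26 ^ k + 27 ^ k) * s =
        2 * (3 ^ h * 26 ^ k * s) + (3 ^ h * 26 ^ k + 27 ^ k) * s := by
      rw [pow_succ]; ring
    rw [e1]
    omega

end Pool.Agent.Helper745.FSub
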