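import Pool.Agent.Helper745.FS.A3

set_option autoImplicit false

namespace Pool.Agent.Helper745.FSub

theorem ub_final_one (h k : ℕ) {V : Type} {A : V → V → Prop} (hs : Sy A) {f : V → Pt}
    (hD : Drw A f) (s : ℕ) (e : Wt (Option (Fin s)) (FF k h) → V)
    (he : Emb s (FF k h) A e) (F : Finset V) (h0 : ∀ v ∈ F, (f v).2 = 0)
    (hF : ∀ v ∈ F, ∃ l, v = e (Sum.inr (lf s _ l))) :
    F.card ≤ (3 ^ h * 26 ^ k + 27 ^ k) * s := by
  classical
  have hsub : (F : Set V) ⊆ (fun l => e (Sum.inr (lf s (FF k h) l))) '' Set.univ := by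
    intro v hv
    obtain ⟨l, hl⟩ := hF v (Finset.mem_coe.1 hv)
    exact ⟨l, Set.mem_univ _, hl.symm⟩
  obtain ⟨T, -, hT⟩ := Finset.subset_set_image_iff.1 hsub
  have h1 : F.card ≤ T.card := by
    rw [← hT]
    exact Finset.card_image_le
  have h2 := ub_any h k s hD hs he T (by
    intro l hl
    apply h0
    rw [← hT]
    exact Finset.mem_image_of_mem _ hl)
  have h3 : T.card ≤ (3 ^ h * 26 ^ k + 27 ^ k) * s := le_trans (Nat.le_add_right _ _) h2
  exact le_trans h1 h3

theorem ub_final (h k : ℕ) (V : Type) (A : V → V → Prop) (hs : Sy A) (f : V → Pt) (hD : Drw A f)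
    (T : ℕ) (sz : ℕ → ℕ) (e : (t : ℕ) → Wt (Option (Fin (sz t))) (FF k h) → V)
    (he : ∀ t < T, Emb (sz t) (FF k h) A (e t)) (S' : Finset V)
    (h0 : ∀ v ∈ S', (f v).2 = 0) (r : ℕ) (I : Finset V) (hI : I.card ≤ r)
    (hS : ∀ v ∈ S', v ∈ I ∨ ∃ t < T, ∃ l, v = e t (Sum.inr (lf (sz t) _ l))) :
    S'.card ≤ (3 ^ h * 26 ^ k + 27 ^ k) * (∑ t ∈ Finset.range T, sz t) + r := by
  classical
  have hcov : S' ⊆ I ∪ (Finset.range T).biUnion
      (fun t => S'.filter (fun v => ∃ l, v = e t (Sum.inr (lf (sz t) _ l)))) := by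
    intro v hv
    rcases hS v hv with hI' | ⟨t, ht, hl⟩
    · exact Finset.mem_union_left _ hI'
    · apply Finset.mem_union_right
      rw [Finset.mem_biUnion]
      exact ⟨t, Finset.mem_range.2 ht, Finset.mem_filter.2 ⟨hv, hl⟩⟩
  have hb : ∀ t ∈ Finset.range T,
      (S'.filter (fun v => ∃ l, v = e t (Sum.inr (lf (sz t) _ l)))).card ≤
        (3 ^ h * 26 ^ k + 27 ^ k) * sz t := by
    intro t ht
    apply ub_final_one h k hs hD (sz t) (e t) (he t (Finset.mem_range.1 ht))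
    · intro v hv
      exact h0 v (Finset.mem_filter.1 hv).1
    · intro v hv
      exact (Finset.mem_filter.1 hv).2
  calc S'.card ≤ (I ∪ (Finset.range T).biUnion
      (fun t => S'.filter (fun v => ∃ l, v = e t (Sum.inr (lf (sz t) _ l))))).card :=
        Finset.card_le_card hcov
    _ ≤ I.card + ((Finset.range T).biUnion
      (fun t => S'.filter (fun v => ∃ l, v = e t (Sum.inr (lf (sz t) _ l))))).card :=
        Finset.card_union_le _ _
    _ ≤ r + ∑ t ∈ Finset.range T, (3 ^ h * 26 ^ k + 27 ^ k) * sz t := by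
        apply Nat.add_le_add hI
        exact le_trans Finset.card_biUnion_le (Finset.sum_le_sum hb)
    _ = (3 ^ h * 26 ^ k + 27 ^ k) * (∑ t ∈ Finset.range T, sz t) + r := by
        rw [Finset.mul_sum, Nat.add_comm]

end Pool.Agent.Helper745.FSub
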