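import Pool.Agent.Helper745.FS.Defs

set_option autoImplicit false

namespace Pool.Agent.Helper745.FSub

theorem lemO {xp sp xq sq xr sr : ℝ} (hxp : 0 < xp) (hsp : 0 < sp) (hxq : 0 < xq) (hsq : 0 < sq)
    (hxr : 0 < xr) (hsr : 0 < sr) (h1 : 4 * sq ≤ sp) (h2 : 4 * sr ≤ sp) (h3 : 4 * xr ≤ xq)
    (h4 : 4 * xr ≤ xp ∨ (4 * xp ≤ xr ∧ 4 * sr ≤ sq)) : det0 xp sp xq sq xr sr < 0 := by
  have e : det0 xp sp xq sq xr sr =
      -(sp * xp * (xq - xr)) + sq * xq * (xp - xr) + sr * xr * (xq - xp) := by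
    unfold det0; ring
  rw [e]
  rcases h4 with h | ⟨h, h'⟩
  · have a1 : sp * xp * (3 / 4 * xq) ≤ sp * xp * (xq - xr) :=
      mul_le_mul_of_nonneg_left (by linarith) (by positivity)
    have a2 : sq * xq * (xp - xr) ≤ sq * xq * xp :=
      mul_le_mul_of_nonneg_left (by linarith) (by positivity)
    have a3 : 4 * sq * (xq * xp) ≤ sp * (xq * xp) :=
      mul_le_mul_of_nonneg_right h1 (by positivity)
    have a4 : sr * xr * (xq - xp) ≤ sr * xr * xq :=
      mul_le_mul_of_nonneg_left (by linarith) (by positivity)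
    have a5 : 4 * sr * (xr * xq) ≤ sp * (xr * xq) :=
      mul_le_mul_of_nonneg_right h2 (by positivity)
    have a6 : 4 * xr * (sp * xq) ≤ xp * (sp * xq) :=
      mul_le_mul_of_nonneg_right h (by positivity)
    have a7 : 0 < sp * xp * xq := by positivity
    nlinarith
  · have a1 : 0 < sp * xp * (xq - xr) := by
      have : 0 < xq - xr := by linarith
      positivity
    have a2 : sq * xq * (xp - xr) ≤ sq * xq * (-(3 / 4) * xr) :=
      mul_le_mul_of_nonneg_left (by linarith) (by positivity)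
    have a4 : sr * xr * (xq - xp) ≤ sr * xr * xq :=
      mul_le_mul_of_nonneg_left (by linarith) (by positivity)
    have a5 : 4 * sr * (xr * xq) ≤ sq * (xr * xq) :=
      mul_le_mul_of_nonneg_right h' (by positivity)
    have a7 : 0 < sq * (xr * xq) := by positivity
    nlinarith

theorem tab_ori_dec {ξ : ℕ → ℝ} (hξ : Dec ξ) {a b : ℕ} (h : a < b) : 4 * ξ b ≤ ξ a := by
  obtain ⟨k, rfl⟩ : ∃ k, b = a + 1 + k := ⟨b - (a + 1), by omega⟩
  have h1 : ∀ k, ξ (a + 1 + k) ≤ ξ (a + 1) := by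
    intro k
    induction k with
    | zero => exact le_rfl
    | succ k ih =>
      have h2 := hξ (a + 1 + k)
      have h3 := hξ (a + 1 + k + 1)
      have h4 : a + 1 + (k + 1) = a + 1 + k + 1 := by omega
      rw [h4]
      linarith [h2.2, h3.1]
  have h5 := (hξ a).2
  linarith [h1 k]

theorem tab_ori_neg0 (F : Frm) (ξ η : ℕ → ℝ) (hξ : Dec ξ) (hη : Dec η) (B : Bse)
    (a c : Fin (3 + B.I) → ℕ) (hw : ∀ i, 0 < F.wt (ξ (a i)) (η (c i)))
    (ha : ∀ i j, B.ra i < B.ra j → a i < a j) (hc : ∀ i j, B.rc i < B.rc j → c i < c j)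
    (p q r : Fin (3 + B.I)) (h : B.neg0 p q r = true) :
    0 < ori (F.pt (ξ (a p)) (η (c p))) (F.pt (ξ (a q)) (η (c q))) (F.pt (ξ (a r)) (η (c r))) := by
  unfold Bse.neg0 at h
  rw [decide_eq_true_eq] at h
  obtain ⟨h1, h2, h3, h4⟩ := h
  apply F.det _ _ _ _ _ _ (hw p) (hw q) (hw r)
  apply lemO (hξ _).1 (hη _).1 (hξ _).1 (hη _).1 (hξ _).1 (hη _).1
  · exact tab_ori_dec hη (hc _ _ h1)
  · exact tab_ori_dec hη (hc _ _ h2)
  · exact tab_ori_dec hξ (ha _ _ h3)
  · rcases h4 with h4 | ⟨h4, h5⟩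
    · exact Or.inl (tab_ori_dec hξ (ha _ _ h4))
    · exact Or.inr ⟨tab_ori_dec hξ (ha _ _ h4), tab_ori_dec hη (hc _ _ h5)⟩

theorem tab_ori_cyc (x y z : Pt) : ori x y z = ori y z x := by
  unfold ori
  ring

/-- table orientations for points of a chain frame -/
theorem tab_ori (F : Frm) (ξ η : ℕ → ℝ) (hξ : Dec ξ) (hη : Dec η) (B : Bse)
    (a c : Fin (3 + B.I) → ℕ) (hw : ∀ i, 0 < F.wt (ξ (a i)) (η (c i)))
    (ha : ∀ i j, B.ra i < B.ra j → a i < a j) (hc : ∀ i j, B.rc i < B.rc j → c i < c j) :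
    BaseOK B (fun i => F.pt (ξ (a i)) (η (c i))) := by
  intro i j k h
  unfold Bse.neg at h
  rw [Bool.or_eq_true, Bool.or_eq_true] at h
  rcases h with (h | h) | h
  · exact tab_ori_neg0 F ξ η hξ hη B a c hw ha hc i j k h
  · rw [tab_ori_cyc]
    exact tab_ori_neg0 F ξ η hξ hη B a c hw ha hc j k i h
  · rw [tab_ori_cyc, tab_ori_cyc]
    exact tab_ori_neg0 F ξ η hξ hη B a c hw ha hc k i j h

theorem base_stk_aff (p q x y z : Pt) (hz : z ∈ segment ℝ x y) :
    ∃ a b : ℝ, 0 ≤ a ∧ 0 ≤ b ∧ a + b = 1 ∧ ori p q z = a * ori p q x + b * ori p q y := by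
  obtain ⟨a, b, ha, hb, hab, rfl⟩ := hz
  refine ⟨a, b, ha, hb, hab, ?_⟩
  have hb' : b = 1 - a := by linarith
  subst hb'
  simp only [ori, Prod.fst_add, Prod.snd_add, Prod.smul_fst, Prod.smul_snd, smul_eq_mul]
  ring

theorem base_stk_zero (p q z : Pt) (hz : z ∈ segment ℝ p q) : ori p q z = 0 := by
  obtain ⟨a, b, -, -, -, h⟩ := base_stk_aff p q p q z hz
  have h1 : ori p q p = 0 := by simp only [ori]; ring
  have h2 : ori p q q = 0 := by simp only [ori]; ring
  rw [h, h1, h2]; ring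

theorem base_stk_disj (p q x y : Pt) (h1 : 0 < ori p q x * ori p q y) :
    Disjoint (segment ℝ p q) (segment ℝ x y) := by
  rw [Set.disjoint_left]
  intro z hz hz'
  have h0 := base_stk_zero p q z hz
  obtain ⟨a, b, ha, hb, hab, h⟩ := base_stk_aff p q x y z hz'
  rw [h0] at h
  rcases pos_and_pos_or_neg_and_neg_of_mul_pos h1 with ⟨hx, hy⟩ | ⟨hx, hy⟩
  · rcases lt_or_eq_of_le ha with ha' | ha'
    · have := mul_pos ha' hx
      have := mul_nonneg hb hy.le
      linarith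
    · have hb1 : b = 1 := by linarith
      rw [← ha', hb1] at h
      linarith
  · rcases lt_or_eq_of_le ha with ha' | ha'
    · have := mul_neg_of_pos_of_neg ha' hx
      have := mul_nonpos_of_nonneg_of_nonpos hb hy.le
      linarith
    · have hb1 : b = 1 := by linarith
      rw [← ha', hb1] at h
      linarith

theorem base_stk_disj' (p q x y : Pt) (h1 : 0 < ori x y p * ori x y q) :
    Disjoint (segment ℝ p q) (segment ℝ x y) := (base_stk_disj x y p q h1).symm

theorem base_stk_notin (p q x : Pt) (h : ori p q x ≠ 0) : x ∉ segment ℝ p q :=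
  fun hx => h (base_stk_zero p q x hx)

theorem base_stk_le (p q x y z : Pt) (hz : z ∈ segment ℝ x y) (hx : ori p q x ≤ 0)
    (hy : ori p q y ≤ 0) : ori p q z ≤ 0 := by
  obtain ⟨a, b, ha, hb, hab, h⟩ := base_stk_aff p q x y z hz
  rw [h]
  have h1 := mul_nonpos_of_nonneg_of_nonpos ha hx
  have h2 := mul_nonpos_of_nonneg_of_nonpos hb hy
  linarith

theorem base_stk_bary (q r a b c p : Pt) : ori q r p * ori a b c =
    ori q r a * ori b c p + ori q r b * ori c a p + ori q r c * ori a b p := by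
  simp only [ori]; ring

theorem base_stk_main (bp : Fin 4 → Pt) (h012 : 0 < ori (bp 0) (bp 1) (bp 2))
    (h013 : 0 < ori (bp 0) (bp 1) (bp 3)) (h032 : 0 < ori (bp 0) (bp 3) (bp 2))
    (h312 : 0 < ori (bp 3) (bp 1) (bp 2)) : BG stkB bp := by
  have rot : ∀ a b c : Pt, ori b c a = ori a b c := by intro a b c; simp only [ori]; ring
  have swp : ∀ a b c : Pt, ori a c b = - ori a b c := by intro a b c; simp only [ori]; ring
  have z1 : ∀ a b : Pt, ori a b a = 0 := by intro a b; simp only [ori]; ring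
  have z2 : ∀ a b : Pt, ori a b b = 0 := by intro a b; simp only [ori]; ring
  have z3 : ∀ a b : Pt, ori a a b = 0 := by intro a b; simp only [ori]; ring
  generalize hA : bp 0 = A at *
  generalize hB : bp 1 = B at *
  generalize hC : bp 2 = C at *
  generalize hD : bp 3 = D at *
  -- signs
  have p1 : 0 < ori B C A := by rw [rot]; exact h012
  have p2 : 0 < ori C A B := by rw [rot, rot]; exact h012
  have p3 : 0 < ori B D A := by rw [rot]; exact h013
  have p4 : 0 < ori D A B := by rw [rot, rot]; exact h013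
  have p5 : 0 < ori D C A := by rw [rot]; exact h032
  have p6 : 0 < ori C A D := by rw [rot, rot]; exact h032
  have p7 : 0 < ori B C D := by rw [rot]; exact h312
  have p8 : 0 < ori C D B := by rw [rot, rot]; exact h312
  have n0 : ori A C B < 0 := by rw [swp]; linarith
  have n1 : ori B A C < 0 := by rw [swp]; linarith
  have n2 : ori C B A < 0 := by rw [swp]; linarith
  have n3 : ori A D B < 0 := by rw [swp]; linarith
  have n4 : ori B A D < 0 := by rw [swp]; linarith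
  have n5 : ori D B A < 0 := by rw [swp]; linarith
  have n6 : ori A C D < 0 := by rw [swp]; linarith
  have n7 : ori D A C < 0 := by rw [swp]; linarith
  have n8 : ori C D A < 0 := by rw [swp]; linarith
  have n9 : ori D C B < 0 := by rw [swp]; linarith
  have n10 : ori B D C < 0 := by rw [swp]; linarith
  have n11 : ori C B D < 0 := by rw [swp]; linarith
  have hne : ∀ i j k : Fin 4, i ≠ j → k ≠ i → k ≠ j → ori (bp i) (bp j) (bp k) ≠ 0 := by
    intro i j k h1 h2 h3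
    fin_cases i <;> fin_cases j <;> fin_cases k <;>
      first
      | exact absurd rfl h1
      | exact absurd rfl h2
      | exact absurd rfl h3
      | (simp only [Fin.zero_eta, Fin.mk_one, Fin.reduceFinMk, Fin.isValue, hA, hB, hC, hD]
         first
         | exact ne_of_gt (by assumption)
         | exact ne_of_lt (by assumption))
  refine ⟨?_, ?_, ?_, ?_, ?_, ?_, ?_, ?_⟩
  · intro i j hij
    by_contra hne'
    have ex : ∀ i j : Fin 4, ∃ k : Fin 4, k ≠ i ∧ k ≠ j := by decide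
    obtain ⟨k, hk1, hk2⟩ := ex i j
    have := hne i j k hne' hk1 hk2
    rw [hij] at this
    exact this (z3 _ _)
  · intro i j k l hij hkl h1 h2 h3 h4
    have hij' : i ≠ j := of_decide_eq_true hij
    have hkl' : k ≠ l := of_decide_eq_true hkl
    change Fin 4 at i j k l
    clear hij hkl
    fin_cases i <;> fin_cases j <;> fin_cases k <;> fin_cases l <;>
      first
      | exact absurd rfl hij'
      | exact absurd rfl hkl'
      | exact absurd rfl h1
      | exact absurd rfl h2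
      | exact absurd rfl h3
      | exact absurd rfl h4
      | (simp only [Fin.zero_eta, Fin.mk_one, Fin.reduceFinMk, Fin.isValue, hA, hB, hC, hD]
         first
         | exact base_stk_disj _ _ _ _ (mul_pos (by assumption) (by assumption))
         | exact base_stk_disj _ _ _ _ (mul_pos_of_neg_of_neg (by assumption) (by assumption))
         | exact base_stk_disj' _ _ _ _ (mul_pos (by assumption) (by assumption))
         | exact base_stk_disj' _ _ _ _ (mul_pos_of_neg_of_neg (by assumption) (by assumption)))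
  · intro i j k hij h1 h2
    have hij' : i ≠ j := of_decide_eq_true hij
    exact base_stk_notin _ _ _ (hne i j k hij' h1 h2)
  · intro m i j hij p hp hin
    have hij' : i ≠ j := of_decide_eq_true hij
    change Fin 4 at i j
    change Fin 3 at m
    clear hij
    obtain ⟨g1, g2, g3⟩ := hin
    fin_cases m <;> fin_cases i <;> fin_cases j <;>
      first
      | exact absurd rfl hij'
      | (simp only [Fin.zero_eta, Fin.mk_one, Fin.reduceFinMk, Fin.isValue, hA, hB, hC, hD,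
          stkB, Matrix.cons_val, Matrix.cons_val_zero, Matrix.cons_val_one] at g1 g2 g3 hp
         first
         | exact absurd g1 (not_lt.mpr (base_stk_le _ _ _ _ _ hp
            (by first | exact (z1 _ _).le | exact (z2 _ _).le | exact le_of_lt (by assumption))
            (by first | exact (z1 _ _).le | exact (z2 _ _).le | exact le_of_lt (by assumption))))
         | exact absurd g2 (not_lt.mpr (base_stk_le _ _ _ _ _ hp
            (by first | exact (z1 _ _).le | exact (z2 _ _).le | exact le_of_lt (by assumption))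
            (by first | exact (z1 _ _).le | exact (z2 _ _).le | exact le_of_lt (by assumption))))
         | exact absurd g3 (not_lt.mpr (base_stk_le _ _ _ _ _ hp
            (by first | exact (z1 _ _).le | exact (z2 _ _).le | exact le_of_lt (by assumption))
            (by first | exact (z1 _ _).le | exact (z2 _ _).le | exact le_of_lt (by assumption)))))
  · intro m m' hmm p ⟨hp, hp'⟩
    change Fin 3 at m m'
    obtain ⟨g1, g2, g3⟩ := hp
    obtain ⟨k1, k2, k3⟩ := hp'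
    have opp : ∀ a b : Pt, 0 < ori a b p → 0 < ori b a p → False := by
      intro a b h1 h2
      have : ori b a p = - ori a b p := by simp only [ori]; ring
      linarith
    fin_cases m <;> fin_cases m' <;>
      first
      | exact absurd rfl hmm
      | (simp only [Fin.zero_eta, Fin.mk_one, Fin.reduceFinMk, Fin.isValue, hA, hB, hC, hD,
          stkB, Matrix.cons_val, Matrix.cons_val_zero, Matrix.cons_val_one] at g1 g2 g3 k1 k2 k3
         first
         | exact opp _ _ g1 k1 | exact opp _ _ g1 k2 | exact opp _ _ g1 k3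
         | exact opp _ _ g2 k1 | exact opp _ _ g2 k2 | exact opp _ _ g2 k3
         | exact opp _ _ g3 k1 | exact opp _ _ g3 k2 | exact opp _ _ g3 k3)
  · intro k
    change Fin 1 at k
    have hk : k = 0 := Subsingleton.elim _ _
    subst hk
    change 0 < ori (bp 0) (bp 1) (bp 3) ∧ 0 < ori (bp 1) (bp 2) (bp 3) ∧
      0 < ori (bp 2) (bp 0) (bp 3)
    rw [hA, hB, hC, hD]
    exact ⟨h013, p7, p6⟩
  · intro m p hin
    change Fin 3 at m
    change 0 < ori (bp 0) (bp 1) p ∧ 0 < ori (bp 1) (bp 2) p ∧ 0 < ori (bp 2) (bp 0) p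
    rw [hA, hB, hC]
    obtain ⟨g1, g2, g3⟩ := hin
    have key : ∀ q r a b c : Pt, 0 < ori a b c → 0 ≤ ori q r a → 0 ≤ ori q r b → 0 ≤ ori q r c →
        (0 < ori q r a ∨ 0 < ori q r b ∨ 0 < ori q r c) →
        0 < ori a b p → 0 < ori b c p → 0 < ori c a p → 0 < ori q r p := by
      intro q r a b c h0 ha hb hc hor k1 k2 k3
      have e := base_stk_bary q r a b c p
      have t1 := mul_nonneg ha k2.le
      have t2 := mul_nonneg hb k3.le
      have t3 := mul_nonneg hc k1.le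
      have t4 : 0 < ori q r p * ori a b c := by
        rw [e]
        rcases hor with h | h | h
        · have := mul_pos h k2; linarith
        · have := mul_pos h k3; linarith
        · have := mul_pos h k1; linarith
      exact (pos_iff_pos_of_mul_pos t4).mpr h0
    have w1 : ∀ a b : Pt, 0 ≤ ori a b a := fun a b => (z1 a b).ge
    have w2 : ∀ a b : Pt, 0 ≤ ori a b b := fun a b => (z2 a b).ge
    fin_cases m <;>
      (simp only [Fin.zero_eta, Fin.mk_one, Fin.reduceFinMk, Fin.isValue, hA, hB, hC, hD,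
          stkB, Matrix.cons_val, Matrix.cons_val_zero, Matrix.cons_val_one] at g1 g2 g3)
    · refine ⟨g1, ?_, ?_⟩
      · exact key B C A B D h013 p1.le (w1 _ _) p7.le (Or.inl p1) g1 g2 g3
      · exact key C A A B D h013 (w2 _ _) p2.le p6.le (Or.inr (Or.inl p2)) g1 g2 g3
    · refine ⟨?_, ?_, g3⟩
      · exact key A B A D C h032 (w1 _ _) h013.le h012.le (Or.inr (Or.inl h013)) g1 g2 g3
      · exact key B C A D C h032 p1.le p7.le (w2 _ _) (Or.inl p1) g1 g2 g3
    · refine ⟨?_, g2, ?_⟩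
      · exact key A B D B C h312 h013.le (w2 _ _) h012.le (Or.inl h013) g1 g2 g3
      · exact key C A D B C h312 p6.le p2.le (w1 _ _) (Or.inl p6) g1 g2 g3
  · intro m i hin
    change Fin 4 at i
    change Fin 3 at m
    obtain ⟨g1, g2, g3⟩ := hin
    fin_cases m <;> fin_cases i <;>
      (simp only [Fin.zero_eta, Fin.mk_one, Fin.reduceFinMk, Fin.isValue, hA, hB, hC, hD,
          stkB, Matrix.cons_val, Matrix.cons_val_zero, Matrix.cons_val_one] at g1 g2 g3
       first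
       | (rw [z1] at g1; exact absurd g1 (lt_irrefl _))
       | (rw [z2] at g1; exact absurd g1 (lt_irrefl _))
       | (rw [z1] at g2; exact absurd g2 (lt_irrefl _))
       | (rw [z2] at g2; exact absurd g2 (lt_irrefl _))
       | linarith)

theorem base_stk (bp : Fin (3 + stkB.I) → Pt) (h : BaseOK stkB bp) : BG stkB bp := by
  have n1 : stkB.neg (0 : Fin 4) (1 : Fin 4) (2 : Fin 4) = true := by decide +kernel
  have n2 : stkB.neg (0 : Fin 4) (1 : Fin 4) (3 : Fin 4) = true := by decide +kernel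
  have n3 : stkB.neg (0 : Fin 4) (3 : Fin 4) (2 : Fin 4) = true := by decide +kernel
  have n4 : stkB.neg (3 : Fin 4) (1 : Fin 4) (2 : Fin 4) = true := by decide +kernel
  have k1 := h (0 : Fin 4) (1 : Fin 4) (2 : Fin 4) n1
  have k2 := h (0 : Fin 4) (1 : Fin 4) (3 : Fin 4) n2
  have k3 := h (0 : Fin 4) (3 : Fin 4) (2 : Fin 4) n3
  have k4 := h (3 : Fin 4) (1 : Fin 4) (2 : Fin 4) n4
  exact base_stk_main bp k1 k2 k3 k4

theorem place_glen (g : List Bse) (hg : StkFrg g) : 1 ≤ glen g := by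
  induction g with
  | nil => exact le_refl 1
  | cons B g ih =>
    have h1 := ih (fun B' hB' => hg B' (List.mem_cons_of_mem _ hB'))
    rcases hg B List.mem_cons_self with h | h
    · subst h
      show 1 ≤ 3 * glen g + 0
      omega
    · subst h
      show 1 ≤ 9 * glen g + 6
      omega

theorem place_anti {ξ : ℕ → ℝ} (h : Dec ξ) {i j : ℕ} (hij : i ≤ j) : ξ j ≤ ξ i := by
  have h3 : Antitone ξ := antitone_nat_of_succ_le (fun n => by
    have h1 := h n
    have h2 := h (n + 1)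
    linarith [h1.2, h2.1])
  exact h3 hij

theorem place_rot (a b c : Pt) : ori a b c = ori b c a := by
  unfold ori
  ring

theorem place_nil (F : Frm) (ξ η : ℕ → ℝ) (hξ : Dec ξ) (hη : Dec η)
    (P : Finset Pt) (n R : ℕ) (hw : ∀ a ≤ R, ∀ c ≤ R, 0 < F.wt (ξ a) (η c))
    (hbox : ∀ j < R, ∃ Q ⊆ P, n ≤ Q.card ∧ ∀ q ∈ Q, InBox F ξ η j q)
    (s : ℕ) (hs : s + 1 ≤ R) (A C : Fin 3 → ℕ) (hAR : ∀ i, A i ≤ R) (hCR : ∀ i, C i ≤ R)
    (hA0 : A 0 ≤ s) (hC0 : C 0 ≤ s) (hA1 : A 1 ≤ s) (hC1 : s + 1 ≤ C 1)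
    (hA2 : s + 1 ≤ A 2) (hC2 : s + 1 ≤ C 2) :
    0 < ori (F.pt (ξ (A 0)) (η (C 0))) (F.pt (ξ (A 1)) (η (C 1))) (F.pt (ξ (A 2)) (η (C 2))) ∧
      ∃ Q ⊆ P, n ≤ Q.card ∧ ∀ q ∈ Q, inP (fun i => F.pt (ξ (A i)) (η (C i))) q := by
  have hx0 := place_anti hξ hA0
  have hx1 := place_anti hξ hA1
  have hx2 := place_anti hξ hA2
  have hy0 := place_anti hη hC0
  have hy1 := place_anti hη hC1
  have hy2 := place_anti hη hC2
  have hs1 := (hξ s).2
  have ht1 := (hη s).2
  have px0 := (hξ (A 0)).1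
  have px1 := (hξ (A 1)).1
  have px2 := (hξ (A 2)).1
  have py0 := (hη (C 0)).1
  have py1 := (hη (C 1)).1
  have py2 := (hη (C 2)).1
  have w0 := hw _ (hAR 0) _ (hCR 0)
  have w1 := hw _ (hAR 1) _ (hCR 1)
  have w2 := hw _ (hAR 2) _ (hCR 2)
  refine ⟨F.det _ _ _ _ _ _ w0 w1 w2 (lemO px0 py0 px1 py1 px2 py2 (by linarith) (by linarith)
    (by linarith) (Or.inl (by linarith))), ?_⟩
  obtain ⟨Q, hQP, hn, hQ⟩ := hbox s (by omega)
  refine ⟨Q, hQP, hn, fun q hq => ?_⟩
  obtain ⟨x, σ, rfl, hwt, b1, b2, b3, b4⟩ := hQ q hq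
  have psx := (hξ (s + 1)).1
  have psy := (hη (s + 1)).1
  have px : 0 < x := by linarith
  have py : 0 < σ := by linarith
  refine ⟨?_, ?_, ?_⟩
  · exact F.det _ _ _ _ _ _ w0 w1 hwt (lemO px0 py0 px1 py1 px py (by linarith) (by linarith)
      (by linarith) (Or.inl (by linarith)))
  · show 0 < ori (F.pt (ξ (A 1)) (η (C 1))) (F.pt (ξ (A 2)) (η (C 2))) (F.pt x σ)
    rw [← place_rot]
    exact F.det _ _ _ _ _ _ hwt w1 w2 (lemO px py px1 py1 px2 py2 (by linarith) (by linarith)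
      (by linarith) (Or.inl (by linarith)))
  · show 0 < ori (F.pt (ξ (A 2)) (η (C 2))) (F.pt (ξ (A 0)) (η (C 0))) (F.pt x σ)
    rw [place_rot]
    exact F.det _ _ _ _ _ _ w0 hwt w2 (lemO px0 py0 px py px2 py2 (by linarith) (by linarith)
      (by linarith) (Or.inl (by linarith)))

theorem place_step (B : Bse) (g : List Bse) (F : Frm) (ξ η : ℕ → ℝ) (hξ : Dec ξ) (hη : Dec η)
    (P : Finset Pt) (n R : ℕ) (hw : ∀ a ≤ R, ∀ c ≤ R, 0 < F.wt (ξ a) (η c))
    (ih : ∀ (s : ℕ) (_ : s + glen g ≤ R) (A C : Fin 3 → ℕ) (_ : ∀ i, A i ≤ R) (_ : ∀ i, C i ≤ R)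
      (_ : A 0 ≤ s) (_ : C 0 ≤ s) (_ : A 1 ≤ s) (_ : s + glen g ≤ C 1)
      (_ : s + glen g ≤ A 2) (_ : s + glen g ≤ C 2),
      ∃ a c : Vt Empty g → ℕ, (∀ v, a v ≤ R ∧ c v ≤ R) ∧
        SkOK P n g (fun w => F.pt (ξ (Sum.elim A a w)) (η (Sum.elim C c w))))
    (A C : Fin 3 → ℕ) (bA bC : Fin (3 + B.I) → ℕ)
    (hbA : ∀ c, bA (Fin.castAdd B.I c) = A c) (hbC : ∀ c, bC (Fin.castAdd B.I c) = C c)
    (hbAR : ∀ i, bA i ≤ R) (hbCR : ∀ i, bC i ≤ R)
    (hra : ∀ i j, B.ra i < B.ra j → bA i < bA j) (hrc : ∀ i j, B.rc i < B.rc j → bC i < bC j)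
    (t : Fin B.M → ℕ) (htR : ∀ m, t m + glen g ≤ R)
    (h0 : ∀ m, bA (B.face m 0) ≤ t m ∧ bC (B.face m 0) ≤ t m)
    (h1 : ∀ m, bA (B.face m 1) ≤ t m ∧ t m + glen g ≤ bC (B.face m 1))
    (h2 : ∀ m, t m + glen g ≤ bA (B.face m 2) ∧ t m + glen g ≤ bC (B.face m 2)) :
    ∃ a c : Vt Empty (B :: g) → ℕ, (∀ v, a v ≤ R ∧ c v ≤ R) ∧
      SkOK P n (B :: g) (fun w => F.pt (ξ (Sum.elim A a w)) (η (Sum.elim C c w))) := by
  choose am cm hR hS using fun m => ih (t m) (htR m) (fun c => bA (B.face m c))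
    (fun c => bC (B.face m c)) (fun c => hbAR _) (fun c => hbCR _) (h0 m).1 (h0 m).2 (h1 m).1
    (h1 m).2 (h2 m).1 (h2 m).2
  let a : Vt Empty (B :: g) → ℕ := Sum.elim (fun k => bA (Fin.natAdd 3 k)) (fun p => am p.1 p.2)
  let c : Vt Empty (B :: g) → ℕ := Sum.elim (fun k => bC (Fin.natAdd 3 k)) (fun p => cm p.1 p.2)
  have ea : ∀ i, Sum.elim A a (bv Empty B g i) = bA i := by
    intro i
    refine Fin.addCases (fun c => ?_) (fun k => ?_) i
    · simp [bv, hbA]
    · simp [bv, a]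
  have ec : ∀ i, Sum.elim C c (bv Empty B g i) = bC i := by
    intro i
    refine Fin.addCases (fun c => ?_) (fun k => ?_) i
    · simp [bv, hbC]
    · simp [bv, c]
  have ea' : ∀ m w, Sum.elim A a (cv Empty B g m w) =
      Sum.elim (fun c => bA (B.face m c)) (am m) w := by
    intro m w
    rcases w with c | v
    · exact ea _
    · rfl
  have ec' : ∀ m w, Sum.elim C c (cv Empty B g m w) =
      Sum.elim (fun c => bC (B.face m c)) (cm m) w := by
    intro m w
    rcases w with c | v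
    · exact ec _
    · rfl
  refine ⟨a, c, ?_, ?_, ?_⟩
  · rintro (k | ⟨m, v⟩)
    · exact ⟨hbAR _, hbCR _⟩
    · exact hR m v
  · show BaseOK B (fun i => F.pt (ξ (Sum.elim A a (bv Empty B g i)))
      (η (Sum.elim C c (bv Empty B g i))))
    simp only [ea, ec]
    exact tab_ori F ξ η hξ hη B bA bC (fun i => hw _ (hbAR i) _ (hbCR i)) hra hrc
  · intro m
    show SkOK P n g (fun w => F.pt (ξ (Sum.elim A a (cv Empty B g m w)))
      (η (Sum.elim C c (cv Empty B g m w))))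
    simp only [ea', ec']
    exact hS m

theorem place (g : List Bse) (hg : StkFrg g) (F : Frm) (ξ η : ℕ → ℝ) (hξ : Dec ξ) (hη : Dec η)
    (P : Finset Pt) (n R : ℕ) (hw : ∀ a ≤ R, ∀ c ≤ R, 0 < F.wt (ξ a) (η c))
    (hbox : ∀ j < R, ∃ Q ⊆ P, n ≤ Q.card ∧ ∀ q ∈ Q, InBox F ξ η j q)
    (s : ℕ) (hs : s + glen g ≤ R) (A C : Fin 3 → ℕ) (hAR : ∀ i, A i ≤ R) (hCR : ∀ i, C i ≤ R)
    (hA0 : A 0 ≤ s) (hC0 : C 0 ≤ s) (hA1 : A 1 ≤ s) (hC1 : s + glen g ≤ C 1)
    (hA2 : s + glen g ≤ A 2) (hC2 : s + glen g ≤ C 2) :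
    ∃ a c : Vt Empty g → ℕ, (∀ v, a v ≤ R ∧ c v ≤ R) ∧
      SkOK P n g (fun w => F.pt (ξ (Sum.elim A a w)) (η (Sum.elim C c w))) := by
  induction g generalizing s A C with
  | nil =>
    refine ⟨fun v => v.elim, fun v => v.elim, fun v => v.elim, ?_⟩
    exact place_nil F ξ η hξ hη P n R hw hbox s hs A C hAR hCR hA0 hC0 hA1 hC1 hA2 hC2
  | cons B g ih =>
    have hg' : StkFrg g := fun B' hB' => hg B' (List.mem_cons_of_mem _ hB')
    have hL := place_glen g hg'
    have ih' := ih hg'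
    have a0 := hAR 0
    have a1 := hAR 1
    have a2 := hAR 2
    have c0 := hCR 0
    have c1 := hCR 1
    have c2 := hCR 2
    rcases hg B List.mem_cons_self with h | h
    · subst h
      replace hs : s + (3 * glen g + 0) ≤ R := hs
      replace hC1 : s + (3 * glen g + 0) ≤ C 1 := hC1
      replace hA2 : s + (3 * glen g + 0) ≤ A 2 := hA2
      replace hC2 : s + (3 * glen g + 0) ≤ C 2 := hC2
      generalize hLL : glen g = L at *
      refine place_step stkB g F ξ η hξ hη P n R hw (by rw [hLL]; exact ih') A C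
        (![A 0, A 1, A 2, s + L] : Fin 4 → ℕ) (![C 0, C 1, C 2, s + 2 * L] : Fin 4 → ℕ)
        ?_ ?_ ?_ ?_ ?_ ?_ (![s, s + L, s + 2 * L] : Fin 3 → ℕ) ?_ ?_ ?_ ?_
      · intro c
        fin_cases c <;> rfl
      · intro c
        fin_cases c <;> rfl
      · show ∀ i : Fin 4, (![A 0, A 1, A 2, s + L] : Fin 4 → ℕ) i ≤ R
        intro i
        fin_cases i
        · show A 0 ≤ R
          omega
        · show A 1 ≤ R
          omega
        · show A 2 ≤ R
          omega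
        · show s + L ≤ R
          omega
      · show ∀ i : Fin 4, (![C 0, C 1, C 2, s + 2 * L] : Fin 4 → ℕ) i ≤ R
        intro i
        fin_cases i
        · show C 0 ≤ R
          omega
        · show C 1 ≤ R
          omega
        · show C 2 ≤ R
          omega
        · show s + 2 * L ≤ R
          omega
      · show ∀ i j : Fin 4, (![0, 0, 2, 1] : Fin 4 → ℕ) i < (![0, 0, 2, 1] : Fin 4 → ℕ) j →
          (![A 0, A 1, A 2, s + L] : Fin 4 → ℕ) i < (![A 0, A 1, A 2, s + L] : Fin 4 → ℕ) j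
        intro i j
        fin_cases i <;> fin_cases j <;> simp <;> omega
      · show ∀ i j : Fin 4, (![0, 2, 2, 1] : Fin 4 → ℕ) i < (![0, 2, 2, 1] : Fin 4 → ℕ) j →
          (![C 0, C 1, C 2, s + 2 * L] : Fin 4 → ℕ) i < (![C 0, C 1, C 2, s + 2 * L] : Fin 4 → ℕ) j
        intro i j
        fin_cases i <;> fin_cases j <;> simp <;> omega
      · rw [hLL]
        show ∀ m : Fin 3, (![s, s + L, s + 2 * L] : Fin 3 → ℕ) m + L ≤ R
        intro m
        fin_cases m <;> simp <;> omega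
      · show ∀ m : Fin 3, (![A 0, A 1, A 2, s + L] : Fin 4 → ℕ)
            ((![![0, 1, 3], ![0, 3, 2], ![3, 1, 2]] : Fin 3 → Fin 3 → Fin 4) m 0) ≤
            (![s, s + L, s + 2 * L] : Fin 3 → ℕ) m ∧
          (![C 0, C 1, C 2, s + 2 * L] : Fin 4 → ℕ)
            ((![![0, 1, 3], ![0, 3, 2], ![3, 1, 2]] : Fin 3 → Fin 3 → Fin 4) m 0) ≤
            (![s, s + L, s + 2 * L] : Fin 3 → ℕ) m
        intro m
        fin_cases m <;> simp <;> omega
      · rw [hLL]
        show ∀ m : Fin 3, (![A 0, A 1, A 2, s + L] : Fin 4 → ℕ)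
            ((![![0, 1, 3], ![0, 3, 2], ![3, 1, 2]] : Fin 3 → Fin 3 → Fin 4) m 1) ≤
            (![s, s + L, s + 2 * L] : Fin 3 → ℕ) m ∧
          (![s, s + L, s + 2 * L] : Fin 3 → ℕ) m + L ≤ (![C 0, C 1, C 2, s + 2 * L] : Fin 4 → ℕ)
            ((![![0, 1, 3], ![0, 3, 2], ![3, 1, 2]] : Fin 3 → Fin 3 → Fin 4) m 1)
        intro m
        fin_cases m <;> simp <;> omega
      · rw [hLL]
        show ∀ m : Fin 3, (![s, s + L, s + 2 * L] : Fin 3 → ℕ) m + L ≤
            (![A 0, A 1, A 2, s + L] : Fin 4 → ℕ)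
            ((![![0, 1, 3], ![0, 3, 2], ![3, 1, 2]] : Fin 3 → Fin 3 → Fin 4) m 2) ∧
          (![s, s + L, s + 2 * L] : Fin 3 → ℕ) m + L ≤ (![C 0, C 1, C 2, s + 2 * L] : Fin 4 → ℕ)
            ((![![0, 1, 3], ![0, 3, 2], ![3, 1, 2]] : Fin 3 → Fin 3 → Fin 4) m 2)
        intro m
        fin_cases m <;> simp <;> omega
    · subst h
      replace hs : s + (9 * glen g + 6) ≤ R := hs
      replace hC1 : s + (9 * glen g + 6) ≤ C 1 := hC1
      replace hA2 : s + (9 * glen g + 6) ≤ A 2 := hA2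
      replace hC2 : s + (9 * glen g + 6) ≤ C 2 := hC2
      generalize hLL : glen g = L at *
      refine place_step frgB g F ξ η hξ hη P n R hw (by rw [hLL]; exact ih') A C
        (![A 0, A 1, A 2, s + L, s + 3 * L + 1, s + 6 * L + 3, s + 8 * L + 3, s + 8 * L + 4,
          s + L + 1, s + 3 * L + 2] : Fin 10 → ℕ)
        (![C 0, C 1, C 2, s + 4 * L + 2, s + 5 * L + 3, s + 7 * L + 3, s + 9 * L + 5, s + 8 * L + 5,
          s + 2 * L + 1, s + 4 * L + 3] : Fin 10 → ℕ)
        ?_ ?_ ?_ ?_ ?_ ?_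
        (![s, s + L + 1, s + 2 * L + 1, s + 3 * L + 2, s + 4 * L + 3, s + 5 * L + 3, s + 6 * L + 3,
          s + 7 * L + 3, s + 8 * L + 5] : Fin 9 → ℕ) ?_ ?_ ?_ ?_
      · intro c
        fin_cases c <;> rfl
      · intro c
        fin_cases c <;> rfl
      · show ∀ i : Fin 10, (![A 0, A 1, A 2, s + L, s + 3 * L + 1, s + 6 * L + 3, s + 8 * L + 3, s + 8 * L + 4,
          s + L + 1, s + 3 * L + 2] : Fin 10 → ℕ) i ≤ R
        intro i
        fin_cases i <;> simp <;> omega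
      · show ∀ i : Fin 10, (![C 0, C 1, C 2, s + 4 * L + 2, s + 5 * L + 3, s + 7 * L + 3, s + 9 * L + 5, s + 8 * L + 5,
          s + 2 * L + 1, s + 4 * L + 3] : Fin 10 → ℕ) i ≤ R
        intro i
        fin_cases i <;> simp <;> omega
      · show ∀ i j : Fin 10, (![0, 0, 8, 1, 3, 5, 6, 7, 2, 4] : Fin 10 → ℕ) i < (![0, 0, 8, 1, 3, 5, 6, 7, 2, 4] : Fin 10 → ℕ) j →
          (![A 0, A 1, A 2, s + L, s + 3 * L + 1, s + 6 * L + 3, s + 8 * L + 3, s + 8 * L + 4,
          s + L + 1, s + 3 * L + 2] : Fin 10 → ℕ) i <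
          (![A 0, A 1, A 2, s + L, s + 3 * L + 1, s + 6 * L + 3, s + 8 * L + 3, s + 8 * L + 4,
          s + L + 1, s + 3 * L + 2] : Fin 10 → ℕ) j
        intro i j
        fin_cases i <;> fin_cases j <;> simp <;> omega
      · show ∀ i j : Fin 10, (![0, 8, 8, 2, 4, 5, 7, 6, 1, 3] : Fin 10 → ℕ) i < (![0, 8, 8, 2, 4, 5, 7, 6, 1, 3] : Fin 10 → ℕ) j →
          (![C 0, C 1, C 2, s + 4 * L + 2, s + 5 * L + 3, s + 7 * L + 3, s + 9 * L + 5, s + 8 * L + 5,
          s + 2 * L + 1, s + 4 * L + 3] : Fin 10 → ℕ) i <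
          (![C 0, C 1, C 2, s + 4 * L + 2, s + 5 * L + 3, s + 7 * L + 3, s + 9 * L + 5, s + 8 * L + 5,
          s + 2 * L + 1, s + 4 * L + 3] : Fin 10 → ℕ) j
        intro i j
        fin_cases i <;> fin_cases j <;> simp <;> omega
      · rw [hLL]
        show ∀ m : Fin 9, (![s, s + L + 1, s + 2 * L + 1, s + 3 * L + 2, s + 4 * L + 3, s + 5 * L + 3, s + 6 * L + 3,
          s + 7 * L + 3, s + 8 * L + 5] : Fin 9 → ℕ) m + L ≤ R
        intro m
        fin_cases m <;> simp <;> omega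
      · show ∀ m : Fin 9, (![A 0, A 1, A 2, s + L, s + 3 * L + 1, s + 6 * L + 3, s + 8 * L + 3, s + 8 * L + 4,
          s + L + 1, s + 3 * L + 2] : Fin 10 → ℕ)
            ((![![0, 1, 3], ![0, 8, 7], ![8, 3, 4], ![8, 9, 7], ![9, 4, 5], ![4, 1, 5], ![9, 5, 6],
          ![5, 1, 6], ![7, 6, 2]] : Fin 9 → Fin 3 → Fin 10) m 0) ≤
            (![s, s + L + 1, s + 2 * L + 1, s + 3 * L + 2, s + 4 * L + 3, s + 5 * L + 3, s + 6 * L + 3,
          s + 7 * L + 3, s + 8 * L + 5] : Fin 9 → ℕ) m ∧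
          (![C 0, C 1, C 2, s + 4 * L + 2, s + 5 * L + 3, s + 7 * L + 3, s + 9 * L + 5, s + 8 * L + 5,
          s + 2 * L + 1, s + 4 * L + 3] : Fin 10 → ℕ)
            ((![![0, 1, 3], ![0, 8, 7], ![8, 3, 4], ![8, 9, 7], ![9, 4, 5], ![4, 1, 5], ![9, 5, 6],
          ![5, 1, 6], ![7, 6, 2]] : Fin 9 → Fin 3 → Fin 10) m 0) ≤
            (![s, s + L + 1, s + 2 * L + 1, s + 3 * L + 2, s + 4 * L + 3, s + 5 * L + 3, s + 6 * L + 3,
          s + 7 * L + 3, s + 8 * L + 5] : Fin 9 → ℕ) m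
        intro m
        fin_cases m <;> simp <;> omega
      · rw [hLL]
        show ∀ m : Fin 9, (![A 0, A 1, A 2, s + L, s + 3 * L + 1, s + 6 * L + 3, s + 8 * L + 3, s + 8 * L + 4,
          s + L + 1, s + 3 * L + 2] : Fin 10 → ℕ)
            ((![![0, 1, 3], ![0, 8, 7], ![8, 3, 4], ![8, 9, 7], ![9, 4, 5], ![4, 1, 5], ![9, 5, 6],
          ![5, 1, 6], ![7, 6, 2]] : Fin 9 → Fin 3 → Fin 10) m 1) ≤
            (![s, s + L + 1, s + 2 * L + 1, s + 3 * L + 2, s + 4 * L + 3, s + 5 * L + 3, s + 6 * L + 3,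
          s + 7 * L + 3, s + 8 * L + 5] : Fin 9 → ℕ) m ∧
          (![s, s + L + 1, s + 2 * L + 1, s + 3 * L + 2, s + 4 * L + 3, s + 5 * L + 3, s + 6 * L + 3,
          s + 7 * L + 3, s + 8 * L + 5] : Fin 9 → ℕ) m + L ≤ (![C 0, C 1, C 2, s + 4 * L + 2, s + 5 * L + 3, s + 7 * L + 3, s + 9 * L + 5, s + 8 * L + 5,
          s + 2 * L + 1, s + 4 * L + 3] : Fin 10 → ℕ)
            ((![![0, 1, 3], ![0, 8, 7], ![8, 3, 4], ![8, 9, 7], ![9, 4, 5], ![4, 1, 5], ![9, 5, 6],
          ![5, 1, 6], ![7, 6, 2]] : Fin 9 → Fin 3 → Fin 10) m 1)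
        intro m
        fin_cases m <;> simp <;> omega
      · rw [hLL]
        show ∀ m : Fin 9, (![s, s + L + 1, s + 2 * L + 1, s + 3 * L + 2, s + 4 * L + 3, s + 5 * L + 3, s + 6 * L + 3,
          s + 7 * L + 3, s + 8 * L + 5] : Fin 9 → ℕ) m + L ≤
            (![A 0, A 1, A 2, s + L, s + 3 * L + 1, s + 6 * L + 3, s + 8 * L + 3, s + 8 * L + 4,
          s + L + 1, s + 3 * L + 2] : Fin 10 → ℕ)
            ((![![0, 1, 3], ![0, 8, 7], ![8, 3, 4], ![8, 9, 7], ![9, 4, 5], ![4, 1, 5], ![9, 5, 6],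
          ![5, 1, 6], ![7, 6, 2]] : Fin 9 → Fin 3 → Fin 10) m 2) ∧
          (![s, s + L + 1, s + 2 * L + 1, s + 3 * L + 2, s + 4 * L + 3, s + 5 * L + 3, s + 6 * L + 3,
          s + 7 * L + 3, s + 8 * L + 5] : Fin 9 → ℕ) m + L ≤ (![C 0, C 1, C 2, s + 4 * L + 2, s + 5 * L + 3, s + 7 * L + 3, s + 9 * L + 5, s + 8 * L + 5,
          s + 2 * L + 1, s + 4 * L + 3] : Fin 10 → ℕ)
            ((![![0, 1, 3], ![0, 8, 7], ![8, 3, 4], ![8, 9, 7], ![9, 4, 5], ![4, 1, 5], ![9, 5, 6],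
          ![5, 1, 6], ![7, 6, 2]] : Fin 9 → Fin 3 → Fin 10) m 2)
        intro m
        fin_cases m <;> simp <;> omega

end Pool.Agent.Helper745.FSub
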