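import Pool.Agent.Helper745.FS.Defs

set_option autoImplicit false

namespace Pool.Agent.Helper745.FSub

/-- table of the triples with known positive orientation -/
def base_frg_PT : ℕ :=
  268374540500662476860751280370660615378795790430171205103555430185283084816168779742175128188711200731073182502943701501193779697003153315674332454967832312821972809587123246849168480007167428911892189110314522032364591579981686149793789050905789245392429618066017002554371053386076034899666530304

/-- certified positive -/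
def base_frg_P (p q r : ℕ) : Bool := Nat.testBit base_frg_PT (100 * p + 10 * q + r)

/-- certified nonnegative -/
def base_frg_NN (p q r : ℕ) : Bool := base_frg_P p q r || (Nat.beq r p || Nat.beq r q)

/-- search for a separating pair -/
def base_frg_any (f : ℕ → ℕ → Bool) : Bool :=
  (List.range 10).any (fun p => (List.range 10).any (fun q => f p q))

def base_frg_facePos (p q a b c : ℕ) : Bool :=
  base_frg_NN p q a && (base_frg_NN p q b && (base_frg_NN p q c &&
    (base_frg_P p q a || (base_frg_P p q b || base_frg_P p q c))))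

def base_frg_faceNP (p q a b c : ℕ) : Bool :=
  base_frg_NN q p a && (base_frg_NN q p b && base_frg_NN q p c)

def base_frg_cE (i j k l : ℕ) : Bool := base_frg_any (fun p q =>
  base_frg_P p q i && (base_frg_P p q j && (base_frg_NN q p k && base_frg_NN q p l)))

def base_frg_cV (i j k : ℕ) : Bool := base_frg_any (fun p q =>
  base_frg_P p q k && (base_frg_NN q p i && base_frg_NN q p j))

def base_frg_cW (i j k : ℕ) : Bool := base_frg_any (fun p q =>
  base_frg_P p q i && (base_frg_P p q j && base_frg_NN q p k))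

def base_frg_cF (a b c i j : ℕ) : Bool := base_frg_any (fun p q =>
  base_frg_facePos p q a b c && (base_frg_NN q p i && base_frg_NN q p j))

def base_frg_cFF (a b c a' b' c' : ℕ) : Bool := base_frg_any (fun p q =>
  base_frg_facePos p q a b c && base_frg_faceNP p q a' b' c')

def base_frg_cI (i j : ℕ) : Bool := base_frg_any (fun p q =>
  base_frg_P p q i && base_frg_NN q p j)

theorem base_frg_neg : ∀ p q r : Fin (3 + frgB.I), base_frg_P p.val q.val r.val = true →
    frgB.neg p q r = true := by
  decide +kernel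

theorem base_frg_ckE : ∀ i j : Fin (3 + frgB.I), frgB.adj i j = true →
    ∀ k l : Fin (3 + frgB.I), (frgB.adj k l = true ∧ i ≠ k ∧ i ≠ l ∧ j ≠ k ∧ j ≠ l) →
    (base_frg_cE i.val j.val k.val l.val || base_frg_cE k.val l.val i.val j.val) = true := by
  decide +kernel

theorem base_frg_ckV : ∀ i j : Fin (3 + frgB.I), frgB.adj i j = true →
    ∀ k : Fin (3 + frgB.I), k ≠ i → k ≠ j →
    (base_frg_cV i.val j.val k.val || base_frg_cW i.val j.val k.val) = true := by
  decide +kernel

theorem base_frg_ckF : ∀ m : Fin frgB.M, ∀ i j : Fin (3 + frgB.I), frgB.adj i j = true →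
    base_frg_cF (frgB.face m 0).val (frgB.face m 1).val (frgB.face m 2).val i.val j.val = true := by
  decide +kernel

theorem base_frg_ckFF : ∀ m m' : Fin frgB.M, m ≠ m' →
    (base_frg_cFF (frgB.face m 0).val (frgB.face m 1).val (frgB.face m 2).val
      (frgB.face m' 0).val (frgB.face m' 1).val (frgB.face m' 2).val ||
    base_frg_cFF (frgB.face m' 0).val (frgB.face m' 1).val (frgB.face m' 2).val
      (frgB.face m 0).val (frgB.face m 1).val (frgB.face m 2).val) = true := by
  decide +kernel

theorem base_frg_ckInn : ∀ k : Fin frgB.I,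
    (base_frg_P 0 1 (Fin.natAdd 3 k).val && (base_frg_P 1 2 (Fin.natAdd 3 k).val &&
      base_frg_P 2 0 (Fin.natAdd 3 k).val)) = true := by
  decide +kernel

theorem base_frg_ckFin : ∀ m : Fin frgB.M,
    (base_frg_facePos 0 1 (frgB.face m 0).val (frgB.face m 1).val (frgB.face m 2).val &&
    (base_frg_facePos 1 2 (frgB.face m 0).val (frgB.face m 1).val (frgB.face m 2).val &&
    base_frg_facePos 2 0 (frgB.face m 0).val (frgB.face m 1).val (frgB.face m 2).val)) = true := by
  decide +kernel

theorem base_frg_ckInj : ∀ i j : Fin (3 + frgB.I), i ≠ j → base_frg_cI i.val j.val = true := by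
  decide +kernel

theorem base_frg_ckVf : ∀ i : Fin (3 + frgB.I), ∃ j : Fin (3 + frgB.I), frgB.adj i j = true := by
  decide +kernel

theorem base_frg_any_spec {f : ℕ → ℕ → Bool} (h : base_frg_any f = true) :
    ∃ p q : Fin (3 + frgB.I), f p.val q.val = true := by
  unfold base_frg_any at h
  rw [List.any_eq_true] at h
  obtain ⟨p, hp, h⟩ := h
  rw [List.any_eq_true] at h
  obtain ⟨q, hq, h⟩ := h
  exact ⟨⟨p, List.mem_range.1 hp⟩, ⟨q, List.mem_range.1 hq⟩, h⟩

theorem base_frg_swap (a b c : Pt) : ori b a c = - ori a b c := by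
  unfold ori
  ring

theorem base_frg_pos {bp : Fin (3 + frgB.I) → Pt} (h : BaseOK frgB bp) {p q r : Fin (3 + frgB.I)}
    (hp : base_frg_P p.val q.val r.val = true) : 0 < ori (bp p) (bp q) (bp r) :=
  h p q r (base_frg_neg p q r hp)

theorem base_frg_nn {bp : Fin (3 + frgB.I) → Pt} (h : BaseOK frgB bp) {p q r : Fin (3 + frgB.I)}
    (hp : base_frg_NN p.val q.val r.val = true) : 0 ≤ ori (bp p) (bp q) (bp r) := by
  unfold base_frg_NN at hp
  rw [Bool.or_eq_true, Bool.or_eq_true] at hp
  rcases hp with hp | hp | hp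
  · exact (base_frg_pos h hp).le
  · have e : r = p := Fin.ext (Nat.eq_of_beq_eq_true hp)
    rw [e]
    unfold ori
    apply le_of_eq
    ring
  · have e : r = q := Fin.ext (Nat.eq_of_beq_eq_true hp)
    rw [e]
    unfold ori
    apply le_of_eq
    ring

theorem base_frg_np {bp : Fin (3 + frgB.I) → Pt} (h : BaseOK frgB bp) {p q r : Fin (3 + frgB.I)}
    (hp : base_frg_NN q.val p.val r.val = true) : ori (bp p) (bp q) (bp r) ≤ 0 := by
  have h1 := base_frg_nn h hp
  rw [base_frg_swap] at h1
  linarith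

/-- values of the functional on a segment -/
theorem base_frg_seg {a b x : Pt} (hx : x ∈ segment ℝ a b) :
    ∃ α β : ℝ, 0 ≤ α ∧ 0 ≤ β ∧ α + β = 1 ∧ ∀ p q : Pt, ori p q x = α * ori p q a + β * ori p q b := by
  obtain ⟨α, β, hα, hβ, hαβ, rfl⟩ := hx
  refine ⟨α, β, hα, hβ, hαβ, fun p q => ?_⟩
  have e : β = 1 - α := by linarith
  subst e
  unfold ori
  simp only [Prod.fst_add, Prod.snd_add, Prod.smul_fst, Prod.smul_snd, smul_eq_mul]
  ring

theorem base_frg_seg_pos {a b x p q : Pt} (hx : x ∈ segment ℝ a b) (ha : 0 < ori p q a)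
    (hb : 0 < ori p q b) : 0 < ori p q x := by
  obtain ⟨α, β, hα, hβ, hαβ, h⟩ := base_frg_seg hx
  rw [h]
  rcases eq_or_lt_of_le hα with h0 | h0
  · rw [← h0, zero_add] at hαβ
    rw [← h0, hαβ]
    linarith
  · have h1 : 0 < α * ori p q a := mul_pos h0 ha
    have h2 : 0 ≤ β * ori p q b := mul_nonneg hβ hb.le
    linarith

theorem base_frg_seg_np {a b x p q : Pt} (hx : x ∈ segment ℝ a b) (ha : ori p q a ≤ 0)
    (hb : ori p q b ≤ 0) : ori p q x ≤ 0 := by
  obtain ⟨α, β, hα, hβ, hαβ, h⟩ := base_frg_seg hx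
  rw [h]
  have h1 : α * ori p q a ≤ 0 := mul_nonpos_of_nonneg_of_nonpos hα ha
  have h2 : β * ori p q b ≤ 0 := mul_nonpos_of_nonneg_of_nonpos hβ hb
  linarith

theorem base_frg_bary (a b c p q x : Pt) :
    (ori a b x + ori b c x + ori c a x) * ori p q x =
      ori b c x * ori p q a + ori c a x * ori p q b + ori a b x * ori p q c := by
  unfold ori
  ring

theorem base_frg_face_pos {bp : Fin (3 + frgB.I) → Pt} (h : BaseOK frgB bp)
    {p q a b c : Fin (3 + frgB.I)}
    (hc : base_frg_facePos p.val q.val a.val b.val c.val = true) {x : Pt}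
    (h1 : 0 < ori (bp a) (bp b) x) (h2 : 0 < ori (bp b) (bp c) x) (h3 : 0 < ori (bp c) (bp a) x) :
    0 < ori (bp p) (bp q) x := by
  unfold base_frg_facePos at hc
  rw [Bool.and_eq_true, Bool.and_eq_true, Bool.and_eq_true, Bool.or_eq_true, Bool.or_eq_true] at hc
  obtain ⟨ha, hb, hcc, hs⟩ := hc
  have ha' := base_frg_nn h ha
  have hb' := base_frg_nn h hb
  have hc' := base_frg_nn h hcc
  have e := base_frg_bary (bp a) (bp b) (bp c) (bp p) (bp q) x
  have hS : 0 < ori (bp a) (bp b) x + ori (bp b) (bp c) x + ori (bp c) (bp a) x := by linarith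
  have k1 := mul_nonneg h2.le ha'
  have k2 := mul_nonneg h3.le hb'
  have k3 := mul_nonneg h1.le hc'
  have hR : 0 < (ori (bp a) (bp b) x + ori (bp b) (bp c) x + ori (bp c) (bp a) x) *
      ori (bp p) (bp q) x := by
    rw [e]
    rcases hs with hs | hs | hs
    · have := mul_pos h2 (base_frg_pos h hs)
      linarith
    · have := mul_pos h3 (base_frg_pos h hs)
      linarith
    · have := mul_pos h1 (base_frg_pos h hs)
      linarith
  exact (pos_iff_pos_of_mul_pos hR).1 hS

theorem base_frg_face_np {bp : Fin (3 + frgB.I) → Pt} (h : BaseOK frgB bp)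
    {p q a b c : Fin (3 + frgB.I)}
    (hc : base_frg_faceNP p.val q.val a.val b.val c.val = true) {x : Pt}
    (h1 : 0 < ori (bp a) (bp b) x) (h2 : 0 < ori (bp b) (bp c) x) (h3 : 0 < ori (bp c) (bp a) x) :
    ori (bp p) (bp q) x ≤ 0 := by
  unfold base_frg_faceNP at hc
  rw [Bool.and_eq_true, Bool.and_eq_true] at hc
  obtain ⟨ha, hb, hcc⟩ := hc
  have ha' := base_frg_np h ha
  have hb' := base_frg_np h hb
  have hc' := base_frg_np h hcc
  have e := base_frg_bary (bp a) (bp b) (bp c) (bp p) (bp q) x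
  have hS : 0 < ori (bp a) (bp b) x + ori (bp b) (bp c) x + ori (bp c) (bp a) x := by linarith
  have k1 := mul_nonpos_of_nonneg_of_nonpos h2.le ha'
  have k2 := mul_nonpos_of_nonneg_of_nonpos h3.le hb'
  have k3 := mul_nonpos_of_nonneg_of_nonpos h1.le hc'
  by_contra hcon
  push Not at hcon
  have := mul_pos hS hcon
  linarith

theorem base_frg_disj {bp : Fin (3 + frgB.I) → Pt} (h : BaseOK frgB bp)
    {i j k l : Fin (3 + frgB.I)} (hc : base_frg_cE i.val j.val k.val l.val = true) :
    Disjoint (segment ℝ (bp i) (bp j)) (segment ℝ (bp k) (bp l)) := by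
  unfold base_frg_cE at hc
  obtain ⟨p, q, hc⟩ := base_frg_any_spec hc
  rw [Bool.and_eq_true, Bool.and_eq_true, Bool.and_eq_true] at hc
  obtain ⟨h1, h2, h3, h4⟩ := hc
  rw [Set.disjoint_left]
  intro x hx hx'
  have k1 := base_frg_seg_pos hx (base_frg_pos h h1) (base_frg_pos h h2)
  have k2 := base_frg_seg_np hx' (base_frg_np h h3) (base_frg_np h h4)
  linarith

theorem base_frg_fe {bp : Fin (3 + frgB.I) → Pt} (h : BaseOK frgB bp) (m : Fin frgB.M)
    (i j : Fin (3 + frgB.I)) (hij : frgB.adj i j = true) (p : Pt)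
    (hp : p ∈ segment ℝ (bp i) (bp j)) : ¬ inP (fun c => bp (frgB.face m c)) p := by
  rintro ⟨h1, h2, h3⟩
  have hc := base_frg_ckF m i j hij
  unfold base_frg_cF at hc
  obtain ⟨a, b, hc⟩ := base_frg_any_spec hc
  rw [Bool.and_eq_true, Bool.and_eq_true] at hc
  obtain ⟨h4, h5, h6⟩ := hc
  have k1 := base_frg_face_pos h h4 h1 h2 h3
  have k2 := base_frg_seg_np hp (base_frg_np h h5) (base_frg_np h h6)
  linarith

theorem base_frg_ff {bp : Fin (3 + frgB.I) → Pt} (h : BaseOK frgB bp) (m m' : Fin frgB.M)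
    (hc : base_frg_cFF (frgB.face m 0).val (frgB.face m 1).val (frgB.face m 2).val
      (frgB.face m' 0).val (frgB.face m' 1).val (frgB.face m' 2).val = true) (p : Pt) :
    ¬ (inP (fun c => bp (frgB.face m c)) p ∧ inP (fun c => bp (frgB.face m' c)) p) := by
  rintro ⟨⟨h1, h2, h3⟩, ⟨h1', h2', h3'⟩⟩
  unfold base_frg_cFF at hc
  obtain ⟨a, b, hc⟩ := base_frg_any_spec hc
  rw [Bool.and_eq_true] at hc
  have k1 := base_frg_face_pos h hc.1 h1 h2 h3
  have k2 := base_frg_face_np h hc.2 h1' h2' h3'
  linarith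

theorem base_frg (bp : Fin (3 + frgB.I) → Pt) (h : BaseOK frgB bp) : BG frgB bp where
  inj := by
    intro i j hij
    by_contra hne
    have hc := base_frg_ckInj i j hne
    unfold base_frg_cI at hc
    obtain ⟨p, q, hc⟩ := base_frg_any_spec hc
    rw [Bool.and_eq_true] at hc
    have k1 := base_frg_pos h hc.1
    have k2 := base_frg_np h hc.2
    rw [hij] at k1
    linarith
  ee := by
    intro i j k l hij hkl h1 h2 h3 h4
    have hc := base_frg_ckE i j hij k l ⟨hkl, h1, h2, h3, h4⟩
    rw [Bool.or_eq_true] at hc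
    rcases hc with hc | hc
    · exact base_frg_disj h hc
    · exact (base_frg_disj h hc).symm
  ve := by
    intro i j k hij h1 h2 hk
    have hc := base_frg_ckV i j hij k h1 h2
    rw [Bool.or_eq_true] at hc
    rcases hc with hc | hc
    · unfold base_frg_cV at hc
      obtain ⟨p, q, hc⟩ := base_frg_any_spec hc
      rw [Bool.and_eq_true, Bool.and_eq_true] at hc
      have k1 := base_frg_pos h hc.1
      have k2 := base_frg_seg_np hk (base_frg_np h hc.2.1) (base_frg_np h hc.2.2)
      linarith
    · unfold base_frg_cW at hc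
      obtain ⟨p, q, hc⟩ := base_frg_any_spec hc
      rw [Bool.and_eq_true, Bool.and_eq_true] at hc
      have k1 := base_frg_seg_pos hk (base_frg_pos h hc.1) (base_frg_pos h hc.2.1)
      have k2 := base_frg_np h hc.2.2
      linarith
  fe := base_frg_fe h
  ff := by
    intro m m' hmm p
    have hc := base_frg_ckFF m m' hmm
    rw [Bool.or_eq_true] at hc
    rcases hc with hc | hc
    · exact base_frg_ff h m m' hc p
    · exact fun hp => base_frg_ff h m' m hc p ⟨hp.2, hp.1⟩
  inn := by
    intro k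
    have hc := base_frg_ckInn k
    rw [Bool.and_eq_true, Bool.and_eq_true] at hc
    exact ⟨base_frg_pos h (p := Fin.castAdd frgB.I 0) (q := Fin.castAdd frgB.I 1) hc.1,
      base_frg_pos h (p := Fin.castAdd frgB.I 1) (q := Fin.castAdd frgB.I 2) hc.2.1,
      base_frg_pos h (p := Fin.castAdd frgB.I 2) (q := Fin.castAdd frgB.I 0) hc.2.2⟩
  fin := by
    rintro m p ⟨h1, h2, h3⟩
    have hc := base_frg_ckFin m
    rw [Bool.and_eq_true, Bool.and_eq_true] at hc
    exact ⟨base_frg_face_pos h (p := Fin.castAdd frgB.I 0) (q := Fin.castAdd frgB.I 1) hc.1 h1 h2 h3,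
      base_frg_face_pos h (p := Fin.castAdd frgB.I 1) (q := Fin.castAdd frgB.I 2) hc.2.1 h1 h2 h3,
      base_frg_face_pos h (p := Fin.castAdd frgB.I 2) (q := Fin.castAdd frgB.I 0) hc.2.2 h1 h2 h3⟩
  vf := by
    intro m i
    obtain ⟨j, hj⟩ := base_frg_ckVf i
    exact base_frg_fe h m i j hj (bp i) (left_mem_segment ℝ (bp i) (bp j))

end Pool.Agent.Helper745.FSub
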