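import Pool.Agent.Helper745.FS.Defs

set_option autoImplicit false

namespace Pool.Agent.Helper745.FSub

/-- pre-homogeneous sets -/
theorem ramsey5_claim (κ : Type) [Nonempty κ] (r : ℕ)
    (hR : ∀ m : ℕ, ∃ N : ℕ, ∀ (S : Finset ℕ) (col : List ℕ → κ), N ≤ S.card →
      ∃ T ⊆ S, T.card = m ∧ ∃ k : κ, ∀ l : List ℕ, l.length = r → l.Pairwise (· < ·) →
        (∀ x ∈ l, x ∈ T) → col l = k) (q : ℕ) :
    ∃ N : ℕ, ∀ (S : Finset ℕ) (col : List ℕ → κ), N ≤ S.card →
      ∃ T ⊆ S, T.card = q ∧ ∃ c : ℕ → κ, ∀ x ∈ T, ∀ l : List ℕ, l.length = r →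
        l.Pairwise (· < ·) → (∀ y ∈ l, y ∈ T ∧ x < y) → col (x :: l) = c x := by
  classical
  induction q with
  | zero =>
    refine ⟨0, fun S col _ => ⟨∅, Finset.empty_subset _, rfl, fun _ => Classical.arbitrary κ,
      fun x hx => absurd hx (Finset.notMem_empty x)⟩⟩
  | succ q ih =>
    obtain ⟨M, hM⟩ := ih
    obtain ⟨N', hN'⟩ := hR M
    refine ⟨N' + 1, fun S col hS => ?_⟩
    have hne : S.Nonempty := by
      rw [← Finset.card_pos]
      omega
    have hx := S.min'_mem hne
    obtain ⟨T', hT'S, hT'c, k, hk⟩ := hN' (S.erase (S.min' hne))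
      (fun l => col (S.min' hne :: l)) (by rw [Finset.card_erase_of_mem hx]; omega)
    obtain ⟨T, hTT', hTc, c, hc⟩ := hM T' col (by omega)
    have hlt : ∀ y ∈ T, S.min' hne < y := fun y hy =>
      S.min'_lt_of_mem_erase_min' hne (hT'S (hTT' hy))
    have hxT : S.min' hne ∉ T := fun h => lt_irrefl _ (hlt _ h)
    refine ⟨insert (S.min' hne) T, ?_, ?_, Function.update c (S.min' hne) k, ?_⟩
    · rw [Finset.insert_subset_iff]
      exact ⟨hx, fun y hy => Finset.mem_of_mem_erase (hT'S (hTT' hy))⟩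
    · rw [Finset.card_insert_of_notMem hxT, hTc]
    · intro x hxm l hl hlp hly
      have hlT : ∀ y ∈ l, y ∈ T := by
        intro y hy
        obtain ⟨h1, h2⟩ := hly y hy
        rcases Finset.mem_insert.mp h1 with h3 | h3
        · exfalso
          rcases Finset.mem_insert.mp hxm with h4 | h4
          · omega
          · have := hlt x h4
            omega
        · exact h3
      rcases Finset.mem_insert.mp hxm with h | h
      · subst h
        rw [Function.update_self]
        exact hk l hl hlp (fun y hy => hTT' (hlT y hy))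
      · have hne' : x ≠ S.min' hne := fun he => hxT (he ▸ h)
        rw [Function.update_of_ne hne']
        exact hc x h l hl hlp (fun y hy => ⟨hlT y hy, (hly y hy).2⟩)

/-- Ramsey for increasing lists of natural numbers -/
theorem ramsey5_gen (κ : Type) [Fintype κ] [Nonempty κ] (r : ℕ) :
    ∀ m : ℕ, ∃ N : ℕ, ∀ (S : Finset ℕ) (col : List ℕ → κ), N ≤ S.card →
      ∃ T ⊆ S, T.card = m ∧ ∃ k : κ, ∀ l : List ℕ, l.length = r → l.Pairwise (· < ·) →
        (∀ x ∈ l, x ∈ T) → col l = k := by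
  classical
  induction r with
  | zero =>
    intro m
    refine ⟨m, fun S col hS => ?_⟩
    obtain ⟨T, hTS, hTc⟩ := Finset.exists_subset_card_eq hS
    refine ⟨T, hTS, hTc, col [], fun l hl _ _ => ?_⟩
    rw [List.length_eq_zero_iff.mp hl]
  | succ r ih =>
    intro m
    obtain ⟨N, hN⟩ := ramsey5_claim κ r ih (Fintype.card κ * m)
    refine ⟨N, fun S col hS => ?_⟩
    obtain ⟨T, hTS, hTc, c, hc⟩ := hN S col hS
    have hex : ∃ k : κ, m ≤ (T.filter (fun x => c x = k)).card := by
      by_contra hcon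
      push Not at hcon
      have h1 : T.card = ∑ k : κ, (T.filter (fun x => c x = k)).card :=
        Finset.card_eq_sum_card_fiberwise (fun x _ => Finset.mem_univ _)
      have h2 : ∑ k : κ, (T.filter (fun x => c x = k)).card < ∑ _k : κ, m :=
        Finset.sum_lt_sum_of_nonempty Finset.univ_nonempty (fun k _ => hcon k)
      rw [Finset.sum_const, Finset.card_univ, smul_eq_mul, ← h1, hTc] at h2
      exact lt_irrefl _ h2
    obtain ⟨k, hk⟩ := hex
    obtain ⟨T₂, hT₂, hT₂c⟩ := Finset.exists_subset_card_eq hk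
    refine ⟨T₂, hT₂.trans ((Finset.filter_subset _ _).trans hTS), hT₂c, k, ?_⟩
    intro l hl hlp hlT
    rcases l with _ | ⟨x, l⟩
    · simp at hl
    · have hxT : x ∈ T₂ := hlT x List.mem_cons_self
      rw [List.pairwise_cons] at hlp
      have h1 := hc x (Finset.mem_filter.mp (hT₂ hxT)).1 l (by simpa using hl) hlp.2
        (fun y hy => ⟨(Finset.mem_filter.mp (hT₂ (hlT y (List.mem_cons_of_mem _ hy)))).1,
          hlp.1 y hy⟩)
      rw [h1]
      exact (Finset.mem_filter.mp (hT₂ hxT)).2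

/-- finite Ramsey theorem for increasing 5-tuples -/
theorem ramsey5 (κ : Type) [Fintype κ] [Nonempty κ] (m : ℕ) : ∃ N : ℕ,
    ∀ col : Fin N → Fin N → Fin N → Fin N → Fin N → κ,
      ∃ ι : Fin m → Fin N, StrictMono ι ∧ ∃ k : κ, ∀ a b c d e : Fin m,
        a < b → b < c → c < d → d < e → col (ι a) (ι b) (ι c) (ι d) (ι e) = k := by
  classical
  obtain ⟨N, hN⟩ := ramsey5_gen κ 5 m
  refine ⟨N + 1, fun col => ?_⟩
  let tf : ℕ → Fin (N + 1) := fun x => if h : x < N + 1 then ⟨x, h⟩ else 0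
  have htf : ∀ x, x < N + 1 → (tf x).val = x := by
    intro x hx
    simp only [tf]
    rw [dif_pos hx]
  let col' : List ℕ → κ := fun l =>
    col (tf (l.getD 0 0)) (tf (l.getD 1 0)) (tf (l.getD 2 0)) (tf (l.getD 3 0)) (tf (l.getD 4 0))
  obtain ⟨T, hTS, hTc, k, hk⟩ := hN (Finset.range (N + 1)) col' (by
    rw [Finset.card_range]; omega)
  have hmemT : ∀ i : Fin m, (T.orderEmbOfFin hTc i) ∈ T := fun i => T.orderEmbOfFin_mem hTc i
  have hltT : ∀ i : Fin m, (T.orderEmbOfFin hTc i) < N + 1 := fun i =>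
    Finset.mem_range.mp (hTS (hmemT i))
  have hmono : ∀ i j : Fin m, i < j → T.orderEmbOfFin hTc i < T.orderEmbOfFin hTc j :=
    fun i j hij => (T.orderEmbOfFin hTc).strictMono hij
  refine ⟨fun i => tf (T.orderEmbOfFin hTc i), ?_, k, ?_⟩
  · intro i j hij
    rw [Fin.lt_def, htf _ (hltT i), htf _ (hltT j)]
    exact hmono i j hij
  · intro a b c d e hab hbc hcd hde
    have h1 := hmono a b hab
    have h2 := hmono b c hbc
    have h3 := hmono c d hcd
    have h4 := hmono d e hde
    have h5 := hk [T.orderEmbOfFin hTc a, T.orderEmbOfFin hTc b, T.orderEmbOfFin hTc c,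
      T.orderEmbOfFin hTc d, T.orderEmbOfFin hTc e] rfl (by
        simp only [List.pairwise_cons, List.mem_cons, List.not_mem_nil, or_false,
          forall_eq_or_imp, forall_eq, List.Pairwise.nil, and_true, IsEmpty.forall_iff,
          implies_true]
        refine ⟨⟨h1, ?_, ?_, ?_⟩, ⟨h2, ?_, ?_⟩, ⟨h3, ?_⟩, h4⟩ <;> omega) (by
        intro x hx
        simp only [List.mem_cons, List.not_mem_nil, or_false] at hx
        rcases hx with rfl | rfl | rfl | rfl | rfl <;> exact hmemT _)
    exact h5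

theorem gap1 (u : ℕ → ℝ) (n : ℕ) (hn : 12 ≤ n) (hu : ∀ i j, i < j → j ≤ n → u i < u j) :
    ∃ z q q' e, z < q ∧ q < q' ∧ q' < e ∧ e ≤ n ∧
      4 * ((u e - u q') * (u q - u z)) ≤ (u e - u q) * (u q' - u z) := by
  by_contra hcon
  push Not at hcon
  have key : ∀ z q q' e : ℕ, z < q → q < q' → q' < e → e ≤ n →
      (u q' - u q < 3 * (u q - u z)) ∧ (u q' - u q < 3 * (u e - u q')) := by
    intro z q q' e h1 h2 h3 h4
    have h5 := hcon z q q' e h1 h2 h3 h4
    have ha : 0 < u q - u z := sub_pos.mpr (hu z q h1 (by omega))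
    have hb : 0 < u q' - u q := sub_pos.mpr (hu q q' h2 (by omega))
    have hc : 0 < u e - u q' := sub_pos.mpr (hu q' e h3 h4)
    set a := u q - u z with ha_def
    set b := u q' - u q with hb_def
    set c := u e - u q' with hc_def
    have e1 : u e - u q = b + c := by rw [hb_def, hc_def]; ring
    have e2 : u q' - u z = a + b := by rw [ha_def, hb_def]; ring
    rw [e1, e2] at h5
    constructor
    · by_contra hlt
      push Not at hlt
      nlinarith [mul_pos ha hc, mul_pos hb hb, mul_pos ha hb, mul_nonneg (sub_nonneg.mpr hlt) hc.le]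
    · by_contra hlt
      push Not at hlt
      nlinarith [mul_pos ha hc, mul_pos hb hb, mul_pos hc hb, mul_nonneg (sub_nonneg.mpr hlt) ha.le]
  have hA : ∀ j : ℕ, 1 ≤ j → j ≤ 10 → u 11 - u j < 3 * (u j - u (j - 1)) := by
    intro j h1 h2
    exact (key (j - 1) j 11 12 (by omega) (by omega) (by omega) hn).1
  have hB : ∀ j : ℕ, 3 ≤ j → j ≤ 12 → u (j - 1) - u 1 < 3 * (u j - u (j - 1)) := by
    intro j h1 h2
    exact (key 0 1 (j - 1) j (by omega) (by omega) (by omega) (by omega)).2
  have a3 := hA 3 (by omega) (by omega)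
  have a4 := hA 4 (by omega) (by omega)
  have a5 := hA 5 (by omega) (by omega)
  have a6 := hA 6 (by omega) (by omega)
  have a7 := hA 7 (by omega) (by omega)
  have a8 := hA 8 (by omega) (by omega)
  have a9 := hA 9 (by omega) (by omega)
  have a10 := hA 10 (by omega) (by omega)
  have b3 := hB 3 (by omega) (by omega)
  have b4 := hB 4 (by omega) (by omega)
  have b5 := hB 5 (by omega) (by omega)
  have b6 := hB 6 (by omega) (by omega)
  have b7 := hB 7 (by omega) (by omega)
  have b8 := hB 8 (by omega) (by omega)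
  have b9 := hB 9 (by omega) (by omega)
  have b10 := hB 10 (by omega) (by omega)
  norm_num at a3 a4 a5 a6 a7 a8 a9 a10 b3 b4 b5 b6 b7 b8 b9 b10
  have m1 := hu 1 2 (by omega) (by omega)
  have m2 := hu 2 10 (by omega) (by omega)
  have m3 := hu 10 11 (by omega) (by omega)
  linarith

theorem gap2_alg (X N1 N0 L1 L2 D : ℝ) (h1 : L1 ≠ 0) (h2 : L2 ≠ 0) (h3 : D ≠ 0)
    (h : X * D = N1 * L1 - N0 * L2) : X = ((N1 / L2 - N0 / L1) * L1 * L2) / D := by
  rw [eq_div_iff h3, h]
  field_simp

theorem gap2_pl (a b c d : Pt) (h1 : 0 < b.1 * d.2 - b.2 * d.1) (h2 : 0 < c.1 * d.2 - c.2 * d.1)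
    (h3 : 0 < a.1 * d.2 - a.2 * d.1) :
    b.1 * c.2 - b.2 * c.1 =
      ((a.1 * c.2 - a.2 * c.1) / (c.1 * d.2 - c.2 * d.1) -
        (a.1 * b.2 - a.2 * b.1) / (b.1 * d.2 - b.2 * d.1)) * (b.1 * d.2 - b.2 * d.1) *
        (c.1 * d.2 - c.2 * d.1) / (a.1 * d.2 - a.2 * d.1) := by
  apply gap2_alg _ _ _ _ _ _ h1.ne' h2.ne' h3.ne'
  ring

/-- cross ratio form of `gap1` for a pencil of vectors (`w a b` is the cross product of the vectors
`a` and `b`) -/
theorem gap2 (v : ℕ → Pt) (n : ℕ) (hn : 16 ≤ n)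
    (hv : ∀ i j, i < j → j ≤ n → 0 < (v i).1 * (v j).2 - (v i).2 * (v j).1) :
    ∃ z q q' e, z < q ∧ q < q' ∧ q' < e ∧ e ≤ n ∧
      4 * (((v q').1 * (v e).2 - (v q').2 * (v e).1) * ((v z).1 * (v q).2 - (v z).2 * (v q).1)) ≤
        ((v q).1 * (v e).2 - (v q).2 * (v e).1) * ((v z).1 * (v q').2 - (v z).2 * (v q').1) := by
  have hl : ∀ i, i < n → 0 < (v i).1 * (v n).2 - (v i).2 * (v n).1 := fun i hi => hv i n hi le_rfl
  have hD : 0 < (v 0).1 * (v n).2 - (v 0).2 * (v n).1 := hl 0 (by omega)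
  obtain ⟨u, hu⟩ : ∃ u : ℕ → ℝ, ∀ i, u i = ((v 0).1 * (v (i + 1)).2 - (v 0).2 * (v (i + 1)).1) /
      ((v (i + 1)).1 * (v n).2 - (v (i + 1)).2 * (v n).1) := ⟨_, fun _ => rfl⟩
  have key : ∀ a b, a + 1 < n → b + 1 < n →
      (v (a + 1)).1 * (v (b + 1)).2 - (v (a + 1)).2 * (v (b + 1)).1 =
      (u b - u a) * ((v (a + 1)).1 * (v n).2 - (v (a + 1)).2 * (v n).1) *
        ((v (b + 1)).1 * (v n).2 - (v (b + 1)).2 * (v n).1) /
        ((v 0).1 * (v n).2 - (v 0).2 * (v n).1) := by
    intro a b ha hb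
    rw [hu, hu]
    exact gap2_pl (v 0) (v (a + 1)) (v (b + 1)) (v n) (hl _ ha) (hl _ hb) hD
  have hmono : ∀ i j, i < j → j ≤ n - 2 → u i < u j := by
    intro i j hij hj
    have h1 := key i j (by omega) (by omega)
    have h2 := hv (i + 1) (j + 1) (by omega) (by omega)
    rw [h1] at h2
    have l1 := hl (i + 1) (by omega)
    have l2 := hl (j + 1) (by omega)
    by_contra hc
    push Not at hc
    have h3 : (u j - u i) * ((v (i + 1)).1 * (v n).2 - (v (i + 1)).2 * (v n).1) *
        ((v (j + 1)).1 * (v n).2 - (v (j + 1)).2 * (v n).1) /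
        ((v 0).1 * (v n).2 - (v 0).2 * (v n).1) ≤ 0 := by
      apply div_nonpos_of_nonpos_of_nonneg _ hD.le
      apply mul_nonpos_of_nonpos_of_nonneg _ l2.le
      exact mul_nonpos_of_nonpos_of_nonneg (by linarith) l1.le
    linarith
  obtain ⟨z, q, q', e, h1, h2, h3, h4, h5⟩ := gap1 u (n - 2) (by omega) hmono
  refine ⟨z + 1, q + 1, q' + 1, e + 1, by omega, by omega, by omega, by omega, ?_⟩
  rw [key q' e (by omega) (by omega), key z q (by omega) (by omega),
    key q e (by omega) (by omega), key z q' (by omega) (by omega)]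
  have lz := hl (z + 1) (by omega)
  have lq := hl (q + 1) (by omega)
  have lq' := hl (q' + 1) (by omega)
  have le := hl (e + 1) (by omega)
  generalize (v (z + 1)).1 * (v n).2 - (v (z + 1)).2 * (v n).1 = Lz at lz ⊢
  generalize (v (q + 1)).1 * (v n).2 - (v (q + 1)).2 * (v n).1 = Lq at lq ⊢
  generalize (v (q' + 1)).1 * (v n).2 - (v (q' + 1)).2 * (v n).1 = Lq' at lq' ⊢
  generalize (v (e + 1)).1 * (v n).2 - (v (e + 1)).2 * (v n).1 = Le at le ⊢
  generalize (v 0).1 * (v n).2 - (v 0).2 * (v n).1 = D at hD ⊢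
  have hK : 0 ≤ Lz * Lq * Lq' * Le / (D * D) := by positivity
  have h6 := mul_le_mul_of_nonneg_right h5 hK
  calc _ = 4 * ((u e - u q') * (u q - u z)) * (Lz * Lq * Lq' * Le / (D * D)) := by
        field_simp
    _ ≤ _ := h6
    _ = _ := by field_simp

def good_exists_SX (i z q q' e : Pt) : Prop :=
  4 * (ori i q' e * ori i z q) ≤ ori i q e * ori i z q'

def good_exists_SS (i q q' y e : Pt) : Prop :=
  4 * (ori q' y e * ori i q e) ≤ ori q y e * ori i q' e

theorem good_exists_aux1 (P : ℕ → Pt)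
    (hpos : ∀ i j k, i < j → j < k → k < 18 → 0 < ori (P i) (P j) (P k)) :
    ∃ i z q q' e, i < z ∧ z < q ∧ q < q' ∧ q' < e ∧ e < 18 ∧
      good_exists_SX (P i) (P z) (P q) (P q') (P e) := by
  obtain ⟨z, q, q', e, h1, h2, h3, h4, h5⟩ :=
    gap2 (fun j => ((P (j+1)).1 - (P 0).1, (P (j+1)).2 - (P 0).2)) 16 le_rfl (by
      intro i j hij hj
      exact hpos 0 (i+1) (j+1) (by omega) (by omega) (by omega))
  exact ⟨0, z+1, q+1, q'+1, e+1, by omega, by omega, by omega, by omega, by omega, h5⟩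

theorem good_exists_rot (a b c : Pt) : ori c a b = ori a b c := by
  unfold ori; ring

theorem good_exists_rev (a b c : Pt) : ori c b a = - ori a b c := by
  unfold ori; ring

theorem good_exists_aux2 (P : ℕ → Pt)
    (hpos : ∀ i j k, i < j → j < k → k < 18 → 0 < ori (P i) (P j) (P k)) :
    ∃ i q q' y e, i < q ∧ q < q' ∧ q' < y ∧ y < e ∧ e < 18 ∧
      good_exists_SS (P i) (P q) (P q') (P y) (P e) := by
  obtain ⟨z, q, q', e, h1, h2, h3, h4, h5⟩ :=
    gap2 (fun j => ((P j).1 - (P 17).1, (P j).2 - (P 17).2)) 16 le_rfl (by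
      intro i j hij hj
      have := hpos i j 17 (by omega) (by omega) (by omega)
      rw [← good_exists_rot] at this
      exact this)
  refine ⟨z, q, q', e, 17, by omega, by omega, by omega, by omega, by omega, ?_⟩
  have h6 : 4 * (ori (P 17) (P q') (P e) * ori (P 17) (P z) (P q)) ≤
      ori (P 17) (P q) (P e) * ori (P 17) (P z) (P q') := h5
  simp only [good_exists_rot] at h6
  exact h6

theorem good_exists_aux3 (K : ℕ) (hK : 18 ≤ K) (Q : ℕ → Pt) (bx bs : Bool)
    (hpos : ∀ i j k, i < j → j < k → k < K → 0 < ori (Q i) (Q j) (Q k))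
    (hx : ∀ i z q q' e, i < z → z < q → q < q' → q' < e → e < K →
      (good_exists_SX (Q i) (Q z) (Q q) (Q q') (Q e) ↔ bx = true))
    (hs : ∀ i z q q' e, i < z → z < q → q < q' → q' < e → e < K →
      (good_exists_SS (Q i) (Q z) (Q q) (Q q') (Q e) ↔ bs = true)) :
    (∀ i z q q' e, i < z → z < q → q < q' → q' < e → e < K →
      good_exists_SX (Q i) (Q z) (Q q) (Q q') (Q e)) ∧
    (∀ i z q q' e, i < z → z < q → q < q' → q' < e → e < K →
      good_exists_SS (Q i) (Q z) (Q q) (Q q') (Q e)) := by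
  have hbx : bx = true := by
    obtain ⟨i, z, q, q', e, h1, h2, h3, h4, h5, h6⟩ := good_exists_aux1 Q
      (fun i j k a b c => hpos i j k a b (by omega))
    exact (hx i z q q' e h1 h2 h3 h4 (by omega)).1 h6
  have hbs : bs = true := by
    obtain ⟨i, z, q, q', e, h1, h2, h3, h4, h5, h6⟩ := good_exists_aux2 Q
      (fun i j k a b c => hpos i j k a b (by omega))
    exact (hs i z q q' e h1 h2 h3 h4 (by omega)).1 h6
  exact ⟨fun i z q q' e a b c d f => (hx i z q q' e a b c d f).2 hbx,
    fun i z q q' e a b c d f => (hs i z q q' e a b c d f).2 hbs⟩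

theorem good_exists_fin (L K : ℕ) (hK : 18 ≤ K) (hLK : L ≤ K) (Q : ℕ → Pt) (bx bs : Bool)
    (hpos : ∀ i j k, i < j → j < k → k < K → 0 < ori (Q i) (Q j) (Q k))
    (hx : ∀ i z q q' e, i < z → z < q → q < q' → q' < e → e < K →
      (good_exists_SX (Q i) (Q z) (Q q) (Q q') (Q e) ↔ bx = true))
    (hs : ∀ i z q q' e, i < z → z < q → q < q' → q' < e → e < K →
      (good_exists_SS (Q i) (Q z) (Q q) (Q q') (Q e) ↔ bs = true)) :
    Good L (fun j => Q j.val) := by
  obtain ⟨h1, h2⟩ := good_exists_aux3 K hK Q bx bs hpos hx hs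
  refine ⟨?_, ?_, ?_⟩
  · intro i j k hij hjk
    exact hpos _ _ _ hij hjk (lt_of_lt_of_le k.isLt hLK)
  · intro i z q q' e a b c d
    exact h1 i z q q' e a b c d (lt_of_lt_of_le e.isLt hLK)
  · intro i z q q' e a b c d
    exact h2 i z q q' e a b c d (lt_of_lt_of_le e.isLt hLK)

theorem good_exists (L : ℕ) : ∃ N : ℕ, ∀ p : Fin N → Pt,
    (∀ i j k, i ≠ j → i ≠ k → j ≠ k → ori (p i) (p j) (p k) ≠ 0) →
      ∃ ι : Fin L → Fin N, Function.Injective ι ∧ Good L (p ∘ ι) := by
  classical
  obtain ⟨N, hN⟩ := ramsey5 (Bool × Bool × Bool × Bool × Bool) (L + 40)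
  refine ⟨N, fun p hp => ?_⟩
  obtain ⟨ι, hι, ⟨k1, k2, k3, k4, k5⟩, hk⟩ := hN (fun a b c d e =>
    (decide (0 < ori (p a) (p b) (p c)),
      decide (good_exists_SX (p a) (p b) (p c) (p d) (p e)),
      decide (good_exists_SS (p a) (p b) (p c) (p d) (p e)),
      decide (good_exists_SX (p e) (p d) (p c) (p b) (p a)),
      decide (good_exists_SS (p e) (p d) (p c) (p b) (p a))))
  simp only [Prod.mk.injEq] at hk
  cases k1 with
  | true =>
    let Q : ℕ → Pt := fun j => if h : j < L + 40 then p (ι ⟨j, h⟩) else (0, 0)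
    have hQ : ∀ j (h : j < L + 40), Q j = p (ι ⟨j, h⟩) := fun j h => by simp only [Q, dif_pos h]
    refine ⟨fun j => ι ⟨j.val, by omega⟩, ?_, ?_⟩
    · intro i j hij
      have := hι.injective hij
      simp only [Fin.mk.injEq] at this
      exact Fin.ext this
    · have hG : Good L (fun j => Q j.val) := by
        refine good_exists_fin L (L + 38) (by omega) (by omega) Q k2 k3 ?_ ?_ ?_
        · intro i j k hij hjk hk'
          rw [hQ i (by omega), hQ j (by omega), hQ k (by omega)]
          have := (hk ⟨i, by omega⟩ ⟨j, by omega⟩ ⟨k, by omega⟩ ⟨L + 38, by omega⟩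
            ⟨L + 39, by omega⟩ hij hjk hk' (by simp)).1
          exact of_decide_eq_true this
        · intro i z q q' e a b c d f
          rw [hQ i (by omega), hQ z (by omega), hQ q (by omega), hQ q' (by omega), hQ e (by omega)]
          have := (hk ⟨i, by omega⟩ ⟨z, by omega⟩ ⟨q, by omega⟩ ⟨q', by omega⟩
            ⟨e, by omega⟩ a b c d).2.1
          rw [← this, decide_eq_true_iff]
        · intro i z q q' e a b c d f
          rw [hQ i (by omega), hQ z (by omega), hQ q (by omega), hQ q' (by omega), hQ e (by omega)]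
          have := (hk ⟨i, by omega⟩ ⟨z, by omega⟩ ⟨q, by omega⟩ ⟨q', by omega⟩
            ⟨e, by omega⟩ a b c d).2.2.1
          rw [← this, decide_eq_true_iff]
      have he : (p ∘ fun j : Fin L => ι ⟨j.val, by omega⟩) = fun j : Fin L => Q j.val := by
        funext j
        rw [hQ j.val (by omega)]
        rfl
      rw [he]
      exact hG
  | false =>
    let Q : ℕ → Pt := fun j => if h : j < L + 38 then p (ι ⟨L + 37 - j, by omega⟩) else (0, 0)
    have hQ : ∀ j (h : j < L + 38), Q j = p (ι ⟨L + 37 - j, by omega⟩) :=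
      fun j h => by simp only [Q, dif_pos h]
    refine ⟨fun j => ι ⟨L + 37 - j.val, by omega⟩, ?_, ?_⟩
    · intro i j hij
      have := hι.injective hij
      simp only [Fin.mk.injEq] at this
      exact Fin.ext (by omega)
    · have hG : Good L (fun j => Q j.val) := by
        refine good_exists_fin L (L + 38) (by omega) (by omega) Q k4 k5 ?_ ?_ ?_
        · intro i j k hij hjk hk'
          rw [hQ i (by omega), hQ j (by omega), hQ k (by omega)]
          have := (hk ⟨L + 37 - k, by omega⟩ ⟨L + 37 - j, by omega⟩ ⟨L + 37 - i, by omega⟩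
            ⟨L + 38, by omega⟩ ⟨L + 39, by omega⟩ (by rw [Fin.mk_lt_mk]; omega)
            (by rw [Fin.mk_lt_mk]; omega) (by rw [Fin.mk_lt_mk]; omega)
            (by rw [Fin.mk_lt_mk]; omega)).1
          have h0 := of_decide_eq_false this
          rw [good_exists_rev]
          have hne := hp (ι ⟨L + 37 - k, by omega⟩) (ι ⟨L + 37 - j, by omega⟩)
            (ι ⟨L + 37 - i, by omega⟩)
            (fun h => by have := hι.injective h; simp only [Fin.mk.injEq] at this; omega)
            (fun h => by have := hι.injective h; simp only [Fin.mk.injEq] at this; omega)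
            (fun h => by have := hι.injective h; simp only [Fin.mk.injEq] at this; omega)
          rcases lt_trichotomy (ori (p (ι ⟨L + 37 - k, by omega⟩)) (p (ι ⟨L + 37 - j, by omega⟩))
            (p (ι ⟨L + 37 - i, by omega⟩))) 0 with h | h | h
          · linarith
          · exact absurd h hne
          · exact absurd h h0
        · intro i z q q' e a b c d f
          rw [hQ i (by omega), hQ z (by omega), hQ q (by omega), hQ q' (by omega), hQ e (by omega)]
          have := (hk ⟨L + 37 - e, by omega⟩ ⟨L + 37 - q', by omega⟩ ⟨L + 37 - q, by omega⟩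
            ⟨L + 37 - z, by omega⟩ ⟨L + 37 - i, by omega⟩ (by rw [Fin.mk_lt_mk]; omega)
            (by rw [Fin.mk_lt_mk]; omega) (by rw [Fin.mk_lt_mk]; omega)
            (by rw [Fin.mk_lt_mk]; omega)).2.2.2.1
          rw [← this, decide_eq_true_iff]
        · intro i z q q' e a b c d f
          rw [hQ i (by omega), hQ z (by omega), hQ q (by omega), hQ q' (by omega), hQ e (by omega)]
          have := (hk ⟨L + 37 - e, by omega⟩ ⟨L + 37 - q', by omega⟩ ⟨L + 37 - q, by omega⟩
            ⟨L + 37 - z, by omega⟩ ⟨L + 37 - i, by omega⟩ (by rw [Fin.mk_lt_mk]; omega)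
            (by rw [Fin.mk_lt_mk]; omega) (by rw [Fin.mk_lt_mk]; omega)
            (by rw [Fin.mk_lt_mk]; omega)).2.2.2.2
          rw [← this, decide_eq_true_iff]
      have he : (p ∘ fun j : Fin L => ι ⟨L + 37 - j.val, by omega⟩) = fun j : Fin L => Q j.val := by
        funext j
        rw [hQ j.val (by omega)]
        rfl
      rw [he]
      exact hG

theorem supersat_aux {β : Type} [Fintype β] [DecidableEq β] (L N : ℕ) (ι : Fin L → Fin N)
    (hι : Function.Injective ι) (z : Fin L → β) (S : Finset (Fin N ↪ β))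
    (hS : ∀ e ∈ S, ∀ i, e (ι i) = z i) :
    S.card ≤ Fintype.card β ^ (N - L) := by
  classical
  have hc : Fintype.card (((Finset.univ.image ι)ᶜ : Finset (Fin N)) → β)
      = Fintype.card β ^ (N - L) := by
    rw [Fintype.card_fun, Fintype.card_coe, Finset.card_compl,
      Finset.card_image_of_injective _ hι, Fintype.card_fin, Finset.card_univ, Fintype.card_fin]
  rw [← hc, ← Finset.card_univ]
  refine Finset.card_le_card_of_injOn (fun e => fun j => e j.1) (fun _ _ => Finset.mem_coe.2 (Finset.mem_univ _)) ?_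
  intro e he e' he' hee
  ext1 j
  by_cases hj : j ∈ Finset.univ.image ι
  · obtain ⟨i, -, rfl⟩ := Finset.mem_image.1 hj
    rw [hS e (Finset.mem_coe.1 he) i, hS e' (Finset.mem_coe.1 he') i]
  · exact congrFun hee ⟨j, Finset.mem_compl.2 hj⟩

theorem supersat {α : Type} [DecidableEq α] (L N : ℕ) (Gd : (Fin L → α) → Prop) (P : Finset α)
    (hN : 2 * N ≤ P.card)
    (h : ∀ p : Fin N → α, Function.Injective p → (∀ i, p i ∈ P) →
      ∃ ι : Fin L → Fin N, Function.Injective ι ∧ Gd (p ∘ ι)) :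
    ∃ Z : Finset (Fin L → α), (∀ z ∈ Z, Gd z ∧ ∀ i, z i ∈ P) ∧
      (P.card : ℝ) ^ L ≤ 2 ^ N * (N : ℝ) ^ L * Z.card := by
  classical
  set n := P.card with hn
  have hL : L ≤ N := by
    have hle : Fintype.card (Fin N) ≤ Fintype.card P := by
      rw [Fintype.card_fin, Fintype.card_coe]; omega
    obtain ⟨e⟩ := Function.Embedding.nonempty_of_card_le hle
    obtain ⟨ι, hι, -⟩ := h (fun i => (e i : α)) (fun a b hab => e.injective (Subtype.ext hab))
      (fun i => (e i).2)
    simpa using Fintype.card_le_of_injective ι hι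
  have hex : ∀ e : Fin N ↪ P, ∃ ι : Fin L → Fin N, Function.Injective ι ∧
      Gd ((fun i => (e i : α)) ∘ ι) := fun e =>
    h (fun i => (e i : α)) (fun a b hab => e.injective (Subtype.ext hab)) (fun i => (e i).2)
  choose ι hι hG using hex
  refine ⟨((Finset.univ : Finset (Fin L → P)).image (fun z i => (z i : α))).filter Gd, ?_, ?_⟩
  · intro z hz
    rw [Finset.mem_filter, Finset.mem_image] at hz
    obtain ⟨⟨w, -, rfl⟩, hz⟩ := hz
    exact ⟨hz, fun i => (w i).2⟩
  set Z := ((Finset.univ : Finset (Fin L → P)).image (fun z i => (z i : α))).filter Gd with hZ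
  have key : (Finset.univ : Finset (Fin N ↪ P)).card ≤
      n ^ (N - L) * ((Finset.univ : Finset (Fin L → Fin N)) ×ˢ Z).card := by
    refine Finset.card_le_mul_card_image_of_maps_to
      (f := fun e : Fin N ↪ P => (ι e, (fun i => (e i : α)) ∘ ι e)) ?_ _ ?_
    · intro e _
      rw [Finset.mem_product]
      refine ⟨Finset.mem_univ _, ?_⟩
      rw [hZ, Finset.mem_filter, Finset.mem_image]
      exact ⟨⟨fun i => e (ι e i), Finset.mem_univ _, rfl⟩, hG e⟩
    · rintro ⟨κ, z⟩ hκ
      by_cases hne : (Finset.univ.filter (fun e : Fin N ↪ P =>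
          (ι e, (fun i => (e i : α)) ∘ ι e) = (κ, z))).Nonempty
      · obtain ⟨e0, he0⟩ := hne
        rw [Finset.mem_filter, Prod.mk.injEq] at he0
        obtain ⟨-, h1, h2⟩ := he0
        have := supersat_aux (β := P) L N κ (h1 ▸ hι e0) (fun i => e0 (κ i))
          (Finset.univ.filter (fun e : Fin N ↪ P =>
          (ι e, (fun i => (e i : α)) ∘ ι e) = (κ, z))) (by
            intro e he i
            rw [Finset.mem_filter, Prod.mk.injEq] at he
            obtain ⟨-, h3, h4⟩ := he
            have h5 := congrFun h4 i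
            have h6 := congrFun h2 i
            simp only [Function.comp_apply] at h5 h6
            rw [h3] at h5
            rw [h1] at h6
            exact Subtype.ext (h5.trans h6.symm))
        rwa [Fintype.card_coe] at this
      · rw [Finset.not_nonempty_iff_eq_empty] at hne
        rw [hne]
        exact Nat.zero_le _
  rw [Finset.card_univ, Fintype.card_embedding_eq, Fintype.card_coe, Fintype.card_fin,
    Finset.card_product, Finset.card_univ, Fintype.card_fun, Fintype.card_fin, Fintype.card_fin]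
    at key
  have h1 : n ^ N ≤ 2 ^ N * (n ^ (N - L) * (N ^ L * Z.card)) := by
    calc n ^ N ≤ (2 * (n + 1 - N)) ^ N := Nat.pow_le_pow_left (by omega) N
      _ = 2 ^ N * (n + 1 - N) ^ N := by rw [Nat.mul_pow]
      _ ≤ 2 ^ N * n.descFactorial N :=
          Nat.mul_le_mul_left _ (Nat.pow_sub_le_descFactorial n N)
      _ ≤ _ := Nat.mul_le_mul_left _ key
  have hpos : 0 < n ^ (N - L) := by
    rcases Nat.eq_zero_or_pos n with h0 | h0
    · have : N - L = 0 := by omega
      rw [this]
      simp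
    · exact pow_pos h0 _
  have h2 : n ^ L ≤ 2 ^ N * N ^ L * Z.card := by
    refine Nat.le_of_mul_le_mul_left ?_ hpos
    calc n ^ (N - L) * n ^ L = n ^ N := by
          rw [← pow_add]; congr 1; omega
      _ ≤ _ := h1
      _ = n ^ (N - L) * (2 ^ N * N ^ L * Z.card) := by ring
  exact_mod_cast h2

theorem fiber_boxes {α : Type} [DecidableEq α] (L : ℕ) (P : Finset α) (Z : Finset (Fin L → α))
    (hZ : ∀ z ∈ Z, ∀ i, z i ∈ P) (hP : P.Nonempty) (c : ℝ) (hc : 0 < c)
    (h : c * (P.card : ℝ) ^ L ≤ Z.card) (F : Finset (Fin L)) :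
    ∃ a : Fin L → α, a ∈ Z ∧ ∀ j, j ∉ F → ∃ Q ⊆ P, c * (P.card : ℝ) ≤ Q.card ∧
      ∀ q ∈ Q, ∃ z ∈ Z, (∀ i ∈ F, z i = a i) ∧ z j = q := by
  classical
  have hn : (0 : ℝ) < (P.card : ℝ) := by exact_mod_cast hP.card_pos
  have hFL : F.card ≤ L := by simpa using F.card_le_univ
  let t : Finset (F → α) := Fintype.piFinset (fun _ : F => P)
  have htc : (t.card : ℝ) = (P.card : ℝ) ^ F.card := by
    have : t.card = P.card ^ F.card := by
      simp [t, Fintype.card_piFinset]
    rw [this]
    push_cast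
    rfl
  let f : (Fin L → α) → (F → α) := fun z i => z i
  have hf : ∀ z ∈ Z, f z ∈ t := by
    intro z hz
    rw [Fintype.mem_piFinset]
    intro i
    exact hZ z hz i
  have ht : t.Nonempty := Fintype.piFinset_nonempty.2 (fun _ => hP)
  obtain ⟨y, hy, hyc⟩ := Finset.exists_le_card_fiber_of_nsmul_le_card_of_maps_to
    (b := c * (P.card : ℝ) ^ (L - F.card)) hf ht (by
      rw [nsmul_eq_mul, htc]
      refine le_trans (le_of_eq ?_) h
      have e : (P.card : ℝ) ^ L = (P.card : ℝ) ^ F.card * (P.card : ℝ) ^ (L - F.card) := by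
        rw [← pow_add]
        congr 1
        omega
      rw [e]
      ring)
  set Y := Z.filter (fun z => f z = y) with hY
  have hYpos : (0 : ℝ) < (Y.card : ℝ) := lt_of_lt_of_le (by positivity) hyc
  have hYne : Y.Nonempty := by
    rw [← Finset.card_pos]
    exact_mod_cast hYpos
  obtain ⟨a, ha⟩ := hYne
  refine ⟨a, (Finset.mem_filter.1 ha).1, ?_⟩
  intro j hj
  refine ⟨Y.image (fun z => z j), ?_, ?_, ?_⟩
  · intro q hq
    obtain ⟨z, hz, rfl⟩ := Finset.mem_image.1 hq
    exact hZ z (Finset.mem_filter.1 hz).1 j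
  · have hcard : Y.card ≤ (Y.image (fun z => z j) ×ˢ
        Fintype.piFinset (fun _ : {i : Fin L // i ∉ F ∧ i ≠ j} => P)).card := by
      apply Finset.card_le_card_of_injOn
        (fun z => (z j, fun i : {i : Fin L // i ∉ F ∧ i ≠ j} => z i.1))
      · intro z hz
        have hz' : z ∈ Y := hz
        simp only [Finset.coe_product, Set.mem_prod, Finset.mem_coe]
        refine ⟨Finset.mem_image_of_mem _ hz', ?_⟩
        rw [Fintype.mem_piFinset]
        intro i
        exact hZ z (Finset.mem_filter.1 hz').1 i.1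
      · intro z hz z' hz' he
        have hz1 : z ∈ Y := hz
        have hz2 : z' ∈ Y := hz'
        simp only [Prod.mk.injEq] at he
        funext i
        by_cases hi : i ∈ F
        · have h1 := congrFun ((Finset.mem_filter.1 hz1).2.trans
            (Finset.mem_filter.1 hz2).2.symm) ⟨i, hi⟩
          exact h1
        · by_cases hij : i = j
          · rw [hij]
            exact he.1
          · exact congrFun he.2 ⟨i, hi, hij⟩
    have hW : Fintype.card {i : Fin L // i ∉ F ∧ i ≠ j} = L - F.card - 1 := by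
      rw [Fintype.card_subtype]
      have e : (Finset.univ.filter (fun i : Fin L => i ∉ F ∧ i ≠ j)) = (insert j F)ᶜ := by
        ext i
        simp only [Finset.mem_filter, Finset.mem_univ, true_and, Finset.mem_compl,
          Finset.mem_insert, not_or]
        tauto
      rw [e, Finset.card_compl, Finset.card_insert_of_notMem hj, Fintype.card_fin]
      omega
    have hlt : F.card + 1 ≤ L := by
      have := (insert j F).card_le_univ
      rw [Finset.card_insert_of_notMem hj] at this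
      simpa using this
    rw [Finset.card_product, Fintype.card_piFinset, Finset.prod_const, Finset.card_univ, hW] at hcard
    have hcR : (Y.card : ℝ) ≤ ((Y.image (fun z => z j)).card : ℝ) * (P.card : ℝ) ^ (L - F.card - 1) := by
      exact_mod_cast hcard
    have e2 : (P.card : ℝ) ^ (L - F.card) = (P.card : ℝ) * (P.card : ℝ) ^ (L - F.card - 1) := by
      rw [← pow_succ']
      congr 1
      omega
    rw [e2] at hyc
    have hp : (0 : ℝ) < (P.card : ℝ) ^ (L - F.card - 1) := by positivity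
    refine le_of_mul_le_mul_right ?_ hp
    calc c * (P.card : ℝ) * (P.card : ℝ) ^ (L - F.card - 1)
        = c * ((P.card : ℝ) * (P.card : ℝ) ^ (L - F.card - 1)) := by ring
      _ ≤ (Y.card : ℝ) := hyc
      _ ≤ _ := hcR
  · intro q hq
    obtain ⟨z, hz, rfl⟩ := Finset.mem_image.1 hq
    refine ⟨z, (Finset.mem_filter.1 hz).1, ?_, rfl⟩
    intro i hi
    have h1 := congrFun ((Finset.mem_filter.1 hz).2.trans (Finset.mem_filter.1 ha).2.symm) ⟨i, hi⟩
    exact h1

theorem chain_boxes (L : ℕ) (F : Finset (Fin L)) : ∃ c : ℝ, 0 < c ∧ ∃ n0 : ℕ, ∀ P : Finset Pt,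
    GP P → n0 ≤ P.card → ∃ a : Fin L → Pt, Good L a ∧ (∀ i, a i ∈ P) ∧
      ∀ j, j ∉ F → ∃ Q ⊆ P, c * (P.card : ℝ) ≤ Q.card ∧
        ∀ q ∈ Q, ∃ z : Fin L → Pt, Good L z ∧ (∀ i ∈ F, z i = a i) ∧ z j = q := by
  classical
  obtain ⟨N, hN⟩ := good_exists L
  have hpos : (0 : ℝ) < 2 ^ N * (N : ℝ) ^ L + 1 := by positivity
  refine ⟨1 / (2 ^ N * (N : ℝ) ^ L + 1), by positivity, 2 * N + 1, ?_⟩
  intro P hGP hcard
  obtain ⟨Z, hZ1, hZ2⟩ := supersat L N (Good L) P (by omega) (by
    intro p hp hpP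
    apply hN
    intro i j k hij hik hjk
    exact hGP _ (hpP i) _ (hpP j) _ (hpP k) (fun h => hij (hp h)) (fun h => hik (hp h))
      (fun h => hjk (hp h)))
  have hne : P.Nonempty := Finset.card_pos.1 (by omega)
  have hle : 1 / (2 ^ N * (N : ℝ) ^ L + 1) * (P.card : ℝ) ^ L ≤ Z.card := by
    rw [one_div, inv_mul_le_iff₀ hpos]
    refine hZ2.trans ?_
    apply mul_le_mul_of_nonneg_right _ (Nat.cast_nonneg _)
    linarith
  obtain ⟨a, haZ, ha⟩ := fiber_boxes L P Z (fun z hz => (hZ1 z hz).2) hne _ (by positivity) hle F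
  refine ⟨a, (hZ1 a haZ).1, (hZ1 a haZ).2, ?_⟩
  intro j hj
  obtain ⟨Q, hQP, hQc, hQ⟩ := ha j hj
  refine ⟨Q, hQP, hQc, ?_⟩
  intro q hq
  obtain ⟨z, hz, hz1, hz2⟩ := hQ q hq
  exact ⟨z, (hZ1 z hz).1, hz1, hz2⟩

end Pool.Agent.Helper745.FSub
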