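import Pool.Agent.Helper745.FS.B3

set_option autoImplicit false

namespace Pool.Agent.Helper745.FSub

lemma barrier_anti (t : ℕ → ℝ) (ht : ∀ j, 0 ≤ t j) (ht2 : ∀ j, 4 * t (j + 1) ≤ t j) {i j : ℕ}
    (hij : i ≤ j) : t j ≤ t i := by
  have : Antitone t := antitone_nat_of_succ_le fun n => by
    have h1 := ht2 n
    have h2 := ht (n + 1)
    linarith
  exact this hij

lemma barrier_H (t : ℕ → ℝ) (ht : ∀ j, 0 ≤ t j) (ht2 : ∀ j, 4 * t (j + 1) ≤ t j) (G : ℝ)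
    (u m : ℕ) : ∃ u', u ≤ u' ∧ u' + m ≤ u + (2 * m + 2) ∧
      ((∀ j, u' ≤ j → j ≤ u' + m → 4 * G ≤ t j) ∨ (∀ j, u' ≤ j → j ≤ u' + m → 4 * t j ≤ G)) := by
  by_cases hc : 4 * G ≤ t (u + m)
  · refine ⟨u, le_rfl, by omega, Or.inl fun j _ hj => hc.trans (barrier_anti t ht ht2 hj)⟩
  · push Not at hc
    refine ⟨u + m + 2, by omega, by omega, Or.inr fun j hj _ => ?_⟩
    have h1 := ht2 (u + m)
    have h2 := ht2 (u + m + 1)
    have h3 := barrier_anti t ht ht2 hj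
    have h4 : t (u + m + 2) = t (u + m + 1 + 1) := rfl
    linarith

lemma barrier_dom (x y z : ℝ) (hy : 4 * |y| ≤ |x|) (hz : 4 * |z| ≤ |x|) (h : 0 < x + y + z) :
    0 < x := by
  by_contra hx
  push Not at hx
  rw [abs_of_nonpos hx] at hy hz
  have := le_abs_self y
  have := le_abs_self z
  linarith

lemma barrier_dom2 (x y z : ℝ) (hy : 4 * |y| ≤ |x|) (hz : 4 * |z| ≤ |x|) (hx : 0 < x) :
    0 < x + y + z := by
  rw [abs_of_pos hx] at hy hz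
  have := neg_abs_le y
  have := neg_abs_le z
  linarith

lemma barrier_cyc (x y z : ℝ) (hy : 4 * |y| ≤ |x|) (hz : 4 * |z| ≤ |y|) (hx : 4 * |x| ≤ |z|)
    (h : 0 < x + y + z) : False := by
  have h1 := abs_nonneg x
  have h2 := abs_nonneg y
  have h3 := abs_nonneg z
  have := le_abs_self x
  have := le_abs_self y
  have := le_abs_self z
  linarith

theorem barrier (m : ℕ) (ξ η : ℕ → ℝ) (hξ : Dec ξ) (hη : Dec η) (α β γ : ℝ) (u : ℕ)
    (h : ∀ j, u ≤ j → j ≤ u + (8 * m + 100) → 0 < α * ξ j + β * (ξ j * η j) + γ) :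
    ∃ u', u ≤ u' ∧ u' + m ≤ u + (8 * m + 100) ∧ ∀ a c, u' ≤ a → a ≤ u' + m → u' ≤ c →
      c ≤ u' + m → 0 < α * ξ a + β * (ξ a * η c) + γ := by
  have ht1 : ∀ j, 0 ≤ |α| * ξ j := fun j => mul_nonneg (abs_nonneg _) (hξ j).1.le
  have ht1' : ∀ j, 4 * (|α| * ξ (j + 1)) ≤ |α| * ξ j := fun j => by
    have := mul_le_mul_of_nonneg_left (hξ j).2 (abs_nonneg α)
    linarith
  have ht2 : ∀ j, 0 ≤ |β| * η j := fun j => mul_nonneg (abs_nonneg _) (hη j).1.le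
  have ht2' : ∀ j, 4 * (|β| * η (j + 1)) ≤ |β| * η j := fun j => by
    have := mul_le_mul_of_nonneg_left (hη j).2 (abs_nonneg β)
    linarith
  have ht3 : ∀ j, 0 ≤ |β| * (ξ j * η j) := fun j =>
    mul_nonneg (abs_nonneg _) (mul_nonneg (hξ j).1.le (hη j).1.le)
  have ht3' : ∀ j, 4 * (|β| * (ξ (j + 1) * η (j + 1))) ≤ |β| * (ξ j * η j) := fun j => by
    have e1 : (4 * ξ (j + 1)) * (4 * η (j + 1)) ≤ ξ j * η j :=
      mul_le_mul (hξ j).2 (hη j).2 (by have := (hη (j + 1)).1; linarith) (hξ j).1.le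
    have e2 : 0 < ξ (j + 1) * η (j + 1) := mul_pos (hξ (j + 1)).1 (hη (j + 1)).1
    have e3 : 4 * (ξ (j + 1) * η (j + 1)) ≤ ξ j * η j := by linarith
    have := mul_le_mul_of_nonneg_left e3 (abs_nonneg β)
    linarith
  obtain ⟨u1, hu1, hu1', h1⟩ := barrier_H _ ht1 ht1' |γ| u (4 * m + 6)
  obtain ⟨u2, hu2, hu2', h2⟩ := barrier_H _ ht2 ht2' |α| u1 (2 * m + 2)
  obtain ⟨u3, hu3, hu3', h3⟩ := barrier_H _ ht3 ht3' |γ| u2 m
  have hd := h u3 (by omega) (by omega)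
  refine ⟨u3, by omega, by omega, fun a c ha ha' hc hc' => ?_⟩
  have aA : ∀ j, |α * ξ j| = |α| * ξ j := fun j => by rw [abs_mul, abs_of_pos (hξ j).1]
  have aB : ∀ j k, |β * (ξ j * η k)| = |β| * (ξ j * η k) := fun j k => by
    rw [abs_mul, abs_of_pos (mul_pos (hξ j).1 (hη k).1)]
  have xa0 := (hξ a).1
  have yc0 := (hη c).1
  have x0 := (hξ u3).1
  have y0 := (hη u3).1
  have xm := (hξ (u3 + m)).1
  have ym := (hη (u3 + m)).1
  have xle : ξ a ≤ ξ u3 := barrier_anti ξ (fun j => (hξ j).1.le) (fun j => (hξ j).2) ha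
  have xge : ξ (u3 + m) ≤ ξ a := barrier_anti ξ (fun j => (hξ j).1.le) (fun j => (hξ j).2) ha'
  have yle : η c ≤ η u3 := barrier_anti η (fun j => (hη j).1.le) (fun j => (hη j).2) hc
  have yge : η (u3 + m) ≤ η c := barrier_anti η (fun j => (hη j).1.le) (fun j => (hη j).2) hc'
  -- comparison 1
  have c1 : (4 * |γ| ≤ |α * ξ a| ∧ 4 * |γ| ≤ |α * ξ u3|) ∨
      (4 * |α * ξ a| ≤ |γ| ∧ 4 * |α * ξ u3| ≤ |γ|) := by
    rw [aA, aA]
    rcases h1 with h1 | h1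
    · exact Or.inl ⟨h1 a (by omega) (by omega), h1 u3 (by omega) (by omega)⟩
    · exact Or.inr ⟨h1 a (by omega) (by omega), h1 u3 (by omega) (by omega)⟩
  have c2 : (4 * |α * ξ a| ≤ |β * (ξ a * η c)| ∧ 4 * |α * ξ u3| ≤ |β * (ξ u3 * η u3)|) ∨
      (4 * |β * (ξ a * η c)| ≤ |α * ξ a| ∧ 4 * |β * (ξ u3 * η u3)| ≤ |α * ξ u3|) := by
    rw [aA, aA, aB, aB]
    rcases h2 with h2 | h2
    · have k1 := mul_le_mul_of_nonneg_right (h2 c (by omega) (by omega)) xa0.le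
      have k2 := mul_le_mul_of_nonneg_right (h2 u3 (by omega) (by omega)) x0.le
      exact Or.inl ⟨by linarith, by linarith⟩
    · have k1 := mul_le_mul_of_nonneg_right (h2 c (by omega) (by omega)) xa0.le
      have k2 := mul_le_mul_of_nonneg_right (h2 u3 (by omega) (by omega)) x0.le
      exact Or.inr ⟨by linarith, by linarith⟩
  have c3 : (4 * |γ| ≤ |β * (ξ a * η c)| ∧ 4 * |γ| ≤ |β * (ξ u3 * η u3)|) ∨
      (4 * |β * (ξ a * η c)| ≤ |γ| ∧ 4 * |β * (ξ u3 * η u3)| ≤ |γ|) := by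
    rw [aB, aB]
    rcases h3 with h3 | h3
    · have k1 := h3 (u3 + m) (by omega) le_rfl
      have k2 : ξ (u3 + m) * η (u3 + m) ≤ ξ a * η c := mul_le_mul xge yge ym.le xa0.le
      have k3 := mul_le_mul_of_nonneg_left k2 (abs_nonneg β)
      exact Or.inl ⟨k1.trans k3, h3 u3 le_rfl (by omega)⟩
    · have k1 := h3 u3 le_rfl (by omega)
      have k2 : ξ a * η c ≤ ξ u3 * η u3 := mul_le_mul xle yle yc0.le x0.le
      have k3 := mul_le_mul_of_nonneg_left k2 (abs_nonneg β)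
      exact Or.inr ⟨by linarith, k1⟩
  have sA : 0 < α * ξ u3 → 0 < α * ξ a := fun hh =>
    mul_pos (pos_of_mul_pos_left hh x0.le) xa0
  have sB : 0 < β * (ξ u3 * η u3) → 0 < β * (ξ a * η c) := fun hh =>
    mul_pos (pos_of_mul_pos_left hh (mul_pos x0 y0).le) (mul_pos xa0 yc0)
  -- A dominates
  have dA : 4 * |γ| ≤ |α * ξ a| → 4 * |γ| ≤ |α * ξ u3| → 4 * |β * (ξ a * η c)| ≤ |α * ξ a| →
      4 * |β * (ξ u3 * η u3)| ≤ |α * ξ u3| → 0 < α * ξ a + β * (ξ a * η c) + γ :=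
    fun q1 q2 q3 q4 => barrier_dom2 _ _ _ q3 q1 (sA (barrier_dom _ _ _ q4 q2 hd))
  have dB : 4 * |γ| ≤ |β * (ξ a * η c)| → 4 * |γ| ≤ |β * (ξ u3 * η u3)| →
      4 * |α * ξ a| ≤ |β * (ξ a * η c)| →
      4 * |α * ξ u3| ≤ |β * (ξ u3 * η u3)| → 0 < α * ξ a + β * (ξ a * η c) + γ := by
    intro q1 q2 q3 q4
    have r1 := barrier_dom (β * (ξ u3 * η u3)) (α * ξ u3) γ q4 q2 (by linarith)
    have r2 := barrier_dom2 (β * (ξ a * η c)) (α * ξ a) γ q3 q1 (sB r1)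
    linarith
  have dC : 4 * |α * ξ a| ≤ |γ| → 4 * |α * ξ u3| ≤ |γ| → 4 * |β * (ξ a * η c)| ≤ |γ| →
      4 * |β * (ξ u3 * η u3)| ≤ |γ| → 0 < α * ξ a + β * (ξ a * η c) + γ := by
    intro q1 q2 q3 q4
    have r1 := barrier_dom γ (α * ξ u3) (β * (ξ u3 * η u3)) q2 q4 (by linarith)
    have r2 := barrier_dom2 γ (α * ξ a) (β * (ξ a * η c)) q1 q3 r1
    linarith
  rcases c1 with ⟨a1, a2⟩ | ⟨a1, a2⟩ <;> rcases c2 with ⟨b1, b2⟩ | ⟨b1, b2⟩ <;>
    rcases c3 with ⟨d1, d2⟩ | ⟨d1, d2⟩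
  · exact dB d1 d2 b1 b2
  · exact (barrier_cyc (α * ξ u3) γ (β * (ξ u3 * η u3)) a2 d2 b2 (by linarith)).elim
  · exact dA a1 a2 b1 b2
  · exact dA a1 a2 b1 b2
  · exact dB d1 d2 b1 b2
  · exact dC a1 a2 d1 d2
  · exact (barrier_cyc (α * ξ u3) (β * (ξ u3 * η u3)) γ b2 d2 a2 (by linarith)).elim
  · exact dC a1 a2 d1 d2

/-- explicit frame from three homogeneous vectors of negative determinant -/
noncomputable def frame_of_mk (A1 A2 A3 B1 B2 B3 C1 C2 C3 : ℝ)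
    (h : A1 * (B2 * C3 - B3 * C2) - A2 * (B1 * C3 - B3 * C1) + A3 * (B1 * C2 - B2 * C1) < 0) :
    Frm where
  pt := fun x s => ((A1 * x + B1 * (x * s) + C1) / (A3 * x + B3 * (x * s) + C3),
    (A2 * x + B2 * (x * s) + C2) / (A3 * x + B3 * (x * s) + C3))
  wt := fun x s => A3 * x + B3 * (x * s) + C3
  det := by
    intro x₁ s₁ x₂ s₂ x₃ s₃ h1 h2 h3 h0
    have key : ori ((A1 * x₁ + B1 * (x₁ * s₁) + C1) / (A3 * x₁ + B3 * (x₁ * s₁) + C3),
        (A2 * x₁ + B2 * (x₁ * s₁) + C2) / (A3 * x₁ + B3 * (x₁ * s₁) + C3))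
        ((A1 * x₂ + B1 * (x₂ * s₂) + C1) / (A3 * x₂ + B3 * (x₂ * s₂) + C3),
        (A2 * x₂ + B2 * (x₂ * s₂) + C2) / (A3 * x₂ + B3 * (x₂ * s₂) + C3))
        ((A1 * x₃ + B1 * (x₃ * s₃) + C1) / (A3 * x₃ + B3 * (x₃ * s₃) + C3),
        (A2 * x₃ + B2 * (x₃ * s₃) + C2) / (A3 * x₃ + B3 * (x₃ * s₃) + C3)) *
        ((A3 * x₁ + B3 * (x₁ * s₁) + C3) * (A3 * x₂ + B3 * (x₂ * s₂) + C3) *
          (A3 * x₃ + B3 * (x₃ * s₃) + C3)) =
        (A1 * (B2 * C3 - B3 * C2) - A2 * (B1 * C3 - B3 * C1) + A3 * (B1 * C2 - B2 * C1)) *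
          det0 x₁ s₁ x₂ s₂ x₃ s₃ := by
      have e1 := h1.ne'
      have e2 := h2.ne'
      have e3 := h3.ne'
      unfold ori det0
      dsimp only
      generalize hW1 : A3 * x₁ + B3 * (x₁ * s₁) + C3 = W1 at *
      generalize hW2 : A3 * x₂ + B3 * (x₂ * s₂) + C3 = W2 at *
      generalize hW3 : A3 * x₃ + B3 * (x₃ * s₃) + C3 = W3 at *
      field_simp
      subst hW1 hW2 hW3
      ring
    have hw : 0 < ((A3 * x₁ + B3 * (x₁ * s₁) + C3) * (A3 * x₂ + B3 * (x₂ * s₂) + C3) *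
          (A3 * x₃ + B3 * (x₃ * s₃) + C3)) := mul_pos (mul_pos h1 h2) h3
    have h4 := mul_pos_of_neg_of_neg h h0
    rw [← key] at h4
    exact (pos_iff_pos_of_mul_pos h4).2 hw

/-- the frame given by four points `i, z, y, e` of a chain in convex position -/
theorem frame_of (i z y e : Pt) (h1 : 0 < ori i z e) (h2 : 0 < ori i y e) (h3 : 0 < ori i z y)
    (h4 : 0 < ori z y e) :
    ∃ F : Frm, (∀ q, 0 < ori i q e → 0 < ori i z q → 0 < ori q y e →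
        q = F.pt (ori i q e / ori i z q) (ori q y e / ori i q e) ∧
        0 < F.wt (ori i q e / ori i z q) (ori q y e / ori i q e)) ∧
      (∃ α β γ : ℝ, ∀ x s, F.wt x s = α * x + β * (x * s) + γ) ∧
      ∀ a b : Pt, ∃ α β γ : ℝ, ∀ x s, 0 < F.wt x s →
        ori a b (F.pt x s) * F.wt x s = α * x + β * (x * s) + γ := by
  obtain ⟨D, hD⟩ : ∃ D, D = ori i z e := ⟨_, rfl⟩
  obtain ⟨Yi, hYi⟩ : ∃ D, D = ori i y e := ⟨_, rfl⟩
  obtain ⟨Yz, hYz⟩ : ∃ D, D = ori z y e := ⟨_, rfl⟩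
  have hD0 : D ≠ 0 := by rw [hD]; exact h1.ne'
  have hY0 : Yi ≠ 0 := by rw [hYi]; exact h2.ne'
  have hdet : ((z.1 - Yz / Yi * i.1) / D) * (i.2 / Yi * (1 / D) - 1 / Yi * (e.2 / D)) -
      ((z.2 - Yz / Yi * i.2) / D) * (i.1 / Yi * (1 / D) - 1 / Yi * (e.1 / D)) +
      ((1 - Yz / Yi) / D) * (i.1 / Yi * (e.2 / D) - i.2 / Yi * (e.1 / D)) < 0 := by
    have : ((z.1 - Yz / Yi * i.1) / D) * (i.2 / Yi * (1 / D) - 1 / Yi * (e.2 / D)) -
      ((z.2 - Yz / Yi * i.2) / D) * (i.1 / Yi * (1 / D) - 1 / Yi * (e.1 / D)) +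
      ((1 - Yz / Yi) / D) * (i.1 / Yi * (e.2 / D) - i.2 / Yi * (e.1 / D)) =
        - (ori i z e) / (D * D * Yi) := by
      unfold ori
      field_simp
      ring
    rw [this, ← hD]
    have hDp : 0 < D := by rw [hD]; exact h1
    have hYp : 0 < Yi := by rw [hYi]; exact h2
    have : 0 < D / (D * D * Yi) := by positivity
    rw [neg_div]
    linarith
  refine ⟨frame_of_mk _ _ _ _ _ _ _ _ _ hdet, ?_, ⟨_, _, _, fun x s => rfl⟩, ?_⟩
  · intro q hX hZ hY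
    have hX0 := hX.ne'
    have hZ0 := hZ.ne'
    obtain ⟨X, hXe⟩ : ∃ X, X = ori i q e := ⟨_, rfl⟩
    obtain ⟨Y, hYe⟩ : ∃ X, X = ori q y e := ⟨_, rfl⟩
    obtain ⟨Z, hZe⟩ : ∃ X, X = ori i z q := ⟨_, rfl⟩
    rw [← hXe, ← hYe, ← hZe]
    rw [← hXe] at hX0 hX
    rw [← hZe] at hZ0 hZ
    have k1 : q.1 = X * ((z.1 - Yz / Yi * i.1) / D) + Y * (i.1 / Yi) + Z * (e.1 / D) := by
      field_simp
      rw [hXe, hYe, hZe, hD, hYi, hYz]
      unfold ori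
      ring
    have k2 : q.2 = X * ((z.2 - Yz / Yi * i.2) / D) + Y * (i.2 / Yi) + Z * (e.2 / D) := by
      field_simp
      rw [hXe, hYe, hZe, hD, hYi, hYz]
      unfold ori
      ring
    have k3 : 1 = X * ((1 - Yz / Yi) / D) + Y * (1 / Yi) + Z * (1 / D) := by
      field_simp
      rw [hXe, hYe, hZe, hD, hYi, hYz]
      unfold ori
      ring
    have kk : ∀ a b c : ℝ, a * (X / Z) + b * (X / Z * (Y / X)) + c =
        (X * a + Y * b + Z * c) / Z := by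
      intro a b c
      field_simp
    have w : (frame_of_mk _ _ _ _ _ _ _ _ _ hdet).wt (X / Z) (Y / X) = 1 / Z := by
      show (1 - Yz / Yi) / D * (X / Z) + 1 / Yi * (X / Z * (Y / X)) + 1 / D = 1 / Z
      rw [kk, ← k3]
    refine ⟨?_, by rw [w]; positivity⟩
    show q = ((((z.1 - Yz / Yi * i.1) / D) * (X / Z) + i.1 / Yi * (X / Z * (Y / X)) + e.1 / D) /
        ((1 - Yz / Yi) / D * (X / Z) + 1 / Yi * (X / Z * (Y / X)) + 1 / D),
      (((z.2 - Yz / Yi * i.2) / D) * (X / Z) + i.2 / Yi * (X / Z * (Y / X)) + e.2 / D) /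
        ((1 - Yz / Yi) / D * (X / Z) + 1 / Yi * (X / Z * (Y / X)) + 1 / D))
    rw [kk, kk, kk, ← k1, ← k2, ← k3]
    have hh : ∀ a : ℝ, a / Z / (1 / Z) = a := by
      intro a; field_simp
    rw [hh, hh]
  · intro a b
    refine ⟨(b.1 - a.1) * ((z.2 - Yz / Yi * i.2) / D - a.2 * ((1 - Yz / Yi) / D)) -
      (b.2 - a.2) * ((z.1 - Yz / Yi * i.1) / D - a.1 * ((1 - Yz / Yi) / D)),
      (b.1 - a.1) * (i.2 / Yi - a.2 * (1 / Yi)) - (b.2 - a.2) * (i.1 / Yi - a.1 * (1 / Yi)),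
      (b.1 - a.1) * (e.2 / D - a.2 * (1 / D)) - (b.2 - a.2) * (e.1 / D - a.1 * (1 / D)), ?_⟩
    intro x s hw
    have hw' : (1 - Yz / Yi) / D * x + 1 / Yi * (x * s) + 1 / D ≠ 0 := hw.ne'
    show ori a b ((((z.1 - Yz / Yi * i.1) / D) * x + i.1 / Yi * (x * s) + e.1 / D) /
        ((1 - Yz / Yi) / D * x + 1 / Yi * (x * s) + 1 / D),
      (((z.2 - Yz / Yi * i.2) / D) * x + i.2 / Yi * (x * s) + e.2 / D) /
        ((1 - Yz / Yi) / D * x + 1 / Yi * (x * s) + 1 / D)) *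
        ((1 - Yz / Yi) / D * x + 1 / Yi * (x * s) + 1 / D) = _
    unfold ori
    dsimp only
    generalize hW : (1 - Yz / Yi) / D * x + 1 / Yi * (x * s) + 1 / D = W at *
    have q1 : ∀ u : ℝ, u / W * W = u := fun u => div_mul_cancel₀ u hw'
    have q2 : ∀ u v : ℝ, ((b.1 - a.1) * (u / W - a.2) - (b.2 - a.2) * (v / W - a.1)) * W =
        (b.1 - a.1) * (u - a.2 * W) - (b.2 - a.2) * (v - a.1 * W) := by
      intro u v
      have := q1 u
      have := q1 v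
      linear_combination (b.1 - a.1) * q1 u - (b.2 - a.2) * q1 v
    rw [q2, ← hW]
    ring

theorem frame_chain_aux {L : ℕ} {p : Fin L → Pt} (hG : Good L p) {i z q q' y e : Fin L}
    (h1 : i < z) (h2 : z < q) (h3 : q < q') (h4 : q' < y) (h5 : y < e) :
    4 * (ori (p i) (p q') (p e) / ori (p i) (p z) (p q')) ≤
      ori (p i) (p q) (p e) / ori (p i) (p z) (p q) ∧
    4 * (ori (p q') (p y) (p e) / ori (p i) (p q') (p e)) ≤
      ori (p q) (p y) (p e) / ori (p i) (p q) (p e) := by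
  have zq := h2
  have qe : q < e := (h3.trans h4).trans h5
  have q'e : q' < e := h4.trans h5
  have X : 0 < ori (p i) (p q) (p e) := hG.pos _ _ _ (h1.trans h2) qe
  have X' : 0 < ori (p i) (p q') (p e) := hG.pos _ _ _ ((h1.trans h2).trans h3) q'e
  have Z : 0 < ori (p i) (p z) (p q) := hG.pos _ _ _ h1 h2
  have Z' : 0 < ori (p i) (p z) (p q') := hG.pos _ _ _ h1 (h2.trans h3)
  have sx := hG.sx i z q q' e h1 h2 h3 q'e
  have ss := hG.ss i q q' y e (h1.trans h2) h3 h4 h5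
  constructor
  · rw [← mul_div_assoc, div_le_div_iff₀ Z' Z]
    linarith
  · rw [← mul_div_assoc, div_le_div_iff₀ X' X]
    linarith

theorem frame_chain_dec (M : ℕ) (f : ℕ → ℝ) (hpos : ∀ j, 0 < f j)
    (hdec : ∀ j < M, 4 * f (j + 1) ≤ f j) (hconst : ∀ j, M ≤ j → f j = f M) :
    Dec (fun j => f j / 4 ^ (j - M)) := by
  intro j
  refine ⟨div_pos (hpos j) (by positivity), ?_⟩
  rcases lt_or_ge j M with h | h
  · have e1 : j - M = 0 := by omega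
    have e2 : j + 1 - M = 0 := by omega
    simp only [e1, e2, pow_zero, div_one]
    exact hdec j h
  · have e1 : j + 1 - M = (j - M) + 1 := by omega
    simp only [e1]
    rw [hconst j h, hconst (j + 1) (by omega), pow_succ]
    have : (0 : ℝ) < 4 ^ (j - M) := by positivity
    apply le_of_eq
    field_simp

theorem frame_chain (M : ℕ) : ∃ c : ℝ, 0 < c ∧ ∃ n0 : ℕ, ∀ P : Finset Pt, GP P → n0 ≤ P.card →
    ∃ (F : Frm) (ξ η : ℕ → ℝ), Dec ξ ∧ Dec η ∧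
      (∀ j ≤ M, F.pt (ξ j) (η j) ∈ P ∧ 0 < F.wt (ξ j) (η j)) ∧
      (∃ α β γ : ℝ, ∀ x s, F.wt x s = α * x + β * (x * s) + γ) ∧
      (∀ a b : Pt, ∃ α β γ : ℝ, ∀ x s, 0 < F.wt x s →
        ori a b (F.pt x s) * F.wt x s = α * x + β * (x * s) + γ) ∧
      ∀ j < M, ∃ Q ⊆ P, c * (P.card : ℝ) ≤ Q.card ∧ ∀ q ∈ Q, InBox F ξ η j q := by
  classical
  obtain ⟨c, hc, n0, H⟩ := chain_boxes (2 * M + 5)
    (Finset.univ.filter (fun i : Fin (2 * M + 5) => ¬ ∃ j < M, i.val = 3 + 2 * j))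
  refine ⟨c, hc, n0, ?_⟩
  intro P hGP hn
  obtain ⟨a, hG, haP, hbox⟩ := H P hGP hn
  -- the positions
  have b0 : 0 < 2 * M + 5 := by omega
  have b1 : 1 < 2 * M + 5 := by omega
  have bY : 2 * M + 3 < 2 * M + 5 := by omega
  have bE : 2 * M + 4 < 2 * M + 5 := by omega
  have bs : ∀ j : ℕ, 2 + 2 * min j M < 2 * M + 5 := fun j => by
    have := min_le_right j M
    omega
  set i0 : Fin (2 * M + 5) := ⟨0, b0⟩ with hi0
  set z0 : Fin (2 * M + 5) := ⟨1, b1⟩ with hz0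
  set y0 : Fin (2 * M + 5) := ⟨2 * M + 3, bY⟩ with hy0
  set e0 : Fin (2 * M + 5) := ⟨2 * M + 4, bE⟩ with he0
  have l1 : i0 < z0 := by rw [Fin.lt_def]; simp [hi0, hz0]
  have l2 : z0 < y0 := by rw [Fin.lt_def]; simp [hz0, hy0]
  have l3 : y0 < e0 := by rw [Fin.lt_def]; simp [hy0, he0]
  obtain ⟨Fr, hf1, hf2, hf3⟩ := frame_of (a i0) (a z0) (a y0) (a e0)
    (hG.pos _ _ _ l1 (l2.trans l3)) (hG.pos _ _ _ (l1.trans l2) l3) (hG.pos _ _ _ l1 l2)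
    (hG.pos _ _ _ l2 l3)
  set sp : ℕ → Fin (2 * M + 5) := fun j => ⟨2 + 2 * min j M, bs j⟩ with hsp
  have hsp1 : ∀ j, z0 < sp j := by
    intro j
    rw [Fin.lt_def]
    simp only [hz0, hsp]
    omega
  have hsp2 : ∀ j, sp j < y0 := by
    intro j
    rw [Fin.lt_def]
    simp only [hy0, hsp]
    have := min_le_right j M
    omega
  have hsp3 : ∀ j < M, sp j < sp (j + 1) := by
    intro j hj
    rw [Fin.lt_def]
    simp only [hsp]
    rw [min_eq_left (by omega : j ≤ M), min_eq_left (by omega : j + 1 ≤ M)]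
    omega
  have hsp4 : ∀ j, M ≤ j → sp j = sp M := by
    intro j hj
    apply Fin.ext
    simp only [hsp]
    rw [min_eq_right hj, min_self]
  set f : ℕ → ℝ := fun j => ori (a i0) (a (sp j)) (a e0) / ori (a i0) (a z0) (a (sp j)) with hf
  set g : ℕ → ℝ := fun j => ori (a (sp j)) (a y0) (a e0) / ori (a i0) (a (sp j)) (a e0) with hg
  have hX : ∀ j, 0 < ori (a i0) (a (sp j)) (a e0) := fun j =>
    hG.pos _ _ _ (l1.trans (hsp1 j)) ((hsp2 j).trans l3)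
  have hZ : ∀ j, 0 < ori (a i0) (a z0) (a (sp j)) := fun j => hG.pos _ _ _ l1 (hsp1 j)
  have hY : ∀ j, 0 < ori (a (sp j)) (a y0) (a e0) := fun j => hG.pos _ _ _ (hsp2 j) l3
  have hξle : ∀ j ≤ M, f j / 4 ^ (j - M) = f j := by
    intro j hj
    rw [Nat.sub_eq_zero_of_le hj, pow_zero, div_one]
  have hηle : ∀ j ≤ M, g j / 4 ^ (j - M) = g j := by
    intro j hj
    rw [Nat.sub_eq_zero_of_le hj, pow_zero, div_one]
  refine ⟨Fr, fun j => f j / 4 ^ (j - M), fun j => g j / 4 ^ (j - M), ?_, ?_, ?_, hf2, hf3, ?_⟩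
  · refine frame_chain_dec M f (fun j => div_pos (hX j) (hZ j)) ?_ ?_
    · intro j hj
      exact (frame_chain_aux hG l1 (hsp1 j) (hsp3 j hj) (hsp2 (j + 1)) l3).1
    · intro j hj
      simp only [hf]
      rw [hsp4 j hj]
  · refine frame_chain_dec M g (fun j => div_pos (hY j) (hX j)) ?_ ?_
    · intro j hj
      exact (frame_chain_aux hG l1 (hsp1 j) (hsp3 j hj) (hsp2 (j + 1)) l3).2
    · intro j hj
      simp only [hg]
      rw [hsp4 j hj]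
  · intro j hj
    simp only
    rw [hξle j hj, hηle j hj]
    obtain ⟨h1, h2⟩ := hf1 (a (sp j)) (hX j) (hZ j) (hY j)
    refine ⟨?_, h2⟩
    rw [← h1]
    exact haP _
  · intro j hj
    have bc : 3 + 2 * j < 2 * M + 5 := by omega
    obtain ⟨Q, hQP, hQc, hQ⟩ := hbox ⟨3 + 2 * j, bc⟩ (by
      rw [Finset.mem_filter]
      push Not
      intro _
      exact ⟨j, hj, rfl⟩)
    refine ⟨Q, hQP, hQc, ?_⟩
    intro q hq
    obtain ⟨w, hw, hwa, hwq⟩ := hQ q hq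
    have inF : ∀ k : Fin (2 * M + 5), (∀ j < M, k.val ≠ 3 + 2 * j) → w k = a k := by
      intro k hk
      apply hwa
      rw [Finset.mem_filter]
      refine ⟨Finset.mem_univ _, ?_⟩
      push Not
      exact hk
    have wi : w i0 = a i0 := inF _ (by intro j _; simp only [hi0]; omega)
    have wz : w z0 = a z0 := inF _ (by intro j _; simp only [hz0]; omega)
    have wy : w y0 = a y0 := inF _ (by intro j hj; simp only [hy0]; omega)
    have we : w e0 = a e0 := inF _ (by intro j _; simp only [he0]; omega)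
    have ws : ∀ k, w (sp k) = a (sp k) := fun k => inF _ (by
      intro j _
      simp only [hsp]
      omega)
    have o1 : sp j < (⟨3 + 2 * j, bc⟩ : Fin (2 * M + 5)) := by
      rw [Fin.lt_def]
      simp only [hsp]
      rw [min_eq_left (by omega : j ≤ M)]
      omega
    have o2 : (⟨3 + 2 * j, bc⟩ : Fin (2 * M + 5)) < sp (j + 1) := by
      rw [Fin.lt_def]
      simp only [hsp]
      rw [min_eq_left (by omega : j + 1 ≤ M)]
      omega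
    have o3 : (⟨3 + 2 * j, bc⟩ : Fin (2 * M + 5)) < y0 := o2.trans (hsp2 _)
    have k1 := frame_chain_aux hw l1 (hsp1 j) o1 o3 l3
    have k2 := frame_chain_aux hw l1 ((hsp1 j).trans o1) o2 (hsp2 (j + 1)) l3
    have p1 := hw.pos _ _ _ (l1.trans ((hsp1 j).trans o1)) (o3.trans l3)
    have p2 := hw.pos _ _ _ l1 ((hsp1 j).trans o1)
    have p3 := hw.pos _ _ _ o3 l3
    rw [hwq, wi, we] at p1
    rw [hwq, wi, wz] at p2
    rw [hwq, wy, we] at p3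
    rw [hwq, wi, wz, wy, we, ws] at k1
    rw [hwq, wi, wz, wy, we, ws] at k2
    obtain ⟨h1, h2⟩ := hf1 q p1 p2 p3
    refine ⟨_, _, h1, h2, ?_, ?_, ?_, ?_⟩
    · simp only
      rw [hξle j hj.le]
      exact k1.1
    · simp only
      rw [hξle (j + 1) hj]
      exact k2.1
    · simp only
      rw [hηle j hj.le]
      exact k1.2
    · simp only
      rw [hηle (j + 1) hj]
      exact k2.2

theorem frame_thm_dec {ξ : ℕ → ℝ} (h : Dec ξ) (u : ℕ) : Dec (fun j => ξ (u + j)) :=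
  fun j => h (u + j)


theorem frame_thm (R : ℕ) : ∃ c : ℝ, 0 < c ∧ ∃ n0 : ℕ, ∀ (T : Fin 3 → Pt) (P : Finset Pt),
    0 < ori (T 0) (T 1) (T 2) → GP P → (∀ q ∈ P, inP T q) → n0 ≤ P.card →
      ∃ (F : Frm) (ξ η : ℕ → ℝ), Dec ξ ∧ Dec η ∧
        (∀ a ≤ R, ∀ b ≤ R, 0 < F.wt (ξ a) (η b) ∧ inP T (F.pt (ξ a) (η b))) ∧
        ∀ j < R, ∃ Q ⊆ P, c * (P.card : ℝ) ≤ Q.card ∧ ∀ q ∈ Q, InBox F ξ η j q := by
  obtain ⟨m1, hm1⟩ : ∃ m1, m1 = 8 * R + 100 := ⟨_, rfl⟩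
  obtain ⟨m2, hm2⟩ : ∃ m2, m2 = 8 * m1 + 100 := ⟨_, rfl⟩
  obtain ⟨m3, hm3⟩ : ∃ m3, m3 = 8 * m2 + 100 := ⟨_, rfl⟩
  obtain ⟨m4, hm4⟩ : ∃ m4, m4 = 8 * m3 + 100 := ⟨_, rfl⟩
  obtain ⟨c, hc, n0, H⟩ := frame_chain m4
  refine ⟨c, hc, n0, fun T P hT hGP hP hn => ?_⟩
  obtain ⟨F, ξ, η, hξ, hη, hpt, ⟨α, β, γ, hw⟩, hori, hbox⟩ := H P hGP hn
  have hin : ∀ j ≤ m4, inP T (F.pt (ξ j) (η j)) := fun j hj => hP _ (hpt j hj).1
  -- first: the weight
  obtain ⟨u1, h1a, h1b, h1⟩ := barrier m3 ξ η hξ hη α β γ 0 (fun j _ hj => by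
    rw [← hw]; exact (hpt j (by omega)).2)
  have hwt1 : ∀ a b, u1 ≤ a → a ≤ u1 + m3 → u1 ≤ b → b ≤ u1 + m3 → 0 < F.wt (ξ a) (η b) := by
    intro a b h1 h2 h3 h4
    rw [hw]
    rename_i h1'
    exact h1' a b h1 h2 h3 h4
  obtain ⟨α1, β1, γ1, ho1⟩ := hori (T 0) (T 1)
  obtain ⟨α2, β2, γ2, ho2⟩ := hori (T 1) (T 2)
  obtain ⟨α3, β3, γ3, ho3⟩ := hori (T 2) (T 0)
  obtain ⟨u2, h2a, h2b, h2⟩ := barrier m2 ξ η hξ hη α1 β1 γ1 u1 (fun j hj hj2 => by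
    have hw1 := hwt1 j j hj (by omega) hj (by omega)
    rw [← ho1 _ _ hw1]
    exact mul_pos (hin j (by omega)).1 hw1)
  obtain ⟨u3, h3a, h3b, h3⟩ := barrier m1 ξ η hξ hη α2 β2 γ2 u2 (fun j hj hj2 => by
    have hw1 := hwt1 j j (by omega) (by omega) (by omega) (by omega)
    rw [← ho2 _ _ hw1]
    exact mul_pos (hin j (by omega)).2.1 hw1)
  obtain ⟨u4, h4a, h4b, h4⟩ := barrier R ξ η hξ hη α3 β3 γ3 u3 (fun j hj hj2 => by
    have hw1 := hwt1 j j (by omega) (by omega) (by omega) (by omega)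
    rw [← ho3 _ _ hw1]
    exact mul_pos (hin j (by omega)).2.2 hw1)
  refine ⟨F, fun j => ξ (u4 + j), fun j => η (u4 + j), frame_thm_dec hξ u4, frame_thm_dec hη u4,
    ?_, ?_⟩
  · intro a ha b hb
    have hw1 := hwt1 (u4 + a) (u4 + b) (by omega) (by omega) (by omega) (by omega)
    refine ⟨hw1, ?_, ?_, ?_⟩
    · have := h2 (u4 + a) (u4 + b) (by omega) (by omega) (by omega) (by omega)
      rw [← ho1 _ _ hw1] at this
      exact (pos_iff_pos_of_mul_pos this).2 hw1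
    · have := h3 (u4 + a) (u4 + b) (by omega) (by omega) (by omega) (by omega)
      rw [← ho2 _ _ hw1] at this
      exact (pos_iff_pos_of_mul_pos this).2 hw1
    · have := h4 (u4 + a) (u4 + b) (by omega) (by omega) (by omega) (by omega)
      rw [← ho3 _ _ hw1] at this
      exact (pos_iff_pos_of_mul_pos this).2 hw1
  · intro j hj
    obtain ⟨Q, hQ, hQc, hQb⟩ := hbox (u4 + j) (by omega)
    exact ⟨Q, hQ, hQc, fun q hq => hQb q hq⟩

end Pool.Agent.Helper745.FSub
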