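import Pool.Agent.Helper745.FS.Defs

set_option autoImplicit false

namespace Pool.Agent.Helper745.FSub

theorem generic_fin : ∀ g : List Bse, Finite (Vt Empty g)
  | [] => inferInstanceAs (Finite Empty)
  | B :: g => by
    have := generic_fin g
    exact inferInstanceAs (Finite (Fin B.I ⊕ (Fin B.M × Vt Empty g)))

theorem generic_ori_cont {X : Type} [TopologicalSpace X] {a b c : X → Pt} (ha : Continuous a)
    (hb : Continuous b) (hc : Continuous c) : Continuous (fun x => ori (a x) (b x) (c x)) := by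
  unfold ori
  fun_prop

theorem generic_open (P : Finset Pt) (n : ℕ) : ∀ g : List Bse,
    IsOpen {pos : Wt Empty g → Pt | SkOK P n g pos}
  | [] => by
    have h1 : IsOpen {pos : Wt Empty [] → Pt |
        0 < ori (pos (Sum.inl 0)) (pos (Sum.inl 1)) (pos (Sum.inl 2))} :=
      isOpen_lt continuous_const (generic_ori_cont (continuous_apply _) (continuous_apply _)
        (continuous_apply _))
    have h2 : ∀ q : Pt, IsOpen {pos : Wt Empty [] → Pt | inP (fun i => pos (Sum.inl i)) q} := by
      intro q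
      have e : {pos : Wt Empty [] → Pt | inP (fun i => pos (Sum.inl i)) q} =
          {pos | 0 < ori (pos (Sum.inl 0)) (pos (Sum.inl 1)) q} ∩
          ({pos | 0 < ori (pos (Sum.inl 1)) (pos (Sum.inl 2)) q} ∩
          {pos | 0 < ori (pos (Sum.inl 2)) (pos (Sum.inl 0)) q}) := by
        ext pos
        rfl
      rw [e]
      exact (isOpen_lt continuous_const (generic_ori_cont (continuous_apply _) (continuous_apply _)
        continuous_const)).inter ((isOpen_lt continuous_const (generic_ori_cont (continuous_apply _)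
        (continuous_apply _) continuous_const)).inter (isOpen_lt continuous_const
        (generic_ori_cont (continuous_apply _) (continuous_apply _) continuous_const)))
    have h3 : {pos : Wt Empty [] → Pt | SkOK P n [] pos} =
        {pos : Wt Empty [] → Pt | 0 < ori (pos (Sum.inl 0)) (pos (Sum.inl 1)) (pos (Sum.inl 2))} ∩
        ⋃ Q : Finset Pt, ⋃ _ : Q ⊆ P ∧ n ≤ Q.card, ⋂ q ∈ Q,
          {pos : Wt Empty [] → Pt | inP (fun i => pos (Sum.inl i)) q} := by
      ext pos
      simp only [Set.mem_ofPred_eq, Set.mem_inter_iff, Set.mem_iUnion, Set.mem_iInter]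
      constructor
      · rintro ⟨a, Q, b, c, d⟩
        exact ⟨a, Q, ⟨b, c⟩, d⟩
      · rintro ⟨a, Q, ⟨b, c⟩, d⟩
        exact ⟨a, Q, b, c, d⟩
    rw [h3]
    exact h1.inter (isOpen_iUnion fun Q => isOpen_iUnion fun _ =>
      isOpen_biInter_finset fun q _ => h2 q)
  | B :: g => by
    have ih := generic_open P n g
    have h1 : IsOpen {pos : Wt Empty (B :: g) → Pt | BaseOK B (fun i => pos (bv Empty B g i))} := by
      have e : {pos : Wt Empty (B :: g) → Pt | BaseOK B (fun i => pos (bv Empty B g i))} =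
          ⋂ i, ⋂ j, ⋂ k, ⋂ _ : B.neg i j k = true, {pos : Wt Empty (B :: g) → Pt |
            0 < ori (pos (bv Empty B g i)) (pos (bv Empty B g j)) (pos (bv Empty B g k))} := by
        ext pos
        simp only [Set.mem_ofPred_eq, Set.mem_iInter]
        exact Iff.rfl
      rw [e]
      exact isOpen_iInter_of_finite fun i => isOpen_iInter_of_finite fun j =>
        isOpen_iInter_of_finite fun k => isOpen_iInter_of_finite fun _ =>
          isOpen_lt continuous_const (generic_ori_cont (continuous_apply _) (continuous_apply _)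
            (continuous_apply _))
    have h2 : ∀ m, IsOpen {pos : Wt Empty (B :: g) → Pt |
        SkOK P n g (fun w => pos (cv Empty B g m w))} := by
      intro m
      have hc : Continuous (fun (pos : Wt Empty (B :: g) → Pt) (w : Wt Empty g) =>
          pos (cv Empty B g m w)) := continuous_pi fun w => continuous_apply _
      exact ih.preimage hc
    have e : {pos : Wt Empty (B :: g) → Pt | SkOK P n (B :: g) pos} =
        {pos : Wt Empty (B :: g) → Pt | BaseOK B (fun i => pos (bv Empty B g i))} ∩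
        ⋂ m, {pos : Wt Empty (B :: g) → Pt | SkOK P n g (fun w => pos (cv Empty B g m w))} := by
      ext pos
      simp only [Set.mem_ofPred_eq, Set.mem_inter_iff, Set.mem_iInter]
      exact Iff.rfl
    rw [e]
    exact h1.inter (isOpen_iInter_of_finite h2)

theorem generic_quad (a b c : ℝ) (ha : a ≠ 0) : {t : ℝ | a * t ^ 2 + b * t + c = 0}.Finite := by
  rcases Set.eq_empty_or_nonempty {t : ℝ | a * t ^ 2 + b * t + c = 0} with h | ⟨t0, h0⟩
  · rw [h]
    exact Set.finite_empty
  · apply Set.Finite.subset (Set.toFinite ({t0, -b / a - t0} : Set ℝ))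
    intro t ht
    have h0' : a * t0 ^ 2 + b * t0 + c = 0 := h0
    have ht' : a * t ^ 2 + b * t + c = 0 := ht
    have h1 : (t - t0) * (a * (t + t0) + b) = 0 := by linear_combination ht' - h0'
    rcases mul_eq_zero.1 h1 with h2 | h2
    · left
      linarith
    · right
      show t = -b / a - t0
      field_simp
      linarith

theorem generic (P : Finset Pt) (n : ℕ) (g : List Bse) (sk : Wt Empty g → Pt)
    (hsk : SkOK P n g sk) (U : Set Pt) (hU : IsOpen U) (hin : ∀ w, sk w ∈ U) :
    ∃ sk' : Wt Empty g → Pt, SkOK P n g sk' ∧ (∀ w, sk' w ∈ U) ∧ GEN P sk' := by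
  have hfin := generic_fin g
  obtain ⟨idx, hidx⟩ := Countable.exists_injective_nat (Wt Empty g)
  let path : ℝ → (Wt Empty g → Pt) := fun t w => ((sk w).1 + t, (sk w).2 + t * (idx w : ℝ))
  have hpath : Continuous path := by
    apply continuous_pi
    intro w
    exact (continuous_const.add continuous_id).prodMk
      (continuous_const.add (continuous_id.mul continuous_const))
  have hpath0 : path 0 = sk := by
    funext w
    show ((sk w).1 + 0, (sk w).2 + 0 * (idx w : ℝ)) = sk w
    rw [add_zero, zero_mul, add_zero]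
  have hO : IsOpen ({t : ℝ | SkOK P n g (path t)} ∩ ⋂ w, {t : ℝ | path t w ∈ U}) := by
    apply IsOpen.inter
    · exact (generic_open P n g).preimage hpath
    · apply isOpen_iInter_of_finite
      intro w
      exact hU.preimage ((continuous_apply w).comp hpath)
  have h0 : (0:ℝ) ∈ ({t : ℝ | SkOK P n g (path t)} ∩ ⋂ w, {t : ℝ | path t w ∈ U}) := by
    refine ⟨?_, ?_⟩
    · show SkOK P n g (path 0)
      rw [hpath0]
      exact hsk
    · rw [Set.mem_iInter]
      intro w
      show path 0 w ∈ U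
      rw [hpath0]
      exact hin w
  have hinf := infinite_of_mem_nhds (0:ℝ) (hO.mem_nhds h0)
  have hbad : (⋃ u : Wt Empty g, ⋃ v : Wt Empty g, ⋃ _ : u ≠ v, ⋃ p : P,
      {t : ℝ | ori (path t u) (path t v) p = 0}).Finite := by
    apply Set.finite_iUnion
    intro u
    apply Set.finite_iUnion
    intro v
    apply Set.finite_iUnion
    intro huv
    apply Set.finite_iUnion
    intro p
    have hij : ((idx v : ℝ) - idx u) ≠ 0 := by
      rw [sub_ne_zero]
      intro h
      exact huv (hidx (by exact_mod_cast h.symm))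
    apply (generic_quad ((idx v : ℝ) - idx u)
      (-(idx u : ℝ) * ((sk v).1 - (sk u).1) + ((sk v).2 - (sk u).2) -
        ((idx v : ℝ) - idx u) * ((p : Pt).1 - (sk u).1))
      (((sk v).1 - (sk u).1) * ((p : Pt).2 - (sk u).2) -
        ((sk v).2 - (sk u).2) * ((p : Pt).1 - (sk u).1)) hij).subset
    intro t ht
    have ht' : (((sk v).1 + t) - ((sk u).1 + t)) * ((p : Pt).2 - ((sk u).2 + t * (idx u : ℝ))) -
      (((sk v).2 + t * (idx v : ℝ)) - ((sk u).2 + t * (idx u : ℝ))) *
        ((p : Pt).1 - ((sk u).1 + t)) = 0 := ht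
    show _ = _
    linear_combination ht'
  obtain ⟨t, ⟨ht1, ht2⟩, ht3⟩ := (hinf.diff hbad).nonempty
  refine ⟨path t, ht1, fun w => (Set.mem_iInter.1 ht2) w, ?_⟩
  intro u v huv p hp hzero
  apply ht3
  rw [Set.mem_iUnion]
  refine ⟨u, ?_⟩
  rw [Set.mem_iUnion]
  refine ⟨v, ?_⟩
  rw [Set.mem_iUnion]
  refine ⟨huv, ?_⟩
  rw [Set.mem_iUnion]
  exact ⟨⟨p, hp⟩, hzero⟩

theorem hub_exists_aux_open (a b : Pt) : IsOpen {h : Pt | a ≠ b → ori a b h ≠ 0} := by
  by_cases hab : a = b
  · have : {h : Pt | a ≠ b → ori a b h ≠ 0} = Set.univ := by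
      ext h
      simp [hab]
    rw [this]
    exact isOpen_univ
  · have : {h : Pt | a ≠ b → ori a b h ≠ 0} = {h : Pt | ori a b h ≠ 0} := by
      ext h
      simp [hab]
    rw [this]
    have hc : Continuous (fun h : Pt => ori a b h) := by
      unfold ori
      fun_prop
    exact isOpen_ne_fun hc continuous_const

theorem hub_exists_aux_dense (a b : Pt) : Dense {h : Pt | a ≠ b → ori a b h ≠ 0} := by
  by_cases hab : a = b
  · have : {h : Pt | a ≠ b → ori a b h ≠ 0} = Set.univ := by
      ext h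
      simp [hab]
    rw [this]
    exact dense_univ
  · intro h
    by_cases h0 : ori a b h = 0
    · have hn : 0 < (b.1 - a.1) ^ 2 + (b.2 - a.2) ^ 2 := by
        by_contra hcon
        apply hab
        have h1 : (b.1 - a.1) ^ 2 = 0 := by nlinarith [sq_nonneg (b.1 - a.1), sq_nonneg (b.2 - a.2)]
        have h2 : (b.2 - a.2) ^ 2 = 0 := by nlinarith [sq_nonneg (b.1 - a.1), sq_nonneg (b.2 - a.2)]
        have h3 := pow_eq_zero_iff (two_ne_zero) |>.1 h1
        have h4 := pow_eq_zero_iff (two_ne_zero) |>.1 h2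
        apply Prod.ext
        · linarith
        · linarith
      have ht : Filter.Tendsto (fun t : ℝ => ((h.1 - t * (b.2 - a.2), h.2 + t * (b.1 - a.1)) : Pt))
          (nhdsWithin 0 {0}ᶜ) (nhds h) := by
        have hc : Continuous (fun t : ℝ =>
            ((h.1 - t * (b.2 - a.2), h.2 + t * (b.1 - a.1)) : Pt)) := by fun_prop
        have := hc.tendsto 0
        simp only [zero_mul, sub_zero, add_zero] at this
        exact this.mono_left nhdsWithin_le_nhds
      refine mem_closure_of_tendsto ht ?_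
      filter_upwards [self_mem_nhdsWithin] with t ht0 _
      have ht1 : t ≠ 0 := ht0
      have : ori a b ((h.1 - t * (b.2 - a.2), h.2 + t * (b.1 - a.1)) : Pt) =
          ori a b h + t * ((b.1 - a.1) ^ 2 + (b.2 - a.2) ^ 2) := by
        unfold ori
        ring
      rw [this, h0, zero_add]
      exact mul_ne_zero ht1 hn.ne'
    · exact subset_closure (fun _ => h0)

theorem hub_exists_aux_small (P : Finset Pt) (c : Fin 3 → Pt)
    (hc : 0 < ori (c 0) (c 1) (c 2)) :
    IsOpen {h : Pt | inP c h ∧ ∀ q ∈ P, inP c q → inP (![h, c 1, c 2] : Fin 3 → Pt) q} ∧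
    {h : Pt | inP c h ∧ ∀ q ∈ P, inP c q → inP (![h, c 1, c 2] : Fin 3 → Pt) q}.Nonempty := by
  have hO1 : IsOpen {h : Pt | inP c h} := by
    have c1 : Continuous (fun h : Pt => ori (c 0) (c 1) h) := by
      unfold ori
      fun_prop
    have c2 : Continuous (fun h : Pt => ori (c 1) (c 2) h) := by
      unfold ori
      fun_prop
    have c3 : Continuous (fun h : Pt => ori (c 2) (c 0) h) := by
      unfold ori
      fun_prop
    exact (isOpen_lt continuous_const c1).inter
      ((isOpen_lt continuous_const c2).inter (isOpen_lt continuous_const c3))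
  have hq : ∀ q : Pt, IsOpen {h : Pt | inP (![h, c 1, c 2] : Fin 3 → Pt) q} := by
    intro q
    have c1 : Continuous (fun h : Pt => ori h (c 1) q) := by
      unfold ori
      fun_prop
    have c2 : Continuous (fun _ : Pt => ori (c 1) (c 2) q) := continuous_const
    have c3 : Continuous (fun h : Pt => ori (c 2) h q) := by
      unfold ori
      fun_prop
    exact (isOpen_lt continuous_const c1).inter
      ((isOpen_lt continuous_const c2).inter (isOpen_lt continuous_const c3))
  have hO2 : IsOpen {h : Pt | ∀ q ∈ P, inP c q → inP (![h, c 1, c 2] : Fin 3 → Pt) q} := by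
    have : {h : Pt | ∀ q ∈ P, inP c q → inP (![h, c 1, c 2] : Fin 3 → Pt) q} =
        ⋂ q ∈ P, {h : Pt | inP c q → inP (![h, c 1, c 2] : Fin 3 → Pt) q} := by
      ext h
      simp
    rw [this]
    refine isOpen_biInter_finset fun q _ => ?_
    by_cases hcq : inP c q
    · have : {h : Pt | inP c q → inP (![h, c 1, c 2] : Fin 3 → Pt) q} =
          {h : Pt | inP (![h, c 1, c 2] : Fin 3 → Pt) q} := by
        ext h
        simp [hcq]
      rw [this]
      exact hq q
    · have : {h : Pt | inP c q → inP (![h, c 1, c 2] : Fin 3 → Pt) q} = Set.univ := by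
        ext h
        simp [hcq]
      rw [this]
      exact isOpen_univ
  refine ⟨hO1.inter hO2, ?_⟩
  have h0 : c 0 ∈ {h : Pt | ∀ q ∈ P, inP c q → inP (![h, c 1, c 2] : Fin 3 → Pt) q} := by
    intro q _ hcq
    exact hcq
  let φ : ℝ → Pt := fun t => ((c 0).1 + t * (((c 1).1 - (c 0).1) + ((c 2).1 - (c 0).1)),
    (c 0).2 + t * (((c 1).2 - (c 0).2) + ((c 2).2 - (c 0).2)))
  have hφc : Continuous φ := by
    change Continuous fun t : ℝ => (((c 0).1 + t * (((c 1).1 - (c 0).1) + ((c 2).1 - (c 0).1)),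
      (c 0).2 + t * (((c 1).2 - (c 0).2) + ((c 2).2 - (c 0).2))) : Pt)
    fun_prop
  have hφ0 : φ 0 = c 0 := by
    change (((c 0).1 + 0 * (((c 1).1 - (c 0).1) + ((c 2).1 - (c 0).1)),
      (c 0).2 + 0 * (((c 1).2 - (c 0).2) + ((c 2).2 - (c 0).2))) : Pt) = c 0
    simp
  have hev : ∀ᶠ t in nhds (0 : ℝ),
      φ t ∈ {h : Pt | ∀ q ∈ P, inP c q → inP (![h, c 1, c 2] : Fin 3 → Pt) q} := by
    apply hφc.continuousAt.eventually
    rw [hφ0]
    exact hO2.mem_nhds h0
  rw [Metric.eventually_nhds_iff] at hev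
  obtain ⟨ε, hε, hev⟩ := hev
  let t : ℝ := min (ε / 2) (1 / 4)
  have ht : 0 < t := lt_min (by linarith) (by norm_num)
  have ht1 : t ≤ 1 / 4 := min_le_right _ _
  have ht2 : t ≤ ε / 2 := min_le_left _ _
  refine ⟨φ t, ?_, hev (by rw [Real.dist_eq, sub_zero, abs_of_pos ht]; linarith)⟩
  have e1 : ori (c 0) (c 1) (φ t) = t * ori (c 0) (c 1) (c 2) := by
    change ori (c 0) (c 1) (((c 0).1 + t * (((c 1).1 - (c 0).1) + ((c 2).1 - (c 0).1)),
      (c 0).2 + t * (((c 1).2 - (c 0).2) + ((c 2).2 - (c 0).2))) : Pt) = _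
    unfold ori
    ring
  have e2 : ori (c 1) (c 2) (φ t) = (1 - 2 * t) * ori (c 0) (c 1) (c 2) := by
    change ori (c 1) (c 2) (((c 0).1 + t * (((c 1).1 - (c 0).1) + ((c 2).1 - (c 0).1)),
      (c 0).2 + t * (((c 1).2 - (c 0).2) + ((c 2).2 - (c 0).2))) : Pt) = _
    unfold ori
    ring
  have e3 : ori (c 2) (c 0) (φ t) = t * ori (c 0) (c 1) (c 2) := by
    change ori (c 2) (c 0) (((c 0).1 + t * (((c 1).1 - (c 0).1) + ((c 2).1 - (c 0).1)),
      (c 0).2 + t * (((c 1).2 - (c 0).2) + ((c 2).2 - (c 0).2))) : Pt) = _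
    unfold ori
    ring
  refine ⟨?_, ?_, ?_⟩
  · rw [e1]
    exact mul_pos ht hc
  · rw [e2]
    exact mul_pos (by linarith) hc
  · rw [e3]
    exact mul_pos ht hc

/-- a generic hub near corner 0 -/
theorem hub_exists (P : Finset Pt) (c : Fin 3 → Pt) (hc : 0 < ori (c 0) (c 1) (c 2)) :
    ∃ h : Pt, inP c h ∧ (∀ q ∈ P, inP c q → inP (![h, c 1, c 2] : Fin 3 → Pt) q) ∧
      (∀ p ∈ P, ∀ p' ∈ P, p ≠ p' → ori p p' h ≠ 0) ∧ (∀ i, ∀ p ∈ P, p ≠ c i → ori (c i) p h ≠ 0) ∧
      ∀ p ∈ P, p ≠ h := by
  classical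
  obtain ⟨hO, hne⟩ := hub_exists_aux_small P c hc
  let Q : Finset Pt := P ∪ Finset.univ.image c
  have hD1 : Dense (⋂ x ∈ ((Q ×ˢ Q : Finset (Pt × Pt)) : Set (Pt × Pt)),
      {h : Pt | x.1 ≠ x.2 → ori x.1 x.2 h ≠ 0}) :=
    dense_biInter_of_isOpen (fun x _ => hub_exists_aux_open x.1 x.2)
      (Finset.countable_toSet _) (fun x _ => hub_exists_aux_dense x.1 x.2)
  have hO1 : IsOpen (⋂ x ∈ ((Q ×ˢ Q : Finset (Pt × Pt)) : Set (Pt × Pt)),
      {h : Pt | x.1 ≠ x.2 → ori x.1 x.2 h ≠ 0}) :=
    (Finset.finite_toSet _).isOpen_biInter (fun x _ => hub_exists_aux_open x.1 x.2)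
  have hD2 : Dense ((P : Set Pt)ᶜ) := (Finset.countable_toSet P).dense_compl ℝ
  have hD := hD2.inter_of_isOpen_right hD1 hO1
  obtain ⟨h, hh, hh2, hh1⟩ := hD.inter_open_nonempty _ hO hne
  have key : ∀ a ∈ Q, ∀ b ∈ Q, a ≠ b → ori a b h ≠ 0 := by
    intro a ha b hb hab
    have := Set.mem_iInter₂.1 hh1 (a, b) (by
      rw [Finset.mem_coe, Finset.mem_product]
      exact ⟨ha, hb⟩)
    exact this hab
  have hPQ : ∀ p ∈ P, p ∈ Q := fun p hp => Finset.mem_union_left _ hp
  have hcQ : ∀ i, c i ∈ Q := fun i =>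
    Finset.mem_union_right _ (Finset.mem_image_of_mem _ (Finset.mem_univ i))
  refine ⟨h, hh.1, hh.2, ?_, ?_, ?_⟩
  · intro p hp p' hp' hne'
    exact key p (hPQ p hp) p' (hPQ p' hp') hne'
  · intro i p hp hne'
    exact key _ (hcQ i) p (hPQ p hp) (Ne.symm hne')
  · rintro p hp rfl
    exact hh2 hp

theorem hole_comb (a b x y : Pt) (s t : ℝ) (h : s + t = 1) :
    ori a b (s • x + t • y) = s * ori a b x + t * ori a b y := by
  have hs : s = 1 - t := by linarith
  subst hs
  simp only [ori, Prod.fst_add, Prod.snd_add, Prod.smul_fst, Prod.smul_snd, smul_eq_mul]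
  ring

theorem hole_cyc (a b c : Pt) : ori b c a = ori a b c := by unfold ori; ring

theorem hole_sw (a b c : Pt) : ori b a c = - ori a b c := by unfold ori; ring

theorem hole_l (a b : Pt) : ori a b a = 0 := by unfold ori; ring

theorem hole_r (a b : Pt) : ori a b b = 0 := by unfold ori; ring

theorem hole_seg (a b z : Pt) (h : z ∈ segment ℝ a b) : ori a b z = 0 := by
  obtain ⟨s, t, hs, ht, hst, rfl⟩ := h
  rw [hole_comb a b a b s t hst, hole_l, hole_r]
  ring

theorem hole_segpos (a b x y z : Pt) (hx : 0 < ori a b x) (hy : 0 < ori a b y)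
    (h : z ∈ segment ℝ x y) : 0 < ori a b z := by
  obtain ⟨s, t, hs, ht, hst, rfl⟩ := h
  rw [hole_comb a b x y s t hst]
  rcases hs.lt_or_eq with h | h
  · have h1 : 0 < s * ori a b x := mul_pos h hx
    have h2 : 0 ≤ t * ori a b y := mul_nonneg ht hy.le
    linarith
  · have ht1 : t = 1 := by linarith
    rw [← h, ht1]
    linarith

theorem hole_sign (Δ : Set Pt) (hΔ : Convex ℝ Δ) (a b : Pt) (hne : ∀ p ∈ Δ, ori a b p ≠ 0)
    (z p : Pt) (hz : z ∈ Δ) (hp : p ∈ Δ) (h : 0 < ori a b z) : 0 < ori a b p := by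
  by_contra hcon
  have hlt : ori a b p < 0 := lt_of_le_of_ne (not_lt.mp hcon) (hne p hp)
  have hd : 0 < ori a b z - ori a b p := by linarith
  have hsum : (-ori a b p) / (ori a b z - ori a b p) + ori a b z / (ori a b z - ori a b p) = 1 := by
    field_simp
    ring
  have hmem : ((-ori a b p) / (ori a b z - ori a b p)) • z +
      (ori a b z / (ori a b z - ori a b p)) • p ∈ Δ :=
    hΔ hz hp (div_nonneg (by linarith) hd.le) (div_nonneg h.le hd.le) hsum
  apply hne _ hmem
  rw [hole_comb _ _ _ _ _ _ hsum]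
  field_simp
  ring

theorem hole_low (W : Finset Pt) (τ : Pt → ℝ)
    (hinj : ∀ x ∈ W, ∀ y ∈ W, x ≠ y → τ x ≠ τ y) (s : ℕ) (hs : s ≤ W.card) :
    ∃ lo ⊆ W, lo.card = s ∧ ∀ x ∈ lo, ∀ y ∈ W, y ∉ lo → τ x < τ y := by
  classical
  induction s with
  | zero => exact ⟨∅, by simp, by simp, by simp⟩
  | succ s ih =>
    obtain ⟨lo, hlo, hcard, hlt⟩ := ih (by omega)
    have hne : (W \ lo).Nonempty := by
      rw [← Finset.card_pos, Finset.card_sdiff_of_subset hlo]
      omega
    obtain ⟨m, hm, hmin⟩ := Finset.exists_min_image (W \ lo) τ hne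
    rw [Finset.mem_sdiff] at hm
    refine ⟨insert m lo, Finset.insert_subset hm.1 hlo, ?_, ?_⟩
    · rw [Finset.card_insert_of_notMem hm.2, hcard]
    · intro x hx y hy hyn
      rw [Finset.mem_insert, not_or] at hyn
      rcases Finset.mem_insert.mp hx with h | h
      · rw [h]
        exact lt_of_le_of_ne (hmin y (Finset.mem_sdiff.mpr ⟨hy, hyn.2⟩))
          (hinj m hm.1 y hy (fun h => hyn.1 h.symm))
      · exact hlt x h y hy hyn.2

theorem hole_pluck (h a b x y : Pt) :
    ori h a x * ori b h y - ori h a y * ori b h x = ori h a b * ori h y x := by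
  unfold ori
  ring

theorem hole (s : ℕ) (P : Finset Pt) (hP : GP P) (c : Fin 3 → Pt)
    (hc : 0 < ori (c 0) (c 1) (c 2)) (hgen : GEN P c)
    (hQ : ∃ Q ⊆ P, s ≤ Q.card ∧ ∀ q ∈ Q, inP c q) :
    ∃ (pos : Wt (Option (Fin s)) [] → Pt) (ls : List (Pt × Pt)), Cmp [] s P pos ls ∧
      ls.length ≤ 7 ∧ (∀ i, pos (Sum.inl i) = c i) ∧ ∀ v, inP c (pos (Sum.inr v)) := by
  classical
  obtain ⟨h, hh, h2, h3, h4, h5⟩ := hub_exists P c hc
  obtain ⟨Q, hQP, hQc, hQin⟩ := hQ
  have hWc : s ≤ (P.filter (fun q => inP c q)).card :=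
    hQc.trans (Finset.card_le_card (fun q hq => Finset.mem_filter.mpr ⟨hQP hq, hQin q hq⟩))
  have hWm : ∀ q, q ∈ P.filter (fun q => inP c q) ↔ q ∈ P ∧ inP c q := fun q => by
    rw [Finset.mem_filter]
  generalize P.filter (fun q => inP c q) = W at hWc hWm
  have qa : ∀ q ∈ W, 0 < ori h (c 1) q := fun q hq => (h2 q ((hWm q).mp hq).1 ((hWm q).mp hq).2).1
  have qc : ∀ q ∈ W, 0 < ori (c 2) h q := fun q hq =>
    (h2 q ((hWm q).mp hq).1 ((hWm q).mp hq).2).2.2
  have hD : 0 < ori h (c 1) (c 2) := by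
    have := hh.2.1
    rw [← hole_cyc h (c 1) (c 2)]
    exact this
  have hτinj : ∀ x ∈ W, ∀ y ∈ W, x ≠ y →
      ori h (c 1) x / ori (c 2) h x ≠ ori h (c 1) y / ori (c 2) h y := by
    intro x hx y hy hxy heq
    rw [div_eq_div_iff (qc x hx).ne' (qc y hy).ne'] at heq
    have h6 := hole_pluck h (c 1) (c 2) x y
    have h7 : ori h (c 1) (c 2) * ori h y x = 0 := by rw [← h6]; linarith
    rcases mul_eq_zero.mp h7 with h8 | h8
    · exact hD.ne' h8
    · apply h3 y ((hWm y).mp hy).1 x ((hWm x).mp hx).1 (Ne.symm hxy)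
      rw [hole_cyc h y x]
      exact h8
  obtain ⟨lo, hlo, hcard, hlt⟩ := hole_low W (fun q => ori h (c 1) q / ori (c 2) h q) hτinj s hWc
  have hτpos : ∀ q ∈ W, 0 < ori h (c 1) q / ori (c 2) h q := fun q hq => div_pos (qa q hq) (qc q hq)
  obtain ⟨T, hT1, hT2⟩ := Order.exists_between_finsets
    (insert 0 (lo.image (fun q => ori h (c 1) q / ori (c 2) h q)))
    ((W \ lo).image (fun q => ori h (c 1) q / ori (c 2) h q)) (by
      intro x hx y hy
      obtain ⟨q, hq, rfl⟩ := Finset.mem_image.mp hy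
      rw [Finset.mem_sdiff] at hq
      rcases Finset.mem_insert.mp hx with h6 | h6
      · rw [h6]; exact hτpos q hq.1
      · obtain ⟨r, hr, rfl⟩ := Finset.mem_image.mp h6
        exact hlt r hr q hq.1 hq.2)
  have hT0 : 0 < T := hT1 0 (Finset.mem_insert_self _ _)
  obtain ⟨zz, hzz⟩ : ∃ zz : Pt, zz = (1 / (1 + T)) • c 1 + (T / (1 + T)) • c 2 := ⟨_, rfl⟩
  have hTs : 1 / (1 + T) + T / (1 + T) = 1 := by
    field_simp
  have hz1 : ori (c 1) (c 2) zz = 0 := by
    rw [hzz, hole_comb _ _ _ _ _ _ hTs, hole_l, hole_r]; ring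
  have hz2 : ∀ q, ori h zz q = (ori h (c 1) q - T * ori (c 2) h q) / (1 + T) := by
    intro q
    rw [hole_cyc q h zz, hzz, hole_comb _ _ _ _ _ _ hTs, ← hole_cyc q h (c 1),
      ← hole_cyc q h (c 2), hole_sw (c 2) h q]
    ring
  have hzlo : ∀ q ∈ lo, ori h zz q < 0 := by
    intro q hq
    have h6 := hT1 _ (Finset.mem_insert_of_mem (Finset.mem_image_of_mem _ hq))
    rw [div_lt_iff₀ (qc q (hlo hq))] at h6
    rw [hz2]
    exact div_neg_of_neg_of_pos (by linarith) (by linarith)
  have hzhi : ∀ q ∈ W, q ∉ lo → 0 < ori h zz q := by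
    intro q hq hq'
    have h6 := hT2 _ (Finset.mem_image_of_mem _ (Finset.mem_sdiff.mpr ⟨hq, hq'⟩))
    rw [lt_div_iff₀ (qc q hq)] at h6
    rw [hz2]
    exact div_pos (by linarith) (by linarith)
  have hzne : h ≠ zz := by
    intro h6
    have h7 := hh.2.1
    rw [h6, hz1] at h7
    exact lt_irrefl _ h7
  obtain ⟨ℓ, hℓmem, hℓsurj, hℓinj⟩ : ∃ ℓ : Fin s → Pt, (∀ i, ℓ i ∈ lo) ∧
      (∀ q ∈ lo, ∃ i, q = ℓ i) ∧ Function.Injective ℓ := by
    refine ⟨fun i => ((lo.equivFinOfCardEq hcard).symm i : Pt), fun i => Subtype.coe_prop _, ?_, ?_⟩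
    · intro q hq
      exact ⟨lo.equivFinOfCardEq hcard ⟨q, hq⟩, by simp⟩
    · intro i j hij
      exact (lo.equivFinOfCardEq hcard).symm.injective (Subtype.ext hij)
  obtain ⟨pos, hpos1, hpos2, hpos3⟩ : ∃ pos : Fin 3 ⊕ Option (Fin s) → Pt,
      (∀ i, pos (Sum.inl i) = c i) ∧ pos (Sum.inr none) = h ∧
      ∀ l, pos (Sum.inr (some l)) = ℓ l :=
    ⟨Sum.elim c (fun o => Option.elim o h ℓ), fun _ => rfl, rfl, fun _ => rfl⟩
  have hℓW : ∀ i, ℓ i ∈ P ∧ inP c (ℓ i) := fun i => (hWm _).mp (hlo (hℓmem i))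
  have hin : ∀ o, inP c (pos (Sum.inr o)) := by
    intro o
    cases o with
    | none => rw [hpos2]; exact hh
    | some l => rw [hpos3]; exact (hℓW l).2
  -- sides of the triangle
  have hside : ∀ i j : Fin 3, i ≠ j →
      (∀ w, w ≠ Sum.inl i → w ≠ Sum.inl j → 0 < ori (c i) (c j) (pos w)) ∨
      (∀ w, w ≠ Sum.inl i → w ≠ Sum.inl j → 0 < ori (c j) (c i) (pos w)) := by
    have h12 : 0 < ori (c 1) (c 2) (c 0) := by rw [hole_cyc]; exact hc
    have h20 : 0 < ori (c 2) (c 0) (c 1) := by rw [hole_cyc, hole_cyc]; exact hc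
    have k01 : ∀ w, w ≠ Sum.inl 0 → w ≠ Sum.inl 1 → 0 < ori (c 0) (c 1) (pos w) := by
      rintro (k | o) hw1 hw2
      · rw [hpos1]
        fin_cases k
        · exact absurd rfl hw1
        · exact absurd rfl hw2
        · exact hc
      · exact (hin o).1
    have k12 : ∀ w, w ≠ Sum.inl 1 → w ≠ Sum.inl 2 → 0 < ori (c 1) (c 2) (pos w) := by
      rintro (k | o) hw1 hw2
      · rw [hpos1]
        fin_cases k
        · exact h12
        · exact absurd rfl hw1
        · exact absurd rfl hw2
      · exact (hin o).2.1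
    have k20 : ∀ w, w ≠ Sum.inl 2 → w ≠ Sum.inl 0 → 0 < ori (c 2) (c 0) (pos w) := by
      rintro (k | o) hw1 hw2
      · rw [hpos1]
        fin_cases k
        · exact absurd rfl hw2
        · exact h20
        · exact absurd rfl hw1
      · exact (hin o).2.2
    intro i j hij
    fin_cases i <;> fin_cases j
    · exact absurd rfl hij
    · exact Or.inl k01
    · exact Or.inr (fun w hw1 hw2 => k20 w hw2 hw1)
    · exact Or.inr (fun w hw1 hw2 => k01 w hw2 hw1)
    · exact absurd rfl hij
    · exact Or.inl k12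
    · exact Or.inl k20
    · exact Or.inr (fun w hw1 hw2 => k12 w hw2 hw1)
    · exact absurd rfl hij
  have hF2 : ∀ i j : Fin 3, i ≠ j → ∀ w, w ≠ Sum.inl i → w ≠ Sum.inl j →
      ori (c i) (c j) (pos w) ≠ 0 := by
    intro i j hij w hw1 hw2
    rcases hside i j hij with h6 | h6
    · exact (h6 w hw1 hw2).ne'
    · intro h7
      have h8 := h6 w hw1 hw2
      rw [hole_sw, h7] at h8
      simp at h8
  have hci : ∀ p ∈ P, ∀ i, p ≠ c i := by
    intro p hp i hpi
    have h6 : i ≠ i + 1 := by fin_cases i <;> decide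
    have h7 := hgen i (i + 1) h6 p hp
    rw [hpi] at h7
    exact h7 (hole_l _ _)
  have hF1 : ∀ x y : Fin 3 ⊕ Option (Fin s), x ≠ Sum.inr none → y ≠ Sum.inr none → x ≠ y →
      ori h (pos x) (pos y) ≠ 0 := by
    have hcl : ∀ (i : Fin 3) (l : Fin s), ori h (c i) (ℓ l) ≠ 0 := by
      intro i l h6
      apply h4 i (ℓ l) (hℓW l).1 (hci _ (hℓW l).1 i)
      rw [hole_cyc h (c i) (ℓ l)]
      exact h6
    rintro (i | o) (j | o') hx hy hxy
    · rw [hpos1, hpos1]
      have hij : i ≠ j := fun h6 => hxy (by rw [h6])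
      have h6 := hF2 i j hij (Sum.inr none) (by simp) (by simp)
      rw [hpos2, hole_cyc h (c i) (c j)] at h6
      exact h6
    · cases o' with
      | none => exact absurd rfl hy
      | some l =>
        rw [hpos1, hpos3]
        exact hcl i l
    · cases o with
      | none => exact absurd rfl hx
      | some l =>
        rw [hpos1, hpos3]
        intro h6
        apply hcl j l
        rw [hole_cyc (ℓ l) h (c j), hole_sw h (ℓ l) (c j), h6, neg_zero]
    · cases o with
      | none => exact absurd rfl hx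
      | some l =>
        cases o' with
        | none => exact absurd rfl hy
        | some l' =>
          rw [hpos3, hpos3]
          have hll : ℓ l ≠ ℓ l' := fun h6 => hxy (by rw [hℓinj h6])
          intro h6
          apply h3 (ℓ l) (hℓW l).1 (ℓ l') (hℓW l').1 hll
          rw [hole_cyc h (ℓ l) (ℓ l')]
          exact h6
  -- classification of the edges
  have hedge : ∀ u v : Fin 3 ⊕ Option (Fin s), adjW s [] u v →
      u ≠ v ∧ (u = Sum.inr none ∨ v = Sum.inr none ∨
      ∃ c c' : Fin 3, u = Sum.inl c ∧ v = Sum.inl c') := fun u v huv => huv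
  have hdis : ∀ i j : Fin 3, i ≠ j → ∀ x y : Fin 3 ⊕ Option (Fin s),
      x ≠ Sum.inl i → x ≠ Sum.inl j → y ≠ Sum.inl i → y ≠ Sum.inl j →
      Disjoint (segment ℝ (c i) (c j)) (segment ℝ (pos x) (pos y)) := by
    intro i j hij x y hx1 hx2 hy1 hy2
    rw [Set.disjoint_left]
    intro z hz hz'
    rcases hside i j hij with h6 | h6
    · have h7 := hole_segpos _ _ _ _ z (h6 x hx1 hx2) (h6 y hy1 hy2) hz'
      rw [hole_seg _ _ _ hz] at h7
      exact lt_irrefl _ h7
    · have h7 := hole_segpos _ _ _ _ z (h6 x hx1 hx2) (h6 y hy1 hy2) hz'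
      rw [hole_sw, hole_seg _ _ _ hz, neg_zero] at h7
      exact lt_irrefl _ h7
  refine ⟨pos, [(c 0, c 1), (c 1, c 2), (c 2, c 0), (h, c 0), (h, c 1), (h, c 2), (h, zz)],
    ⟨⟨?_, ?_, ?_⟩, ?_, ?_, ?_, ?_⟩, by simp, hpos1, hin⟩
  · -- injective
    intro x y hxy
    by_contra hne
    have hcinj : ∀ i j : Fin 3, i ≠ j → c i ≠ c j := by
      intro i j hij h6
      have h7 : ∃ k : Fin 3, k ≠ i ∧ k ≠ j := by
        fin_cases i <;> fin_cases j <;> decide
      obtain ⟨k, hk1, hk2⟩ := h7
      apply hF2 i j hij (Sum.inl k) (fun h8 => hk1 (Sum.inl.inj h8))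
        (fun h8 => hk2 (Sum.inl.inj h8))
      rw [h6]
      unfold ori
      ring
    have hno : ∀ (i : Fin 3) (o : Option (Fin s)), c i ≠ pos (Sum.inr o) := by
      intro i o h6
      have h7 : i ≠ i + 1 := by fin_cases i <;> decide
      apply hF2 i (i + 1) h7 (Sum.inr o) (by simp) (by simp)
      rw [← h6]
      exact hole_l _ _
    rcases x with i | o <;> rcases y with j | o'
    · rw [hpos1, hpos1] at hxy
      exact hcinj i j (fun h6 => hne (by rw [h6])) hxy
    · rw [hpos1] at hxy
      exact hno i o' hxy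
    · rw [hpos1] at hxy
      exact hno j o hxy.symm
    · cases o with
      | none =>
        cases o' with
        | none => exact hne rfl
        | some l' =>
          rw [hpos2, hpos3] at hxy
          exact h5 _ (hℓW l').1 hxy.symm
      | some l =>
        cases o' with
        | none =>
          rw [hpos2, hpos3] at hxy
          exact h5 _ (hℓW l).1 hxy
        | some l' =>
          rw [hpos3, hpos3] at hxy
          exact hne (by rw [hℓinj hxy])
  · -- no vertex on an edge
    intro u v w huv hwu hwv hmem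
    have h6 := hole_seg _ _ _ hmem
    obtain ⟨hne, h7 | h7 | ⟨i, j, hi, hj⟩⟩ := hedge u v huv
    · subst h7
      rw [hpos2] at h6
      exact hF1 v w (Ne.symm hne) hwu (Ne.symm hwv) h6
    · subst h7
      rw [hpos2, hole_sw] at h6
      exact hF1 u w hne hwv (Ne.symm hwu) (by linarith)
    · subst hi
      subst hj
      rw [hpos1, hpos1] at h6
      exact hF2 i j (fun h8 => hne (by rw [h8])) w hwu hwv h6
  · -- no crossings
    intro u v x y huv hxy hux huy hvx hvy
    obtain ⟨hne, h7⟩ := hedge u v huv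
    obtain ⟨hne', h8⟩ := hedge x y hxy
    have hcase : (∃ c c' : Fin 3, u = Sum.inl c ∧ v = Sum.inl c') ∨
        (∃ c c' : Fin 3, x = Sum.inl c ∧ y = Sum.inl c') := by
      rcases h7 with h7 | h7 | h7
      · right
        rcases h8 with h8 | h8 | h8
        · exact absurd (h7.trans h8.symm) hux
        · exact absurd (h7.trans h8.symm) huy
        · exact h8
      · right
        rcases h8 with h8 | h8 | h8
        · exact absurd (h7.trans h8.symm) hvx
        · exact absurd (h7.trans h8.symm) hvy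
        · exact h8
      · exact Or.inl h7
    rcases hcase with ⟨i, j, hi, hj⟩ | ⟨i, j, hi, hj⟩
    · subst hi
      subst hj
      rw [hpos1, hpos1]
      exact hdis i j (fun h8 => hne (by rw [h8])) x y (Ne.symm hux) (Ne.symm hvx) (Ne.symm huy)
        (Ne.symm hvy)
    · subst hi
      subst hj
      rw [hpos1, hpos1]
      exact (hdis i j (fun h8 => hne' (by rw [h8])) u v hux huy hvx hvy).symm
  · -- leaves
    intro l
    have h6 : pos (Sum.inr (some l)) ∈ P := by rw [hpos3]; exact (hℓW l).1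
    exact h6
  · -- points of P on edges
    have hhub : ∀ x, x ≠ Sum.inr none → ∀ p ∈ P, ori h (pos x) p = 0 →
        ∃ l : Fin s, p = pos (Sum.inr (some l)) := by
      rintro (i | o) hx p hp h6
      · exfalso
        rw [hpos1] at h6
        apply h4 i p hp (hci p hp i)
        rw [hole_cyc h (c i) p]
        exact h6
      · cases o with
        | none => exact absurd rfl hx
        | some l =>
          refine ⟨l, ?_⟩
          by_contra h7
          rw [hpos3] at h6 h7
          apply h3 (ℓ l) (hℓW l).1 p hp (Ne.symm h7)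
          rw [hole_cyc h (ℓ l) p]
          exact h6
    intro u v huv p hp hmem
    have h6 := hole_seg _ _ _ hmem
    obtain ⟨hne, h7 | h7 | ⟨i, j, hi, hj⟩⟩ := hedge u v huv
    · subst h7
      rw [hpos2] at h6
      exact hhub v (Ne.symm hne) p hp h6
    · subst h7
      rw [hpos2, hole_sw] at h6
      exact hhub u hne p hp (by linarith)
    · subst hi
      subst hj
      rw [hpos1, hpos1] at h6
      exact absurd h6 (hgen i j (fun h8 => hne (by rw [h8])) p hp)
  · -- the lines are lines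
    have hcc : ∀ i j : Fin 3, i ≠ j → c i ≠ c j := by
      intro i j hij h6
      have h7 : ∃ k : Fin 3, k ≠ i ∧ k ≠ j := by
        fin_cases i <;> fin_cases j <;> decide
      obtain ⟨k, hk1, hk2⟩ := h7
      apply hF2 i j hij (Sum.inl k) (fun h8 => hk1 (Sum.inl.inj h8))
        (fun h8 => hk2 (Sum.inl.inj h8))
      rw [h6]
      unfold ori
      ring
    have hhc : ∀ i : Fin 3, h ≠ c i := by
      intro i h6
      have h7 : i ≠ i + 1 := by fin_cases i <;> decide
      apply hF2 i (i + 1) h7 (Sum.inr none) (by simp) (by simp)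
      rw [hpos2, h6]
      exact hole_l _ _
    intro l hl
    simp only [List.mem_cons, List.not_mem_nil, or_false] at hl
    rcases hl with rfl | rfl | rfl | rfl | rfl | rfl | rfl
    · exact hcc 0 1 (by decide)
    · exact hcc 1 2 (by decide)
    · exact hcc 2 0 (by decide)
    · exact hhc 0
    · exact hhc 1
    · exact hhc 2
    · exact hzne
  · -- cells
    intro Δ hΔ hl
    have l01 : ∀ p ∈ Δ, ori (c 0) (c 1) p ≠ 0 := hl (c 0, c 1) (by simp)
    have l12 : ∀ p ∈ Δ, ori (c 1) (c 2) p ≠ 0 := hl (c 1, c 2) (by simp)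
    have l20 : ∀ p ∈ Δ, ori (c 2) (c 0) p ≠ 0 := hl (c 2, c 0) (by simp)
    have lh : ∀ i : Fin 3, ∀ p ∈ Δ, ori h (c i) p ≠ 0 := by
      intro i
      fin_cases i
      · exact hl (h, c 0) (by simp)
      · exact hl (h, c 1) (by simp)
      · exact hl (h, c 2) (by simp)
    have lz : ∀ p ∈ Δ, ori h zz p ≠ 0 := hl (h, zz) (by simp)
    have lij : ∀ i j : Fin 3, i ≠ j → ∀ p ∈ Δ, ori (c i) (c j) p ≠ 0 := by
      have hrev : ∀ a b : Pt, (∀ p ∈ Δ, ori a b p ≠ 0) → ∀ p ∈ Δ, ori b a p ≠ 0 := by
        intro a b h6 p hp h7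
        rw [hole_sw] at h7
        exact h6 p hp (by linarith)
      intro i j hij
      fin_cases i <;> fin_cases j
      · exact absurd rfl hij
      · exact l01
      · exact hrev _ _ l20
      · exact hrev _ _ l01
      · exact absurd rfl hij
      · exact l12
      · exact l20
      · exact hrev _ _ l12
      · exact absurd rfl hij
    by_cases hD : ∀ u v, adjW s [] u v → Disjoint Δ (segment ℝ (pos u) (pos v))
    · exact Or.inl hD
    right
    have hhub : ∀ x, x ≠ Sum.inr none → ∀ z ∈ Δ, z ∈ segment ℝ h (pos x) →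
        ∀ p ∈ P, p ∈ Δ → ∃ l : Fin s, p = pos (Sum.inr (some l)) := by
      rintro (i | o) hx z hz hzs p hp hpD
      · exfalso
        rw [hpos1] at hzs
        exact lh i z hz (hole_seg _ _ _ hzs)
      · cases o with
        | none => exact absurd rfl hx
        | some l =>
          rw [hpos3] at hzs
          have z1 := hole_segpos _ _ _ _ z hh.1 (hℓW l).2.1 hzs
          have z2 := hole_segpos _ _ _ _ z hh.2.1 (hℓW l).2.2.1 hzs
          have z3 := hole_segpos _ _ _ _ z hh.2.2 (hℓW l).2.2.2 hzs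
          have p1 := hole_sign Δ hΔ _ _ l01 z p hz hpD z1
          have p2 := hole_sign Δ hΔ _ _ l12 z p hz hpD z2
          have p3 := hole_sign Δ hΔ _ _ l20 z p hz hpD z3
          have hpW : p ∈ W := (hWm p).mpr ⟨hp, p1, p2, p3⟩
          have lz' : ∀ p ∈ Δ, ori zz h p ≠ 0 := by
            intro p hp h7
            rw [hole_sw] at h7
            exact lz p hp (by linarith)
          have hz4 : 0 < ori zz h z := by
            have h6 := lz z hz
            obtain ⟨a, b, ha, hb, hab, rfl⟩ := hzs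
            rw [hole_comb _ _ _ _ _ _ hab, hole_l] at h6
            rw [hole_sw, hole_comb _ _ _ _ _ _ hab, hole_l]
            have h7 := hzlo _ (hℓmem l)
            have hb' : 0 < b := by
              rcases hb.lt_or_eq with h8 | h8
              · exact h8
              · exfalso
                apply h6
                rw [← h8]
                ring
            have h9 : b * ori h zz (ℓ l) < 0 := mul_neg_of_pos_of_neg hb' h7
            linarith
          have hp4 := hole_sign Δ hΔ _ _ lz' z p hz hpD hz4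
          rw [hole_sw] at hp4
          have hplo : p ∈ lo := by
            by_contra h6
            have h7 := hzhi p hpW h6
            linarith
          obtain ⟨l', hl'⟩ := hℓsurj p hplo
          exact ⟨l', by rw [hpos3]; exact hl'⟩
    push Not at hD
    obtain ⟨u, v, huv, hnd⟩ := hD
    rw [Set.not_disjoint_iff] at hnd
    obtain ⟨z, hz, hzs⟩ := hnd
    obtain ⟨hne, h7 | h7 | ⟨i, j, hi, hj⟩⟩ := hedge u v huv
    · subst h7
      rw [hpos2] at hzs
      exact hhub v (Ne.symm hne) z hz hzs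
    · subst h7
      rw [hpos2, segment_symm] at hzs
      exact hhub u hne z hz hzs
    · subst hi
      subst hj
      rw [hpos1, hpos1] at hzs
      exact absurd (hole_seg _ _ _ hzs) (lij i j (fun h8 => hne (by rw [h8])) z hz)

theorem combine_seg_ori (a b p : Pt) (hp : p ∈ segment ℝ a b) : ori a b p = 0 := by
  obtain ⟨α, β, hα, hβ, hab, rfl⟩ := hp
  unfold ori
  simp only [Prod.fst_add, Prod.snd_add, Prod.smul_fst, Prod.smul_snd, smul_eq_mul]
  have h : α = 1 - β := by linarith
  subst h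
  ring

theorem combine_aff (a b x y : Pt) (α β : ℝ) (hab : α + β = 1) :
    ori a b (α • x + β • y) = α * ori a b x + β * ori a b y := by
  unfold ori
  simp only [Prod.fst_add, Prod.snd_add, Prod.smul_fst, Prod.smul_snd, smul_eq_mul]
  have h : α = 1 - β := by linarith
  subst h
  ring

theorem combine_tot (c : Fin 3 → Pt) (q : Pt) (hq : inP c q) : 0 < ori (c 0) (c 1) (c 2) := by
  obtain ⟨h1, h2, h3⟩ := hq
  have : ori (c 0) (c 1) (c 2) = ori (c 0) (c 1) q + ori (c 1) (c 2) q + ori (c 2) (c 0) q := by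
    unfold ori
    ring
  rw [this]
  linarith

theorem combine_in (c : Fin 3 → Pt) (q : Pt) (hq : inP c q) (i : Fin 3) (p : Pt)
    (hp : p ∈ segment ℝ (c i) q) : inP c p ∨ p = c i := by
  have ht := combine_tot c q hq
  obtain ⟨α, β, hα, hβ, hab, rfl⟩ := hp
  rcases hβ.eq_or_lt with h0 | h0
  · right
    have h1 : α = 1 := by linarith
    rw [← h0, h1, one_smul, zero_smul, add_zero]
  · left
    obtain ⟨h1, h2, h3⟩ := hq
    have e0 : ∀ x y : Pt, ori x y x = 0 := by intro x y; unfold ori; ring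
    have e1 : ∀ x y : Pt, ori x y y = 0 := by intro x y; unfold ori; ring
    have e2 : ori (c 1) (c 2) (c 0) = ori (c 0) (c 1) (c 2) := by unfold ori; ring
    have e3 : ori (c 2) (c 0) (c 1) = ori (c 0) (c 1) (c 2) := by unfold ori; ring
    have k1 : 0 ≤ ori (c 0) (c 1) (c i) ∧ 0 ≤ ori (c 1) (c 2) (c i) ∧ 0 ≤ ori (c 2) (c 0) (c i) := by
      fin_cases i
      · exact ⟨(e0 _ _).ge, (e2 ▸ ht.le), (e1 _ _).ge⟩
      · exact ⟨(e1 _ _).ge, (e0 _ _).ge, (e3 ▸ ht.le)⟩
      · exact ⟨ht.le, (e1 _ _).ge, (e0 _ _).ge⟩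
    refine ⟨?_, ?_, ?_⟩
    · rw [combine_aff _ _ _ _ _ _ hab]
      have := mul_nonneg hα k1.1
      have := mul_pos h0 h1
      linarith
    · rw [combine_aff _ _ _ _ _ _ hab]
      have := mul_nonneg hα k1.2.1
      have := mul_pos h0 h2
      linarith
    · rw [combine_aff _ _ _ _ _ _ hab]
      have := mul_nonneg hα k1.2.2
      have := mul_pos h0 h3
      linarith

theorem combine_in2 (c : Fin 3 → Pt) (q q' : Pt) (hq : inP c q) (hq' : inP c q') (p : Pt)
    (hp : p ∈ segment ℝ q q') : inP c p := by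
  obtain ⟨α, β, hα, hβ, hab, rfl⟩ := hp
  have key : ∀ x y : ℝ, 0 < x → 0 < y → 0 < α * x + β * y := by
    intro x y hx hy
    rcases hα.eq_or_lt with h0 | h0
    · have h1 : β = 1 := by linarith
      rw [← h0, h1]; linarith
    · have := mul_pos h0 hx
      have := mul_nonneg hβ hy.le
      linarith
  obtain ⟨h1, h2, h3⟩ := hq
  obtain ⟨h1', h2', h3'⟩ := hq'
  refine ⟨?_, ?_, ?_⟩
  · rw [combine_aff _ _ _ _ _ _ hab]; exact key _ _ h1 h1'
  · rw [combine_aff _ _ _ _ _ _ hab]; exact key _ _ h2 h2'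
  · rw [combine_aff _ _ _ _ _ _ hab]; exact key _ _ h3 h3'

theorem combine_child {H : Type} {g : List Bse} (c : Fin 3 → Pt) (posm : Wt H g → Pt)
    (hcor : ∀ i, posm (Sum.inl i) = c i) (hins : ∀ v, inP c (posm (Sum.inr v)))
    (a b : Wt H g) (hab : (∃ v, a = Sum.inr v) ∨ (∃ v, b = Sum.inr v)) (p : Pt)
    (hp : p ∈ segment ℝ (posm a) (posm b)) :
    inP c p ∨ (∃ i, a = Sum.inl i ∧ p = c i) ∨ (∃ i, b = Sum.inl i ∧ p = c i) := by
  rcases a with i | v <;> rcases b with j | w
  · rcases hab with ⟨v, hv⟩ | ⟨v, hv⟩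
    · exact absurd hv (by simp)
    · exact absurd hv (by simp)
  · rw [hcor] at hp
    rcases combine_in c _ (hins w) i p hp with h | h
    · exact Or.inl h
    · exact Or.inr (Or.inl ⟨i, rfl, h⟩)
  · rw [hcor, segment_symm] at hp
    rcases combine_in c _ (hins v) j p hp with h | h
    · exact Or.inl h
    · exact Or.inr (Or.inr ⟨j, rfl, h⟩)
  · exact Or.inl (combine_in2 c _ _ (hins v) (hins w) p hp)

theorem combine_edge (B : Bse) (g : List Bse) (s : ℕ)
    (hface : ∀ m i j, i ≠ j → B.adj (B.face m i) (B.face m j) = true)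
    (hirrg : ∀ a, ¬ adjW s g a a) (u v : Wt (Option (Fin s)) (B :: g))
    (h : adjW s (B :: g) u v) :
    (∃ i j, B.adj i j = true ∧ u = bv _ B g i ∧ v = bv _ B g j) ∨
      ∃ m a b, adjW s g a b ∧ ((∃ x, a = Sum.inr x) ∨ ∃ x, b = Sum.inr x) ∧
        u = cv _ B g m a ∧ v = cv _ B g m b := by
  rcases h with h | ⟨m, a, b, hab, hu, hv⟩
  · exact Or.inl h
  · rcases a with i | x
    · rcases b with j | y
      · left
        have hij : i ≠ j := by
          intro hh
          subst hh
          exact hirrg _ hab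
        exact ⟨B.face m i, B.face m j, hface m i j hij, hu, hv⟩
      · right
        exact ⟨m, _, _, hab, Or.inr ⟨y, rfl⟩, hu, hv⟩
    · right
      exact ⟨m, _, _, hab, Or.inl ⟨x, rfl⟩, hu, hv⟩

theorem combine_vert (H : Type) (B : Bse) (g : List Bse) (w : Wt H (B :: g)) :
    (∃ i, w = bv H B g i) ∨ ∃ m x, w = cv H B g m (Sum.inr x) := by
  rcases w with c | v
  · left
    refine ⟨Fin.castAdd B.I c, ?_⟩
    unfold bv
    rw [Fin.addCases_left]
  · rcases v with k | ⟨m, x⟩
    · left
      refine ⟨Fin.natAdd 3 k, ?_⟩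
      unfold bv
      rw [Fin.addCases_right]
    · right
      exact ⟨m, x, rfl⟩

/-- the combined placement -/
def combine_pos (B : Bse) (g : List Bse) (s : ℕ) (bp : Fin (3 + B.I) → Pt)
    (posc : Fin B.M → Wt (Option (Fin s)) g → Pt) : Wt (Option (Fin s)) (B :: g) → Pt
  | Sum.inl i => bp (Fin.castAdd B.I i)
  | Sum.inr (Sum.inl k) => bp (Fin.natAdd 3 k)
  | Sum.inr (Sum.inr (m, v)) => posc m (Sum.inr v)

theorem combine_pos_bv (B : Bse) (g : List Bse) (s : ℕ) (bp : Fin (3 + B.I) → Pt)
    (posc : Fin B.M → Wt (Option (Fin s)) g → Pt) (i : Fin (3 + B.I)) :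
    combine_pos B g s bp posc (bv _ B g i) = bp i := by
  refine Fin.addCases (fun c => ?_) (fun k => ?_) i
  · unfold bv
    rw [Fin.addCases_left]
    rfl
  · unfold bv
    rw [Fin.addCases_right]
    rfl

theorem combine_pos_cv (B : Bse) (g : List Bse) (s : ℕ) (bp : Fin (3 + B.I) → Pt)
    (posc : Fin B.M → Wt (Option (Fin s)) g → Pt)
    (hcor : ∀ m i, posc m (Sum.inl i) = bp (B.face m i)) (m : Fin B.M)
    (w : Wt (Option (Fin s)) g) :
    combine_pos B g s bp posc (cv _ B g m w) = posc m w := by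
  rcases w with c | v
  · have h : cv (Option (Fin s)) B g m (Sum.inl c) = bv _ B g (B.face m c) := rfl
    rw [h, combine_pos_bv, hcor]
  · rfl

theorem combine_drw (B : Bse) (g : List Bse) (s : ℕ) (P : Finset Pt)
    (bp : Fin (3 + B.I) → Pt) (hB : BG B bp)
    (hface : ∀ m i j, i ≠ j → B.adj (B.face m i) (B.face m j) = true)
    (hirrg : ∀ a, ¬ adjW s g a a)
    (posc : Fin B.M → Wt (Option (Fin s)) g → Pt) (lsc : Fin B.M → List (Pt × Pt))
    (hc : ∀ m, Cmp g s P (posc m) (lsc m))
    (hcor : ∀ m i, posc m (Sum.inl i) = bp (B.face m i))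
    (hins : ∀ m v, inP (fun c => bp (B.face m c)) (posc m (Sum.inr v))) :
    Drw (adjW s (B :: g)) (combine_pos B g s bp posc) := by
  have hbv := combine_pos_bv B g s bp posc
  have hcv := combine_pos_cv B g s bp posc hcor
  have hch : ∀ m a b, ((∃ x, a = Sum.inr x) ∨ ∃ x, b = Sum.inr x) → ∀ p,
      p ∈ segment ℝ (posc m a) (posc m b) → inP (fun c => bp (B.face m c)) p ∨
      (∃ i, a = Sum.inl i ∧ p = bp (B.face m i)) ∨ (∃ i, b = Sum.inl i ∧ p = bp (B.face m i)) :=
    fun m a b hab p hp =>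
      combine_child (fun c => bp (B.face m c)) (posc m) (hcor m) (hins m) a b hab p hp
  refine ⟨?_, ?_, ?_⟩
  · intro u v huv
    rcases combine_vert _ B g u with ⟨i, rfl⟩ | ⟨m, x, rfl⟩ <;>
      rcases combine_vert _ B g v with ⟨j, rfl⟩ | ⟨m', y, rfl⟩
    · rw [hbv, hbv] at huv
      rw [hB.inj huv]
    · rw [hbv, hcv] at huv
      exact absurd (huv ▸ hins m' y) (hB.vf m' i)
    · rw [hbv, hcv] at huv
      exact absurd (huv ▸ hins m x) (hB.vf m j)
    · rw [hcv, hcv] at huv
      by_cases hm : m = m'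
      · subst hm
        rw [(hc m).drw.inj huv]
      · exact absurd ⟨hins m x, huv ▸ hins m' y⟩ (hB.ff m m' hm _)
  · intro u v w huv hwu hwv hw
    rcases combine_edge B g s hface hirrg u v huv with ⟨i, j, hij, rfl, rfl⟩ |
      ⟨m, a, b, hab, hor, rfl, rfl⟩
    · rw [hbv, hbv] at hw
      rcases combine_vert _ B g w with ⟨k, rfl⟩ | ⟨m', x, rfl⟩
      · rw [hbv] at hw
        exact hB.ve i j k hij (fun h => hwu (by rw [h])) (fun h => hwv (by rw [h])) hw
      · rw [hcv] at hw
        exact hB.fe m' i j hij _ hw (hins m' x)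
    · rw [hcv, hcv] at hw
      rcases combine_vert _ B g w with ⟨k, rfl⟩ | ⟨m', x, rfl⟩
      · rw [hbv] at hw
        rcases hch m a b hor _ hw with h | ⟨i, rfl, hi⟩ | ⟨i, rfl, hi⟩
        · exact hB.vf m k h
        · exact hwu (by rw [hB.inj hi]; rfl)
        · exact hwv (by rw [hB.inj hi]; rfl)
      · rw [hcv] at hw
        by_cases hm : m' = m
        · subst hm
          exact (hc m').drw.d1 a b (Sum.inr x) hab (fun h => hwu (by rw [h]))
            (fun h => hwv (by rw [h])) hw
        · rcases hch m a b hor _ hw with h | ⟨i, rfl, hi⟩ | ⟨i, rfl, hi⟩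
          · exact hB.ff m' m hm _ ⟨hins m' x, h⟩
          · exact hB.vf m' _ (hi ▸ hins m' x)
          · exact hB.vf m' _ (hi ▸ hins m' x)
  · -- base against child
    have hbc : ∀ i j m a b, B.adj i j = true → ((∃ x, a = Sum.inr x) ∨ ∃ x, b = Sum.inr x) →
        bv (Option (Fin s)) B g i ≠ cv _ B g m a → bv (Option (Fin s)) B g i ≠ cv _ B g m b →
        bv (Option (Fin s)) B g j ≠ cv _ B g m a → bv (Option (Fin s)) B g j ≠ cv _ B g m b →
        ∀ p, p ∈ segment ℝ (bp i) (bp j) → p ∈ segment ℝ (posc m a) (posc m b) → False := by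
      intro i j m a b hij hor h1 h2 h3 h4 p hp1 hp2
      rcases hch m a b hor _ hp2 with h | ⟨k, rfl, hk⟩ | ⟨k, rfl, hk⟩
      · exact hB.fe m i j hij _ hp1 h
      · subst hk
        exact hB.ve i j (B.face m k) hij (fun h => h1 (by rw [← h]; rfl))
          (fun h => h3 (by rw [← h]; rfl)) hp1
      · subst hk
        exact hB.ve i j (B.face m k) hij (fun h => h2 (by rw [← h]; rfl))
          (fun h => h4 (by rw [← h]; rfl)) hp1
    intro u v x y huv hxy h1 h2 h3 h4
    rw [Set.disjoint_left]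
    intro p hp1 hp2
    rcases combine_edge B g s hface hirrg u v huv with ⟨i, j, hij, rfl, rfl⟩ |
      ⟨m, a, b, hab, hor, rfl, rfl⟩ <;>
      rcases combine_edge B g s hface hirrg x y hxy with ⟨k, l, hkl, rfl, rfl⟩ |
      ⟨m', a', b', hab', hor', rfl, rfl⟩
    · rw [hbv, hbv] at hp1 hp2
      exact Set.disjoint_left.1 (hB.ee i j k l hij hkl (fun h => h1 (by rw [h]))
        (fun h => h2 (by rw [h])) (fun h => h3 (by rw [h])) (fun h => h4 (by rw [h]))) hp1 hp2
    · rw [hbv, hbv] at hp1
      rw [hcv, hcv] at hp2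
      exact hbc i j m' a' b' hij hor' h1 h2 h3 h4 p hp1 hp2
    · rw [hbv, hbv] at hp2
      rw [hcv, hcv] at hp1
      exact hbc k l m a b hkl hor h1.symm h3.symm h2.symm h4.symm p hp2 hp1
    · rw [hcv, hcv] at hp1 hp2
      by_cases hm : m = m'
      · subst hm
        exact Set.disjoint_left.1 ((hc m).drw.d2 a b a' b' hab hab' (fun h => h1 (by rw [h]))
          (fun h => h2 (by rw [h])) (fun h => h3 (by rw [h])) (fun h => h4 (by rw [h]))) hp1 hp2
      · rcases hch m a b hor _ hp1 with h | ⟨i, rfl, hi⟩ | ⟨i, rfl, hi⟩ <;>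
          rcases hch m' a' b' hor' _ hp2 with h' | ⟨j, rfl, hj⟩ | ⟨j, rfl, hj⟩
        · exact hB.ff m m' hm _ ⟨h, h'⟩
        · exact hB.vf m _ (hj ▸ h)
        · exact hB.vf m _ (hj ▸ h)
        · exact hB.vf m' _ (hi ▸ h')
        · exact h1 (show bv _ B g (B.face m i) = bv _ B g (B.face m' j) by
            rw [hB.inj (hi.symm.trans hj)])
        · exact h2 (show bv _ B g (B.face m i) = bv _ B g (B.face m' j) by
            rw [hB.inj (hi.symm.trans hj)])
        · exact hB.vf m' _ (hi ▸ h')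
        · exact h3 (show bv _ B g (B.face m i) = bv _ B g (B.face m' j) by
            rw [hB.inj (hi.symm.trans hj)])
        · exact h4 (show bv _ B g (B.face m i) = bv _ B g (B.face m' j) by
            rw [hB.inj (hi.symm.trans hj)])

theorem combine (B : Bse) (g : List Bse) (s : ℕ) (P : Finset Pt)
    (bp : Fin (3 + B.I) → Pt) (hB : BG B bp) (hgen : GEN P bp)
    (hface : ∀ m i j, i ≠ j → B.adj (B.face m i) (B.face m j) = true)
    (hfinj : ∀ m, Function.Injective (B.face m))
    (hirr : ∀ i, B.adj i i = false) (hirrg : ∀ a, ¬ adjW s g a a)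
    (posc : Fin B.M → Wt (Option (Fin s)) g → Pt) (lsc : Fin B.M → List (Pt × Pt))
    (hc : ∀ m, Cmp g s P (posc m) (lsc m)) (hl : ∀ m, (lsc m).length ≤ lb g)
    (hcor : ∀ m i, posc m (Sum.inl i) = bp (B.face m i))
    (hins : ∀ m v, inP (fun c => bp (B.face m c)) (posc m (Sum.inr v))) :
    ∃ (pos : Wt (Option (Fin s)) (B :: g) → Pt) (ls : List (Pt × Pt)), Cmp (B :: g) s P pos ls ∧
      ls.length ≤ lb (B :: g) ∧ (∀ i, pos (Sum.inl i) = bp (Fin.castAdd B.I i)) ∧
      ∀ v, inP (fun c => bp (Fin.castAdd B.I c)) (pos (Sum.inr v)) := by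
  have hbv := combine_pos_bv B g s bp posc
  have hcv := combine_pos_cv B g s bp posc hcor
  have hdrw := combine_drw B g s P bp hB hface hirrg posc lsc hc hcor hins
  obtain ⟨l1, hl1⟩ : ∃ l1 : List (Pt × Pt), l1 = (((List.finRange (3 + B.I)) ×ˢ
      (List.finRange (3 + B.I))).filter (fun q => decide (q.1 ≠ q.2))).map
      (fun q => (bp q.1, bp q.2)) := ⟨_, rfl⟩
  obtain ⟨l2, hl2⟩ : ∃ l2 : List (Pt × Pt), l2 = (List.finRange B.M).flatMap lsc := ⟨_, rfl⟩
  have hmem1 : ∀ i j, i ≠ j → (bp i, bp j) ∈ l1 := by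
    intro i j hij
    rw [hl1, List.mem_map]
    refine ⟨(i, j), ?_, rfl⟩
    rw [List.mem_filter]
    refine ⟨?_, by simpa using hij⟩
    exact List.pair_mem_product.2 ⟨List.mem_finRange i, List.mem_finRange j⟩
  have hmem2 : ∀ m l, l ∈ lsc m → l ∈ l2 := by
    intro m l hl
    rw [hl2, List.mem_flatMap]
    exact ⟨m, List.mem_finRange m, hl⟩
  refine ⟨combine_pos B g s bp posc, l1 ++ l2, ⟨hdrw, ?_, ?_, ?_, ?_⟩, ?_, fun i => rfl, ?_⟩
  · rintro ⟨m, l⟩
    exact (hc m).leafP l
  · intro u v huv p hp hps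
    rcases combine_edge B g s hface hirrg u v huv with ⟨i, j, hij, rfl, rfl⟩ |
      ⟨m, a, b, hab, hor, rfl, rfl⟩
    · rw [hbv, hbv] at hps
      have hne : i ≠ j := by
        intro h
        subst h
        rw [hirr i] at hij
        exact absurd hij (by simp)
      exact absurd (combine_seg_ori _ _ _ hps) (hgen i j hne p hp)
    · rw [hcv, hcv] at hps
      obtain ⟨l, hl⟩ := (hc m).avoid a b hab p hp hps
      exact ⟨(m, l), hl⟩
  · intro l hl'
    rcases List.mem_append.1 hl' with h | h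
    · rw [hl1, List.mem_map] at h
      obtain ⟨q, hq, rfl⟩ := h
      rw [List.mem_filter] at hq
      have h2 : q.1 ≠ q.2 := by simpa using hq.2
      exact fun h3 => h2 (hB.inj h3)
    · rw [hl2, List.mem_flatMap] at h
      obtain ⟨m, -, hm⟩ := h
      exact (hc m).lsne l hm
  · intro Δ hΔ hlines
    by_cases hall : ∀ u v, adjW s (B :: g) u v → Disjoint Δ
        (segment ℝ (combine_pos B g s bp posc u) (combine_pos B g s bp posc v))
    · exact Or.inl hall
    · right
      push Not at hall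
      obtain ⟨u, v, huv, hnd⟩ := hall
      rcases combine_edge B g s hface hirrg u v huv with ⟨i, j, hij, rfl, rfl⟩ |
        ⟨m, a, b, hab, hor, rfl, rfl⟩
      · exfalso
        rw [hbv, hbv] at hnd
        apply hnd
        rw [Set.disjoint_left]
        intro q hq1 hq2
        have hne : i ≠ j := by
          intro h
          subst h
          rw [hirr i] at hij
          exact absurd hij (by simp)
        exact hlines (bp i, bp j) (List.mem_append_left _ (hmem1 i j hne)) q hq1
          (combine_seg_ori _ _ _ hq2)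
      · rw [hcv, hcv] at hnd
        rcases (hc m).cell Δ hΔ (fun l hl' p hp => hlines l
          (List.mem_append_right _ (hmem2 m l hl')) p hp) with h | h
        · exact absurd (h a b hab) hnd
        · intro p hp hpΔ
          obtain ⟨l, hl'⟩ := h p hp hpΔ
          exact ⟨(m, l), hl'⟩
  · rw [List.length_append]
    have h1 : l1.length ≤ (3 + B.I) ^ 2 := by
      rw [hl1, List.length_map]
      refine (List.length_filter_le _ _).trans ?_
      rw [List.length_product, List.length_finRange, sq]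
    have h2 : l2.length ≤ B.M * lb g := by
      rw [hl2, List.length_flatMap]
      have h3 := List.sum_le_card_nsmul ((List.finRange B.M).map (fun m => (lsc m).length)) (lb g)
        (by
          intro x hx
          rw [List.mem_map] at hx
          obtain ⟨m, -, rfl⟩ := hx
          exact hl m)
      rw [List.length_map, List.length_finRange, smul_eq_mul] at h3
      exact h3
    exact Nat.add_le_add h1 h2
  · rintro (k | ⟨m, v⟩)
    · exact hB.inn k
    · exact hB.fin m _ (hins m v)

theorem adj_irr_bvinj (H : Type) (B : Bse) (g : List Bse) (i j : Fin (3 + B.I))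
    (h : bv H B g i = bv H B g j) : i = j := by
  revert h
  refine Fin.addCases (motive := fun i => bv H B g i = bv H B g j → i = j)
    (fun c => ?_) (fun k => ?_) i
  · refine Fin.addCases (motive := fun j => bv H B g (Fin.castAdd B.I c) = bv H B g j →
      Fin.castAdd B.I c = j) (fun c' => ?_) (fun k' => ?_) j
    · intro h
      simp only [bv, Fin.addCases_left] at h
      rw [Sum.inl.inj h]
    · intro h
      simp only [bv, Fin.addCases_left, Fin.addCases_right] at h
      exact absurd h (by simp)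
  · refine Fin.addCases (motive := fun j => bv H B g (Fin.natAdd 3 k) = bv H B g j →
      Fin.natAdd 3 k = j) (fun c' => ?_) (fun k' => ?_) j
    · intro h
      simp only [bv, Fin.addCases_left, Fin.addCases_right] at h
      exact absurd h (by simp)
    · intro h
      simp only [bv, Fin.addCases_right] at h
      rw [Sum.inl.inj (Sum.inr.inj h)]

theorem adj_irr_bvne (H : Type) (B : Bse) (g : List Bse) (i : Fin (3 + B.I)) (m : Fin B.M)
    (v : Vt H g) : bv H B g i ≠ Sum.inr (Sum.inr (m, v)) := by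
  refine Fin.addCases (motive := fun i => bv H B g i ≠ Sum.inr (Sum.inr (m, v)))
    (fun c => ?_) (fun k => ?_) i
  · intro h
    simp only [bv, Fin.addCases_left] at h
    exact absurd h (by simp)
  · intro h
    simp only [bv, Fin.addCases_right] at h
    exact absurd h (by simp)

theorem adj_irr_stk1 : ∀ i : Fin (3 + stkB.I), stkB.adj i i = false := by
  decide

theorem adj_irr_frg1 : ∀ i : Fin (3 + frgB.I), frgB.adj i i = false := by
  decide +kernel

theorem adj_irr_stk2 : ∀ m : Fin stkB.M, ∀ c c' : Fin 3, stkB.face m c = stkB.face m c' → c = c' := by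
  decide +kernel

theorem adj_irr_frg2 : ∀ m : Fin frgB.M, ∀ c c' : Fin 3, frgB.face m c = frgB.face m c' → c = c' := by
  decide +kernel

theorem adj_irr (s : ℕ) (g : List Bse) (hg : StkFrg g) (a : Wt (Option (Fin s)) g) :
    ¬ adjW s g a a := by
  induction g with
  | nil =>
    intro h
    exact h.1 rfl
  | cons B g ih =>
    have hB : B = stkB ∨ B = frgB := hg B (by simp)
    have hg' : StkFrg g := fun B' hB' => hg B' (List.mem_cons_of_mem _ hB')
    have hirr : ∀ i, B.adj i i = false := by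
      rcases hB with rfl | rfl
      · exact adj_irr_stk1
      · exact adj_irr_frg1
    have hface : ∀ m : Fin B.M, ∀ c c' : Fin 3, B.face m c = B.face m c' → c = c' := by
      rcases hB with rfl | rfl
      · exact adj_irr_stk2
      · exact adj_irr_frg2
    rintro (⟨i, j, hij, h1, h2⟩ | ⟨m, x, y, hxy, h1, h2⟩)
    · have h3 := adj_irr_bvinj _ B g i j (h1.symm.trans h2)
      subst h3
      rw [hirr i] at hij
      exact absurd hij (by simp)
    · have h3 : cv _ B g m x = cv _ B g m y := h1.symm.trans h2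
      have h4 : x = y := by
        rcases x with c | v <;> rcases y with c' | v'
        · have h5 := adj_irr_bvinj _ B g _ _ h3
          rw [hface m c c' h5]
        · exact absurd h3 (adj_irr_bvne _ B g _ m v')
        · exact absurd h3.symm (adj_irr_bvne _ B g _ m v)
        · have h5 := Sum.inr.inj (Sum.inr.inj h3)
          rw [(Prod.mk.inj h5).2]
      subst h4
      exact ih hg' x hxy

end Pool.Agent.Helper745.FSub
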