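import Pool.Agent.Helper745.FS.B1
import Pool.Agent.Helper745.FS.B2
import Pool.Agent.Helper745.FS.B4
import Pool.Agent.Helper745.FS.B5

set_option autoImplicit false

namespace Pool.Agent.Helper745.FSub

theorem full_draw_face (B : Bse) (h : B = stkB ∨ B = frgB) :
    (∀ m i j, i ≠ j → B.adj (B.face m i) (B.face m j) = true) ∧
    (∀ m, Function.Injective (B.face m)) ∧ (∀ i, B.adj i i = false) := by
  rcases h with rfl | rfl
  · refine ⟨?_, ?_, ?_⟩
    · change ∀ m : Fin 3, ∀ i j : Fin 3, i ≠ j → _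
      decide
    · change ∀ m : Fin 3, ∀ i j : Fin 3, stkB.face m i = stkB.face m j → i = j
      decide
    · change ∀ i : Fin 4, _
      decide
  · refine ⟨?_, ?_, ?_⟩
    · change ∀ m : Fin 9, ∀ i j : Fin 3, i ≠ j → _
      decide
    · change ∀ m : Fin 9, ∀ i j : Fin 3, frgB.face m i = frgB.face m j → i = j
      decide
    · change ∀ i : Fin 10, _
      decide

theorem full_draw_bvl (H : Type) (B : Bse) (g : List Bse) (c : Fin 3) :
    bv H B g (Fin.castAdd B.I c) = Sum.inl c := by
  unfold bv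
  exact Fin.addCases_left _

theorem full_draw_bvr (H : Type) (B : Bse) (g : List Bse) (k : Fin B.I) :
    bv H B g (Fin.natAdd 3 k) = Sum.inr (Sum.inl k) := by
  unfold bv
  exact Fin.addCases_right _

theorem full_draw_bvinj (H : Type) (B : Bse) (g : List Bse) : Function.Injective (bv H B g) := by
  intro i j
  refine Fin.addCases (motive := fun i => bv H B g i = bv H B g j → i = j) ?_ ?_ i
  · intro c
    refine Fin.addCases (motive := fun j => bv H B g (Fin.castAdd B.I c) = bv H B g j →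
      Fin.castAdd B.I c = j) ?_ ?_ j
    · intro c' h
      rw [full_draw_bvl, full_draw_bvl] at h
      rw [Sum.inl.inj h]
    · intro k h
      rw [full_draw_bvl, full_draw_bvr] at h
      cases h
  · intro k
    refine Fin.addCases (motive := fun j => bv H B g (Fin.natAdd 3 k) = bv H B g j →
      Fin.natAdd 3 k = j) ?_ ?_ j
    · intro c' h
      rw [full_draw_bvl, full_draw_bvr] at h
      cases h
    · intro k' h
      rw [full_draw_bvr, full_draw_bvr] at h
      rw [Sum.inl.inj (Sum.inr.inj h)]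

theorem full_draw_bvne (H : Type) (B : Bse) (g : List Bse) (i : Fin (3 + B.I))
    (x : Fin B.M × Vt H g) : bv H B g i ≠ Sum.inr (Sum.inr x) := by
  refine Fin.addCases (motive := fun i => bv H B g i ≠ Sum.inr (Sum.inr x)) ?_ ?_ i
  · intro c h
    rw [full_draw_bvl] at h
    cases h
  · intro k h
    rw [full_draw_bvr] at h
    have := Sum.inr.inj h
    cases this

theorem full_draw_cvinj (H : Type) (B : Bse) (g : List Bse)
    (hf : ∀ m, Function.Injective (B.face m)) (m : Fin B.M) :
    Function.Injective (cv H B g m) := by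
  intro a b h
  rcases a with a | a <;> rcases b with b | b
  · have h' : bv H B g (B.face m a) = bv H B g (B.face m b) := h
    rw [hf m (full_draw_bvinj H B g h')]
  · exact absurd h (full_draw_bvne H B g (B.face m a) (m, b))
  · exact absurd h.symm (full_draw_bvne H B g (B.face m b) (m, a))
  · have h' : (Sum.inr (Sum.inr (m, a)) : Wt H (B :: g)) = Sum.inr (Sum.inr (m, b)) := h
    have h2 := Sum.inr.inj (Sum.inr.inj h')
    rw [(Prod.mk.inj h2).2]

theorem full_draw (g : List Bse) (hg : StkFrg g) (s : ℕ) (P : Finset Pt) (hP : GP P)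
    (sk : Wt Empty g → Pt) (hsk : SkOK P s g sk) (hgen : GEN P sk) :
    ∃ (pos : Wt (Option (Fin s)) g → Pt) (ls : List (Pt × Pt)), Cmp g s P pos ls ∧
      ls.length ≤ lb g ∧ (∀ i, pos (Sum.inl i) = sk (Sum.inl i)) ∧
      ∀ v, inP (fun c => sk (Sum.inl c)) (pos (Sum.inr v)) := by
  induction g with
  | nil =>
    obtain ⟨h0, h1⟩ := hsk
    have hgen' : GEN P (fun i => sk (Sum.inl i)) := by
      intro u v huv p hp
      exact hgen (Sum.inl u) (Sum.inl v) (fun h => huv (Sum.inl.inj h)) p hp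
    exact hole s P hP (fun i => sk (Sum.inl i)) h0 hgen' h1
  | cons B g ih =>
    obtain ⟨h0, h1⟩ := hsk
    have hB : B = stkB ∨ B = frgB := hg B (List.mem_cons_self)
    have hg' : StkFrg g := fun C hC => hg C (List.mem_cons_of_mem _ hC)
    obtain ⟨hface, hfinj, hirr⟩ := full_draw_face B hB
    have hBG : BG B (fun i => sk (bv Empty B g i)) := by
      rcases hB with rfl | rfl
      · exact base_stk _ h0
      · exact base_frg _ h0
    have hgenB : GEN P (fun i => sk (bv Empty B g i)) := by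
      intro u v huv p hp
      exact hgen _ _ (fun h => huv (full_draw_bvinj Empty B g h)) p hp
    have key := fun m : Fin B.M => ih hg' (fun w => sk (cv Empty B g m w)) (h1 m) (by
      intro u v huv p hp
      exact hgen _ _ (fun h => huv (full_draw_cvinj Empty B g hfinj m h)) p hp)
    choose posc lsc hc hl hcor hins using key
    obtain ⟨pos, ls, h2, h3, h4, h5⟩ := combine B g s P (fun i => sk (bv Empty B g i)) hBG hgenB
      hface hfinj hirr (adj_irr s g hg') posc lsc hc hl (fun m i => hcor m i)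
      (fun m v => hins m v)
    refine ⟨pos, ls, h2, h3, ?_, ?_⟩
    · intro i
      rw [h4 i]
      show sk (bv Empty B g (Fin.castAdd B.I i)) = sk (Sum.inl i)
      rw [full_draw_bvl]
    · intro v
      have h6 := h5 v
      have h7 : (fun c => sk (bv Empty B g (Fin.castAdd B.I c))) = (fun c => sk (Sum.inl c)) := by
        funext c
        rw [full_draw_bvl]
      rw [h7] at h6
      exact h6

theorem main_comp_ori (a b c0 c1 c2 p : Pt) :
    ori c0 c1 c2 * ori a b p = ori c1 c2 p * ori a b c0 + ori c2 c0 p * ori a b c1 +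
      ori c0 c1 p * ori a b c2 := by
  unfold ori
  ring

theorem main_comp_pos (a b c0 c1 c2 p : Pt) (h0 : 0 < ori c1 c2 p) (h1 : 0 < ori c2 c0 p)
    (h2 : 0 < ori c0 c1 p) (k0 : 0 < ori a b c0) (k1 : 0 < ori a b c1) (k2 : 0 < ori a b c2) :
    0 < ori a b p := by
  have e : ori c0 c1 c2 = ori c1 c2 p + ori c2 c0 p + ori c0 c1 p := by
    unfold ori
    ring
  have hD : 0 < ori c0 c1 c2 := by
    rw [e]
    linarith
  have h := main_comp_ori a b c0 c1 c2 p
  have hR : 0 < ori c1 c2 p * ori a b c0 + ori c2 c0 p * ori a b c1 + ori c0 c1 p * ori a b c2 := by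
    have := mul_pos h0 k0
    have := mul_pos h1 k1
    have := mul_pos h2 k2
    linarith
  rw [← h] at hR
  exact (pos_iff_pos_of_mul_pos hR).mp hD

theorem main_comp_inP (T c : Fin 3 → Pt) (hc : ∀ i, inP T (c i)) (p : Pt) (hp : inP c p) :
    inP T p := by
  obtain ⟨p0, p1, p2⟩ := hp
  refine ⟨?_, ?_, ?_⟩
  · exact main_comp_pos _ _ (c 0) (c 1) (c 2) p p1 p2 p0 (hc 0).1 (hc 1).1 (hc 2).1
  · exact main_comp_pos _ _ (c 0) (c 1) (c 2) p p1 p2 p0 (hc 0).2.1 (hc 1).2.1 (hc 2).2.1
  · exact main_comp_pos _ _ (c 0) (c 1) (c 2) p p1 p2 p0 (hc 0).2.2 (hc 1).2.2 (hc 2).2.2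

theorem main_comp_mono (P Q : Finset Pt) (hQ : Q ⊆ P) (n : ℕ) (g : List Bse) :
    ∀ pos : Wt Empty g → Pt, SkOK Q n g pos → SkOK P n g pos := by
  induction g with
  | nil =>
    intro pos h
    obtain ⟨h1, Q', h2, h3⟩ := h
    exact ⟨h1, Q', h2.trans hQ, h3⟩
  | cons B g ih =>
    intro pos h
    exact ⟨h.1, fun m => ih _ (h.2 m)⟩

theorem main_comp_open (T : Fin 3 → Pt) : IsOpen {p | inP T p} := by
  have h : ∀ a b : Pt, Continuous (fun p : Pt => ori a b p) := by
    intro a b
    unfold ori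
    fun_prop
  have e : {p | inP T p} = {p | 0 < ori (T 0) (T 1) p} ∩ ({p | 0 < ori (T 1) (T 2) p} ∩
      {p | 0 < ori (T 2) (T 0) p}) := by
    ext p
    rfl
  rw [e]
  exact (isOpen_lt continuous_const (h _ _)).inter
    ((isOpen_lt continuous_const (h _ _)).inter (isOpen_lt continuous_const (h _ _)))

theorem main_comp (g : List Bse) (hg : StkFrg g) : ∃ δ : ℝ, 0 < δ ∧ ∃ n0 : ℕ, MainC g δ n0 := by
  obtain ⟨c, hc, n0, H⟩ := frame_thm (glen g)
  refine ⟨c, hc, n0, ?_⟩
  intro T P Q s hT hP hQP hQT hn hs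
  have hGQ : GP Q := fun a ha b hb d hd => hP a (hQP ha) b (hQP hb) d (hQP hd)
  obtain ⟨F, ξ, η, hξ, hη, hw, hbox⟩ := H T Q hT hGQ hQT hn
  have hbox' : ∀ j < glen g, ∃ Q' ⊆ Q, s ≤ Q'.card ∧ ∀ q ∈ Q', InBox F ξ η j q := by
    intro j hj
    obtain ⟨Q', h1, h2, h3⟩ := hbox j hj
    exact ⟨Q', h1, by exact_mod_cast hs.trans h2, h3⟩
  obtain ⟨a, d, had, hsk⟩ := place g hg F ξ η hξ hη Q s (glen g) (fun a ha b hb => (hw a ha b hb).1)
    hbox' 0 (by simp) ![0, 0, glen g] ![0, glen g, glen g]
    (by intro i; fin_cases i <;> simp) (by intro i; fin_cases i <;> simp)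
    (by simp) (by simp) (by simp) (by simp) (by simp) (by simp)
  have hskP := main_comp_mono P Q hQP s g _ hsk
  obtain ⟨sk', h1, h2, h3⟩ := generic P s g _ hskP {p | inP T p} (main_comp_open T) (by
    intro w
    show inP T _
    refine (hw _ ?_ _ ?_).2
    · rcases w with w | w
      · show (![0, 0, glen g] : Fin 3 → ℕ) w ≤ glen g
        fin_cases w <;> simp
      · exact (had w).1
    · rcases w with w | w
      · show (![0, glen g, glen g] : Fin 3 → ℕ) w ≤ glen g
        fin_cases w <;> simp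
      · exact (had w).2)
  obtain ⟨pos, ls, k1, k2, k3, k4⟩ := full_draw g hg s P hP sk' h1 h3
  refine ⟨pos, ls, k1, k2, ?_⟩
  intro w
  rcases w with w | w
  · rw [k3 w]
    exact h2 _
  · exact main_comp_inP T _ (fun i => h2 _) _ (k4 w)

end Pool.Agent.Helper745.FSub
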