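import Pool.Agent.Helper745.FS.B6

set_option autoImplicit false

namespace Pool.Agent.Helper745.FSub

/-- strictly inside -/
def cut1_In (a b c p : Pt) : Prop := 0 < ori a b p ∧ 0 < ori b c p ∧ 0 < ori c a p

/-- cutting -/
def cut1_Cut (l : Pt × Pt) (a b c : Pt) (r w : ℕ) : Prop :=
  ∃ (rs : List (Fin 3 → Pt)) (wl : List (Pt × Pt)), rs.length ≤ r ∧ wl.length ≤ w ∧
      (∀ l ∈ wl, l.1 ≠ l.2) ∧
      (∀ t ∈ rs, 0 < ori (t 0) (t 1) (t 2)) ∧ (∀ t ∈ rs, ∀ p, inP t p → cut1_In a b c p) ∧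
      (∀ t ∈ rs, ∀ p, inP t p → ori l.1 l.2 p ≠ 0) ∧
      rs.Pairwise (fun t t' => ∀ p, ¬ (inP t p ∧ inP t' p)) ∧
      ∀ p, cut1_In a b c p → (∃ t ∈ rs, inP t p) ∨ ∃ l ∈ wl, ori l.1 l.2 p = 0

theorem cut1_mono {l : Pt × Pt} {a b c : Pt} {r w r' w' : ℕ} (h : cut1_Cut l a b c r w)
    (hr : r ≤ r') (hw : w ≤ w') : cut1_Cut l a b c r' w' := by
  obtain ⟨rs, wl, h1, h2, h3⟩ := h
  exact ⟨rs, wl, h1.trans hr, h2.trans hw, h3⟩

theorem cut1_rot {l : Pt × Pt} {a b c : Pt} {r w : ℕ} (h : cut1_Cut l b c a r w) :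
    cut1_Cut l a b c r w := by
  obtain ⟨rs, wl, h1, h2, h3, h4, h5, h6, h7, h8⟩ := h
  refine ⟨rs, wl, h1, h2, h3, h4, fun t ht p hp => ?_, h6, h7, fun p hp => ?_⟩
  · obtain ⟨e1, e2, e3⟩ := h5 t ht p hp
    exact ⟨e3, e1, e2⟩
  · obtain ⟨e1, e2, e3⟩ := hp
    exact h8 p ⟨e2, e3, e1⟩

theorem cut1_bary (u v a b c p : Pt) :
    ori a b c * ori u v p = ori b c p * ori u v a + ori c a p * ori u v b + ori a b p * ori u v c := by
  unfold ori
  ring

theorem cut1_base {l : Pt × Pt} (hl : l.1 ≠ l.2) {a b c : Pt} (hT : 0 < ori a b c)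
    (h : (0 ≤ ori l.1 l.2 a ∧ 0 ≤ ori l.1 l.2 b ∧ 0 ≤ ori l.1 l.2 c) ∨
      (ori l.1 l.2 a ≤ 0 ∧ ori l.1 l.2 b ≤ 0 ∧ ori l.1 l.2 c ≤ 0)) :
    cut1_Cut l a b c 1 0 := by
  have hne : ¬ (ori l.1 l.2 a = 0 ∧ ori l.1 l.2 b = 0 ∧ ori l.1 l.2 c = 0) := by
    rintro ⟨h1, h2, h3⟩
    have h4 : ∀ p, ori l.1 l.2 p = 0 := by
      intro p
      have := cut1_bary l.1 l.2 a b c p
      rw [h1, h2, h3] at this
      have h5 : ori a b c * ori l.1 l.2 p = 0 := by linarith
      rcases mul_eq_zero.1 h5 with h | h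
      · exact absurd h hT.ne'
      · exact h
    have h5 := h4 (l.1.1 - (l.2.2 - l.1.2), l.1.2 + (l.2.1 - l.1.1))
    unfold ori at h5
    simp only at h5
    have h6 : (l.2.1 - l.1.1) ^ 2 + (l.2.2 - l.1.2) ^ 2 = 0 := by
      linear_combination h5
    have h7 : l.2.1 - l.1.1 = 0 := by nlinarith [sq_nonneg (l.2.1 - l.1.1), sq_nonneg (l.2.2 - l.1.2)]
    have h8 : l.2.2 - l.1.2 = 0 := by nlinarith [sq_nonneg (l.2.1 - l.1.1), sq_nonneg (l.2.2 - l.1.2)]
    apply hl
    exact Prod.ext (by linarith) (by linarith)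
  refine ⟨[![a, b, c]], [], le_rfl, le_rfl, by simp, ?_, ?_, ?_, by simp, ?_⟩
  · intro t ht
    rw [List.mem_singleton] at ht
    rw [ht]
    exact hT
  · intro t ht p hp
    rw [List.mem_singleton] at ht
    rw [ht] at hp
    exact hp
  · intro t ht p hp h0
    rw [List.mem_singleton] at ht
    rw [ht] at hp
    obtain ⟨e1, e2, e3⟩ := hp
    simp only [Matrix.cons_val_zero, Matrix.cons_val_one, Matrix.cons_val] at e1 e2 e3
    have hb := cut1_bary l.1 l.2 a b c p
    rw [h0, mul_zero] at hb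
    apply hne
    rcases h with ⟨g1, g2, g3⟩ | ⟨g1, g2, g3⟩
    · have m1 := mul_nonneg e2.le g1
      have m2 := mul_nonneg e3.le g2
      have m3 := mul_nonneg e1.le g3
      have n1 : ori b c p * ori l.1 l.2 a = 0 := by linarith
      have n2 : ori c a p * ori l.1 l.2 b = 0 := by linarith
      have n3 : ori a b p * ori l.1 l.2 c = 0 := by linarith
      exact ⟨(mul_eq_zero.1 n1).resolve_left e2.ne', (mul_eq_zero.1 n2).resolve_left e3.ne',
        (mul_eq_zero.1 n3).resolve_left e1.ne'⟩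
    · have m1 := mul_nonpos_of_nonneg_of_nonpos e2.le g1
      have m2 := mul_nonpos_of_nonneg_of_nonpos e3.le g2
      have m3 := mul_nonpos_of_nonneg_of_nonpos e1.le g3
      have n1 : ori b c p * ori l.1 l.2 a = 0 := by linarith
      have n2 : ori c a p * ori l.1 l.2 b = 0 := by linarith
      have n3 : ori a b p * ori l.1 l.2 c = 0 := by linarith
      exact ⟨(mul_eq_zero.1 n1).resolve_left e2.ne', (mul_eq_zero.1 n2).resolve_left e3.ne',
        (mul_eq_zero.1 n3).resolve_left e1.ne'⟩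
  · intro p hp
    exact Or.inl ⟨_, List.mem_singleton_self _, hp⟩

/-- the point `(1-t) b + t c` -/
noncomputable def cut1_pt (t : ℝ) (b c : Pt) : Pt := ((1 - t) * b.1 + t * c.1, (1 - t) * b.2 + t * c.2)

theorem cut1_split {l : Pt × Pt} {a b c : Pt} (hT : 0 < ori a b c) {t : ℝ} (h0 : 0 < t) (h1 : t < 1)
    {r1 w1 r2 w2 : ℕ} (hc1 : cut1_Cut l a b (cut1_pt t b c) r1 w1)
    (hc2 : cut1_Cut l a (cut1_pt t b c) c r2 w2) : cut1_Cut l a b c (r1 + r2) (w1 + w2 + 1) := by
  obtain ⟨rs, wl, a1, a2, a3, a4, a5, a6, a7, a8⟩ := hc1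
  obtain ⟨rs', wl', b1, b2, b3, b4, b5, b6, b7, b8⟩ := hc2
  set m := cut1_pt t b c with hm
  have i1 : ∀ q, ori b m q = t * ori b c q := by
    intro q; rw [hm]; unfold ori cut1_pt; simp only; ring
  have i2 : ∀ q, ori m c q = (1 - t) * ori b c q := by
    intro q; rw [hm]; unfold ori cut1_pt; simp only; ring
  have i3 : ∀ q, ori m a q = t * ori c a q - (1 - t) * ori a b q := by
    intro q; rw [hm]; unfold ori cut1_pt; simp only; ring
  have i4 : ∀ q, ori a m q = - ori m a q := by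
    intro q; unfold ori; ring
  have i5 : ori a b m = t * ori a b c := by
    rw [hm]; unfold ori cut1_pt; simp only; ring
  have h1t : 0 < 1 - t := by linarith
  have j1 : ∀ q, cut1_In a b m q → cut1_In a b c q ∧ 0 < ori m a q := by
    rintro q ⟨e1, e2, e3⟩
    rw [i1] at e2
    have e3' := e3
    rw [i3] at e3
    refine ⟨⟨e1, (pos_iff_pos_of_mul_pos e2).1 h0, ?_⟩, e3'⟩
    have : 0 < t * ori c a q := by
      have := mul_pos h1t e1
      linarith
    exact (pos_iff_pos_of_mul_pos this).1 h0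
  have j2 : ∀ q, cut1_In a m c q → cut1_In a b c q ∧ ori m a q < 0 := by
    rintro q ⟨e1, e2, e3⟩
    rw [i2] at e2
    rw [i4] at e1
    have e1' := e1
    rw [i3] at e1
    refine ⟨⟨?_, (pos_iff_pos_of_mul_pos e2).1 h1t, e3⟩, by linarith⟩
    have : 0 < (1 - t) * ori a b q := by
      have := mul_pos h0 e3
      linarith
    exact (pos_iff_pos_of_mul_pos this).1 h1t
  have j3 : ∀ q, cut1_In a b c q → 0 < ori m a q → cut1_In a b m q := by
    rintro q ⟨e1, e2, e3⟩ h
    exact ⟨e1, by rw [i1]; exact mul_pos h0 e2, h⟩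
  have j4 : ∀ q, cut1_In a b c q → ori m a q < 0 → cut1_In a m c q := by
    rintro q ⟨e1, e2, e3⟩ h
    exact ⟨by rw [i4]; linarith, by rw [i2]; exact mul_pos h1t e2, e3⟩
  have hma : m ≠ a := by
    intro h
    rw [h] at i5
    have h5 : ori a b a = 0 := by unfold ori; ring
    rw [h5] at i5
    have := mul_pos h0 hT
    linarith
  refine ⟨rs ++ rs', (m, a) :: (wl ++ wl'), ?_, ?_, ?_, ?_, ?_, ?_, ?_, ?_⟩
  · rw [List.length_append]; omega
  · rw [List.length_cons, List.length_append]; omega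
  · intro x hx
    rw [List.mem_cons, List.mem_append] at hx
    rcases hx with h | h | h
    · rw [h]; exact hma
    · exact a3 x h
    · exact b3 x h
  · intro x hx
    rcases List.mem_append.1 hx with h | h
    · exact a4 x h
    · exact b4 x h
  · intro x hx p hp
    rcases List.mem_append.1 hx with h | h
    · exact (j1 p (a5 x h p hp)).1
    · exact (j2 p (b5 x h p hp)).1
  · intro x hx p hp
    rcases List.mem_append.1 hx with h | h
    · exact a6 x h p hp
    · exact b6 x h p hp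
  · rw [List.pairwise_append]
    refine ⟨a7, b7, ?_⟩
    rintro x hx y hy p ⟨hp1, hp2⟩
    have k1 := (j1 p (a5 x hx p hp1)).2
    have k2 := (j2 p (b5 y hy p hp2)).2
    linarith
  · intro p hp
    rcases lt_trichotomy (ori m a p) 0 with h | h | h
    · rcases b8 p (j4 p hp h) with ⟨x, hx, hxp⟩ | ⟨x, hx, hxp⟩
      · exact Or.inl ⟨x, List.mem_append_right _ hx, hxp⟩
      · exact Or.inr ⟨x, List.mem_cons_of_mem _ (List.mem_append_right _ hx), hxp⟩
    · exact Or.inr ⟨(m, a), List.mem_cons_self, h⟩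
    · rcases a8 p (j3 p hp h) with ⟨x, hx, hxp⟩ | ⟨x, hx, hxp⟩
      · exact Or.inl ⟨x, List.mem_append_left _ hx, hxp⟩
      · exact Or.inr ⟨x, List.mem_cons_of_mem _ (List.mem_append_left _ hx), hxp⟩

/-- a zero on a side with opposite signs -/
theorem cut1_zero {l : Pt × Pt} {b c : Pt} (h : ori l.1 l.2 b * ori l.1 l.2 c < 0) :
    ∃ t : ℝ, 0 < t ∧ t < 1 ∧ ori l.1 l.2 (cut1_pt t b c) = 0 := by
  have hne : ori l.1 l.2 b - ori l.1 l.2 c ≠ 0 := by
    intro h0
    have : ori l.1 l.2 b = ori l.1 l.2 c := by linarith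
    rw [this] at h
    nlinarith [mul_self_nonneg (ori l.1 l.2 c)]
  have haff : ∀ t, ori l.1 l.2 (cut1_pt t b c) = (1 - t) * ori l.1 l.2 b + t * ori l.1 l.2 c := by
    intro t; unfold ori cut1_pt; simp only; ring
  refine ⟨ori l.1 l.2 b / (ori l.1 l.2 b - ori l.1 l.2 c), ?_, ?_, ?_⟩
  · rcases lt_or_gt_of_ne (show ori l.1 l.2 b ≠ 0 by intro h0; rw [h0, zero_mul] at h; exact lt_irrefl _ h) with hb | hb
    · have hc : 0 < ori l.1 l.2 c := by
        by_contra hcon
        push Not at hcon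
        have := mul_nonneg_of_nonpos_of_nonpos hb.le hcon
        linarith
      exact div_pos_of_neg_of_neg hb (by linarith)
    · have hc : ori l.1 l.2 c < 0 := by
        by_contra hcon
        push Not at hcon
        have := mul_nonneg hb.le hcon
        linarith
      exact div_pos hb (by linarith)
  · rcases lt_or_gt_of_ne (show ori l.1 l.2 b ≠ 0 by intro h0; rw [h0, zero_mul] at h; exact lt_irrefl _ h) with hb | hb
    · have hc : 0 < ori l.1 l.2 c := by
        by_contra hcon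
        push Not at hcon
        have := mul_nonneg_of_nonpos_of_nonpos hb.le hcon
        linarith
      rw [div_lt_one_of_neg (by linarith)]
      linarith
    · have hc : ori l.1 l.2 c < 0 := by
        by_contra hcon
        push Not at hcon
        have := mul_nonneg hb.le hcon
        linarith
      rw [div_lt_one (by linarith)]
      linarith
  · rw [haff]
    field_simp
    ring

theorem cut1_ori {a b c : Pt} (hT : 0 < ori a b c) {t : ℝ} (h0 : 0 < t) (h1 : t < 1) :
    0 < ori a b (cut1_pt t b c) ∧ 0 < ori a (cut1_pt t b c) c := by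
  have i5 : ori a b (cut1_pt t b c) = t * ori a b c := by
    unfold ori cut1_pt; simp only; ring
  have i6 : ori a (cut1_pt t b c) c = (1 - t) * ori a b c := by
    unfold ori cut1_pt; simp only; ring
  rw [i5, i6]
  exact ⟨mul_pos h0 hT, mul_pos (by linarith) hT⟩

/-- one vertex on the line -/
theorem cut1_one {l : Pt × Pt} (hl : l.1 ≠ l.2) {a b c : Pt} (hT : 0 < ori a b c)
    (ha : ori l.1 l.2 a = 0) : cut1_Cut l a b c 2 1 := by
  by_cases h : ori l.1 l.2 b * ori l.1 l.2 c < 0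
  · obtain ⟨t, t0, t1, hz⟩ := cut1_zero h
    obtain ⟨o1, o2⟩ := cut1_ori hT t0 t1
    have c1 : cut1_Cut l a b (cut1_pt t b c) 1 0 := by
      refine cut1_base hl o1 ?_
      rcases le_total 0 (ori l.1 l.2 b) with hb | hb
      · exact Or.inl ⟨ha.ge, hb, hz.ge⟩
      · exact Or.inr ⟨ha.le, hb, hz.le⟩
    have c2 : cut1_Cut l a (cut1_pt t b c) c 1 0 := by
      refine cut1_base hl o2 ?_
      rcases le_total 0 (ori l.1 l.2 c) with hb | hb
      · exact Or.inl ⟨ha.ge, hz.ge, hb⟩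
      · exact Or.inr ⟨ha.le, hz.le, hb⟩
    exact cut1_split hT t0 t1 c1 c2
  · push Not at h
    refine cut1_mono (cut1_base hl hT ?_) (by norm_num) (by norm_num)
    rcases le_total 0 (ori l.1 l.2 b) with hb | hb
    · rcases le_total 0 (ori l.1 l.2 c) with hc | hc
      · exact Or.inl ⟨ha.ge, hb, hc⟩
      · have h2 := mul_nonpos_of_nonneg_of_nonpos hb hc
        have h3 : ori l.1 l.2 b * ori l.1 l.2 c = 0 := le_antisymm h2 h
        rcases mul_eq_zero.1 h3 with h4 | h4
        · exact Or.inr ⟨ha.le, h4.le, hc⟩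
        · exact Or.inl ⟨ha.ge, hb, h4.ge⟩
    · rcases le_total 0 (ori l.1 l.2 c) with hc | hc
      · have h2 := mul_nonpos_of_nonpos_of_nonneg hb hc
        have h3 : ori l.1 l.2 b * ori l.1 l.2 c = 0 := le_antisymm h2 h
        rcases mul_eq_zero.1 h3 with h4 | h4
        · exact Or.inl ⟨ha.ge, h4.ge, hc⟩
        · exact Or.inr ⟨ha.le, hb, h4.le⟩
      · exact Or.inr ⟨ha.le, hb, hc⟩

theorem cut1_oriRot (a b c : Pt) : ori b c a = ori a b c := by
  unfold ori; ring

/-- the side `bc` is crossed -/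
theorem cut1_side {l : Pt × Pt} (hl : l.1 ≠ l.2) {a b c : Pt} (hT : 0 < ori a b c)
    (h : ori l.1 l.2 b * ori l.1 l.2 c < 0) : cut1_Cut l a b c 4 3 := by
  obtain ⟨t, t0, t1, hz⟩ := cut1_zero h
  obtain ⟨o1, o2⟩ := cut1_ori hT t0 t1
  have c1 : cut1_Cut l a b (cut1_pt t b c) 2 1 := by
    refine cut1_rot (cut1_rot (cut1_one hl ?_ hz))
    rw [← cut1_oriRot, ← cut1_oriRot] at o1
    rw [cut1_oriRot] at o1
    have := cut1_oriRot (cut1_pt t b c) a b
    linarith [cut1_oriRot a b (cut1_pt t b c), cut1_oriRot b (cut1_pt t b c) a]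
  have c2 : cut1_Cut l a (cut1_pt t b c) c 2 1 := by
    refine cut1_rot (cut1_one hl ?_ hz)
    rw [cut1_oriRot]
    exact o2
  exact cut1_split hT t0 t1 c1 c2


theorem cut1 (l : Pt × Pt) (hl : l.1 ≠ l.2) (T : Fin 3 → Pt) (hT : 0 < ori (T 0) (T 1) (T 2)) :
    ∃ (rs : List (Fin 3 → Pt)) (wl : List (Pt × Pt)), rs.length ≤ 4 ∧ wl.length ≤ 3 ∧
      (∀ l ∈ wl, l.1 ≠ l.2) ∧
      (∀ t ∈ rs, 0 < ori (t 0) (t 1) (t 2)) ∧ (∀ t ∈ rs, ∀ p, inP t p → inP T p) ∧
      (∀ t ∈ rs, ∀ p, inP t p → ori l.1 l.2 p ≠ 0) ∧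
      rs.Pairwise (fun t t' => ∀ p, ¬ (inP t p ∧ inP t' p)) ∧
      ∀ p, inP T p → (∃ t ∈ rs, inP t p) ∨ ∃ l ∈ wl, ori l.1 l.2 p = 0 := by
  have hmain : cut1_Cut l (T 0) (T 1) (T 2) 4 3 := by
    by_cases h12 : ori l.1 l.2 (T 1) * ori l.1 l.2 (T 2) < 0
    · exact cut1_side hl hT h12
    · by_cases h20 : ori l.1 l.2 (T 2) * ori l.1 l.2 (T 0) < 0
      · exact cut1_rot (cut1_side hl (by rw [cut1_oriRot]; exact hT) h20)
      · by_cases h01 : ori l.1 l.2 (T 0) * ori l.1 l.2 (T 1) < 0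
        · exact cut1_rot (cut1_rot (cut1_side hl (by rw [cut1_oriRot, cut1_oriRot]; exact hT) h01))
        · push Not at h12 h20 h01
          refine cut1_mono (cut1_base hl hT ?_) (by norm_num) (by norm_num)
          by_contra hcon
          push Not at hcon
          obtain ⟨k1, k2⟩ := hcon
          have key : ∀ x y z : ℝ, 0 ≤ y * z → 0 ≤ z * x → 0 ≤ x * y →
              (0 ≤ x ∧ 0 ≤ y ∧ 0 ≤ z) ∨ (x ≤ 0 ∧ y ≤ 0 ∧ z ≤ 0) := by
            intro x y z h1 h2 h3
            by_contra hc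
            push Not at hc
            obtain ⟨p1, p2⟩ := hc
            rcases lt_trichotomy x 0 with hx | hx | hx
            · have hy : y ≤ 0 := by
                by_contra hy; push Not at hy; have := mul_neg_of_neg_of_pos hx hy; linarith
              have hz : z ≤ 0 := by
                by_contra hz; push Not at hz; have := mul_neg_of_pos_of_neg hz hx; linarith
              exact absurd hz (not_le.2 (p2 hx.le hy))
            · rcases lt_trichotomy y 0 with hy | hy | hy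
              · have hz : z ≤ 0 := by
                  by_contra hz; push Not at hz; have := mul_neg_of_neg_of_pos hy hz; linarith
                exact absurd hz (not_le.2 (p2 hx.le hy.le))
              · rcases le_total 0 z with hz | hz
                · exact absurd hz (not_le.2 (p1 hx.ge hy.ge))
                · exact absurd hz (not_le.2 (p2 hx.le hy.le))
              · have hz : 0 ≤ z := by
                  by_contra hz; push Not at hz; have := mul_neg_of_pos_of_neg hy hz; linarith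
                exact absurd hz (not_le.2 (p1 hx.ge hy.le))
            · have hy : 0 ≤ y := by
                by_contra hy; push Not at hy; have := mul_neg_of_pos_of_neg hx hy; linarith
              have hz : 0 ≤ z := by
                by_contra hz; push Not at hz; have := mul_neg_of_neg_of_pos hz hx; linarith
              exact absurd hz (not_le.2 (p1 hx.le hy))
          rcases key _ _ _ h12 h20 h01 with ⟨q1, q2, q3⟩ | ⟨q1, q2, q3⟩
          · exact absurd q3 (not_le.2 (k1 q1 q2))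
          · exact absurd q3 (not_le.2 (k2 q1 q2))
  obtain ⟨rs, wl, h1, h2, h3, h4, h5, h6, h7, h8⟩ := hmain
  exact ⟨rs, wl, h1, h2, h3, h4, h5, h6, h7, h8⟩

theorem cut_aux (ls : List (Pt × Pt)) (N : ℕ)
    (IH : ∀ T : Fin 3 → Pt, 0 < ori (T 0) (T 1) (T 2) →
      ∃ (rs : List (Fin 3 → Pt)) (wl : List (Pt × Pt)), rs.length ≤ N ∧
      wl.length + 1 ≤ N ∧ (∀ l ∈ wl, l.1 ≠ l.2) ∧
      (∀ t ∈ rs, 0 < ori (t 0) (t 1) (t 2)) ∧ (∀ t ∈ rs, ∀ p, inP t p → inP T p) ∧
      (∀ t ∈ rs, ∀ l ∈ ls, ∀ p, inP t p → ori l.1 l.2 p ≠ 0) ∧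
      rs.Pairwise (fun t t' => ∀ p, ¬ (inP t p ∧ inP t' p)) ∧
      ∀ p, inP T p → (∃ t ∈ rs, inP t p) ∨ ∃ l ∈ wl, ori l.1 l.2 p = 0) :
    ∀ ts : List (Fin 3 → Pt), (∀ t ∈ ts, 0 < ori (t 0) (t 1) (t 2)) →
      ts.Pairwise (fun t t' => ∀ p, ¬ (inP t p ∧ inP t' p)) →
      ∃ (rs : List (Fin 3 → Pt)) (wl : List (Pt × Pt)), rs.length ≤ ts.length * N ∧
      wl.length + ts.length ≤ ts.length * N ∧ (∀ l ∈ wl, l.1 ≠ l.2) ∧
      (∀ t ∈ rs, 0 < ori (t 0) (t 1) (t 2)) ∧
      (∀ t ∈ rs, ∃ t' ∈ ts, ∀ p, inP t p → inP t' p) ∧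
      (∀ t ∈ rs, ∀ l ∈ ls, ∀ p, inP t p → ori l.1 l.2 p ≠ 0) ∧
      rs.Pairwise (fun t t' => ∀ p, ¬ (inP t p ∧ inP t' p)) ∧
      ∀ t ∈ ts, ∀ p, inP t p → (∃ t ∈ rs, inP t p) ∨ ∃ l ∈ wl, ori l.1 l.2 p = 0 := by
  intro ts
  induction ts with
  | nil =>
    intro _ _
    refine ⟨[], [], ?_, ?_, ?_, ?_, ?_, ?_, ?_, ?_⟩ <;> simp
  | cons T ts ih =>
    intro hpos hpw
    obtain ⟨rs1, wl1, h1, h2, h3, h4, h5, h6, h7, h8⟩ := IH T (hpos T (by simp))
    obtain ⟨rs2, wl2, k1, k2, k3, k4, k5, k6, k7, k8⟩ :=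
      ih (fun t ht => hpos t (by simp [ht])) (List.Pairwise.of_cons hpw)
    have hdis := (List.pairwise_cons.mp hpw).1
    refine ⟨rs1 ++ rs2, wl1 ++ wl2, ?_, ?_, ?_, ?_, ?_, ?_, ?_, ?_⟩
    · rw [List.length_append, List.length_cons, Nat.add_mul, Nat.one_mul]
      omega
    · rw [List.length_append, List.length_cons, Nat.add_mul, Nat.one_mul]
      omega
    · intro l hl
      rcases List.mem_append.mp hl with h | h
      · exact h3 l h
      · exact k3 l h
    · intro t ht
      rcases List.mem_append.mp ht with h | h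
      · exact h4 t h
      · exact k4 t h
    · intro t ht
      rcases List.mem_append.mp ht with h | h
      · exact ⟨T, by simp, h5 t h⟩
      · obtain ⟨t', ht', hh⟩ := k5 t h
        exact ⟨t', by simp [ht'], hh⟩
    · intro t ht
      rcases List.mem_append.mp ht with h | h
      · exact h6 t h
      · exact k6 t h
    · rw [List.pairwise_append]
      refine ⟨h7, k7, ?_⟩
      intro a ha b hb p hp
      obtain ⟨t', ht', hh⟩ := k5 b hb
      exact hdis t' ht' p ⟨h5 a ha p hp.1, hh p hp.2⟩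
    · intro t ht p hp
      rcases List.mem_cons.mp ht with h | h
      · subst h
        rcases h8 p hp with ⟨r, hr, hrp⟩ | ⟨l, hl, hlp⟩
        · exact Or.inl ⟨r, List.mem_append_left _ hr, hrp⟩
        · exact Or.inr ⟨l, List.mem_append_left _ hl, hlp⟩
      · rcases k8 t h p hp with ⟨r, hr, hrp⟩ | ⟨l, hl, hlp⟩
        · exact Or.inl ⟨r, List.mem_append_right _ hr, hrp⟩
        · exact Or.inr ⟨l, List.mem_append_right _ hl, hlp⟩

theorem cut (ls : List (Pt × Pt)) (hne : ∀ l ∈ ls, l.1 ≠ l.2) (T : Fin 3 → Pt)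
    (hT : 0 < ori (T 0) (T 1) (T 2)) :
    ∃ (rs : List (Fin 3 → Pt)) (wl : List (Pt × Pt)), rs.length ≤ 4 ^ ls.length ∧
      wl.length + 1 ≤ 4 ^ ls.length ∧ (∀ l ∈ wl, l.1 ≠ l.2) ∧
      (∀ t ∈ rs, 0 < ori (t 0) (t 1) (t 2)) ∧ (∀ t ∈ rs, ∀ p, inP t p → inP T p) ∧
      (∀ t ∈ rs, ∀ l ∈ ls, ∀ p, inP t p → ori l.1 l.2 p ≠ 0) ∧
      rs.Pairwise (fun t t' => ∀ p, ¬ (inP t p ∧ inP t' p)) ∧
      ∀ p, inP T p → (∃ t ∈ rs, inP t p) ∨ ∃ l ∈ wl, ori l.1 l.2 p = 0 := by
  induction ls generalizing T with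
  | nil =>
    refine ⟨[T], [], ?_, ?_, ?_, ?_, ?_, ?_, ?_, ?_⟩
    · simp
    · simp
    · simp
    · intro t ht
      rw [List.mem_singleton] at ht
      subst ht
      exact hT
    · intro t ht p hp
      rw [List.mem_singleton] at ht
      subst ht
      exact hp
    · simp
    · simp
    · intro p hp
      exact Or.inl ⟨T, by simp, hp⟩
  | cons l ls ih =>
    obtain ⟨ts, wl1, h1, h2, h3, h4, h5, h6, h7, h8⟩ := cut1 l (hne l (by simp)) T hT
    have hne' : ∀ l ∈ ls, l.1 ≠ l.2 := fun l hl => hne l (by simp [hl])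
    obtain ⟨rs, wl2, k1, k2, k3, k4, k5, k6, k7, k8⟩ :=
      cut_aux ls (4 ^ ls.length) (fun T hT => ih hne' T hT) ts h4 h7
    have hN : 1 ≤ 4 ^ ls.length := Nat.one_le_pow _ _ (by norm_num)
    have hpow : 4 ^ (l :: ls).length = 4 * 4 ^ ls.length := by
      rw [List.length_cons, pow_succ, mul_comm]
    refine ⟨rs, wl1 ++ wl2, ?_, ?_, ?_, ?_, ?_, ?_, ?_, ?_⟩
    · rw [hpow]
      exact le_trans k1 (Nat.mul_le_mul_right _ h1)
    · rw [hpow, List.length_append]
      obtain ⟨d, hd⟩ : ∃ d, ts.length + d = 4 := ⟨4 - ts.length, by omega⟩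
      have e1 : 4 * 4 ^ ls.length = ts.length * 4 ^ ls.length + d * 4 ^ ls.length := by
        rw [← Nat.add_mul, hd]
      have e2 : d ≤ d * 4 ^ ls.length := Nat.le_mul_of_pos_right _ hN
      omega
    · intro l hl
      rcases List.mem_append.mp hl with h | h
      · exact h3 l h
      · exact k3 l h
    · exact k4
    · intro t ht p hp
      obtain ⟨t', ht', hh⟩ := k5 t ht
      exact h5 t' ht' p (hh p hp)
    · intro t ht l' hl' p hp
      rcases List.mem_cons.mp hl' with h | h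
      · subst h
        obtain ⟨t', ht', hh⟩ := k5 t ht
        exact h6 t' ht' p (hh p hp)
      · exact k6 t ht l' h p hp
    · exact k7
    · intro p hp
      rcases h8 p hp with ⟨t, ht, htp⟩ | ⟨l', hl', hlp⟩
      · rcases k8 t ht p htp with h | ⟨l', hl', hlp⟩
        · exact Or.inl h
        · exact Or.inr ⟨l', List.mem_append_right _ hl', hlp⟩
      · exact Or.inr ⟨l', List.mem_append_left _ hl', hlp⟩

theorem leaf_inj (s : ℕ) (g : List Bse) : Function.Injective (lf s g) := by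
  induction g with
  | nil =>
    intro a b h
    exact Option.some.inj h
  | cons B g ih =>
    rintro ⟨m, a⟩ ⟨m', b⟩ h
    have h1 : (m, lf s g a) = (m', lf s g b) := Sum.inr.inj h
    have h2 := congrArg Prod.fst h1
    have h3 := congrArg Prod.snd h1
    exact Prod.ext h2 (ih h3)

theorem leaf_edge (s : ℕ) (g : List Bse) (l : Lf s g) :
    ∃ v, adjW s g (Sum.inr (lf s g l)) v := by
  induction g with
  | nil =>
    refine ⟨Sum.inr none, ?_, Or.inr (Or.inl rfl)⟩
    intro h
    have h1 := Sum.inr.inj h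
    exact absurd h1 (by simp [lf])
  | cons B g ih =>
    obtain ⟨m, l'⟩ := l
    obtain ⟨v', hv'⟩ := ih l'
    exact ⟨cv _ B g m v', Or.inr ⟨m, Sum.inr (lf s g l'), v', hv', rfl, rfl⟩⟩

theorem big_triangle_aux (P : Finset Pt) : ∃ R : ℝ, 0 < R ∧ ∀ p ∈ P, |p.1| < R ∧ |p.2| < R := by
  classical
  induction P using Finset.induction_on with
  | empty => exact ⟨1, one_pos, by simp⟩
  | insert a s _ ih =>
    obtain ⟨R, hR, h⟩ := ih
    refine ⟨max R (max (|a.1| + 1) (|a.2| + 1)), lt_of_lt_of_le hR (le_max_left _ _), ?_⟩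
    intro p hp
    rcases Finset.mem_insert.mp hp with rfl | hp
    · refine ⟨?_, ?_⟩
      · refine lt_of_lt_of_le (lt_add_one |p.1|) ?_
        exact (le_max_left _ _).trans (le_max_right _ _)
      · refine lt_of_lt_of_le (lt_add_one |p.2|) ?_
        exact (le_max_right _ _).trans (le_max_right _ _)
    · exact ⟨(h p hp).1.trans_le (le_max_left _ _), (h p hp).2.trans_le (le_max_left _ _)⟩

theorem big_triangle (P : Finset Pt) : ∃ T : Fin 3 → Pt, 0 < ori (T 0) (T 1) (T 2) ∧
    ∀ p ∈ P, inP T p := by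
  obtain ⟨R, hR, h⟩ := big_triangle_aux P
  refine ⟨![(-9 * R, -3 * R), (9 * R, -3 * R), (0, 9 * R)], ?_, ?_⟩
  · simp only [ori, Matrix.cons_val_zero, Matrix.cons_val_one, Matrix.cons_val]
    nlinarith [mul_pos hR hR]
  · intro p hp
    obtain ⟨h1, h2⟩ := h p hp
    rw [abs_lt] at h1 h2
    simp only [inP, ori, Matrix.cons_val_zero, Matrix.cons_val_one, Matrix.cons_val]
    refine ⟨?_, ?_, ?_⟩
    · nlinarith [mul_pos hR hR, mul_pos hR (show 0 < p.2 + R by linarith)]
    · nlinarith [mul_pos hR hR, mul_pos hR (show 0 < R - p.2 by linarith),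
        mul_pos hR (show 0 < R - p.1 by linarith)]
    · nlinarith [mul_pos hR hR, mul_pos hR (show 0 < R - p.2 by linarith),
        mul_pos hR (show 0 < p.1 + R by linarith)]

theorem pack_step_count {α : Type} (R : α → Pt → Prop) (P : Finset Pt) (k : ℕ) :
    ∀ L : List α, (∀ t ∈ L, ∃ F : Finset Pt, F.card ≤ k ∧ ∀ p ∈ P, R t p → p ∈ F) →
      ∃ F : Finset Pt, F.card ≤ L.length * k ∧ ∀ p ∈ P, (∃ t ∈ L, R t p) → p ∈ F := by
  classical
  intro L
  induction L with
  | nil =>
    intro _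
    refine ⟨∅, by simp, ?_⟩
    rintro p _ ⟨t, ht, _⟩
    simp at ht
  | cons a L ih =>
    intro h
    obtain ⟨F, hF, hF'⟩ := ih (fun t ht => h t (List.mem_cons_of_mem _ ht))
    obtain ⟨G, hG, hG'⟩ := h a List.mem_cons_self
    refine ⟨G ∪ F, ?_, ?_⟩
    · calc (G ∪ F).card ≤ G.card + F.card := Finset.card_union_le _ _
        _ ≤ k + L.length * k := Nat.add_le_add hG hF
        _ = (a :: L).length * k := by simp only [List.length_cons]; ring
    · rintro p hp ⟨t, ht, hR⟩
      rcases List.mem_cons.1 ht with rfl | ht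
      · exact Finset.mem_union_left _ (hG' p hp hR)
      · exact Finset.mem_union_right _ (hF' p hp ⟨t, ht, hR⟩)

theorem pack_step_col (l m a b c : Pt) (hne : l ≠ m) (ha : ori l m a = 0) (hb : ori l m b = 0)
    (hc : ori l m c = 0) : ori a b c = 0 := by
  unfold ori at *
  have h1 : (m.1 - l.1) * ((b.1 - a.1) * (c.2 - a.2) - (b.2 - a.2) * (c.1 - a.1)) = 0 := by
    linear_combination (c.1 - a.1) * ha - (b.1 - a.1) * ha + (b.1 - a.1) * hc - (c.1 - a.1) * hb
  have h2 : (m.2 - l.2) * ((b.1 - a.1) * (c.2 - a.2) - (b.2 - a.2) * (c.1 - a.1)) = 0 := by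
    linear_combination (c.2 - a.2) * ha - (b.2 - a.2) * ha + (b.2 - a.2) * hc - (c.2 - a.2) * hb
  by_contra hne0
  apply hne
  have e1 : m.1 - l.1 = 0 := by
    rcases mul_eq_zero.1 h1 with h | h
    · exact h
    · exact absurd h hne0
  have e2 : m.2 - l.2 = 0 := by
    rcases mul_eq_zero.1 h2 with h | h
    · exact h
    · exact absurd h hne0
  exact Prod.ext (by linarith) (by linarith)

theorem pack_step_line (P : Finset Pt) (hP : GP P) (l : Pt × Pt) (hne : l.1 ≠ l.2) :
    ∃ F : Finset Pt, F.card ≤ 2 ∧ ∀ p ∈ P, ori l.1 l.2 p = 0 → p ∈ F := by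
  classical
  refine ⟨P.filter (fun p => ori l.1 l.2 p = 0), ?_, ?_⟩
  · by_contra hcard
    push Not at hcard
    obtain ⟨a, b, c, ha, hb, hc, hab, hac, hbc⟩ := Finset.two_lt_card_iff.1 hcard
    rw [Finset.mem_filter] at ha hb hc
    exact hP a ha.1 b hb.1 c hc.1 hab hac hbc (pack_step_col l.1 l.2 a b c hne ha.2 hb.2 hc.2)
  · intro p hp h
    exact Finset.mem_filter.2 ⟨hp, h⟩

theorem pack_step_ori (a b : Pt) {p q z : Pt} (hp : 0 < ori a b p) (hq : 0 < ori a b q)
    (hz : z ∈ segment ℝ p q) : 0 < ori a b z := by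
  obtain ⟨x, y, hx, hy, hxy, rfl⟩ := hz
  have h : ori a b (x • p + y • q) = x * ori a b p + y * ori a b q := by
    unfold ori
    simp only [Prod.fst_add, Prod.snd_add, Prod.smul_fst, Prod.smul_snd, smul_eq_mul]
    have hx' : x = 1 - y := by linarith
    subst hx'
    ring
  rw [h]
  rcases lt_or_eq_of_le hx with hx0 | hx0
  · have := mul_pos hx0 hp
    have := mul_nonneg hy hq.le
    linarith
  · have hy1 : y = 1 := by linarith
    rw [← hx0, hy1]
    linarith

theorem pack_step_conv (t : Fin 3 → Pt) {p q z : Pt} (hp : inP t p) (hq : inP t q)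
    (hz : z ∈ segment ℝ p q) : inP t z :=
  ⟨pack_step_ori _ _ hp.1 hq.1 hz, pack_step_ori _ _ hp.2.1 hq.2.1 hz,
    pack_step_ori _ _ hp.2.2 hq.2.2 hz⟩

theorem pack_step_lf (s : ℕ) : ∀ g : List Bse, ∃ S : Finset (Lf s g), (∀ l, l ∈ S) ∧
    S.card = Nf g * s
  | [] => ⟨(Finset.univ : Finset (Fin s)), fun l => Finset.mem_univ l, by
      simp [Nf]⟩
  | B :: g => by
    obtain ⟨S, hS, hc⟩ := pack_step_lf s g
    refine ⟨(Finset.univ : Finset (Fin B.M)) ×ˢ S, ?_, ?_⟩
    · intro l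
      exact Finset.mem_product.2 ⟨Finset.mem_univ _, hS _⟩
    · rw [Finset.card_product, hc, Finset.card_univ, Fintype.card_fin]
      simp only [Nf]
      ring

theorem pack_step (g : List Bse) (hg : StkFrg g) (δ : ℝ) (n0 : ℕ) (hM : MainC g δ n0)
    (P : Finset Pt) (hP : GP P) (rs : List (Fin 3 → Pt)) (E : Set Pt) (U X : Finset Pt)
    (h : St P rs E U X) (s m : ℕ) (hm0 : n0 ≤ m) (hm1 : (s : ℝ) ≤ δ * m)
    (hm2 : rs.length * m + U.card + X.card ≤ P.card) (hlt : U.card + X.card < P.card)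
    (hδ : 0 < δ) :
    ∃ (pos : Wt (Option (Fin s)) g → Pt) (ls : List (Pt × Pt)) (rs' : List (Fin 3 → Pt))
      (U' X' : Finset Pt),
      Cmp g s P pos ls ∧ Disjoint E (edg (adjW s g) pos) ∧
      St P rs' (E ∪ edg (adjW s g) pos) U' X' ∧ U'.card = U.card + Nf g * s ∧
      X'.card ≤ X.card + 6 * 4 ^ lb g ∧ rs'.length ≤ rs.length + 4 ^ lb g := by
  classical
  -- pigeonhole
  obtain ⟨t, ht, hcard⟩ : ∃ t ∈ rs, m ≤ (P.filter (fun p => inP t p)).card := by
    have hcov : ∀ F : Finset Pt, (∀ p ∈ P, (∃ t ∈ rs, inP t p) → p ∈ F) →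
        P.card ≤ F.card + (U.card + X.card) := by
      intro F hF
      have hsub : P ⊆ F ∪ (U ∪ X) := by
        intro p hp
        by_cases hU : p ∈ U
        · exact Finset.mem_union_right _ (Finset.mem_union_left _ hU)
        · by_cases hX : p ∈ X
          · exact Finset.mem_union_right _ (Finset.mem_union_right _ hX)
          · exact Finset.mem_union_left _ (hF p hp (h.cov p hp hU hX))
      calc P.card ≤ (F ∪ (U ∪ X)).card := Finset.card_le_card hsub
        _ ≤ F.card + (U ∪ X).card := Finset.card_union_le _ _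
        _ ≤ F.card + (U.card + X.card) := Nat.add_le_add_left (Finset.card_union_le _ _) _
    by_contra hcon
    push Not at hcon
    obtain ⟨F, hF1, hF2⟩ := pack_step_count (fun t p => inP t p) P (m - 1) rs
      (fun t ht => ⟨P.filter (fun p => inP t p), by have := hcon t ht; omega,
        fun p hp hR => Finset.mem_filter.2 ⟨hp, hR⟩⟩)
    have h1 := hcov F hF2
    rcases Nat.eq_zero_or_pos rs.length with h0 | h0
    · rw [h0] at hF1
      omega
    · obtain ⟨t, ht⟩ := List.exists_mem_of_length_pos h0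
      have hm : 0 < m := lt_of_le_of_lt (Nat.zero_le _) (hcon t ht)
      obtain ⟨k, rfl⟩ : ∃ k, m = k + 1 := ⟨m - 1, by omega⟩
      rw [Nat.add_sub_cancel] at hF1
      have : rs.length * (k + 1) = rs.length * k + rs.length := by ring
      omega
  have hT := h.pos t ht
  obtain ⟨pos, ls, hC, hls, hin⟩ := hM t P (P.filter (fun p => inP t p)) s hT hP
    (Finset.filter_subset _ _) (fun q hq => (Finset.mem_filter.1 hq).2) (hm0.trans hcard)
    (hm1.trans (by
      have : (m : ℝ) ≤ ((P.filter (fun p => inP t p)).card : ℝ) := by exact_mod_cast hcard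
      exact mul_le_mul_of_nonneg_left this hδ.le))
  have hedg : ∀ p ∈ edg (adjW s g) pos, inP t p := by
    rintro p ⟨u, v, _, hp⟩
    exact pack_step_conv t (hin u) (hin v) hp
  obtain ⟨rs1, wl, hrs1, hwl, hwlne, hr1pos, hr1sub, hr1ls, hr1dis, hr1cov⟩ := cut ls hC.lsne t hT
  have hpow : 4 ^ ls.length ≤ 4 ^ lb g := Nat.pow_le_pow_right (by norm_num) hls
  obtain ⟨l1, l2, rfl⟩ := List.mem_iff_append.1 ht
  have hdis0 : (l1 ++ l2).Pairwise (fun t t' => ∀ p, ¬ (inP t p ∧ inP t' p)) := by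
    refine List.Pairwise.sublist ?_ h.dis
    exact List.Sublist.append_left (List.sublist_cons_self t l2) l1
  have hdist : ∀ r ∈ l1 ++ l2, ∀ p, ¬ (inP r p ∧ inP t p) := by
    have h2 := h.dis
    rw [List.pairwise_append, List.pairwise_cons] at h2
    intro r hr p
    rcases List.mem_append.1 hr with hr | hr
    · exact h2.2.2 r hr t List.mem_cons_self p
    · intro hp
      exact h2.2.1.1 r hr p ⟨hp.2, hp.1⟩
  obtain ⟨S, hS, hScard⟩ := pack_step_lf s g
  obtain ⟨W, hW1, hW2⟩ := pack_step_count (fun (l : Pt × Pt) p => ori l.1 l.2 p = 0) P 2 wl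
    (fun l hl => pack_step_line P hP l (hwlne l hl))
  have hleafin : ∀ l : Lf s g, inP t (pos (Sum.inr (lf s g l))) := fun l => hin _
  refine ⟨pos, ls, (l1 ++ l2) ++ rs1.filter
      (fun r => decide (∀ p, inP r p → p ∉ edg (adjW s g) pos)),
    U ∪ S.image (fun l => pos (Sum.inr (lf s g l))), X ∪ W, hC, ?_, ?_, ?_, ?_, ?_⟩
  · rw [Set.disjoint_left]
    intro p hpE hp
    exact h.free t ht p (hedg p hp) hpE
  · constructor
    · intro r hr
      rcases List.mem_append.1 hr with hr | hr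
      · apply h.pos r
        rcases List.mem_append.1 hr with hr | hr
        · exact List.mem_append_left _ hr
        · exact List.mem_append_right _ (List.mem_cons_of_mem _ hr)
      · exact hr1pos r (List.mem_filter.1 hr).1
    · intro r hr p hp
      rcases List.mem_append.1 hr with hr | hr
      · intro hpE
        rcases hpE with hpE | hpE
        · refine h.free r ?_ p hp hpE
          rcases List.mem_append.1 hr with hr | hr
          · exact List.mem_append_left _ hr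
          · exact List.mem_append_right _ (List.mem_cons_of_mem _ hr)
        · exact hdist r hr p ⟨hp, hedg p hpE⟩
      · rw [List.mem_filter] at hr
        intro hpE
        rcases hpE with hpE | hpE
        · exact h.free t ht p (hr1sub r hr.1 p hp) hpE
        · exact (of_decide_eq_true hr.2) p hp hpE
    · rw [List.pairwise_append]
      refine ⟨hdis0, List.Pairwise.sublist List.filter_sublist hr1dis, ?_⟩
      intro r hr r' hr' p hp
      exact hdist r hr p ⟨hp.1, hr1sub r' (List.mem_filter.1 hr').1 p hp.2⟩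
    · intro p hp
      rcases Finset.mem_union.1 hp with hp | hp
      · exact h.used hp
      · obtain ⟨l, _, rfl⟩ := Finset.mem_image.1 hp
        exact hC.leafP l
    · intro p hp
      rcases Finset.mem_union.1 hp with hp | hp
      · exact Or.inl (h.UE p hp)
      · obtain ⟨l, _, rfl⟩ := Finset.mem_image.1 hp
        obtain ⟨v, hv⟩ := leaf_edge s g l
        exact Or.inr ⟨_, v, hv, left_mem_segment ℝ _ _⟩
    · intro p hp hpE
      rcases hpE with hpE | hpE
      · exact Finset.mem_union_left _ (h.inE p hp hpE)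
      · obtain ⟨u, v, huv, hpuv⟩ := hpE
        obtain ⟨l, hl⟩ := hC.avoid u v huv p hp hpuv
        exact Finset.mem_union_right _ (Finset.mem_image.2 ⟨l, hS l, hl.symm⟩)
    · intro p hp hpU hpX
      have hpU1 : p ∉ U := fun hh => hpU (Finset.mem_union_left _ hh)
      have hpU2 : ∀ l : Lf s g, p ≠ pos (Sum.inr (lf s g l)) := fun l hl =>
        hpU (Finset.mem_union_right _ (Finset.mem_image.2 ⟨l, hS l, hl.symm⟩))
      have hpX1 : p ∉ X := fun hh => hpX (Finset.mem_union_left _ hh)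
      have hpX2 : p ∉ W := fun hh => hpX (Finset.mem_union_right _ hh)
      obtain ⟨r, hr, hpr⟩ := h.cov p hp hpU1 hpX1
      have hcase : r ∈ l1 ++ l2 ∨ r = t := by
        rcases List.mem_append.1 hr with hr | hr
        · exact Or.inl (List.mem_append_left _ hr)
        · rcases List.mem_cons.1 hr with hr | hr
          · exact Or.inr hr
          · exact Or.inl (List.mem_append_right _ hr)
      rcases hcase with hr0 | rfl
      · exact ⟨r, List.mem_append_left _ hr0, hpr⟩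
      · rcases hr1cov p hpr with ⟨r', hr', hpr'⟩ | ⟨l, hl, hpl⟩
        · refine ⟨r', List.mem_append_right _ (List.mem_filter.2 ⟨hr', ?_⟩), hpr'⟩
          have hconv : Convex ℝ {q | inP r' q} := by
            rw [convex_iff_segment_subset]
            intro x hx y hy z hz
            exact pack_step_conv r' hx hy hz
          rcases hC.cell {q | inP r' q} hconv
            (fun l hl q hq => hr1ls r' hr' l hl q hq) with hcell | hcell
          · apply decide_eq_true
            rintro q hq ⟨u, v, huv, hquv⟩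
            exact Set.disjoint_left.1 (hcell u v huv) hq hquv
          · obtain ⟨l, hl⟩ := hcell p hp hpr'
            exact absurd hl (hpU2 l)
        · exact absurd (hW2 p hp ⟨l, hl, hpl⟩) hpX2
  · rw [Finset.card_union_of_disjoint, Finset.card_image_of_injective, hScard]
    · intro a b hab
      exact leaf_inj s g (Sum.inr_injective (hC.drw.inj hab))
    · rw [Finset.disjoint_left]
      intro p hpU hp
      obtain ⟨l, _, rfl⟩ := Finset.mem_image.1 hp
      exact h.free t ht _ (hleafin l) (h.UE _ hpU)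
  · calc (X ∪ W).card ≤ X.card + W.card := Finset.card_union_le _ _
      _ ≤ X.card + wl.length * 2 := Nat.add_le_add_left hW1 _
      _ ≤ X.card + 6 * 4 ^ lb g := by omega
  · have h1 : (rs1.filter (fun r => decide (∀ p, inP r p → p ∉ edg (adjW s g) pos))).length ≤
        rs1.length := List.length_filter_le _ _
    simp only [List.length_append, List.length_cons] at *
    omega

/-- the real sequence of remaining proportions -/
lemma sizes_tend (K : ℝ) (hK0 : 0 < K) (hK1 : K ≤ 1 / 2) (q : ℕ) (ε : ℝ) (hε : 0 < ε) :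
    ∃ T : ℕ, ∏ i ∈ Finset.range T, (1 - K / (1 + q * (i : ℝ))) ≤ ε := by
  have h1 : Filter.Tendsto (fun n : ℕ => ∑ i ∈ Finset.range n, (1 / ((i : ℝ) + 1)))
      Filter.atTop Filter.atTop := Real.tendsto_sum_range_one_div_nat_succ_atTop
  have h2 := (Filter.tendsto_atTop.1 h1) ((-Real.log ε) * ((1 + q) / K))
  obtain ⟨T, hT⟩ := h2.exists
  refine ⟨T, ?_⟩
  have hle : ∏ i ∈ Finset.range T, (1 - K / (1 + q * (i : ℝ))) ≤
      ∏ i ∈ Finset.range T, Real.exp (-(K / (1 + q * (i : ℝ)))) := by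
    apply Finset.prod_le_prod
    · intro i _
      have h3 : (0 : ℝ) < 1 + q * (i : ℝ) := by positivity
      have h4 : K / (1 + q * (i : ℝ)) ≤ K := by
        apply div_le_self hK0.le
        have : (0 : ℝ) ≤ q * (i : ℝ) := by positivity
        linarith
      linarith
    · intro i _
      have := Real.add_one_le_exp (-(K / (1 + q * (i : ℝ))))
      linarith
  refine hle.trans ?_
  rw [← Real.exp_sum]
  rw [← Real.le_log_iff_exp_le hε]
  rw [Finset.sum_neg_distrib]
  have h5 : ∑ i ∈ Finset.range T, (K / (1 + q)) * (1 / ((i : ℝ) + 1)) ≤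
      ∑ i ∈ Finset.range T, K / (1 + q * (i : ℝ)) := by
    apply Finset.sum_le_sum
    intro i _
    rw [div_mul_div_comm, mul_one]
    apply div_le_div_of_nonneg_left hK0.le (by positivity)
    have h6 : (0 : ℝ) ≤ (i : ℝ) := by positivity
    have h7 : (0 : ℝ) ≤ (q : ℝ) := by positivity
    nlinarith
  rw [← Finset.mul_sum] at h5
  have h8 : (0 : ℝ) < K / (1 + q) := by positivity
  have h9 := mul_le_mul_of_nonneg_left hT h8.le
  have h10 : K / (1 + q) * ((-Real.log ε) * ((1 + q) / K)) = -Real.log ε := by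
    have : (1 + (q : ℝ)) ≠ 0 := by positivity
    field_simp
  rw [h10] at h9
  linarith

lemma sizes_sum (K : ℝ) (q N : ℕ) (c : ℝ) (hK : K = N * c) (T : ℕ) :
    (N : ℝ) * ∑ t ∈ Finset.range T,
      (c * (∏ i ∈ Finset.range t, (1 - K / (1 + q * (i : ℝ)))) / (1 + q * (t : ℝ))) =
      1 - ∏ i ∈ Finset.range T, (1 - K / (1 + q * (i : ℝ))) := by
  induction T with
  | zero => simp
  | succ T ih =>
    rw [Finset.sum_range_succ, mul_add, ih, Finset.prod_range_succ, hK]
    ring


/-- existence of sizes -/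
theorem sizes (N q w : ℕ) (hN : 0 < N) (δ : ℝ) (hδ : 0 < δ) (n0 : ℕ) (ε : ℝ) (hε : 0 < ε) :
    ∃ (T n : ℕ) (sz mm : ℕ → ℕ), 0 < n ∧ N * ∑ t ∈ Finset.range T, sz t ≤ n ∧
      (n : ℝ) - N * ∑ t ∈ Finset.range T, (sz t : ℝ) ≤ ε * n ∧
      ∀ t < T, n0 ≤ mm t ∧ 1 ≤ mm t ∧ (sz t : ℝ) ≤ δ * mm t ∧
        (1 + q * t) * mm t + N * (∑ t' ∈ Finset.range t, sz t') + w * t ≤ n := by
  have hN' : (0 : ℝ) < N := by exact_mod_cast hN
  obtain ⟨c, hc0, hcδ, hcN⟩ : ∃ c : ℝ, 0 < c ∧ c ≤ δ / 2 ∧ (N : ℝ) * c ≤ 1 / 2 := by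
    refine ⟨min (δ / 2) (1 / (2 * N)), by positivity, min_le_left _ _, ?_⟩
    have h := min_le_right (δ / 2) (1 / (2 * (N : ℝ)))
    calc (N : ℝ) * min (δ / 2) (1 / (2 * N)) ≤ N * (1 / (2 * N)) :=
          mul_le_mul_of_nonneg_left h hN'.le
      _ = 1 / 2 := by field_simp
  have hK0 : (0 : ℝ) < N * c := by positivity
  obtain ⟨T, hT⟩ := sizes_tend (N * c) hK0 hcN q (ε / 2) (by positivity)
  obtain ⟨U, hU⟩ : ∃ U : ℕ → ℝ, U = fun t => ∏ i ∈ Finset.range t,
      (1 - (N * c) / (1 + q * (i : ℝ))) := ⟨_, rfl⟩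
  obtain ⟨a, ha⟩ : ∃ a : ℕ → ℝ, a = fun t => c * U t / (1 + q * (t : ℝ)) := ⟨_, rfl⟩
  have hfac : ∀ i : ℕ, 0 < 1 - (N * c) / (1 + q * (i : ℝ)) ∧
      1 - (N * c) / (1 + q * (i : ℝ)) ≤ 1 := by
    intro i
    have h3 : (0 : ℝ) < 1 + q * (i : ℝ) := by positivity
    have h4 : (N * c) / (1 + q * (i : ℝ)) ≤ N * c := by
      apply div_le_self hK0.le
      have : (0 : ℝ) ≤ q * (i : ℝ) := by positivity
      linarith
    have h5 : 0 < (N * c) / (1 + q * (i : ℝ)) := by positivity
    constructor <;> linarith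
  have hUpos : ∀ t, 0 < U t := by
    intro t
    rw [hU]
    exact Finset.prod_pos fun i _ => (hfac i).1
  have hUanti : Antitone U := by
    apply antitone_nat_of_succ_le
    intro t
    have : U (t + 1) = U t * (1 - (N * c) / (1 + q * (t : ℝ))) := by
      rw [hU]; exact Finset.prod_range_succ _ _
    rw [this]
    exact mul_le_of_le_one_right (hUpos t).le (hfac t).2
  have hapos : ∀ t, 0 < a t := by
    intro t
    rw [ha]
    have := hUpos t
    positivity
  have hsum : ∀ t, (N : ℝ) * ∑ i ∈ Finset.range t, a i = 1 - U t := by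
    intro t
    have := sizes_sum (N * c) q N c rfl t
    rw [ha, hU]
    exact this
  have hUT : U T ≤ ε / 2 := by rw [hU]; exact hT
  -- choice of n
  obtain ⟨n, hn1, hn2, hn3⟩ : ∃ n : ℕ, 0 < n ∧ (N : ℝ) * T ≤ ε / 2 * n ∧
      (1 + q * T) * ((n0 : ℝ) + 3) + w * T ≤ U T / 2 * n := by
    obtain ⟨n1, h1⟩ := exists_nat_ge ((N : ℝ) * T / (ε / 2))
    obtain ⟨n2, h2⟩ := exists_nat_ge (((1 + q * T) * ((n0 : ℝ) + 3) + w * T) / (U T / 2))
    have hh : 0 < U T / 2 := by have := hUpos T; positivity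
    have hh2 : 0 < ε / 2 := by positivity
    refine ⟨n1 + n2 + 1, by omega, ?_, ?_⟩
    · rw [div_le_iff₀ hh2] at h1
      have : (n1 : ℝ) ≤ ((n1 + n2 + 1 : ℕ) : ℝ) := by push_cast; linarith [(Nat.cast_nonneg n2 : (0:ℝ) ≤ n2)]
      nlinarith
    · rw [div_le_iff₀ hh] at h2
      have : (n2 : ℝ) ≤ ((n1 + n2 + 1 : ℕ) : ℝ) := by push_cast; linarith [(Nat.cast_nonneg n1 : (0:ℝ) ≤ n1)]
      nlinarith
  have hn1' : (0 : ℝ) < n := by exact_mod_cast hn1
  obtain ⟨sz, hsz⟩ : ∃ sz : ℕ → ℕ, sz = fun t => ⌊a t * n⌋₊ := ⟨_, rfl⟩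
  obtain ⟨mm, hmm⟩ : ∃ mm : ℕ → ℕ, mm = fun t => ⌈a t * n / δ⌉₊ + n0 + 1 := ⟨_, rfl⟩
  have hsz1 : ∀ t, (sz t : ℝ) ≤ a t * n := by
    intro t
    rw [hsz]
    exact Nat.floor_le (by have := hapos t; positivity)
  have hsz2 : ∀ t, a t * n - 1 ≤ (sz t : ℝ) := by
    intro t
    rw [hsz]
    have := Nat.lt_floor_add_one (a t * n)
    show a t * n - 1 ≤ ((⌊a t * n⌋₊ : ℕ) : ℝ)
    linarith
  have hmm1 : ∀ t, (mm t : ℝ) ≤ a t * n / δ + n0 + 2 := by
    intro t
    rw [hmm]
    have h := Nat.ceil_lt_add_one (a := a t * n / δ) (by have := hapos t; positivity)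
    show ((⌈a t * n / δ⌉₊ + n0 + 1 : ℕ) : ℝ) ≤ _
    push_cast
    linarith
  have hmm2 : ∀ t, a t * n / δ ≤ (mm t : ℝ) := by
    intro t
    rw [hmm]
    have h := Nat.le_ceil (a t * n / δ)
    show _ ≤ ((⌈a t * n / δ⌉₊ + n0 + 1 : ℕ) : ℝ)
    push_cast
    have : (0 : ℝ) ≤ n0 := by positivity
    linarith
  have hS : ∀ t, (N : ℝ) * ∑ i ∈ Finset.range t, (sz i : ℝ) ≤ n * (1 - U t) := by
    intro t
    rw [← hsum t]
    have : ∑ i ∈ Finset.range t, (sz i : ℝ) ≤ ∑ i ∈ Finset.range t, a i * n :=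
      Finset.sum_le_sum fun i _ => hsz1 i
    rw [← Finset.sum_mul] at this
    have h2 := mul_le_mul_of_nonneg_left this hN'.le
    calc _ ≤ _ := h2
      _ = _ := by ring
  have hS2 : (n : ℝ) * (1 - U T) - N * T ≤ (N : ℝ) * ∑ i ∈ Finset.range T, (sz i : ℝ) := by
    rw [← hsum T]
    have : ∑ i ∈ Finset.range T, (a i * n - 1) ≤ ∑ i ∈ Finset.range T, (sz i : ℝ) :=
      Finset.sum_le_sum fun i _ => hsz2 i
    rw [Finset.sum_sub_distrib, ← Finset.sum_mul] at this
    simp only [Finset.sum_const, Finset.card_range, nsmul_eq_mul, mul_one] at this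
    have h2 := mul_le_mul_of_nonneg_left this hN'.le
    calc _ = _ := by ring
      _ ≤ _ := h2
  refine ⟨T, n, sz, mm, hn1, ?_, ?_, ?_⟩
  · have h := hS T
    have h2 : (n : ℝ) * (1 - U T) ≤ n := by nlinarith [hUpos T]
    have h3 : (N : ℝ) * ∑ i ∈ Finset.range T, (sz i : ℝ) ≤ n := h.trans h2
    exact_mod_cast h3
  · have h4 : (n : ℝ) * U T ≤ n * (ε / 2) := mul_le_mul_of_nonneg_left hUT hn1'.le
    linarith
  · intro t ht
    have hmmt : mm t = ⌈a t * n / δ⌉₊ + n0 + 1 := by rw [hmm]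
    refine ⟨by omega, by omega, ?_, ?_⟩
    · have h1 := hmm2 t
      have h2 := mul_le_mul_of_nonneg_left h1 hδ.le
      have h3 : δ * (a t * n / δ) = a t * n := by field_simp
      rw [h3] at h2
      exact (hsz1 t).trans h2
    · have hq : (0 : ℝ) < 1 + q * (t : ℝ) := by positivity
      have h1 := mul_le_mul_of_nonneg_left (hmm1 t) hq.le
      have h2 : (1 + q * (t : ℝ)) * (a t * n / δ) = c * U t * n / δ := by
        rw [ha]
        field_simp
      have h3 : c * U t * n / δ ≤ U t * n / 2 := by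
        rw [div_le_div_iff₀ hδ (by norm_num)]
        have h4 : 0 < U t * n := by have := hUpos t; positivity
        nlinarith
      have h5 := hS t
      have ht' : (t : ℝ) ≤ T := by exact_mod_cast ht.le
      have h6 : (1 + q * (t : ℝ)) * ((n0 : ℝ) + 2) ≤ (1 + q * (T : ℝ)) * ((n0 : ℝ) + 3) := by
        have : (q : ℝ) * t ≤ q * T := mul_le_mul_of_nonneg_left ht' (by positivity)
        apply mul_le_mul _ _ (by positivity) (by positivity) <;> linarith
      have h7 : (w : ℝ) * t ≤ w * T := mul_le_mul_of_nonneg_left ht' (by positivity)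
      have h8 : U T ≤ U t := hUanti ht.le
      have h9 : U T / 2 * n ≤ U t / 2 * n := by
        apply mul_le_mul_of_nonneg_right _ hn1'.le
        linarith
      have h10 : (1 + (q : ℝ) * t) * mm t + N * (∑ t' ∈ Finset.range t, (sz t' : ℝ)) + w * t ≤ n := by
        have h11 : (1 + q * (t : ℝ)) * (a t * n / δ + n0 + 2) =
            (1 + q * (t : ℝ)) * (a t * n / δ) + (1 + q * (t : ℝ)) * ((n0 : ℝ) + 2) := by ring
        rw [h11, h2] at h1
        have h12 : (n : ℝ) * (1 - U t) = n - 2 * (U t / 2 * n) := by ring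
        rw [h12] at h5
        have h13 : U t * n / 2 = U t / 2 * n := by ring
        rw [h13] at h3
        linarith
      exact_mod_cast h10

theorem pack_auxN (g : List Bse) (hg : StkFrg g) : 0 < Nf g := by
  induction g with
  | nil => simp [Nf]
  | cons B g ih =>
    have h1 : 0 < Nf g := ih (fun B' hB' => hg B' (List.mem_cons_of_mem _ hB'))
    have h2 : 0 < B.M := by
      rcases hg B List.mem_cons_self with h | h
      · subst h; simp [stkB]
      · subst h; simp [frgB]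
    simp only [Nf]
    exact Nat.mul_pos h2 h1

/-- the packing theorem -/
theorem pack (g : List Bse) (hg : StkFrg g) (ε : ℝ) (hε : 0 < ε) :
    ∃ (T n : ℕ) (sz : ℕ → ℕ), 0 < n ∧ Nf g * ∑ t ∈ Finset.range T, sz t ≤ n ∧
      (n : ℝ) - Nf g * ∑ t ∈ Finset.range T, (sz t : ℝ) ≤ ε * n ∧
      ∀ P : Finset Pt, GP P → P.card = n →
        ∃ pos : (t : ℕ) → Wt (Option (Fin (sz t))) g → Pt,
          (∀ t < T, ∃ ls, Cmp g (sz t) P (pos t) ls) ∧
          ∀ t < T, ∀ t' < T, t ≠ t' →
            Disjoint (edg (adjW (sz t) g) (pos t)) (edg (adjW (sz t') g) (pos t')) := by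
  obtain ⟨δ, hδ, n0, hM⟩ := main_comp g hg
  have hN : 0 < Nf g := pack_auxN g hg
  obtain ⟨T, n, sz, mm, hn, hle, hε', hall⟩ :=
    sizes (Nf g) (4 ^ lb g) (6 * 4 ^ lb g) hN δ hδ n0 ε hε
  refine ⟨T, n, sz, hn, hle, hε', fun P hP hc => ?_⟩
  have key : ∀ t : ℕ, t ≤ T →
      ∃ (pos : (t' : ℕ) → Wt (Option (Fin (sz t'))) g → Pt) (rs : List (Fin 3 → Pt))
        (E : Set Pt) (U X : Finset Pt),
        (∀ t' < t, ∃ ls, Cmp g (sz t') P (pos t') ls) ∧
        (∀ t1 < t, ∀ t2 < t, t1 ≠ t2 →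
          Disjoint (edg (adjW (sz t1) g) (pos t1)) (edg (adjW (sz t2) g) (pos t2))) ∧
        (∀ t' < t, edg (adjW (sz t') g) (pos t') ⊆ E) ∧
        St P rs E U X ∧ rs.length ≤ 1 + 4 ^ lb g * t ∧
        U.card = Nf g * ∑ t' ∈ Finset.range t, sz t' ∧ X.card ≤ 6 * 4 ^ lb g * t := by
    intro t
    induction t with
    | zero =>
      intro _
      obtain ⟨T0, hT0, hT1⟩ := big_triangle P
      refine ⟨fun _ _ => (0, 0), [T0], ∅, ∅, ∅, fun t' ht' => absurd ht' (Nat.not_lt_zero _),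
        fun t' ht' => absurd ht' (Nat.not_lt_zero _),
        fun t' ht' => absurd ht' (Nat.not_lt_zero _), ?_, by simp, by simp, by simp⟩
      refine ⟨?_, ?_, ?_, ?_, ?_, ?_, ?_⟩
      · intro t ht
        rw [List.mem_singleton] at ht
        subst ht
        exact hT0
      · intro t _ p _ hp
        exact hp
      · exact List.pairwise_singleton _ _
      · exact Finset.empty_subset _
      · intro p hp
        exact absurd hp (Finset.notMem_empty _)
      · intro p _ hp
        exact absurd hp (Set.notMem_empty _)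
      · intro p hp _ _
        exact ⟨T0, List.mem_singleton.2 rfl, hT1 p hp⟩
    | succ t ih =>
      intro ht
      obtain ⟨pos, rs, E, U, X, h1, h2, h3, h4, h5, h6, h7⟩ := ih (by omega)
      obtain ⟨a1, a2, a3, a4⟩ := hall t (by omega)
      have b1 : rs.length * mm t ≤ (1 + 4 ^ lb g * t) * mm t := Nat.mul_le_mul_right _ h5
      have b2 : 1 ≤ (1 + 4 ^ lb g * t) * mm t := Nat.mul_pos (by omega) a2
      have hm2 : rs.length * mm t + U.card + X.card ≤ P.card := by
        rw [hc, h6]; omega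
      have hlt : U.card + X.card < P.card := by
        rw [hc, h6]; omega
      obtain ⟨pn, ls, rs', U', X', c1, c2, c3, c4, c5, c6⟩ :=
        pack_step g hg δ n0 hM P hP rs E U X h4 (sz t) (mm t) a1 a3 hm2 hlt hδ
      have hne : ∀ t' : ℕ, t' ≠ t → Function.update pos t pn t' = pos t' := fun t' h =>
        Function.update_of_ne h _ _
      have heq : Function.update pos t pn t = pn := Function.update_self _ _ _
      refine ⟨Function.update pos t pn, rs', E ∪ edg (adjW (sz t) g) pn, U', X', ?_, ?_, ?_, c3,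
        ?_, ?_, ?_⟩
      · intro t' ht'
        by_cases h : t' = t
        · subst h
          rw [heq]
          exact ⟨ls, c1⟩
        · rw [hne t' h]
          exact h1 t' (by omega)
      · intro t1 ht1 t2 ht2 h12
        by_cases e1 : t1 = t
        · subst e1
          have e2 : t2 ≠ t1 := fun h => h12 h.symm
          rw [heq, hne t2 e2]
          exact (Disjoint.mono_left (h3 t2 (by omega)) c2).symm
        · by_cases e2 : t2 = t
          · subst e2
            rw [heq, hne t1 e1]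
            exact Disjoint.mono_left (h3 t1 (by omega)) c2
          · rw [hne t1 e1, hne t2 e2]
            exact h2 t1 (by omega) t2 (by omega) h12
      · intro t' ht'
        by_cases h : t' = t
        · subst h
          rw [heq]
          exact Set.subset_union_right
        · rw [hne t' h]
          exact (h3 t' (by omega)).trans Set.subset_union_left
      · calc rs'.length ≤ rs.length + 4 ^ lb g := c6
          _ ≤ 1 + 4 ^ lb g * t + 4 ^ lb g := Nat.add_le_add_right h5 _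
          _ = 1 + 4 ^ lb g * (t + 1) := by ring
      · rw [c4, h6, Finset.sum_range_succ, Nat.mul_add]
      · calc X'.card ≤ X.card + 6 * 4 ^ lb g := c5
          _ ≤ 6 * 4 ^ lb g * t + 6 * 4 ^ lb g := Nat.add_le_add_right h7 _
          _ = 6 * 4 ^ lb g * (t + 1) := by ring
  obtain ⟨pos, rs, E, U, X, h1, h2, _⟩ := key T le_rfl
  exact ⟨pos, h1, h2⟩

end Pool.Agent.Helper745.FSub
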