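import Mathlib

set_option autoImplicit false

namespace Pool.Agent.Helper745.FSub

abbrev Pt := ℝ × ℝ

/-- twice the signed area of the triangle `a b c` -/
noncomputable def ori (a b c : Pt) : ℝ := (b.1 - a.1) * (c.2 - a.2) - (b.2 - a.2) * (c.1 - a.1)

/-- `p` is strictly inside the triangle `a b c` (any orientation) -/
def inT (a b c p : Pt) : Prop :=
  (0 < ori a b p ∧ 0 < ori b c p ∧ 0 < ori c a p) ∨
    (ori a b p < 0 ∧ ori b c p < 0 ∧ ori c a p < 0)

/-- `p` is strictly inside the positively oriented triangle `c 0, c 1, c 2` -/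
def inP (c : Fin 3 → Pt) (p : Pt) : Prop :=
  0 < ori (c 0) (c 1) p ∧ 0 < ori (c 1) (c 2) p ∧ 0 < ori (c 2) (c 0) p

/-- general position -/
def GP (P : Finset Pt) : Prop :=
  ∀ a ∈ P, ∀ b ∈ P, ∀ c ∈ P, a ≠ b → a ≠ c → b ≠ c → ori a b c ≠ 0

/-- straight-line crossing-free drawing of the graph with adjacency `A` -/
structure Drw {V : Type} (A : V → V → Prop) (f : V → Pt) : Prop where
  inj : Function.Injective f
  d1 : ∀ u v w, A u v → w ≠ u → w ≠ v → f w ∉ segment ℝ (f u) (f v)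
  d2 : ∀ u v x y, A u v → A x y → u ≠ x → u ≠ y → v ≠ x → v ≠ y →
    Disjoint (segment ℝ (f u) (f v)) (segment ℝ (f x) (f y))

/-- A base graph: corners `0,1,2`, inner vertices `3, …, 2+I`, `M` marked faces,
rank tables `ra`, `rc` of the universal placement. -/
structure Bse where
  I : ℕ
  M : ℕ
  gap : ℕ
  adj : Fin (3 + I) → Fin (3 + I) → Bool
  face : Fin M → Fin 3 → Fin (3 + I)
  ra : Fin (3 + I) → ℕ
  rc : Fin (3 + I) → ℕ

/-- the base graph `K₄` -/
def stkB : Bse where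
  I := 1
  M := 3
  gap := 0
  adj := fun i j => decide (i ≠ j)
  face := (![![0, 1, 3], ![0, 3, 2], ![3, 1, 2]] : Fin 3 → Fin 3 → Fin 4)
  ra := (![0, 0, 2, 1] : Fin 4 → ℕ)
  rc := (![0, 2, 2, 1] : Fin 4 → ℕ)

/-- neighbour masks of the ten-vertex fragment -/
def fmask : Fin 10 → ℕ := ![398, 125, 195, 275, 810, 594, 678, 837, 665, 496]

/-- the ten-vertex fragment -/
def frgB : Bse where
  I := 7
  M := 9
  gap := 6
  adj := fun i j => Nat.testBit (fmask i) j.val
  face := (![![0, 1, 3], ![0, 8, 7], ![8, 3, 4], ![8, 9, 7], ![9, 4, 5], ![4, 1, 5], ![9, 5, 6],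
    ![5, 1, 6], ![7, 6, 2]] : Fin 9 → Fin 3 → Fin 10)
  ra := (![0, 0, 8, 1, 3, 5, 6, 7, 2, 4] : Fin 10 → ℕ)
  rc := (![0, 8, 8, 2, 4, 5, 7, 6, 1, 3] : Fin 10 → ℕ)

/-- inner vertices of a gadget; `H` is the type of the vertices in a deepest face -/
@[reducible] def Vt (H : Type) : List Bse → Type
  | [] => H
  | B :: g => Fin B.I ⊕ (Fin B.M × Vt H g)

/-- all vertices of a gadget: three corners and the inner vertices -/
abbrev Wt (H : Type) (g : List Bse) : Type := Fin 3 ⊕ Vt H g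

/-- the base vertices of `B :: g` -/
def bv (H : Type) (B : Bse) (g : List Bse) (i : Fin (3 + B.I)) : Wt H (B :: g) :=
  Fin.addCases (motive := fun _ => Wt H (B :: g)) (fun c => Sum.inl c)
    (fun k => Sum.inr (Sum.inl k)) i

/-- the vertices of the `m`-th child gadget in `B :: g` -/
def cv (H : Type) (B : Bse) (g : List Bse) (m : Fin B.M) : Wt H g → Wt H (B :: g)
  | Sum.inl c => bv H B g (B.face m c)
  | Sum.inr v => Sum.inr (Sum.inr (m, v))

/-- adjacency of the gadget graph; every deepest face contains a hub `none` adjacent to the three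
corners and to `s` leaves `some i` -/
def adjW (s : ℕ) : (g : List Bse) → Wt (Option (Fin s)) g → Wt (Option (Fin s)) g → Prop
  | [] => fun u v => u ≠ v ∧ (u = Sum.inr none ∨ v = Sum.inr none ∨
      ∃ c c' : Fin 3, u = Sum.inl c ∧ v = Sum.inl c')
  | B :: g => fun u v =>
      (∃ i j, B.adj i j = true ∧ u = bv _ B g i ∧ v = bv _ B g j) ∨
      (∃ m a b, adjW s g a b ∧ u = cv _ B g m a ∧ v = cv _ B g m b)

/-- index type of the leaves -/
@[reducible] def Lf (s : ℕ) : List Bse → Type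
  | [] => Fin s
  | B :: g => Fin B.M × Lf s g

/-- the leaves as vertices -/
def lf (s : ℕ) : (g : List Bse) → Lf s g → Vt (Option (Fin s)) g
  | [], l => some l
  | B :: g, l => Sum.inr (l.1, lf s g l.2)

/-- number of deepest faces -/
def Nf : List Bse → ℕ
  | [] => 1
  | B :: g => B.M * Nf g

/-- length of the time interval of a gadget -/
def glen : List Bse → ℕ
  | [] => 1
  | B :: g => B.M * glen g + B.gap

/-- bound for the number of lines -/
def lb : List Bse → ℕ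
  | [] => 7
  | B :: g => (3 + B.I) ^ 2 + B.M * lb g

def Bse.neg0 (B : Bse) (p q r : Fin (3 + B.I)) : Bool :=
  decide (B.rc p < B.rc q ∧ B.rc p < B.rc r ∧ B.ra q < B.ra r ∧
    (B.ra p < B.ra r ∨ (B.ra r < B.ra p ∧ B.rc q < B.rc r)))

def Bse.neg (B : Bse) (p q r : Fin (3 + B.I)) : Bool :=
  B.neg0 p q r || B.neg0 q r p || B.neg0 r p q

/-- the positions of the base vertices have the orientations of the table -/
def BaseOK (B : Bse) (bp : Fin (3 + B.I) → Pt) : Prop :=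
  ∀ i j k, B.neg i j k = true → 0 < ori (bp i) (bp j) (bp k)

/-- conditions on the positions of the skeleton vertices: table orientations at every level, and at
least `n` points of `P` in every deepest face -/
def SkOK (P : Finset Pt) (n : ℕ) : (g : List Bse) → (Wt Empty g → Pt) → Prop
  | [], pos => 0 < ori (pos (Sum.inl 0)) (pos (Sum.inl 1)) (pos (Sum.inl 2)) ∧
      ∃ Q ⊆ P, n ≤ Q.card ∧ ∀ q ∈ Q, inP (fun i => pos (Sum.inl i)) q
  | B :: g, pos => BaseOK B (fun i => pos (bv Empty B g i)) ∧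
      ∀ m, SkOK P n g (fun w => pos (cv Empty B g m w))

/-- genericity of skeleton positions with respect to `P` -/
def GEN (P : Finset Pt) {W : Type} (pos : W → Pt) : Prop :=
  ∀ u v : W, u ≠ v → ∀ p ∈ P, ori (pos u) (pos v) p ≠ 0

/-- a drawn component with its leaves on points of `P`, and a list of lines `ls` -/
structure Cmp (g : List Bse) (s : ℕ) (P : Finset Pt) (pos : Wt (Option (Fin s)) g → Pt)
    (ls : List (Pt × Pt)) : Prop where
  drw : Drw (adjW s g) pos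
  leafP : ∀ l : Lf s g, pos (Sum.inr (lf s g l)) ∈ P
  avoid : ∀ u v, adjW s g u v → ∀ p ∈ P, p ∈ segment ℝ (pos u) (pos v) →
    ∃ l : Lf s g, p = pos (Sum.inr (lf s g l))
  lsne : ∀ l ∈ ls, l.1 ≠ l.2
  cell : ∀ Δ : Set Pt, Convex ℝ Δ → (∀ l ∈ ls, ∀ p ∈ Δ, ori l.1 l.2 p ≠ 0) →
    (∀ u v, adjW s g u v → Disjoint Δ (segment ℝ (pos u) (pos v))) ∨
    (∀ p ∈ P, p ∈ Δ → ∃ l : Lf s g, p = pos (Sum.inr (lf s g l)))

noncomputable def det0 (x₁ s₁ x₂ s₂ x₃ s₃ : ℝ) : ℝ :=
  x₁ * (x₂ * s₂ - x₃ * s₃) - x₁ * s₁ * (x₂ - x₃) + (x₂ * x₃ * s₃ - x₂ * s₂ * x₃)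

/-- projective frame: `pt x s` is the point with frame coordinates `x = X/Z`, `s = Y/X` -/
structure Frm where
  pt : ℝ → ℝ → Pt
  wt : ℝ → ℝ → ℝ
  det : ∀ x₁ s₁ x₂ s₂ x₃ s₃, 0 < wt x₁ s₁ → 0 < wt x₂ s₂ → 0 < wt x₃ s₃ →
    det0 x₁ s₁ x₂ s₂ x₃ s₃ < 0 → 0 < ori (pt x₁ s₁) (pt x₂ s₂) (pt x₃ s₃)

/-- `ξ` is positive and decreases at least by the factor 4 in every step -/
def Dec (ξ : ℕ → ℝ) : Prop := ∀ j, 0 < ξ j ∧ 4 * ξ (j + 1) ≤ ξ j

/-- `q` lies in the `j`-th box of the chain -/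
def InBox (F : Frm) (ξ η : ℕ → ℝ) (j : ℕ) (q : Pt) : Prop :=
  ∃ x σ, q = F.pt x σ ∧ 0 < F.wt x σ ∧ 4 * x ≤ ξ j ∧ 4 * ξ (j + 1) ≤ x ∧
    4 * σ ≤ η j ∧ 4 * η (j + 1) ≤ σ

def StkFrg (g : List Bse) : Prop := ∀ B ∈ g, B = stkB ∨ B = frgB

/-- `A` is symmetric -/
def Sy {V : Type} (A : V → V → Prop) : Prop := ∀ x y, A x y → A y x

/-- `C` is connected -/
def Cn {V : Type} (A : V → V → Prop) (C : Set V) : Prop :=
  ∀ S : Set V, S ⊆ C → S.Nonempty → (∀ x ∈ S, ∀ y ∈ C, A x y → y ∈ S) → S = C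

/-- `v` has a neighbour in `C` -/
def At {V : Type} (A : V → V → Prop) (C : Set V) (v : V) : Prop := ∃ x ∈ C, A x v

/-- the four vertices are mutually adjacent (and distinct) -/
structure K4 {V : Type} (A : V → V → Prop) (a b c d : V) : Prop where
  ab : A a b
  ac : A a c
  ad : A a d
  bc : A b c
  bd : A b d
  cd : A c d
  nab : a ≠ b
  nac : a ≠ c
  nad : a ≠ d
  nbc : b ≠ c
  nbd : b ≠ d
  ncd : c ≠ d

/-- the fragment inside its outer triangle -/
structure FC {V : Type} (A : V → V → Prop) (f : V → Pt) (ι : Fin 10 → V) : Prop where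
  drw : Drw A f
  sym : Sy A
  inj : Function.Injective ι
  adj : ∀ i j : Fin 10, frgB.adj i j = true → A (ι i) (ι j)
  ins : ∀ i : Fin 10, 3 ≤ i.val → inT (f (ι 0)) (f (ι 1)) (f (ι 2)) (f (ι i))

/-- the fifteen inner faces of the fragment, consistently oriented -/
def allF : Fin 15 → Fin 3 → Fin 10 :=
  ![![0, 1, 3], ![0, 8, 7], ![8, 3, 4], ![8, 9, 7], ![9, 4, 5], ![4, 1, 5], ![9, 5, 6],
    ![5, 1, 6], ![7, 6, 2], ![1, 4, 3], ![1, 2, 6], ![2, 0, 7], ![0, 3, 8], ![8, 4, 9], ![6, 7, 9]]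

/-- an embedded gadget -/
structure Emb {V : Type} (s : ℕ) (g : List Bse) (A : V → V → Prop)
    (e : Wt (Option (Fin s)) g → V) : Prop where
  inj : Function.Injective e
  adj : ∀ u v, adjW s g u v → A (e u) (e v)

/-- the recursive gadget -/
def GG : ℕ → List Bse
  | 0 => []
  | k + 1 => stkB :: frgB :: GG k

/-- the gadget with its frame -/
def FF (k : ℕ) : ℕ → List Bse
  | 0 => GG k
  | h + 1 => stkB :: FF k h

/-- the part of `T` in the `m`-th child -/
noncomputable def part {s : ℕ} {B : Bse} {g : List Bse} (T : Finset (Lf s (B :: g))) (m : Fin B.M) :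
    Finset (Lf s g) := by
  classical
  exact (T.filter (fun l => l.1 = m)).image (fun l => l.2)

/-- facts on the positions of the base vertices -/
structure BG (B : Bse) (bp : Fin (3 + B.I) → Pt) : Prop where
  inj : Function.Injective bp
  ee : ∀ i j k l, B.adj i j = true → B.adj k l = true → i ≠ k → i ≠ l → j ≠ k → j ≠ l →
    Disjoint (segment ℝ (bp i) (bp j)) (segment ℝ (bp k) (bp l))
  ve : ∀ i j k, B.adj i j = true → k ≠ i → k ≠ j → bp k ∉ segment ℝ (bp i) (bp j)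
  fe : ∀ m i j, B.adj i j = true → ∀ p ∈ segment ℝ (bp i) (bp j),
    ¬ inP (fun c => bp (B.face m c)) p
  ff : ∀ m m', m ≠ m' → ∀ p, ¬ (inP (fun c => bp (B.face m c)) p ∧
    inP (fun c => bp (B.face m' c)) p)
  inn : ∀ k : Fin B.I, inP (fun c => bp (Fin.castAdd B.I c)) (bp (Fin.natAdd 3 k))
  fin : ∀ m p, inP (fun c => bp (B.face m c)) p → inP (fun c => bp (Fin.castAdd B.I c)) p
  vf : ∀ m i, ¬ inP (fun c => bp (B.face m c)) (bp i)

/-- a chain in convex position, separated in the two coordinates -/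
structure Good (L : ℕ) (p : Fin L → Pt) : Prop where
  pos : ∀ i j k, i < j → j < k → 0 < ori (p i) (p j) (p k)
  sx : ∀ i z q q' e, i < z → z < q → q < q' → q' < e →
    4 * (ori (p i) (p q') (p e) * ori (p i) (p z) (p q)) ≤
      ori (p i) (p q) (p e) * ori (p i) (p z) (p q')
  ss : ∀ i q q' y e, i < q → q < q' → q' < y → y < e →
    4 * (ori (p q') (p y) (p e) * ori (p i) (p q) (p e)) ≤
      ori (p q) (p y) (p e) * ori (p i) (p q') (p e)

/-- existence of components in triangles containing many points -/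
def MainC (g : List Bse) (δ : ℝ) (n0 : ℕ) : Prop :=
  ∀ (T : Fin 3 → Pt) (P Q : Finset Pt) (s : ℕ), 0 < ori (T 0) (T 1) (T 2) → GP P → Q ⊆ P →
    (∀ q ∈ Q, inP T q) → n0 ≤ Q.card → (s : ℝ) ≤ δ * Q.card →
      ∃ (pos : Wt (Option (Fin s)) g → Pt) (ls : List (Pt × Pt)), Cmp g s P pos ls ∧
        ls.length ≤ lb g ∧ ∀ w, inP T (pos w)

/-- state of the packing: `rs` free triangles, `E` the drawn part, `U` the used points,
`X` the wasted points -/
structure St (P : Finset Pt) (rs : List (Fin 3 → Pt)) (E : Set Pt) (U X : Finset Pt) : Prop where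
  pos : ∀ t ∈ rs, 0 < ori (t 0) (t 1) (t 2)
  free : ∀ t ∈ rs, ∀ p, inP t p → p ∉ E
  dis : rs.Pairwise (fun t t' => ∀ p, ¬ (inP t p ∧ inP t' p))
  used : U ⊆ P
  UE : ∀ p ∈ U, p ∈ E
  inE : ∀ p ∈ P, p ∈ E → p ∈ U
  cov : ∀ p ∈ P, p ∉ U → p ∉ X → ∃ t ∈ rs, inP t p

/-- union of the closed edges -/
def edg {W : Type} (A : W → W → Prop) (pos : W → Pt) : Set Pt :=
  {p | ∃ u v, A u v ∧ p ∈ segment ℝ (pos u) (pos v)}

end Pool.Agent.Helper745.FSub
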