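import Pool.Agent.Helper745.FS.A4
import Pool.Agent.Helper745.FS.B7

set_option autoImplicit false

namespace Pool.Agent.Helper745.FSub

noncomputable instance fin_vt (H : Type) [Fintype H] : (g : List Bse) → Fintype (Vt H g)
  | [] => inferInstanceAs (Fintype H)
  | B :: g => by
      haveI := fin_vt H g
      exact inferInstanceAs (Fintype (Fin B.I ⊕ (Fin B.M × Vt H g)))

noncomputable instance fin_lf (s : ℕ) : (g : List Bse) → Fintype (Lf s g)
  | [] => inferInstanceAs (Fintype (Fin s))
  | B :: g => by
      haveI := fin_lf s g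
      exact inferInstanceAs (Fintype (Fin B.M × Lf s g))

theorem fin_lf_card (s : ℕ) : (g : List Bse) → Fintype.card (Lf s g) = Nf g * s
  | [] => by
      show Fintype.card (Fin s) = 1 * s
      simp
  | B :: g => by
      have h := fin_lf_card s g
      show @Fintype.card (Fin B.M × Lf s g) _ = B.M * Nf g * s
      rw [Fintype.card_prod, Fintype.card_fin, h, mul_assoc]

theorem nf_ff (k h : ℕ) : Nf (FF k h) = 3 ^ h * 27 ^ k := by
  induction h with
  | zero =>
    show Nf (GG k) = _
    induction k with
    | zero => rfl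
    | succ k ih =>
      show 3 * (9 * Nf (GG k)) = _
      rw [ih]; ring
  | succ h ih =>
    show 3 * Nf (FF k h) = _
    rw [ih]; ring

theorem sf_gg (k : ℕ) : StkFrg (GG k) := by
  induction k with
  | zero => intro B hB; simp [GG] at hB
  | succ k ih =>
    intro B hB
    simp only [GG, List.mem_cons] at hB
    rcases hB with h | h | h
    · exact Or.inl h
    · exact Or.inr h
    · exact ih B h

theorem sf_ff (k h : ℕ) : StkFrg (FF k h) := by
  induction h with
  | zero => exact sf_gg k
  | succ h ih =>
    intro B hB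
    simp only [FF, List.mem_cons] at hB
    rcases hB with h | h
    · exact Or.inl h
    · exact ih B h

/-- every vertex is an endpoint of an edge -/
theorem vert_edge (s : ℕ) : (g : List Bse) → StkFrg g → (w : Wt (Option (Fin s)) g) →
    ∃ v, adjW s g w v ∨ adjW s g v w
  | [], _, w => by
      rcases w with c | v
      · exact ⟨Sum.inr none, Or.inl ⟨by simp, Or.inr (Or.inl rfl)⟩⟩
      · rcases v with _ | l
        · exact ⟨Sum.inl 0, Or.inl ⟨by simp, Or.inl rfl⟩⟩
        · exact ⟨Sum.inr none, Or.inl ⟨by simp, Or.inr (Or.inl rfl)⟩⟩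
  | B :: g, hg, w => by
      have hB : B = stkB ∨ B = frgB := hg B (by simp)
      have hadj : ∀ i : Fin (3 + B.I), ∃ j, B.adj i j = true := by
        rcases hB with rfl | rfl
        · intro i
          have : ∀ i : Fin (3 + stkB.I), ∃ j : Fin (3 + stkB.I), stkB.adj i j = true := by decide
          exact this i
        · intro i
          have : ∀ i : Fin (3 + frgB.I), ∃ j : Fin (3 + frgB.I), frgB.adj i j = true := by decide
          exact this i
      have hbase : ∀ i : Fin (3 + B.I), ∃ v, adjW s (B :: g) (bv _ B g i) v := by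
        intro i
        obtain ⟨j, hj⟩ := hadj i
        exact ⟨bv _ B g j, Or.inl ⟨i, j, hj, rfl, rfl⟩⟩
      rcases w with c | v
      · obtain ⟨v, hv⟩ := hbase (Fin.castAdd B.I c)
        refine ⟨v, Or.inl ?_⟩
        simpa [bv] using hv
      · rcases v with k | ⟨m, v⟩
        · obtain ⟨v, hv⟩ := hbase (Fin.natAdd 3 k)
          refine ⟨v, Or.inl ?_⟩
          simpa [bv] using hv
        · obtain ⟨v', hv'⟩ := vert_edge s g (fun B' hB' => hg B' (by simp [hB'])) (Sum.inr v)
          rcases hv' with h | h
          · exact ⟨cv _ B g m v', Or.inl (Or.inr ⟨m, _, _, h, rfl, rfl⟩)⟩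
          · exact ⟨cv _ B g m v', Or.inr (Or.inr ⟨m, _, _, h, rfl, rfl⟩)⟩

theorem vert_mem_edg {s : ℕ} {g : List Bse} (hg : StkFrg g) (pos : Wt (Option (Fin s)) g → Pt)
    (w : Wt (Option (Fin s)) g) : pos w ∈ edg (adjW s g) pos := by
  obtain ⟨v, h | h⟩ := vert_edge s g hg w
  · exact ⟨w, v, h, left_mem_segment ℝ _ _⟩
  · exact ⟨v, w, h, right_mem_segment ℝ _ _⟩

end Pool.Agent.Helper745.FSub
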