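import Pool.Agent.Helper745.FS.Fin1

set_option autoImplicit false

namespace Pool.Agent.Helper745.FSub

/-- vertices of the final graph -/
abbrev FV (g : List Bse) (T : ℕ) (sz : ℕ → ℕ) (r : ℕ) : Type :=
  (Σ t : Fin T, Wt (Option (Fin (sz t))) g) ⊕ Fin r

def fg (g : List Bse) (T : ℕ) (sz : ℕ → ℕ) (r : ℕ) : SimpleGraph (FV g T sz r) :=
  SimpleGraph.fromRel (fun x y => ∃ (t : Fin T) (u v : Wt (Option (Fin (sz t))) g),
    x = Sum.inl ⟨t, u⟩ ∧ y = Sum.inl ⟨t, v⟩ ∧ adjW (sz t) g u v)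

theorem fg_adj {g : List Bse} {T : ℕ} {sz : ℕ → ℕ} {r : ℕ} {x y : FV g T sz r}
    (h : (fg g T sz r).Adj x y) : ∃ (t : Fin T) (u v : Wt (Option (Fin (sz t))) g),
      x = Sum.inl ⟨t, u⟩ ∧ y = Sum.inl ⟨t, v⟩ ∧ (adjW (sz t) g u v ∨ adjW (sz t) g v u) := by
  rw [fg, SimpleGraph.fromRel_adj] at h
  obtain ⟨_, h | h⟩ := h
  · obtain ⟨t, u, v, h1, h2, h3⟩ := h
    exact ⟨t, u, v, h1, h2, Or.inl h3⟩
  · obtain ⟨t, u, v, h1, h2, h3⟩ := h
    exact ⟨t, v, u, h2, h1, Or.inr h3⟩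

/-- the leaves -/
def lv (g : List Bse) (T : ℕ) (sz : ℕ → ℕ) (r : ℕ) (x : Σ t : Fin T, Lf (sz t) g) :
    FV g T sz r := Sum.inl ⟨x.1, Sum.inr (lf (sz x.1) g x.2)⟩

theorem lv_inj (g : List Bse) (T : ℕ) (sz : ℕ → ℕ) (r : ℕ) :
    Function.Injective (lv g T sz r) := by
  rintro ⟨t, l⟩ ⟨t', l'⟩ h
  simp only [lv, Sum.inl.injEq, Sigma.mk.injEq] at h
  obtain ⟨rfl, h⟩ := h
  have h2 := eq_of_heq h
  rw [Sum.inr.injEq] at h2
  rw [leaf_inj _ _ h2]

noncomputable def sset (g : List Bse) (T : ℕ) (sz : ℕ → ℕ) (r : ℕ) : Finset (FV g T sz r) := by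
  classical
  exact Finset.univ.image (lv g T sz r) ∪ Finset.univ.image (Sum.inr : Fin r → FV g T sz r)

theorem mem_sset {g : List Bse} {T : ℕ} {sz : ℕ → ℕ} {r : ℕ} {x : FV g T sz r} :
    x ∈ sset g T sz r ↔ (∃ l, x = lv g T sz r l) ∨ ∃ i, x = Sum.inr i := by
  classical
  simp only [sset, Finset.mem_union, Finset.mem_image, Finset.mem_univ, true_and]
  constructor
  · rintro (⟨l, rfl⟩ | ⟨i, rfl⟩)
    · exact Or.inl ⟨l, rfl⟩
    · exact Or.inr ⟨i, rfl⟩
  · rintro (⟨l, rfl⟩ | ⟨i, rfl⟩)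
    · exact Or.inl ⟨l, rfl⟩
    · exact Or.inr ⟨i, rfl⟩

theorem card_leaves (g : List Bse) (T : ℕ) (sz : ℕ → ℕ) :
    Fintype.card (Σ t : Fin T, Lf (sz t) g) = Nf g * ∑ t ∈ Finset.range T, sz t := by
  rw [Fintype.card_sigma]
  simp only [fin_lf_card]
  rw [← Finset.mul_sum, Finset.sum_range]

theorem card_sset (g : List Bse) (T : ℕ) (sz : ℕ → ℕ) (r : ℕ) :
    (sset g T sz r).card = Nf g * (∑ t ∈ Finset.range T, sz t) + r := by
  classical
  rw [sset, Finset.card_union_of_disjoint, Finset.card_image_of_injective _ (lv_inj g T sz r),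
    Finset.card_image_of_injective _ Sum.inr_injective, Finset.card_univ, card_leaves,
    Finset.card_univ, Fintype.card_fin]
  rw [Finset.disjoint_left]
  intro x hx hx'
  simp only [Finset.mem_image, Finset.mem_univ, true_and] at hx hx'
  obtain ⟨l, rfl⟩ := hx
  obtain ⟨i, hi⟩ := hx'
  simp [lv] at hi

/-- drawing of the final graph on the points of `P` -/
theorem draw_final {g : List Bse} (hg : StkFrg g) {T : ℕ} {sz : ℕ → ℕ} {r : ℕ} (P : Finset Pt)
    (hcard : P.card = Nf g * (∑ t ∈ Finset.range T, sz t) + r)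
    (pos : (t : ℕ) → Wt (Option (Fin (sz t))) g → Pt)
    (hc : ∀ t < T, ∃ ls, Cmp g (sz t) P (pos t) ls)
    (hd : ∀ t < T, ∀ t' < T, t ≠ t' →
      Disjoint (edg (adjW (sz t) g) (pos t)) (edg (adjW (sz t') g) (pos t'))) :
    ∃ f : FV g T sz r → Pt, Drw (fg g T sz r).Adj f ∧ ∀ s ∈ sset g T sz r, f s ∈ P := by
  classical
  -- the used points
  let lp : (Σ t : Fin T, Lf (sz t) g) → Pt := fun x => pos x.1 (Sum.inr (lf (sz x.1) g x.2))
  have hlpE : ∀ x : (Σ t : Fin T, Lf (sz t) g), lp x ∈ edg (adjW (sz x.1) g) (pos x.1) :=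
    fun x => vert_mem_edg hg _ _
  have hlp : Function.Injective lp := by
    rintro ⟨t, l⟩ ⟨t', l'⟩ h
    have ht : t = t' := by
      by_contra hne
      have h1 := hd t t.2 t' t'.2 (fun h => hne (Fin.ext h))
      rw [Set.disjoint_left] at h1
      apply h1 (hlpE ⟨t, l⟩)
      rw [h]
      exact hlpE ⟨t', l'⟩
    subst ht
    obtain ⟨ls, hC⟩ := hc t t.2
    have h2 := hC.drw.inj h
    rw [Sum.inr.injEq] at h2
    have h3 : l = l' := leaf_inj _ _ h2
    rw [h3]
  let U : Finset Pt := Finset.univ.image lp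
  have hUcard : U.card = Nf g * ∑ t ∈ Finset.range T, sz t := by
    rw [Finset.card_image_of_injective _ hlp, Finset.card_univ, card_leaves]
  have hUP : U ⊆ P := by
    intro p hp
    simp only [U, Finset.mem_image, Finset.mem_univ, true_and] at hp
    obtain ⟨⟨t, l⟩, rfl⟩ := hp
    obtain ⟨ls, hC⟩ := hc t t.2
    exact hC.leafP l
  have hrest : (P \ U).card = r := by
    rw [Finset.card_sdiff_of_subset hUP, hcard, hUcard]; omega
  have hE : ∀ t < T, ∀ p ∈ P, p ∈ edg (adjW (sz t) g) (pos t) → p ∈ U := by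
    intro t ht p hp hpe
    obtain ⟨ls, hC⟩ := hc t ht
    obtain ⟨u, v, huv, hseg⟩ := hpe
    obtain ⟨l, rfl⟩ := hC.avoid u v huv p hp hseg
    simp only [U, Finset.mem_image, Finset.mem_univ, true_and]
    exact ⟨⟨⟨t, ht⟩, l⟩, rfl⟩
  let φ : Fin r ≃ (P \ U : Finset Pt) := (Finset.equivFinOfCardEq hrest).symm
  let f : FV g T sz r → Pt := Sum.elim (fun x => pos x.1 x.2) (fun i => (φ i : Pt))
  have hφ : ∀ i, (φ i : Pt) ∈ P ∧ (φ i : Pt) ∉ U := fun i => Finset.mem_sdiff.1 (φ i).2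
  have fE : ∀ (t : Fin T) (w : Wt (Option (Fin (sz t))) g),
      f (Sum.inl ⟨t, w⟩) ∈ edg (adjW (sz t) g) (pos t) := fun t w => vert_mem_edg hg _ _
  -- segments of edges
  have hseg : ∀ (t : Fin T) (u v : Wt (Option (Fin (sz t))) g),
      (adjW (sz t) g u v ∨ adjW (sz t) g v u) →
      segment ℝ (f (Sum.inl ⟨t, u⟩)) (f (Sum.inl ⟨t, v⟩)) ⊆ edg (adjW (sz t) g) (pos t) := by
    intro t u v h p hp
    rcases h with h | h
    · exact ⟨u, v, h, hp⟩
    · refine ⟨v, u, h, ?_⟩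
      rw [segment_symm]; exact hp
  have hcross : ∀ (t t' : Fin T), t ≠ t' → ∀ p, p ∈ edg (adjW (sz t) g) (pos t) →
      p ∉ edg (adjW (sz t') g) (pos t') := by
    intro t t' hne p h1 h2
    have h3 := hd t t.2 t' t'.2 (fun h => hne (Fin.ext h))
    rw [Set.disjoint_left] at h3
    exact h3 h1 h2
  refine ⟨f, ⟨?_, ?_, ?_⟩, ?_⟩
  · rintro (⟨t, u⟩ | i) (⟨t', v⟩ | j) h
    · by_cases ht : t = t'
      · subst ht
        obtain ⟨ls, hC⟩ := hc t t.2
        have h2 : u = v := hC.drw.inj h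
        rw [h2]
      · exfalso
        apply hcross t t' ht _ (fE t u)
        rw [h]; exact fE t' v
    · exfalso
      have h1 : (φ j : Pt) ∈ U := by
        apply hE t t.2 _ (hφ j).1
        have h2 : f (Sum.inl ⟨t, u⟩) = (φ j : Pt) := h
        rw [← h2]; exact fE t u
      exact (hφ j).2 h1
    · exfalso
      have h1 : (φ i : Pt) ∈ U := by
        apply hE t' t'.2 _ (hφ i).1
        have h2 : (φ i : Pt) = f (Sum.inl ⟨t', v⟩) := h
        rw [h2]; exact fE t' v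
      exact (hφ i).2 h1
    · have h2 : (φ i : Pt) = (φ j : Pt) := h
      rw [φ.injective (Subtype.ext h2)]
  · intro x y z hxy hzx hzy hmem
    obtain ⟨t, u, v, rfl, rfl, huv⟩ := fg_adj hxy
    have hp := hseg t u v huv hmem
    rcases z with ⟨t', w⟩ | i
    · by_cases ht : t = t'
      · subst ht
        obtain ⟨ls, hC⟩ := hc t t.2
        have hwu : w ≠ u := fun h => hzx (by rw [h])
        have hwv : w ≠ v := fun h => hzy (by rw [h])
        rcases huv with h | h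
        · exact hC.drw.d1 u v w h hwu hwv hmem
        · apply hC.drw.d1 v u w h hwv hwu
          rw [segment_symm]; exact hmem
      · exact hcross t t' ht _ hp (fE t' w)
    · exact (hφ i).2 (hE t t.2 _ (hφ i).1 hp)
  · intro x y x' y' hxy hxy' h1 h2 h3 h4
    obtain ⟨t, u, v, rfl, rfl, huv⟩ := fg_adj hxy
    obtain ⟨t', u', v', rfl, rfl, huv'⟩ := fg_adj hxy'
    by_cases ht : t = t'
    · subst ht
      obtain ⟨ls, hC⟩ := hc t t.2
      have e1 : u ≠ u' := fun h => h1 (by rw [h])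
      have e2 : u ≠ v' := fun h => h2 (by rw [h])
      have e3 : v ≠ u' := fun h => h3 (by rw [h])
      have e4 : v ≠ v' := fun h => h4 (by rw [h])
      show Disjoint (segment ℝ (pos t u) (pos t v)) (segment ℝ (pos t u') (pos t v'))
      rcases huv with h | h <;> rcases huv' with h' | h'
      · exact hC.drw.d2 u v u' v' h h' e1 e2 e3 e4
      · rw [segment_symm ℝ (pos t u') (pos t v')]
        exact hC.drw.d2 u v v' u' h h' e2 e1 e4 e3
      · rw [segment_symm ℝ (pos t u) (pos t v)]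
        exact hC.drw.d2 v u u' v' h h' e3 e4 e1 e2
      · rw [segment_symm ℝ (pos t u) (pos t v), segment_symm ℝ (pos t u') (pos t v')]
        exact hC.drw.d2 v u v' u' h h' e4 e3 e2 e1
    · rw [Set.disjoint_left]
      intro p hp hp'
      exact hcross t t' ht p (hseg t u v huv hp) (hseg t' u' v' huv' hp')
  · intro x hx
    rw [mem_sset] at hx
    rcases hx with ⟨⟨t, l⟩, rfl⟩ | ⟨i, rfl⟩
    · obtain ⟨ls, hC⟩ := hc t t.2
      exact hC.leafP l
    · exact (hφ i).1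

/-- upper bound for the final graph -/
theorem ub_graph (h k : ℕ) (T : ℕ) (sz : ℕ → ℕ) (r : ℕ)
    (f : FV (FF k h) T sz r → Pt) (hD : Drw (fg (FF k h) T sz r).Adj f)
    (S' : Finset (FV (FF k h) T sz r)) (hS : S' ⊆ sset (FF k h) T sz r)
    (h0 : ∀ v ∈ S', (f v).2 = 0) :
    S'.card ≤ (3 ^ h * 26 ^ k + 27 ^ k) * (∑ t ∈ Finset.range T, sz t) + r := by
  classical
  rcases S'.eq_empty_or_nonempty with rfl | ⟨x0, _⟩
  · simp
  let e : (t : ℕ) → Wt (Option (Fin (sz t))) (FF k h) → FV (FF k h) T sz r :=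
    fun t w => if ht : t < T then Sum.inl ⟨⟨t, ht⟩, w⟩ else x0
  have he : ∀ t (ht : t < T) w, e t w = Sum.inl ⟨⟨t, ht⟩, w⟩ := fun t ht w => dif_pos ht
  refine ub_final h k _ (fg (FF k h) T sz r).Adj (fun x y hxy => hxy.symm) f hD T sz e ?_ S' h0 r
    (Finset.univ.image (Sum.inr : Fin r → FV (FF k h) T sz r)) ?_ ?_
  · intro t ht
    constructor
    · intro u v huv
      rw [he t ht, he t ht] at huv
      simpa using huv
    · intro u v huv
      rw [he t ht, he t ht, fg, SimpleGraph.fromRel_adj]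
      refine ⟨?_, Or.inl ⟨⟨t, ht⟩, u, v, rfl, rfl, huv⟩⟩
      intro hh
      have : u = v := by simpa using hh
      exact adj_irr _ _ (sf_ff k h) _ (this ▸ huv)
  · calc _ ≤ (Finset.univ : Finset (Fin r)).card := Finset.card_image_le
      _ = r := by simp
  · intro v hv
    have hv' := hS hv
    rw [mem_sset] at hv'
    rcases hv' with ⟨⟨t, l⟩, rfl⟩ | ⟨i, rfl⟩
    · right
      refine ⟨t, t.2, l, ?_⟩
      rw [he t t.2]; rfl
    · left
      simp

end Pool.Agent.Helper745.FSub
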