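import Pool.Agent.Helper745.FS.Fin2

set_option autoImplicit false

namespace Pool.Agent.Helper745.FSub

theorem collinear_of_ori {a b c : Pt} (hab : a ≠ b) (h : ori a b c = 0) :
    Collinear ℝ ({a, b, c} : Set Pt) := by
  rw [collinear_iff_of_mem (p₀ := a) (by simp)]
  refine ⟨b - a, ?_⟩
  have hne : (b - a).1 ≠ 0 ∨ (b - a).2 ≠ 0 := by
    by_contra hcon
    push Not at hcon
    apply hab
    ext
    · have := hcon.1; simp only [Prod.fst_sub] at this; linarith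
    · have := hcon.2; simp only [Prod.snd_sub] at this; linarith
  have hc : ∃ t : ℝ, c = t • (b - a) +ᵥ a := by
    unfold ori at h
    simp only [Prod.fst_sub, Prod.snd_sub] at hne
    rcases hne with hne | hne
    · refine ⟨(c.1 - a.1) / (b.1 - a.1), ?_⟩
      ext
      · simp only [vadd_eq_add, Prod.fst_add, Prod.smul_fst, Prod.fst_sub, smul_eq_mul]
        field_simp; ring
      · simp only [vadd_eq_add, Prod.snd_add, Prod.smul_snd, Prod.snd_sub, smul_eq_mul]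
        field_simp; linarith
    · refine ⟨(c.2 - a.2) / (b.2 - a.2), ?_⟩
      ext
      · simp only [vadd_eq_add, Prod.fst_add, Prod.smul_fst, Prod.fst_sub, smul_eq_mul]
        field_simp; linarith
      · simp only [vadd_eq_add, Prod.snd_add, Prod.smul_snd, Prod.snd_sub, smul_eq_mul]
        field_simp; ring
  intro p hp
  simp only [Set.mem_insert_iff, Set.mem_singleton_iff] at hp
  rcases hp with rfl | rfl | rfl
  · exact ⟨0, by simp⟩
  · exact ⟨1, by simp⟩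
  · exact hc

theorem main_disproof : ¬ (∃ γ : ℝ, 0 < γ ∧ ∀ (V : Type) [Fintype V] (G : SimpleGraph V) (S : Finset V),
      (∀ P : Finset (ℝ × ℝ), P.card = S.card →
        (∀ a ∈ P, ∀ b ∈ P, ∀ c ∈ P, a ≠ b → a ≠ c → b ≠ c →
            ¬ Collinear ℝ ({a, b, c} : Set (ℝ × ℝ))) →
        ∃ f : V → ℝ × ℝ, Function.Injective f ∧
          (∀ u v w : V, G.Adj u v → w ≠ u → w ≠ v → f w ∉ segment ℝ (f u) (f v)) ∧
          (∀ u v x y : V, G.Adj u v → G.Adj x y → u ≠ x → u ≠ y → v ≠ x → v ≠ y →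
            Disjoint (segment ℝ (f u) (f v)) (segment ℝ (f x) (f y))) ∧
          (∀ s ∈ S, f s ∈ P)) →
      ∃ T : Finset V, T ⊆ S ∧
        (∀ P : Finset (ℝ × ℝ), P.card = T.card →
          ∃ f : V → ℝ × ℝ, Function.Injective f ∧
            (∀ u v w : V, G.Adj u v → w ≠ u → w ≠ v → f w ∉ segment ℝ (f u) (f v)) ∧
            (∀ u v x y : V, G.Adj u v → G.Adj x y → u ≠ x → u ≠ y → v ≠ x → v ≠ y →
              Disjoint (segment ℝ (f u) (f v)) (segment ℝ (f x) (f y))) ∧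
            (∀ t ∈ T, f t ∈ P)) ∧
        γ * (S.card : ℝ) ≤ (T.card : ℝ)) := by
  classical
  rintro ⟨γ, hγ, H⟩
  obtain ⟨k, hk⟩ : ∃ k : ℕ, (26 / 27 : ℝ) ^ k < γ / 4 :=
    exists_pow_lt_of_lt_one (by positivity) (by norm_num)
  obtain ⟨h, hh⟩ : ∃ h : ℕ, (1 / 3 : ℝ) ^ h < γ / 4 :=
    exists_pow_lt_of_lt_one (by positivity) (by norm_num)
  obtain ⟨T, n, sz, hn, hsum, hleft, hdraw⟩ := pack (FF k h) (sf_ff k h) (γ / 4) (by positivity)
  obtain ⟨r, hr⟩ : ∃ r, Nf (FF k h) * (∑ t ∈ Finset.range T, sz t) + r = n :=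
    ⟨n - Nf (FF k h) * (∑ t ∈ Finset.range T, sz t), by omega⟩
  have hcardS : (sset (FF k h) T sz r).card = n := by rw [card_sset, hr]
  obtain ⟨T', hT'S, hfree, hcard⟩ := H (FV (FF k h) T sz r) (fg (FF k h) T sz r)
    (sset (FF k h) T sz r) (by
      intro P hP hgp
      rw [hcardS] at hP
      obtain ⟨pos, hc, hd⟩ := hdraw P (fun a ha b hb c hc' hab hac hbc h0 =>
        hgp a ha b hb c hc' hab hac hbc (collinear_of_ori hab h0)) hP
      obtain ⟨f, hf, hfS⟩ := draw_final (r := r) (sf_ff k h) P (by rw [hP, hr]) pos hc hd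
      exact ⟨f, hf.inj, hf.d1, hf.d2, hfS⟩)
  -- all points on a line
  obtain ⟨f, h1, h2, h3, h4⟩ := hfree
    ((Finset.range T'.card).image (fun i : ℕ => (((i : ℝ), (0 : ℝ)) : ℝ × ℝ))) (by
      rw [Finset.card_image_of_injective, Finset.card_range]
      intro i j hij
      simpa using hij)
  have hub := ub_graph h k T sz r f ⟨h1, h2, h3⟩ T' hT'S (by
    intro v hv
    have := h4 v hv
    simp only [Finset.mem_image, Finset.mem_range] at this
    obtain ⟨i, _, hi⟩ := this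
    rw [← hi])
  rw [hcardS] at hcard
  rw [nf_ff] at hr hleft
  set A : ℕ := ∑ t ∈ Finset.range T, sz t with hA
  have hA' : (∑ t ∈ Finset.range T, (sz t : ℝ)) = (A : ℝ) := by rw [hA]; push_cast; rfl
  rw [hA'] at hleft
  have hubR : (T'.card : ℝ) ≤ (3 ^ h * 26 ^ k + 27 ^ k) * (A : ℝ) + r := by exact_mod_cast hub
  have hrR : (3 ^ h * 27 ^ k : ℝ) * A + r = n := by exact_mod_cast hr
  push_cast at hleft
  have hrle : (r : ℝ) ≤ γ / 4 * n := by linarith
  have hnpos : (0 : ℝ) < n := by exact_mod_cast hn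
  have hNA : (3 ^ h * 27 ^ k : ℝ) * A ≤ n := by
    have : (0 : ℝ) ≤ r := Nat.cast_nonneg r
    linarith
  have e1 : (3 ^ h * 26 ^ k : ℝ) * A = (26 / 27) ^ k * ((3 ^ h * 27 ^ k) * A) := by
    rw [div_pow]; field_simp
  have e2 : (27 ^ k : ℝ) * A = (1 / 3) ^ h * ((3 ^ h * 27 ^ k) * A) := by
    rw [div_pow, one_pow]; field_simp
  have hNA0 : (0 : ℝ) ≤ (3 ^ h * 27 ^ k : ℝ) * A := by positivity
  have b1 : (3 ^ h * 26 ^ k : ℝ) * A ≤ γ / 4 * n := by
    rw [e1]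
    calc (26 / 27 : ℝ) ^ k * ((3 ^ h * 27 ^ k) * A) ≤ γ / 4 * ((3 ^ h * 27 ^ k) * A) :=
          mul_le_mul_of_nonneg_right hk.le hNA0
      _ ≤ γ / 4 * n := mul_le_mul_of_nonneg_left hNA (by positivity)
  have b2 : (27 ^ k : ℝ) * A ≤ γ / 4 * n := by
    rw [e2]
    calc (1 / 3 : ℝ) ^ h * ((3 ^ h * 27 ^ k) * A) ≤ γ / 4 * ((3 ^ h * 27 ^ k) * A) :=
          mul_le_mul_of_nonneg_right hh.le hNA0
      _ ≤ γ / 4 * n := mul_le_mul_of_nonneg_left hNA (by positivity)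
  have hfin : (T'.card : ℝ) ≤ 3 * (γ / 4 * n) := by
    calc (T'.card : ℝ) ≤ (3 ^ h * 26 ^ k + 27 ^ k) * (A : ℝ) + r := hubR
      _ = (3 ^ h * 26 ^ k : ℝ) * A + (27 ^ k : ℝ) * A + r := by ring
      _ ≤ 3 * (γ / 4 * n) := by linarith
  have : 0 < γ * n := by positivity
  nlinarith

end Pool.Agent.Helper745.FSub
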